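import Pool.Agent.H38.Rig.JJP

set_option autoImplicit false
set_option linter.unusedSectionVars false
set_option linter.unusedVariables false

namespace Pool.Agent.H38.Rig

open Finset

variable {V : Type} [Fintype V] [DecidableEq V]

/-! ### Assembly, part 1: good pairs give independence (helper27) -/

/-- under `Cut7` every nonempty proper set of vertices has at least five outgoing edges, and at
least seven if it has at least two elements and misses at least two. -/
lemma five_le_bd {G : SimpleGraph V} (hr : Reg5 G) (hcut : Cut7 G) {C : Finset V}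
    (hC : C.Nonempty) (hn : C.card + 2 ≤ Fintype.card V) : 5 ≤ bd G C := by
  have h1 : 1 ≤ C.card := Finset.card_pos.2 hC
  by_cases h2 : 2 ≤ C.card
  · exact (by norm_num : 5 ≤ 7).trans (hcut C h2 hn)
  · have h3 : C.card = 1 := by omega
    obtain ⟨v, rfl⟩ := Finset.card_eq_one.1 h3
    rw [bd_singleton hr]

/-- the merged graph satisfies the closedness hypothesis of `JJP` -/
theorem merge_closed {G : SimpleGraph V} (hr : Reg5 G) (hcut : Cut7 G)
    (hn : 12 ≤ Fintype.card V) {x y : V} (hxy : x ≠ y) (hcn : (cn G x y).Nonempty) :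
    ∀ C : Finset V, C.Nonempty → x ∉ C →
      (∀ u ∈ C, ∀ z, (merge G x y).Adj u z → z ∈ C ∨ z = x) →
      ∃ u ∈ C, (nb (merge G x y) u).card ≤ 4 := by
  intro C hC hxC hcl
  by_cases hyC : y ∈ C
  · exact ⟨y, hyC, by rw [nb_merge_right]; simp⟩
  by_cases hex : ∃ u ∈ C, u ∈ cn G x y
  · obtain ⟨u, huC, hu⟩ := hex
    have h1 := card_nb_merge_cn hxy hu
    rw [hr u] at h1
    exact ⟨u, huC, by omega⟩
  exfalso
  push Not at hex
  obtain ⟨c, hc⟩ := hcn
  have hc' := hc
  simp only [cn, mem_inter, mem_nb] at hc'
  set P : Finset V := {x, y} with hP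
  set D : Finset V := (C ∪ P)ᶜ with hD
  have hdisjCP : Disjoint C P := by
    rw [Finset.disjoint_left]
    intro z hz hz'
    simp only [hP, mem_insert, mem_singleton] at hz'
    rcases hz' with rfl | rfl
    · exact hxC hz
    · exact hyC hz
  -- no edges between `C` and `D`
  have hCD : eb G C D = 0 := by
    rw [eb_eq_zero]
    intro a ha b hb hab
    simp only [hD, hP, mem_compl, mem_union, mem_insert, mem_singleton, not_or] at hb
    obtain ⟨hbC, hbx, hby⟩ := hb
    have hax : a ≠ x := fun e => hxC (e ▸ ha)
    have hay : a ≠ y := fun e => hyC (e ▸ ha)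
    rcases hcl a ha b ⟨G.ne_of_adj hab, hay, hby, Or.inl hab⟩ with h | h
    · exact hbC h
    · exact hbx h
  have hCc : Cᶜ = D ∪ P := by
    ext z
    simp only [hD, mem_compl, mem_union, not_or]
    constructor
    · intro hz
      by_cases hzP : z ∈ P
      · exact Or.inr hzP
      · exact Or.inl ⟨hz, hzP⟩
    · rintro (h | h)
      · exact h.1
      · exact fun hz => Finset.disjoint_left.1 hdisjCP hz h
  have hdisjDP : Disjoint D P := by
    rw [Finset.disjoint_left]
    intro z hz hz'
    simp only [hD, mem_compl, mem_union, not_or] at hz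
    exact hz.2 hz'
  have hDc : Dᶜ = C ∪ P := by rw [hD, compl_compl]
  have hPc : Pᶜ = C ∪ D := by
    ext z
    simp only [hD, mem_compl, mem_union, not_or]
    constructor
    · intro hz
      by_cases hzC : z ∈ C
      · exact Or.inl hzC
      · exact Or.inr ⟨hzC, hz⟩
    · rintro (h | h)
      · exact fun hz => Finset.disjoint_left.1 hdisjCP h hz
      · exact h.2
  have hdisjCD : Disjoint C D := by
    rw [Finset.disjoint_left]
    intro z hz hz'
    simp only [hD, mem_compl, mem_union, not_or] at hz'
    exact hz'.1 hz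
  have bC : bd G C = eb G C P := by
    unfold bd
    rw [hCc, eb_union_right G hdisjDP, hCD, zero_add]
  have bD : bd G D = eb G D P := by
    unfold bd
    rw [hDc, eb_union_right G hdisjCP, eb_symm G D C, hCD, zero_add]
  have bP : bd G P = eb G C P + eb G D P := by
    unfold bd
    rw [hPc, eb_union_right G hdisjCD, eb_symm G P C, eb_symm G P D]
  have hPcard : P.card = 2 := Finset.card_pair hxy
  have bP' : bd G P ≤ 10 := by
    have h1 := bd_reg hr P
    have h2 := fz_pair G hxy
    have h3 : fz G P ≤ 0 := by rw [hP, h2]; split_ifs <;> norm_num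
    rw [hPcard] at h1
    push_cast at h1
    omega
  have hDne : D.Nonempty := by
    refine ⟨c, ?_⟩
    simp only [hD, hP, mem_compl, mem_union, mem_insert, mem_singleton, not_or]
    exact ⟨fun h => hex c h hc, (G.ne_of_adj hc'.1).symm, (G.ne_of_adj hc'.2).symm⟩
  have hcard : C.card + D.card + 2 = Fintype.card V := by
    have h1 := Finset.card_compl P
    rw [hPc, Finset.card_union_of_disjoint hdisjCD, hPcard] at h1
    omega
  have hCpos : 1 ≤ C.card := Finset.card_pos.2 hC
  have hDpos : 1 ≤ D.card := Finset.card_pos.2 hDne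
  have h5C := five_le_bd hr hcut hC (by omega)
  have h5D := five_le_bd hr hcut hDne (by omega)
  by_cases hC2 : 2 ≤ C.card
  · have := hcut C hC2 (by omega)
    omega
  · have := hcut D (by omega) (by omega)
    omega

/-- a graph with a good pair is independent -/
theorem ind_of_hasGood {G : SimpleGraph V} (hs : Sparse G) (hr : Reg5 G) (hcut : Cut7 G)
    (hn : 12 ≤ Fintype.card V) (h : HasGood G) : Ind G := by
  rcases h with ⟨x, y, hg⟩ | ⟨x, y, hg⟩
  · have hxy := G.ne_of_adj hg.1
    refine ind_merge_A G x y hg.1 hg.2.2.1 (JJP _ x (sparse_merge_of_goodA hs hg) ?_ ?_)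
    · intro u hu
      rw [← hr u]
      exact card_nb_merge_le hxy hu
    · exact merge_closed hr hcut hn hxy (Finset.card_pos.1 hg.2.1)
  · have hxy := hg.1
    refine ind_merge_N G x y hg.1 hg.2.1 hg.2.2.2.1 (JJP _ x (sparse_merge_of_goodN hs hg) ?_ ?_)
    · intro u hu
      rw [← hr u]
      exact card_nb_merge_le hxy hu
    · exact merge_closed hr hcut hn hxy (Finset.card_pos.1 hg.2.2.1)

end Pool.Agent.H38.Rig
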