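import Pool.Agent.H38.Rig.Count

set_option autoImplicit false
set_option linter.unusedSectionVars false
set_option linter.unusedVariables false

namespace Pool.Agent.H38.Rig

open Finset

variable {V : Type} [Fintype V] [DecidableEq V]

/-- An adjacent pair with one or two common neighbours whose identification keeps sparsity. -/
def GoodA (G : SimpleGraph V) (x y : V) : Prop :=
  G.Adj x y ∧ 1 ≤ (cn G x y).card ∧ (cn G x y).card ≤ 2 ∧
    ∀ Y : Finset V, x ∈ Y → y ∈ Y → 6 ≤ Y.card → 2 ≤ fz G Y + ((cn G x y ∩ Y).card : ℤ)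

/-- A nonadjacent pair with 1, 2 or 3 common neighbours whose identification keeps sparsity. -/
def GoodN (G : SimpleGraph V) (x y : V) : Prop :=
  x ≠ y ∧ ¬ G.Adj x y ∧ 1 ≤ (cn G x y).card ∧ (cn G x y).card ≤ 3 ∧
    ∀ Y : Finset V, x ∈ Y → y ∈ Y → 6 ≤ Y.card → 3 ≤ fz G Y + ((cn G x y ∩ Y).card : ℤ)

/-- there is a good pair -/
def HasGood (G : SimpleGraph V) : Prop := (∃ x y, GoodA G x y) ∨ (∃ x y, GoodN G x y)

/-- no four mutually adjacent vertices -/
def K4Free (G : SimpleGraph V) : Prop :=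
  ∀ a b c d : V, G.Adj a b → G.Adj a c → G.Adj a d → G.Adj b c → G.Adj b d → G.Adj c d → False

/-- no adjacent pair has exactly two common neighbours -/
def NoAdjTwo (G : SimpleGraph V) : Prop := ∀ x y, G.Adj x y → (cn G x y).card ≠ 2

/-- `K_{6,6}` minus a perfect matching -/
def K66PM : SimpleGraph (Fin 2 × Fin 6) where
  Adj a b := a.1 ≠ b.1 ∧ a.2 ≠ b.2
  symm := ⟨fun _ _ h => ⟨h.1.symm, h.2.symm⟩⟩
  loopless := ⟨fun a h => h.1 rfl⟩

/-! ### edges inside `merge G x y` -/

open Classical in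
lemma nb_merge_of_ne {G : SimpleGraph V} {x y : V} (hxy : x ≠ y) {a : V} (hax : a ≠ x)
    (hay : a ≠ y) : nb (merge G x y) a =
      if G.Adj a y then insert x ((nb G a).erase y) else nb G a := by
  classical
  ext u
  simp only [mem_nb, merge]
  split_ifs with h
  · simp only [mem_insert, mem_erase, mem_nb]
    constructor
    · rintro ⟨h1, h2, h3, h4 | h4 | h4⟩
      · exact Or.inr ⟨h3, h4⟩
      · exact absurd h4.1 hax
      · exact Or.inl h4.1
    · rintro (rfl | ⟨h1, h2⟩)
      · exact ⟨hax, hay, hxy, Or.inr (Or.inr ⟨rfl, h.symm⟩)⟩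
      · exact ⟨G.ne_of_adj h2, hay, h1, Or.inl h2⟩
  · simp only [mem_nb]
    constructor
    · rintro ⟨h1, h2, h3, h4 | h4 | h4⟩
      · exact h4
      · exact absurd h4.1 hax
      · exact absurd h4.2.symm h
    · intro h2
      exact ⟨G.ne_of_adj h2, hay, fun e => h (e ▸ h2), Or.inl h2⟩

lemma nb_merge_self {G : SimpleGraph V} {x y : V} (hxy : x ≠ y) :
    nb (merge G x y) x = (nb G x ∪ nb G y) \ {x, y} := by
  ext u
  simp only [mem_nb, merge, mem_sdiff, mem_union, mem_insert, mem_singleton]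
  constructor
  · rintro ⟨h1, h2, h3, h4 | h4 | h4⟩
    · exact ⟨Or.inl h4, by tauto⟩
    · exact ⟨Or.inr h4.2, by tauto⟩
    · exact absurd h4.1.symm h1
  · rintro ⟨h1 | h1, h2⟩
    · exact ⟨fun e => h2 (Or.inl e.symm), hxy, fun e => h2 (Or.inr e), Or.inl h1⟩
    · exact ⟨fun e => h2 (Or.inl e.symm), hxy, fun e => h2 (Or.inr e), Or.inr (Or.inl ⟨trivial, h1⟩)⟩

lemma nb_merge_right {G : SimpleGraph V} {x y : V} :
    nb (merge G x y) y = ∅ := by
  ext u
  simp [mem_nb, merge]

/-- degrees do not increase outside `x` -/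
lemma card_nb_merge_le {G : SimpleGraph V} {x y : V} (hxy : x ≠ y) {a : V} (hax : a ≠ x) :
    (nb (merge G x y) a).card ≤ (nb G a).card := by
  classical
  by_cases hay : a = y
  · subst hay
    rw [nb_merge_right]; simp
  · rw [nb_merge_of_ne hxy hax hay]
    split_ifs with h
    · refine (Finset.card_insert_le _ _).trans ?_
      have : y ∈ nb G a := by simpa using h
      rw [Finset.card_erase_of_mem this]
      have := Finset.card_pos.2 ⟨y, this⟩
      omega
    · exact le_rfl

/-- a common neighbour loses a degree -/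
lemma card_nb_merge_cn {G : SimpleGraph V} {x y : V} (hxy : x ≠ y) {a : V} (ha : a ∈ cn G x y) :
    (nb (merge G x y) a).card + 1 = (nb G a).card := by
  classical
  simp only [cn, mem_inter, mem_nb] at ha
  rw [nb_merge_of_ne hxy (G.ne_of_adj ha.1).symm (G.ne_of_adj ha.2).symm, if_pos ha.2.symm]
  have hx : x ∈ (nb G a).erase y := by simp [hxy, ha.1.symm]
  have hy : y ∈ nb G a := by simp [ha.2.symm]
  rw [Finset.insert_eq_of_mem hx, Finset.card_erase_of_mem hy]
  have := Finset.card_pos.2 ⟨y, hy⟩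
  omega

/-- edges inside a set avoiding `x` and `y` -/
lemma ie_merge_of_notMem {G : SimpleGraph V} {x y : V} (hxy : x ≠ y) {X : Finset V} (hx : x ∉ X)
    (hy : y ∉ X) : ie (merge G x y) X = ie G X := by
  classical
  have h1 := two_ie' (merge G x y) X
  have h2 := two_ie' G X
  have : ∑ v ∈ X, (nb (merge G x y) v ∩ X).card = ∑ v ∈ X, (nb G v ∩ X).card := by
    apply Finset.sum_congr rfl
    intro v hv
    rw [nb_merge_of_ne hxy (fun e => hx (e ▸ hv)) (fun e => hy (e ▸ hv))]
    congr 1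
    split_ifs with h
    · ext u
      simp only [mem_inter, mem_insert, mem_erase]
      constructor
      · rintro ⟨rfl | h1, h2⟩
        · exact absurd h2 hx
        · exact ⟨h1.2, h2⟩
      · rintro ⟨h1, h2⟩
        exact ⟨Or.inr ⟨fun e => hy (e ▸ h2), h1⟩, h2⟩
    · rfl
  omega

lemma fz_merge_of_notMem {G : SimpleGraph V} {x y : V} (hxy : x ≠ y) {X : Finset V} (hx : x ∉ X)
    (hy : y ∉ X) : fz (merge G x y) X = fz G X := by
  rw [fz_def, fz_def, ie_merge_of_notMem hxy hx hy]

open Classical in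
/-- the value of `f` on a set containing the merged vertex -/
lemma fz_merge_of_mem {G : SimpleGraph V} {x y : V} (hxy : x ≠ y) {X : Finset V} (hx : x ∈ X)
    (hy : y ∉ X) : fz (merge G x y) X = fz G (insert y X) - 3 + (if G.Adj x y then 1 else 0)
      + ((cn G x y ∩ X).card : ℤ) := by
  set Z := X.erase x with hZ
  have hxZ : x ∉ Z := Finset.notMem_erase x X
  have hyZ : y ∉ Z := fun h => hy (Finset.mem_of_mem_erase h)
  have hX : X = insert x Z := (Finset.insert_erase hx).symm
  have h1 : fz (merge G x y) X = fz G Z + 3 - ((nb (merge G x y) x ∩ Z).card : ℤ) := by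
    rw [hX, fz_insert _ hxZ, fz_merge_of_notMem hxy hxZ hyZ]
  have h2 : fz G (insert y X) = fz G Z + 3 - ((nb G x ∩ Z).card : ℤ) + 3
      - ((nb G y ∩ X).card : ℤ) := by
    rw [fz_insert _ hy]
    conv_lhs => rw [hX]
    rw [fz_insert _ hxZ, ← hX]
  have h3 : ((nb G y ∩ X).card : ℤ) = ((nb G y ∩ Z).card : ℤ) + (if G.Adj x y then 1 else 0) := by
    conv_lhs => rw [hX]
    split_ifs with h
    · rw [Finset.inter_insert_of_mem (by simpa using h.symm), Finset.card_insert_of_notMem]
      · push_cast; ring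
      · simp [hxZ]
    · rw [Finset.inter_insert_of_notMem (by simpa using fun e => h (G.adj_symm e))]
      simp
  have h4 : nb (merge G x y) x ∩ Z = (nb G x ∩ Z) ∪ (nb G y ∩ Z) := by
    rw [nb_merge_self hxy]
    ext u
    simp only [mem_inter, mem_sdiff, mem_union, mem_insert, mem_singleton]
    constructor
    · rintro ⟨⟨h1, h2⟩, h3⟩; tauto
    · rintro (⟨k1, k2⟩ | ⟨k1, k2⟩)
      · refine ⟨⟨Or.inl k1, ?_⟩, k2⟩
        rintro (e | e)
        · exact hxZ (e ▸ k2)
        · exact hyZ (e ▸ k2)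
      · refine ⟨⟨Or.inr k1, ?_⟩, k2⟩
        rintro (e | e)
        · exact hxZ (e ▸ k2)
        · exact hyZ (e ▸ k2)
  have h5 : cn G x y ∩ X = (nb G x ∩ Z) ∩ (nb G y ∩ Z) := by
    ext u
    simp only [cn, mem_inter, hZ, mem_erase, mem_nb]
    constructor
    · rintro ⟨⟨h1, h2⟩, h3⟩
      exact ⟨⟨h1, (G.ne_of_adj h1).symm, h3⟩, h2, (G.ne_of_adj h1).symm, h3⟩
    · rintro ⟨⟨h1, h2, h3⟩, h4, -⟩
      exact ⟨⟨h1, h4⟩, h3⟩
  have h6 := Finset.card_union_add_card_inter (nb G x ∩ Z) (nb G y ∩ Z)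
  rw [← h4, ← h5] at h6
  have h6' : ((nb (merge G x y) x ∩ Z).card : ℤ) + ((cn G x y ∩ X).card : ℤ) =
      ((nb G x ∩ Z).card : ℤ) + ((nb G y ∩ Z).card : ℤ) := by exact_mod_cast h6
  rw [h1, h2, h3]
  linarith

/-- sets with at most four elements never violate sparsity -/
lemma fz_nonneg_of_card_le_four (G : SimpleGraph V) {X : Finset V} (h3 : 3 ≤ X.card)
    (h4 : X.card ≤ 4) : 0 ≤ fz G X := by
  have h := two_ie_le G X
  rw [fz_def]
  have : X.card = 3 ∨ X.card = 4 := by omega
  rcases this with e | e <;> rw [e] at h ⊢ <;> push_cast <;> omega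

/-- sparsity of the merged graph -/
lemma sparse_merge {G : SimpleGraph V} (hs : Sparse G) {x y : V} (hxy : x ≠ y)
    (h : ∀ X : Finset V, x ∈ X → y ∉ X → 5 ≤ X.card → 0 ≤ fz (merge G x y) X) :
    Sparse (merge G x y) := by
  have key : ∀ X : Finset V, y ∉ X → 3 ≤ X.card → 0 ≤ fz (merge G x y) X := by
    intro X hy hX
    by_cases hx : x ∈ X
    · by_cases h5 : 5 ≤ X.card
      · exact h X hx hy h5
      · exact fz_nonneg_of_card_le_four _ hX (by omega)
    · rw [fz_merge_of_notMem hxy hx hy]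
      exact hs X hX
  intro X hX
  by_cases hy : y ∈ X
  · by_cases h4 : X.card ≤ 4
    · exact fz_nonneg_of_card_le_four _ hX h4
    · have h1 := fz_erase (merge G x y) hy
      rw [nb_merge_right] at h1
      have h2 := key (X.erase y) (Finset.notMem_erase y X)
        (by rw [Finset.card_erase_of_mem hy]; omega)
      simp at h1
      omega
  · exact key X hy hX

lemma sparse_merge_of_goodA {G : SimpleGraph V} (hs : Sparse G) {x y : V} (h : GoodA G x y) :
    Sparse (merge G x y) := by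
  classical
  obtain ⟨hadj, h1, h2, h3⟩ := h
  have hxy := G.ne_of_adj hadj
  refine sparse_merge hs hxy (fun X hx hy h5 => ?_)
  rw [fz_merge_of_mem hxy hx hy, if_pos hadj]
  have h6 := h3 (insert y X) (by simp [hx]) (by simp)
    (by rw [Finset.card_insert_of_notMem hy]; omega)
  have h7 : cn G x y ∩ insert y X = cn G x y ∩ X := by
    rw [Finset.inter_insert_of_notMem]
    simp [cn]
  rw [h7] at h6
  linarith

lemma sparse_merge_of_goodN {G : SimpleGraph V} (hs : Sparse G) {x y : V} (h : GoodN G x y) :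
    Sparse (merge G x y) := by
  classical
  obtain ⟨hxy, hadj, h1, h2, h3⟩ := h
  refine sparse_merge hs hxy (fun X hx hy h5 => ?_)
  rw [fz_merge_of_mem hxy hx hy, if_neg hadj]
  have h6 := h3 (insert y X) (by simp [hx]) (by simp)
    (by rw [Finset.card_insert_of_notMem hy]; omega)
  have h7 : cn G x y ∩ insert y X = cn G x y ∩ X := by
    rw [Finset.inter_insert_of_notMem]
    simp [cn]
  rw [h7] at h6
  linarith

end Pool.Agent.H38.Rig
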