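import Pool.Agent.H38.Rig.Generic
import Pool.Agent.H38.Rig.Good

set_option autoImplicit false
set_option linter.unusedSectionVars false
set_option linter.unusedVariables false

namespace Pool.Agent.H38.Rig

open Finset

variable {V : Type} [Fintype V] [DecidableEq V]

theorem ind_of_forall_not_adj (G : SimpleGraph V) (h : ∀ u v, ¬ G.Adj u v) : Ind G :=
  ⟨fun _ => 0, fun ω _ hs _ u v => hs u v (h u v)⟩

/-- the sum in the equilibrium condition only involves neighbours -/
lemma sum_eq_sum_nb {G : SimpleGraph V} {ω : V → V → ℝ} (hsup : ∀ u v, ¬ G.Adj u v → ω u v = 0)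
    (D : V → V → P3) (v : V) : ∑ u, ω v u • D v u = ∑ u ∈ nb G v, ω v u • D v u := by
  symm
  apply Finset.sum_subset (Finset.subset_univ _)
  intro u _ hu
  rw [mem_nb] at hu
  rw [hsup v u hu, zero_smul]

/-- 0-extension -/
theorem ind_zero_ext (G : SimpleGraph V) (v : V) (hv : (nb G v).card ≤ 3) (hI : Ind (del G v)) :
    Ind G := by
  obtain ⟨p, hp, hstar⟩ := exists_stressFree_star hI v (nb G v) (not_mem_nb_self G v) hv
  refine ⟨p, ?_⟩
  intro ω hsym hsup heq
  have hv0 : ∀ u, ω v u = 0 := by
    intro u
    by_cases h : G.Adj v u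
    · have := heq v
      rw [sum_eq_sum_nb hsup (fun v u => p v - p u)] at this
      exact hstar (fun u => ω v u) this u (by simpa using h)
    · exact hsup v u h
  apply hp ω hsym
  · intro u z huz
    by_cases h1 : u = v
    · rw [h1]; exact hv0 z
    by_cases h2 : z = v
    · rw [h2, hsym]; exact hv0 u
    · apply hsup
      intro h
      exact huz ⟨h, h1, h2⟩
  · exact heq

/-- 1-extension -/
theorem ind_one_ext (G : SimpleGraph V) (v a b : V) (hv : (nb G v).card = 4) (ha : G.Adj v a)
    (hb : G.Adj v b) (hab : a ≠ b) (hnab : ¬ G.Adj a b) (hI : Ind (addE (del G v) a b)) :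
    Ind G := by
  classical
  have hva : v ≠ a := G.ne_of_adj ha
  have hvb : v ≠ b := G.ne_of_adj hb
  have haN : a ∈ nb G v := by simpa using ha
  have hbN : b ∈ nb G v := by simpa using hb
  have hbZ : b ∈ (nb G v).erase a := Finset.mem_erase.2 ⟨hab.symm, hbN⟩
  obtain ⟨p0, hp0, hstar0⟩ := exists_stressFree_star hI a ((nb G v).erase a)
    (Finset.notMem_erase a _) (by rw [Finset.card_erase_of_mem haN]; omega)
  -- move `v` to the midpoint
  let p : V → P3 := fun u => if u = v then (1 / 2 : ℝ) • (p0 a + p0 b) else p0 u
  have hpv : p v = (1 / 2 : ℝ) • (p0 a + p0 b) := by simp [p]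
  have hpu : ∀ u, u ≠ v → p u = p0 u := by intro u hu; simp [p, hu]
  refine ⟨p, ?_⟩
  intro ω hsym hsup heq
  have hvv : ω v v = 0 := hsup v v (G.irrefl)
  -- equilibrium at `v`
  have hv1 := heq v
  rw [sum_eq_sum_nb hsup (fun v u => p v - p u), ← Finset.add_sum_erase _ _ haN] at hv1
  -- rewrite with `p0`
  have hZ : ∀ z ∈ (nb G v).erase a, p v - p z = (p0 a - p0 z) - (1 / 2 : ℝ) • (p0 a - p0 b) := by
    intro z hz
    have hzv : z ≠ v := by
      rintro rfl
      exact G.irrefl (mem_nb.1 (Finset.mem_of_mem_erase hz))
    rw [hpv, hpu z hzv]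
    ext i
    simp only [Pi.sub_apply, Pi.add_apply, Pi.smul_apply, smul_eq_mul]
    ring
  have hA : p v - p a = -((1 / 2 : ℝ) • (p0 a - p0 b)) := by
    rw [hpv, hpu a hva.symm]
    ext i
    simp only [Pi.sub_apply, Pi.add_apply, Pi.smul_apply, smul_eq_mul, Pi.neg_apply]
    ring
  set S : ℝ := ω v a + ∑ z ∈ (nb G v).erase a, ω v z with hS
  have hv2 : ∑ z ∈ (nb G v).erase a,
      (ω v z - (if z = b then (1 / 2 : ℝ) * S else 0)) • (p0 a - p0 z) = 0 := by
    have e1 : ∑ z ∈ (nb G v).erase a,
      (ω v z - (if z = b then (1 / 2 : ℝ) * S else 0)) • (p0 a - p0 z) =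
      (∑ z ∈ (nb G v).erase a, ω v z • (p0 a - p0 z)) - ((1 / 2 : ℝ) * S) • (p0 a - p0 b) := by
      simp only [sub_smul, Finset.sum_sub_distrib, ite_smul, zero_smul]
      rw [Finset.sum_ite_eq' ((nb G v).erase a) b, if_pos hbZ]
    have e2 : ∑ z ∈ (nb G v).erase a, ω v z • (p v - p z) =
        ∑ z ∈ (nb G v).erase a, ω v z • (p0 a - p0 z) -
          (∑ z ∈ (nb G v).erase a, ω v z) • ((1 / 2 : ℝ) • (p0 a - p0 b)) := by
      rw [Finset.sum_smul, ← Finset.sum_sub_distrib]
      apply Finset.sum_congr rfl
      intro z hz
      rw [hZ z hz, smul_sub]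
    rw [e1, ← hv1, hA, e2, hS]
    ext i
    simp only [Pi.sub_apply, Pi.add_apply, Pi.smul_apply, smul_eq_mul, Pi.neg_apply]
    ring
  have hz := hstar0 _ hv2
  have hother : ∀ z ∈ (nb G v).erase a, z ≠ b → ω v z = 0 := by
    intro z hz1 hz2
    have := hz z hz1
    simpa [hz2] using this
  have hSum : ∑ z ∈ (nb G v).erase a, ω v z = ω v b := by
    rw [Finset.sum_eq_single b]
    · intro z hz1 hz2; exact hother z hz1 hz2
    · intro h; exact absurd hbZ h
  have hab' : ω v a = ω v b := by
    have h1 := hz b hbZ
    simp only [if_true] at h1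
    rw [hS, hSum] at h1
    linarith
  -- the stress of the reduced graph
  let ω' : V → V → ℝ := fun u z =>
    if u = v ∨ z = v then 0 else
      if (u = a ∧ z = b) ∨ (u = b ∧ z = a) then ω v a / 2 else ω u z
  have hω' : ∀ u z, ω' u z = 0 := by
    apply hp0
    · intro u z
      by_cases h1 : u = v ∨ z = v
      · have h2 : z = v ∨ u = v := h1.symm
        simp [ω', h1, h2]
      · have h2 : ¬ (z = v ∨ u = v) := fun h => h1 h.symm
        by_cases h3 : (u = a ∧ z = b) ∨ (u = b ∧ z = a)
        · have h4 : (z = a ∧ u = b) ∨ (z = b ∧ u = a) := by tauto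
          simp only [ω', if_neg h1, if_neg h2, if_pos h3, if_pos h4]
        · have h4 : ¬ ((z = a ∧ u = b) ∨ (z = b ∧ u = a)) := by tauto
          simp only [ω', if_neg h1, if_neg h2, if_neg h3, if_neg h4]
          exact hsym u z
    · intro u z huz
      by_cases h1 : u = v ∨ z = v
      · simp [ω', h1]
      · by_cases h3 : (u = a ∧ z = b) ∨ (u = b ∧ z = a)
        · exact absurd (Or.inr ⟨hab, h3⟩) huz
        · simp only [ω', if_neg h1, if_neg h3]
          apply hsup
          intro h
          exact huz (Or.inl ⟨h, fun e => h1 (Or.inl e), fun e => h1 (Or.inr e)⟩)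
    · intro u
      by_cases huv : u = v
      · subst huv
        apply Finset.sum_eq_zero
        intro z _
        simp [ω']
      · -- compare with the equilibrium of `ω` at `u`
        have h1 := heq u
        rw [← Finset.add_sum_erase _ _ (mem_univ v)] at h1 ⊢
        have h2 : ω' u v = 0 := by simp [ω']
        rw [h2, zero_smul, zero_add]
        have h3 : ∀ z ∈ univ.erase v, ω u z • (p u - p z) = ω u z • (p0 u - p0 z) := by
          intro z hz
          rw [hpu u huv, hpu z (Finset.ne_of_mem_erase hz)]
        rw [Finset.sum_congr rfl h3] at h1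
        by_cases hua : u = a
        · subst hua
          have hbE : b ∈ univ.erase v := by simp [hvb.symm]
          rw [← Finset.add_sum_erase _ _ hbE] at h1 ⊢
          have h4 : ω' u b = ω v u / 2 := by
            simp [ω', huv, hvb.symm]
          have h5 : ∀ z ∈ (univ.erase v).erase b, ω' u z • (p0 u - p0 z) =
              ω u z • (p0 u - p0 z) := by
            intro z hz
            have hzb : z ≠ b := Finset.ne_of_mem_erase hz
            have hzv : z ≠ v := Finset.ne_of_mem_erase (Finset.mem_of_mem_erase hz)
            simp [ω', huv, hzv, hzb, hab]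
          rw [Finset.sum_congr rfl h5, h4]
          have h6 : ω u b = 0 := hsup u b hnab
          rw [h6, zero_smul, zero_add] at h1
          rw [hpv, hpu u huv, hsym u v] at h1
          rw [← h1]
          ext i
          simp only [Pi.sub_apply, Pi.add_apply, Pi.smul_apply, smul_eq_mul]
          ring
        · by_cases hub : u = b
          · subst hub
            have haE : a ∈ univ.erase v := by simp [hva.symm]
            rw [← Finset.add_sum_erase _ _ haE] at h1 ⊢
            have h4 : ω' u a = ω v a / 2 := by
              simp [ω', huv, hva.symm]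
            have h5 : ∀ z ∈ (univ.erase v).erase a, ω' u z • (p0 u - p0 z) =
                ω u z • (p0 u - p0 z) := by
              intro z hz
              have hzb : z ≠ a := Finset.ne_of_mem_erase hz
              have hzv : z ≠ v := Finset.ne_of_mem_erase (Finset.mem_of_mem_erase hz)
              simp [ω', huv, hzv, hzb, hab.symm]
            rw [Finset.sum_congr rfl h5, h4]
            have h6 : ω u a = 0 := hsup u a (fun h => hnab h.symm)
            rw [h6, zero_smul, zero_add] at h1
            rw [hpv, hpu u huv, hsym u v, ← hab'] at h1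
            rw [← h1]
            ext i
            simp only [Pi.sub_apply, Pi.add_apply, Pi.smul_apply, smul_eq_mul]
            ring
          · have h4 : ω u v = 0 := by
              by_cases h : G.Adj v u
              · rw [hsym]
                exact hother u (Finset.mem_erase.2 ⟨hua, by simpa using h⟩) hub
              · rw [hsym]; exact hsup v u h
            rw [h4, zero_smul, zero_add] at h1
            rw [← h1]
            apply Finset.sum_congr rfl
            intro z hz
            have hzv : z ≠ v := Finset.ne_of_mem_erase hz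
            simp [ω', huv, hzv, hua, hub]
  -- conclusion
  have hva0 : ω v a = 0 := by
    have := hω' a b
    simp [ω', hva.symm, hvb.symm] at this
    exact this
  have hv0 : ∀ u, ω v u = 0 := by
    intro u
    by_cases h : G.Adj v u
    · by_cases h1 : u = a
      · rw [h1]; exact hva0
      · by_cases h2 : u = b
        · rw [h2, ← hab']; exact hva0
        · exact hother u (Finset.mem_erase.2 ⟨h1, by simpa using h⟩) h2
    · exact hsup v u h
  intro u z
  by_cases h1 : u = v ∨ z = v
  · rcases h1 with rfl | rfl
    · exact hv0 z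
    · rw [hsym]; exact hv0 u
  · by_cases h2 : (u = a ∧ z = b) ∨ (u = b ∧ z = a)
    · rcases h2 with ⟨rfl, rfl⟩ | ⟨rfl, rfl⟩
      · exact hsup _ _ hnab
      · exact hsup _ _ (fun h => hnab h.symm)
    · have := hω' u z
      simpa only [ω', if_neg h1, if_neg h2] using this

/-- the total torque of an antisymmetric family vanishes -/
lemma sum_antisymm (D : Finset V) (f : V → V → P3) (h : ∀ u v, f u v = - f v u) :
    ∑ v ∈ D, ∑ u ∈ D, f v u = 0 := by
  have h1 : ∑ v ∈ D, ∑ u ∈ D, f v u = - ∑ v ∈ D, ∑ u ∈ D, f v u := by
    conv_lhs => rw [Finset.sum_comm]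
    rw [← Finset.sum_neg_distrib]
    apply Finset.sum_congr rfl
    intro v _
    rw [← Finset.sum_neg_distrib]
    apply Finset.sum_congr rfl
    intro u _
    exact h u v
  have h2 : (2 : ℝ) • ∑ v ∈ D, ∑ u ∈ D, f v u = 0 := by
    rw [two_smul]
    nth_rewrite 1 [h1]
    simp
  exact (smul_eq_zero.1 h2).resolve_left (by norm_num)

/-- adding an edge across a cut vertex `w` -/
theorem ind_bridge (H : SimpleGraph V) (w x y : V) (D : Finset V) (hw : w ∉ D)
    (hcl : ∀ u ∈ D, ∀ z, H.Adj u z → z ∈ D ∨ z = w) (hx : x ∈ D) (hy : y ∉ D) (hyw : y ≠ w)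
    (hI : Ind H) : Ind (addE H x y) := by
  classical
  have hxy : x ≠ y := fun h => hy (h ▸ hx)
  have hxw : x ≠ w := fun h => hw (h ▸ hx)
  obtain ⟨p, hp, hstar⟩ := exists_stressFree_star hI w {x, y} (by simp [hxw.symm, hyw.symm])
    (by rw [Finset.card_pair hxy]; omega)
  refine ⟨p, ?_⟩
  intro ω hsym hsup heq
  let q : V → P3 := fun v => p v - p w
  have hq : ∀ v u, p v - p u = q v - q u := by intro v u; simp [q]
  have hqw : q w = 0 := by simp [q]
  have hcross : crossProduct (q x) (q y) ≠ 0 := by
    rw [crossProduct_ne_zero_iff_linearIndependent, LinearIndependent.pair_iff]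
    intro s t hst
    have := hstar (fun z => if z = x then -s else -t) ?_
    · have h1 := this x (by simp)
      have h2 := this y (by simp)
      simp [hxy.symm] at h1 h2
      exact ⟨h1, h2⟩
    · rw [Finset.sum_pair hxy]
      simp only [if_true, if_neg hxy.symm]
      rw [← hst]
      ext i
      simp only [q, Pi.add_apply, Pi.smul_apply, Pi.sub_apply, smul_eq_mul]
      ring
  -- torque balance
  have h1 : ∑ v ∈ D, ∑ u, ω v u • crossProduct (q v) (q u) = 0 := by
    apply Finset.sum_eq_zero
    intro v _
    have := congrArg (fun z => crossProduct (q v) z) (heq v)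
    simp only [map_sum, map_smul, map_zero, hq, map_sub, cross_self, zero_sub, smul_neg,
      Finset.sum_neg_distrib, neg_eq_zero] at this
    exact this
  have h2 : ∑ v ∈ D, ∑ u ∈ D, ω v u • crossProduct (q v) (q u) = 0 := by
    apply sum_antisymm D (fun v u => ω v u • crossProduct (q v) (q u))
    intro u v
    rw [hsym u v, ← cross_anticomm, smul_neg]
  have h3 : ∑ v ∈ D, ∑ u ∈ Dᶜ, ω v u • crossProduct (q v) (q u) = 0 := by
    have : ∀ v ∈ D, ∑ u, ω v u • crossProduct (q v) (q u) =
        ∑ u ∈ D, ω v u • crossProduct (q v) (q u) + ∑ u ∈ Dᶜ, ω v u • crossProduct (q v) (q u) := by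
      intro v _
      exact (Finset.sum_add_sum_compl D _).symm
    rw [Finset.sum_congr rfl this, Finset.sum_add_distrib, h2, zero_add] at h1
    exact h1
  have h4 : ∀ v ∈ D, ∀ u ∈ Dᶜ, ¬ (v = x ∧ u = y) → ω v u • crossProduct (q v) (q u) = 0 := by
    intro v hv u hu hvu
    rw [Finset.mem_compl] at hu
    by_cases huw : u = w
    · rw [huw, hqw]; simp
    · have : ω v u = 0 := by
        apply hsup
        rintro (h | ⟨-, h | h⟩)
        · rcases hcl v hv u h with h | h
          · exact hu h
          · exact huw h
        · exact hvu h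
        · exact hy (h.1 ▸ hv)
      rw [this, zero_smul]
  rw [Finset.sum_eq_single x, Finset.sum_eq_single y] at h3
  · have hxy0 : ω x y = 0 := (smul_eq_zero.1 h3).resolve_right hcross
    apply hp ω hsym _ heq
    intro u v huv
    by_cases h5 : (u = x ∧ v = y) ∨ (u = y ∧ v = x)
    · rcases h5 with ⟨rfl, rfl⟩ | ⟨rfl, rfl⟩
      · exact hxy0
      · rw [hsym]; exact hxy0
    · apply hsup
      rintro (h | ⟨-, h⟩)
      · exact huv h
      · exact h5 h
  · intro u hu huy
    exact h4 x hx u hu (fun h => huy h.2)
  · intro h
    exact absurd (Finset.mem_compl.2 hy) h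
  · intro v hv hvx
    apply Finset.sum_eq_zero
    intro u hu
    exact h4 v hv u hu (fun h => hvx h.1)
  · intro h
    exact absurd hx h

lemma sum_split_pair {x y : V} (hne : x ≠ y) (f : V → P3) :
    ∑ u, f u = f x + f y + ∑ u ∈ univ \ {x, y}, f u := by
  rw [← Finset.sum_sdiff (Finset.subset_univ {x, y}), Finset.sum_pair hne]
  abel

/-- the common part of the two merging lemmas -/
lemma merge_core {G : SimpleGraph V} {x y : V} (hne : x ≠ y) {p : V → P3}
    (hp : StressFree (merge G x y) p) {ω : V → V → ℝ} (hsym : ∀ u v, ω u v = ω v u)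
    (hsup : ∀ u v, ¬ G.Adj u v → ω u v = 0)
    (heq : ∀ v, v ≠ x → v ≠ y →
      (ω v x + ω v y) • (p v - p x) + ∑ u ∈ univ \ {x, y}, ω v u • (p v - p u) = 0)
    (hxy : ∑ u ∈ univ \ {x, y}, (ω x u + ω y u) • (p x - p u) = 0) :
    (∀ u v, u ≠ x → u ≠ y → v ≠ x → v ≠ y → ω u v = 0) ∧
      (∀ u, u ≠ x → u ≠ y → ω x u = - ω y u) := by
  classical
  let ω' : V → V → ℝ := fun u v =>
    if u = y ∨ v = y then 0 else
      if u = x then (if v = x then 0 else ω x v + ω y v) else
        if v = x then ω u x + ω u y else ω u v
  have hω' : ∀ u v, ω' u v = 0 := by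
    apply hp
    · intro u v
      by_cases h1 : u = y ∨ v = y
      · have h2 : v = y ∨ u = y := h1.symm
        simp [ω', h1, h2]
      · have h2 : ¬ (v = y ∨ u = y) := fun h => h1 h.symm
        simp only [ω', if_neg h1, if_neg h2]
        by_cases h3 : u = x
        · by_cases h4 : v = x
          · simp [h3, h4]
          · simp only [if_pos h3, if_neg h4]
            rw [hsym x v, hsym y v]
        · by_cases h4 : v = x
          · simp only [if_neg h3, if_pos h4]
            rw [hsym x u, hsym y u]
          · simp only [if_neg h3, if_neg h4]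
            exact hsym u v
    · intro u v huv
      by_cases h1 : u = y ∨ v = y
      · simp [ω', h1]
      · have h1a : u ≠ y := fun h => h1 (Or.inl h)
        have h1b : v ≠ y := fun h => h1 (Or.inr h)
        simp only [ω', if_neg h1]
        by_cases h3 : u = x
        · by_cases h4 : v = x
          · simp [h3, h4]
          · simp only [if_pos h3, if_neg h4]
            have e1 : ω x v = 0 := by
              apply hsup
              intro h
              exact huv ⟨fun e => h4 (by rw [← e, h3]), h1a, h1b, Or.inl (h3 ▸ h)⟩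
            have e2 : ω y v = 0 := by
              apply hsup
              intro h
              exact huv ⟨fun e => h4 (by rw [← e, h3]), h1a, h1b, Or.inr (Or.inl ⟨h3, h⟩)⟩
            rw [e1, e2, add_zero]
        · by_cases h4 : v = x
          · simp only [if_neg h3, if_pos h4]
            have e1 : ω u x = 0 := by
              apply hsup
              intro h
              exact huv ⟨fun e => h3 (by rw [e, h4]), h1a, h1b, Or.inl (h4 ▸ h)⟩
            have e2 : ω u y = 0 := by
              apply hsup
              intro h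
              exact huv ⟨fun e => h3 (by rw [e, h4]), h1a, h1b, Or.inr (Or.inr ⟨h4, h.symm⟩)⟩
            rw [e1, e2, add_zero]
          · simp only [if_neg h3, if_neg h4]
            apply hsup
            intro h
            exact huv ⟨G.ne_of_adj h, h1a, h1b, Or.inl h⟩
    · intro v
      by_cases hvy : v = y
      · apply Finset.sum_eq_zero
        intro u _
        simp [ω', hvy]
      · by_cases hvx : v = x
        · rw [sum_split_pair hne]
          rw [hvx]
          have e1 : ω' x x = 0 := by simp [ω', hne]
          have e2 : ω' x y = 0 := by simp [ω']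
          rw [e1, e2, zero_smul, zero_smul, zero_add, zero_add, ← hxy]
          apply Finset.sum_congr rfl
          intro u hu
          simp only [mem_sdiff, mem_univ, true_and, mem_insert, mem_singleton, not_or] at hu
          simp [ω', hne, hu.1, hu.2]
        · rw [sum_split_pair hne]
          have e1 : ω' v x = ω v x + ω v y := by simp [ω', hvy, hne, hvx]
          have e2 : ω' v y = 0 := by simp [ω']
          rw [e1, e2, zero_smul, add_zero, ← heq v hvx hvy]
          congr 1
          apply Finset.sum_congr rfl
          intro u hu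
          simp only [mem_sdiff, mem_univ, true_and, mem_insert, mem_singleton, not_or] at hu
          simp [ω', hvy, hvx, hu.1, hu.2]
  constructor
  · intro u v h1 h2 h3 h4
    have := hω' u v
    simpa [ω', h1, h2, h3, h4] using this
  · intro u h1 h2
    have := hω' x u
    simp [ω', hne, h1, h2] at this
    linarith

/-- merging a nonadjacent pair with at most three common neighbours -/
theorem ind_merge_N (G : SimpleGraph V) (x y : V) (hne : x ≠ y) (hxy : ¬ G.Adj x y)
    (hc : (cn G x y).card ≤ 3) (hI : Ind (merge G x y)) : Ind G := by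
  classical
  have hxc : x ∉ cn G x y := by simp [cn]
  obtain ⟨p, hp, hstar⟩ := exists_stressFree_star hI x (cn G x y) hxc hc
  let p' : V → P3 := fun u => if u = y then p x else p u
  have hp'y : p' y = p x := by simp [p']
  have hp'u : ∀ u, u ≠ y → p' u = p u := by intro u hu; simp [p', hu]
  refine ⟨p', ?_⟩
  intro ω hsym hsup heq
  have hxy0 : ω x y = 0 := hsup x y hxy
  have hyx0 : ω y x = 0 := by rw [hsym]; exact hxy0
  have hx := heq x
  have hy := heq y
  rw [sum_split_pair hne, sub_self, smul_zero, hxy0, zero_smul, zero_add, zero_add] at hx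
  rw [sum_split_pair hne, sub_self, smul_zero, hyx0, zero_smul, zero_add, zero_add] at hy
  have hx' : ∑ u ∈ univ \ {x, y}, ω x u • (p x - p u) = 0 := by
    rw [← hx]
    apply Finset.sum_congr rfl
    intro u hu
    simp only [mem_sdiff, mem_univ, true_and, mem_insert, mem_singleton, not_or] at hu
    rw [hp'u x hne, hp'u u hu.2]
  have hy' : ∑ u ∈ univ \ {x, y}, ω y u • (p x - p u) = 0 := by
    rw [← hy]
    apply Finset.sum_congr rfl
    intro u hu
    simp only [mem_sdiff, mem_univ, true_and, mem_insert, mem_singleton, not_or] at hu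
    rw [hp'y, hp'u u hu.2]
  obtain ⟨h1, h2⟩ := merge_core hne hp hsym hsup
    (by
      intro v hvx hvy
      have := heq v
      rw [sum_split_pair hne, hp'u v hvy, hp'u x hne, hp'y, ← add_smul] at this
      rw [← this]
      congr 1
      apply Finset.sum_congr rfl
      intro u hu
      simp only [mem_sdiff, mem_univ, true_and, mem_insert, mem_singleton, not_or] at hu
      rw [hp'u u hu.2])
    (by
      rw [← add_zero (0 : P3)]
      nth_rewrite 1 [← hx']
      rw [← hy', ← Finset.sum_add_distrib]
      apply Finset.sum_congr rfl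
      intro u _
      rw [add_smul])
  have hcn : cn G x y ⊆ univ \ {x, y} := by
    intro u hu
    simp only [cn, mem_inter, mem_nb] at hu
    simp only [mem_sdiff, mem_univ, true_and, mem_insert, mem_singleton, not_or]
    exact ⟨(G.ne_of_adj hu.1).symm, (G.ne_of_adj hu.2).symm⟩
  have h3 : ∑ z ∈ cn G x y, ω x z • (p x - p z) = 0 := by
    rw [← hx']
    apply Finset.sum_subset hcn
    intro u hu hu'
    simp only [mem_sdiff, mem_univ, true_and, mem_insert, mem_singleton, not_or] at hu
    have : ω x u = 0 := by
      by_cases h : G.Adj x u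
      · have h4 : ¬ G.Adj y u := by
          intro h4
          exact hu' (by simp [cn, h, h4])
        rw [h2 u hu.1 hu.2, hsup y u h4, neg_zero]
      · exact hsup x u h
    rw [this, zero_smul]
  have h4 : ∀ u, ω x u = 0 := by
    intro u
    by_cases hux : u = x
    · rw [hux]; exact hsup x x (G.irrefl)
    · by_cases huy : u = y
      · rw [huy]; exact hxy0
      · by_cases hu : u ∈ cn G x y
        · exact hstar (fun u => ω x u) h3 u hu
        · by_cases h : G.Adj x u
          · have h4 : ¬ G.Adj y u := by
              intro h4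
              exact hu (by simp [cn, h, h4])
            rw [h2 u hux huy, hsup y u h4, neg_zero]
          · exact hsup x u h
  have h5 : ∀ u, ω y u = 0 := by
    intro u
    by_cases hux : u = x
    · rw [hux]; exact hyx0
    · by_cases huy : u = y
      · rw [huy]; exact hsup y y (G.irrefl)
      · have := h2 u hux huy
        rw [h4 u] at this
        linarith
  intro u v
  by_cases hux : u = x
  · rw [hux]; exact h4 v
  by_cases huy : u = y
  · rw [huy]; exact h5 v
  by_cases hvx : v = x
  · rw [hvx, hsym]; exact h4 u
  by_cases hvy : v = y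
  · rw [hvy, hsym]; exact h5 u
  exact h1 u v hux huy hvx hvy

/-- a vector outside a span of at most two vectors -/
lemma exists_extend (x : V) (Z : Finset V) (p : V → P3) (hZ : Z.card ≤ 2) (hs : Star x Z p) :
    ∃ q : P3, ∀ (c : V → ℝ) (s : ℝ), (∑ z ∈ Z, c z • (p x - p z)) + s • q = 0 →
      s = 0 ∧ ∀ z ∈ Z, c z = 0 := by
  classical
  let S : Submodule ℝ P3 := Submodule.span ℝ ((Z.image (fun z => p x - p z) : Finset P3) : Set P3)
  have hS : Module.finrank ℝ S ≤ 2 := by
    calc Module.finrank ℝ S ≤ (Z.image (fun z => p x - p z)).card := finrank_span_finset_le_card _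
      _ ≤ Z.card := Finset.card_image_le
      _ ≤ 2 := hZ
  have hne : S ≠ ⊤ := by
    intro h
    rw [h, finrank_top] at hS
    simp at hS
  obtain ⟨q, hq⟩ : ∃ q, q ∉ S := by
    by_contra hcon
    push Not at hcon
    exact hne (Submodule.eq_top_iff'.2 hcon)
  refine ⟨q, ?_⟩
  intro c s h
  have hs0 : s = 0 := by
    by_contra hs0
    apply hq
    have : q = (-(s⁻¹)) • ∑ z ∈ Z, c z • (p x - p z) := by
      have h1 : s • q = - ∑ z ∈ Z, c z • (p x - p z) := by
        rw [eq_neg_iff_add_eq_zero, add_comm]; exact h
      have h2 : q = s⁻¹ • (s • q) := by rw [smul_smul, inv_mul_cancel₀ hs0, one_smul]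
      rw [h2, h1, smul_neg, neg_smul]
    rw [this]
    apply Submodule.smul_mem
    apply Submodule.sum_mem
    intro z hz
    apply Submodule.smul_mem
    apply Submodule.subset_span
    exact Finset.mem_coe.2 (Finset.mem_image_of_mem _ hz)
  refine ⟨hs0, ?_⟩
  rw [hs0, zero_smul, add_zero] at h
  exact hs c h

/-- merging an adjacent pair with at most two common neighbours (vertex splitting) -/
theorem ind_merge_A (G : SimpleGraph V) (x y : V) (hxy : G.Adj x y)
    (hc : (cn G x y).card ≤ 2) (hI : Ind (merge G x y)) : Ind G := by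
  classical
  have hne : x ≠ y := G.ne_of_adj hxy
  have hxc : x ∉ cn G x y := by simp [cn]
  obtain ⟨p, hp, hstar⟩ := exists_stressFree_star hI x (cn G x y) hxc (by omega)
  obtain ⟨q, hq⟩ := exists_extend x (cn G x y) p hc hstar
  let p' : V → P3 := fun u => if u = y then p x else p u
  have hp'y : p' y = p x := by simp [p']
  have hp'u : ∀ u, u ≠ y → p' u = p u := by intro u hu; simp [p', hu]
  let p'' : ℝ → V → P3 := fun t u => if u = y then p x + t • q else p u
  have hp''y : ∀ t, p'' t y = p x + t • q := by intro t; simp [p'']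
  have hp''u : ∀ t u, u ≠ y → p'' t u = p u := by intro t u hu; simp [p'', hu]
  let D : V → V → Fin 3 → Polynomial ℝ := fun v u i =>
    if v = x ∧ u = y then Polynomial.C (- q i) else
    if v = y ∧ u = x then Polynomial.C (q i) else
      Polynomial.C (p' v i - p' u i) + Polynomial.X *
        Polynomial.C ((if v = y then q i else 0) - (if u = y then q i else 0))
  let E : ℝ → V → V → P3 := fun t v u i => (D v u i).eval t
  have hDxy : ∀ t, E t x y = -q := by
    intro t; ext i; simp [D, E]
  have hDyx : ∀ t, E t y x = q := by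
    intro t; ext i; simp [D, E, hne, hne.symm]
  have hDo : ∀ t v u, ¬ (v = x ∧ u = y) → ¬ (v = y ∧ u = x) →
      E t v u = p'' t v - p'' t u := by
    intro t v u h1 h2
    ext i
    simp only [D, E, if_neg h1, if_neg h2, Polynomial.eval_add, Polynomial.eval_mul,
      Polynomial.eval_C, Polynomial.eval_X, Pi.sub_apply]
    by_cases hv : v = y
    · by_cases hu : u = y
      · simp [hv, hu]
      · rw [hv, hp'y, hp'u u hu, hp''y, hp''u t u hu]
        simp [hu]
        ring
    · by_cases hu : u = y
      · rw [hu, hp'y, hp'u v hv, hp''y, hp''u t v hv]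
        simp [hv]
        ring
      · rw [hp'u u hu, hp'u v hv, hp''u t u hu, hp''u t v hv]
        simp [hv, hu]
  -- at `t = 0`
  have h0 : SF G (E 0) := by
    intro ω hsym hsup heq
    have hp''0y : p'' 0 y = p x := by rw [hp''y]; simp
    have hx := heq x
    have hy := heq y
    rw [sum_split_pair hne, hDxy, hsup x x (G.irrefl), zero_smul, zero_add] at hx
    rw [sum_split_pair hne, hDyx, hsup y y (G.irrefl), zero_smul, add_zero] at hy
    have hx' : ω x y • (-q) + ∑ u ∈ univ \ {x, y}, ω x u • (p x - p u) = 0 := by
      rw [← hx]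
      congr 1
      apply Finset.sum_congr rfl
      intro u hu
      simp only [mem_sdiff, mem_univ, true_and, mem_insert, mem_singleton, not_or] at hu
      rw [hDo 0 x u (fun h => hu.2 h.2) (fun h => hne h.1), hp''u 0 x hne, hp''u 0 u hu.2]
    have hy' : ω y x • q + ∑ u ∈ univ \ {x, y}, ω y u • (p x - p u) = 0 := by
      rw [← hy]
      congr 1
      apply Finset.sum_congr rfl
      intro u hu
      simp only [mem_sdiff, mem_univ, true_and, mem_insert, mem_singleton, not_or] at hu
      rw [hDo 0 y u (fun h => hne h.1.symm) (fun h => hu.1 h.2), hp''0y, hp''u 0 u hu.2]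
    obtain ⟨h1, h2⟩ := merge_core hne hp hsym hsup
      (by
        intro v hvx hvy
        have := heq v
        rw [sum_split_pair hne, hDo 0 v x (fun h => hvx h.1) (fun h => hvy h.1),
          hDo 0 v y (fun h => hvx h.1) (fun h => hvy h.1), hp''0y, hp''u 0 x hne,
          hp''u 0 v hvy, ← add_smul] at this
        rw [← this]
        congr 1
        apply Finset.sum_congr rfl
        intro u hu
        simp only [mem_sdiff, mem_univ, true_and, mem_insert, mem_singleton, not_or] at hu
        rw [hDo 0 v u (fun h => hvx h.1) (fun h => hvy h.1), hp''u 0 v hvy, hp''u 0 u hu.2])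
      (by
        have e1 : ∑ u ∈ univ \ {x, y}, (ω x u + ω y u) • (p x - p u) =
            (ω x y • (-q) + ∑ u ∈ univ \ {x, y}, ω x u • (p x - p u)) +
            (ω y x • q + ∑ u ∈ univ \ {x, y}, ω y u • (p x - p u)) := by
          simp only [add_smul, Finset.sum_add_distrib]
          rw [hsym y x, smul_neg]
          abel
        rw [e1, hx', hy', add_zero])
    have hcn : cn G x y ⊆ univ \ {x, y} := by
      intro u hu
      simp only [cn, mem_inter, mem_nb] at hu
      simp only [mem_sdiff, mem_univ, true_and, mem_insert, mem_singleton, not_or]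
      exact ⟨(G.ne_of_adj hu.1).symm, (G.ne_of_adj hu.2).symm⟩
    have hout : ∀ u, u ≠ x → u ≠ y → u ∉ cn G x y → ω x u = 0 := by
      intro u hux huy hu'
      by_cases h : G.Adj x u
      · have h4 : ¬ G.Adj y u := by
          intro h4
          exact hu' (by simp [cn, h, h4])
        rw [h2 u hux huy, hsup y u h4, neg_zero]
      · exact hsup x u h
    have h3 : ∑ z ∈ cn G x y, ω x z • (p x - p z) + (- ω x y) • q = 0 := by
      rw [← hx', neg_smul, smul_neg, add_comm]
      congr 1
      apply Finset.sum_subset hcn
      intro u hu hu'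
      simp only [mem_sdiff, mem_univ, true_and, mem_insert, mem_singleton, not_or] at hu
      rw [hout u hu.1 hu.2 hu', zero_smul]
    obtain ⟨h4, h5⟩ := hq (fun u => ω x u) _ h3
    have hxy0 : ω x y = 0 := by linarith
    have h6 : ∀ u, ω x u = 0 := by
      intro u
      by_cases hux : u = x
      · rw [hux]; exact hsup x x (G.irrefl)
      · by_cases huy : u = y
        · rw [huy]; exact hxy0
        · by_cases hu : u ∈ cn G x y
          · exact h5 u hu
          · exact hout u hux huy hu
    have h7 : ∀ u, ω y u = 0 := by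
      intro u
      by_cases hux : u = x
      · rw [hux, hsym]; exact hxy0
      · by_cases huy : u = y
        · rw [huy]; exact hsup y y (G.irrefl)
        · have := h2 u hux huy
          rw [h6 u] at this
          linarith
    intro u v
    by_cases hux : u = x
    · rw [hux]; exact h6 v
    by_cases huy : u = y
    · rw [huy]; exact h7 v
    by_cases hvx : v = x
    · rw [hvx, hsym]; exact h6 u
    by_cases hvy : v = y
    · rw [hvy, hsym]; exact h7 u
    exact h1 u v hux huy hvx hvy
  -- a nonzero parameter
  obtain ⟨t, ht, ht0⟩ := ((SF.eventually D 0 h0).and (Filter.eventually_cofinite_ne (0 : ℝ))).exists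
  change SF G (E t) at ht
  refine ⟨p'' t, ?_⟩
  intro ω hsym hsup heq
  let ω' : V → V → ℝ := fun u v =>
    if (u = x ∧ v = y) ∨ (u = y ∧ v = x) then t * ω u v else ω u v
  have hω' : ∀ u v, ω' u v = 0 := by
    apply ht
    · intro u v
      by_cases h : (u = x ∧ v = y) ∨ (u = y ∧ v = x)
      · have h' : (v = x ∧ u = y) ∨ (v = y ∧ u = x) := by tauto
        simp only [ω', if_pos h, if_pos h']
        rw [hsym u v]
      · have h' : ¬ ((v = x ∧ u = y) ∨ (v = y ∧ u = x)) := by tauto
        simp only [ω', if_neg h, if_neg h']
        exact hsym u v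
    · intro u v huv
      simp [ω', hsup u v huv]
    · intro v
      rw [← heq v]
      apply Finset.sum_congr rfl
      intro u _
      by_cases h1 : v = x ∧ u = y
      · obtain ⟨rfl, rfl⟩ := h1
        rw [hDxy]
        have : ω' v u = t * ω v u := by simp [ω']
        rw [this, hp''y, hp''u t v hne]
        ext i
        simp only [Pi.smul_apply, Pi.sub_apply, Pi.add_apply, Pi.neg_apply, smul_eq_mul]
        ring
      · by_cases h2 : v = y ∧ u = x
        · obtain ⟨rfl, rfl⟩ := h2
          rw [hDyx]
          have : ω' v u = t * ω v u := by simp [ω']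
          rw [this, hp''y, hp''u t u hne]
          ext i
          simp only [Pi.smul_apply, Pi.sub_apply, Pi.add_apply, smul_eq_mul]
          ring
        · rw [hDo t v u h1 h2]
          have : ω' v u = ω v u := by simp [ω', h1, h2]
          rw [this]
  intro u v
  by_cases h : (u = x ∧ v = y) ∨ (u = y ∧ v = x)
  · have := hω' u v
    simp only [ω', if_pos h] at this
    exact (mul_eq_zero.1 this).resolve_left ht0
  · have := hω' u v
    simpa only [ω', if_neg h] using this

end Pool.Agent.H38.Rig
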