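import Pool.Agent.H38.Rig.Red
import Pool.Agent.H38.Rig.Ext

set_option autoImplicit false
set_option linter.unusedSectionVars false
set_option linter.unusedVariables false

namespace Pool.Agent.H38.Rig

open Finset

variable {V : Type} [Fintype V] [DecidableEq V]

/-- degree sum -/
noncomputable def dsum (H : SimpleGraph V) : ℕ := ∑ u, (nb H u).card

lemma dsum_lt {G H : SimpleGraph V} (h : ∀ u, (nb G u).card ≤ (nb H u).card) {v : V}
    (hv : (nb G v).card < (nb H v).card) : dsum G < dsum H :=
  Finset.sum_lt_sum (fun u _ => h u) ⟨v, Finset.mem_univ v, hv⟩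

lemma nb_addE_del_self (H : SimpleGraph V) {v a b : V} (hva : v ≠ a) (hvb : v ≠ b) :
    nb (addE (del H v) a b) v = ∅ := by
  rw [nb_addE_of_ne _ hva hvb, nb_del_self]

lemma card_nb_addE_del_le (H : SimpleGraph V) {v a b : V} (ha : H.Adj v a) (hb : H.Adj v b)
    (hab : a ≠ b) (u : V) : (nb (addE (del H v) a b) u).card ≤ (nb H u).card := by
  by_cases hua : u = a
  · subst hua
    rw [nb_addE_left _ hab]
    have h1 := card_nb_del_adj H ha
    have h2 := Finset.card_insert_le b (nb (del H v) u)
    omega
  · by_cases hub : u = b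
    · subst hub
      rw [nb_addE_right _ hab]
      have h1 := card_nb_del_adj H hb
      have h2 := Finset.card_insert_le a (nb (del H v) u)
      omega
    · rw [nb_addE_of_ne _ hua hub]
      exact card_nb_del_le H v u

/-- Extended Jackson-Jordán theorem: a sparse graph all of whose vertices except possibly `w`
have degree at most 5, such that every nonempty set closed in `H - w` contains a vertex of
degree at most 4, is independent. -/
theorem JJP (H : SimpleGraph V) (w : V) (hs : Sparse H) (hdeg : ∀ u, u ≠ w → (nb H u).card ≤ 5)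
    (hcl : ∀ C : Finset V, C.Nonempty → w ∉ C →
      (∀ u ∈ C, ∀ z, H.Adj u z → z ∈ C ∨ z = w) → ∃ u ∈ C, (nb H u).card ≤ 4) : Ind H := by
  classical
  induction hm : dsum H using Nat.strong_induction_on generalizing H with
  | _ m ih =>
  subst hm
  by_cases hno : ∀ u z, ¬ H.Adj u z
  · exact ind_of_forall_not_adj H hno
  push Not at hno
  obtain ⟨u₀, z₀, huz₀⟩ := hno
  -- a vertex of degree between 1 and 4 different from `w`
  obtain ⟨v, hvC, hv4⟩ := hcl (univ.filter (fun u => u ≠ w ∧ 1 ≤ (nb H u).card))
    (by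
      by_cases h : u₀ = w
      · refine ⟨z₀, ?_⟩
        rw [mem_filter]
        exact ⟨mem_univ _, fun e => H.ne_of_adj huz₀ (h.trans e.symm),
          Finset.card_pos.2 ⟨u₀, by rw [mem_nb]; exact huz₀.symm⟩⟩
      · refine ⟨u₀, ?_⟩
        rw [mem_filter]
        exact ⟨mem_univ _, h, Finset.card_pos.2 ⟨z₀, by rw [mem_nb]; exact huz₀⟩⟩)
    (by simp)
    (by
      intro u hu z huz
      by_cases h : z = w
      · exact Or.inr h
      · left
        rw [mem_filter]
        exact ⟨mem_univ _, h, Finset.card_pos.2 ⟨u, by rw [mem_nb]; exact huz.symm⟩⟩)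
  rw [mem_filter] at hvC
  obtain ⟨-, hvw, hv1⟩ := hvC
  -- the graph `H - v`
  have hdel : Ind (del H v) := by
    refine ih (dsum (del H v)) (dsum_lt (card_nb_del_le H v) (v := v) ?_) (del H v)
      (sparse_of_le (del_le H v) hs) (fun u hu => (card_nb_del_le H v u).trans (hdeg u hu)) ?_ rfl
    · rw [nb_del_self]; simpa using hv1
    · intro C hC hwC hC'
      by_cases hvC : v ∈ C
      · exact ⟨v, hvC, by rw [nb_del_self]; simp⟩
      · by_cases hex : ∃ u ∈ C, H.Adj v u
        · obtain ⟨u, huC, hvu⟩ := hex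
          refine ⟨u, huC, ?_⟩
          have h1 := card_nb_del_adj H hvu
          have h2 := hdeg u (fun e => hwC (e ▸ huC))
          omega
        · push Not at hex
          obtain ⟨u, huC, hu4⟩ := hcl C hC hwC (by
            intro u hu z huz
            exact hC' u hu z ⟨huz, fun e => hvC (e ▸ hu), fun e => hex u hu (e ▸ huz.symm)⟩)
          exact ⟨u, huC, (card_nb_del_le H v u).trans hu4⟩
  by_cases hv3 : (nb H v).card ≤ 3
  · exact ind_zero_ext H v hv3 hdel
  have hv4' : (nb H v).card = 4 := by omega
  obtain ⟨a, b, hab, ha, hb, hnab, hsp⟩ := exists_reduction H w v hs hv4' hdeg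
  have hva := H.ne_of_adj ha
  have hvb := H.ne_of_adj hb
  have hle := card_nb_addE_del_le H ha hb hab
  by_cases hcl' : ∀ C : Finset V, C.Nonempty → w ∉ C →
      (∀ u ∈ C, ∀ z, (addE (del H v) a b).Adj u z → z ∈ C ∨ z = w) →
      ∃ u ∈ C, (nb (addE (del H v) a b) u).card ≤ 4
  · refine ind_one_ext H v a b hv4' ha hb hab hnab ?_
    refine ih (dsum (addE (del H v) a b)) (dsum_lt hle (v := v) ?_) _ hsp
      (fun u hu => (hle u).trans (hdeg u hu)) hcl' rfl
    rw [nb_addE_del_self H hva hvb]; simpa using hv1
  · push Not at hcl'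
    obtain ⟨C, hC, hwC, hC', hC5⟩ := hcl'
    have hvC : v ∉ C := by
      intro h
      have := hC5 v h
      rw [nb_addE_del_self H hva hvb] at this
      simp at this
    -- closed in `(H - v) - w`
    have hCdel : ∀ u ∈ C, ∀ z, (del H v).Adj u z → z ∈ C ∨ z = w :=
      fun u hu z h => hC' u hu z (Or.inl h)
    -- `C` contains a neighbour of `v`
    have hex : ∃ x ∈ C, H.Adj v x := by
      by_contra hex
      push Not at hex
      obtain ⟨u, huC, hu4⟩ := hcl C hC hwC (by
        intro u hu z huz
        exact hCdel u hu z ⟨huz, fun e => hvC (e ▸ hu), fun e => hex u hu (e ▸ huz.symm)⟩)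
      have := hC5 u huC
      have := hle u
      omega
    obtain ⟨x, hxC, hvx⟩ := hex
    -- neighbours of `v` other than `a`, `b`, `w` are outside `C`
    have hout : ∀ z, H.Adj v z → z ≠ a → z ≠ b → z ∉ C := by
      intro z hvz hza hzb hzC
      have h1 := hC5 z hzC
      rw [nb_addE_of_ne _ hza hzb] at h1
      have h2 := card_nb_del_adj H hvz
      have h3 := hdeg z (fun e => hwC (e ▸ hzC))
      omega
    obtain ⟨z, hvz, hza, hzb, hzw⟩ : ∃ z, H.Adj v z ∧ z ≠ a ∧ z ≠ b ∧ z ≠ w := by
      by_contra hne
      push Not at hne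
      have h1 : nb H v ⊆ {a, b, w} := by
        intro y hy
        rw [mem_nb] at hy
        simp only [mem_insert, mem_singleton]
        by_cases h1 : y = a
        · exact Or.inl h1
        · by_cases h2 : y = b
          · exact Or.inr (Or.inl h2)
          · exact Or.inr (Or.inr (hne y hy h1 h2))
      have h2 := Finset.card_le_card h1
      have h3 : ({a, b, w} : Finset V).card ≤ 3 := Finset.card_le_three
      omega
    have hzC : z ∉ C := hout z hvz hza hzb
    have hxz : ¬ H.Adj x z := by
      intro h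
      rcases hCdel x hxC z ⟨h, fun e => hvC (e ▸ hxC), fun e => H.irrefl (e ▸ hvz)⟩ with h | h
      · exact hzC h
      · exact hzw h
    exact ind_one_ext H v x z hv4' hvx hvz (fun e => hzC (e ▸ hxC)) hxz
      (ind_bridge (del H v) w x z C hwC hCdel hxC hzC hzw hdel)

end Pool.Agent.H38.Rig
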