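import Pool.Agent.H38.Rig.Defs
import Mathlib

/-!
Module B1: at most six lines joining two sets of points, at most two at each point, are
independent for some placement.
-/

set_option autoImplicit false
set_option linter.unusedSectionVars false
set_option linter.unusedSimpArgs false

namespace Pool.Agent.H38.Rig

open Finset

variable {V : Type} [Fintype V] [DecidableEq V]

/-- the lines `p x p u`, `(x,u) ∈ F`, are linearly independent (Pluecker vectors) -/
def LinesIndep (F : Finset (V × V)) (p : V → P3) : Prop :=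
  ∀ ω : V × V → ℝ, (∑ e ∈ F, ω e • (p e.1 - p e.2) = 0) →
    (∑ e ∈ F, ω e • (crossProduct (p e.1) (p e.2)) = 0) → ∀ e ∈ F, ω e = 0

namespace Lines

/-- Pluecker vector of the line `x u` -/
def pl (x u : P3) : P3 × P3 := (x - u, crossProduct x u)

/-- the value of a screw -/
def sc (a b : P3) (x u : P3) : ℝ := a ⬝ᵥ (x - u) + b ⬝ᵥ (crossProduct x u)

theorem indep_iff {F : Finset (V × V)} {p : V → P3} :
    LinesIndep F p ↔ ∀ ω : V × V → ℝ, (∑ e ∈ F, ω e • pl (p e.1) (p e.2) = 0) →
      ∀ e ∈ F, ω e = 0 := by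
  constructor
  · intro h ω hω
    refine h ω ?_ ?_
    · have := congrArg Prod.fst hω
      rw [Prod.fst_sum] at this
      simpa [pl] using this
    · have := congrArg Prod.snd hω
      rw [Prod.snd_sum] at this
      simpa [pl] using this
  · intro h ω h1 h2
    refine h ω ?_
    refine Prod.ext ?_ ?_
    · rw [Prod.fst_sum]; simpa [pl] using h1
    · rw [Prod.snd_sum]; simpa [pl] using h2

theorem sc_eq_sum (a b : P3) (F : Finset (V × V)) (p : V → P3) (ω : V × V → ℝ)
    (h1 : ∑ e ∈ F, ω e • (p e.1 - p e.2) = 0)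
    (h2 : ∑ e ∈ F, ω e • (crossProduct (p e.1) (p e.2)) = 0) :
    ∑ e ∈ F, ω e * sc a b (p e.1) (p e.2) = 0 := by
  have e1 : a ⬝ᵥ (∑ e ∈ F, ω e • (p e.1 - p e.2)) = 0 := by rw [h1]; simp
  have e2 : b ⬝ᵥ (∑ e ∈ F, ω e • (crossProduct (p e.1) (p e.2))) = 0 := by rw [h2]; simp
  rw [dotProduct_sum] at e1 e2
  have : ∑ e ∈ F, ω e * sc a b (p e.1) (p e.2) =
      (∑ e ∈ F, a ⬝ᵥ (ω e • (p e.1 - p e.2))) +
        ∑ e ∈ F, b ⬝ᵥ (ω e • (crossProduct (p e.1) (p e.2))) := by
    rw [← Finset.sum_add_distrib]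
    refine Finset.sum_congr rfl fun e _ => ?_
    rw [dotProduct_smul, dotProduct_smul, sc]
    simp only [smul_eq_mul]
    ring
  rw [this, e1, e2, add_zero]

/-- adding a line not annihilated by a screw which annihilates the others -/
theorem indep_insert {F : Finset (V × V)} {p : V → P3} (e0 : V × V) (h : LinesIndep F p) (a b : P3)
    (hf : ∀ e ∈ F, sc a b (p e.1) (p e.2) = 0) (h0 : sc a b (p e0.1) (p e0.2) ≠ 0) :
    LinesIndep (insert e0 F) p := by
  by_cases he0 : e0 ∈ F
  · rwa [Finset.insert_eq_of_mem he0]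
  intro ω h1 h2
  have h3 := sc_eq_sum a b _ p ω h1 h2
  rw [Finset.sum_insert he0] at h1 h2 h3
  have h4 : ∑ e ∈ F, ω e * sc a b (p e.1) (p e.2) = 0 :=
    Finset.sum_eq_zero fun e he => by rw [hf e he, mul_zero]
  rw [h4, add_zero] at h3
  have h5 : ω e0 = 0 := (mul_eq_zero.1 h3).resolve_right h0
  rw [h5, zero_smul, zero_add] at h1 h2
  intro e he
  rcases Finset.mem_insert.1 he with rfl | he
  · exact h5
  · exact h ω h1 h2 e he

theorem indep_mono {F F' : Finset (V × V)} {p : V → P3} (h : LinesIndep F p) (hs : F' ⊆ F) :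
    LinesIndep F' p := by
  intro ω h1 h2 e he
  have := h (fun e => if e ∈ F' then ω e else 0) ?_ ?_ e (hs he)
  · simpa [he] using this
  · rw [← h1]
    symm
    refine Finset.sum_subset_zero_on_sdiff hs ?_ ?_
    · intro x hx; rw [mem_sdiff] at hx; simp [hx.2]
    · intro x hx; simp [hx]
  · rw [← h2]
    symm
    refine Finset.sum_subset_zero_on_sdiff hs ?_ ?_
    · intro x hx; rw [mem_sdiff] at hx; simp [hx.2]
    · intro x hx; simp [hx]

theorem indep_congr {F : Finset (V × V)} {p q : V → P3} (h : LinesIndep F p)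
    (hpq : ∀ e ∈ F, p e.1 = q e.1 ∧ p e.2 = q e.2) : LinesIndep F q := by
  intro ω h1 h2
  refine h ω ?_ ?_
  · rw [← h1]
    exact Finset.sum_congr rfl fun e he => by rw [(hpq e he).1, (hpq e he).2]
  · rw [← h2]
    exact Finset.sum_congr rfl fun e he => by rw [(hpq e he).1, (hpq e he).2]

/-- at most five lines are annihilated by a nonzero screw -/
theorem exists_screw (F : Finset (V × V)) (p : V → P3) (hc : F.card ≤ 5) :
    ∃ a b : P3, ¬ (a = 0 ∧ b = 0) ∧ ∀ e ∈ F, sc a b (p e.1) (p e.2) = 0 := by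
  let Φ : (P3 × P3) →ₗ[ℝ] (F → ℝ) :=
    { toFun := fun m e => sc m.1 m.2 (p e.1.1) (p e.1.2)
      map_add' := by
        intro m m'; funext e
        simp only [sc, Prod.fst_add, Prod.snd_add, add_dotProduct, Pi.add_apply]; ring
      map_smul' := by
        intro c m; funext e
        simp only [sc, Prod.smul_fst, Prod.smul_snd, smul_dotProduct, Pi.smul_apply,
          smul_eq_mul, RingHom.id_apply]; ring }
  have hlt : Module.finrank ℝ (F → ℝ) < Module.finrank ℝ (P3 × P3) := by
    rw [Module.finrank_fintype_fun_eq_card, Module.finrank_prod]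
    simp only [Fintype.card_coe, Module.finrank_fintype_fun_eq_card, Fintype.card_fin]
    omega
  obtain ⟨m, hm, hm0⟩ := (Submodule.ne_bot_iff _).1 (LinearMap.ker_ne_bot_of_finrank_lt (f := Φ) hlt)
  refine ⟨m.1, m.2, fun h => hm0 (Prod.ext h.1 h.2), fun e he => ?_⟩
  exact congrFun (LinearMap.mem_ker.1 hm) ⟨e, he⟩

/-- a screw annihilating all lines but one -/
theorem exists_screw_ne {F : Finset (V × V)} {p : V → P3} (e0 : V × V) (he0 : e0 ∉ F)
    (h : LinesIndep (insert e0 F) p) :
    ∃ a b : P3, (∀ e ∈ F, sc a b (p e.1) (p e.2) = 0) ∧ sc a b (p e0.1) (p e0.2) ≠ 0 := by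
  have hns : pl (p e0.1) (p e0.2) ∉
      Submodule.span ℝ ((fun e : V × V => pl (p e.1) (p e.2)) '' (F : Set (V × V))) := by
    intro hmem
    obtain ⟨c, hc⟩ := (Submodule.mem_span_image_finset_iff_exists_fun' (R := ℝ)).1 hmem
    rw [indep_iff] at h
    have := h (fun e => if e = e0 then -1 else c e) ?_ e0 (mem_insert_self _ _)
    · simp at this
    · rw [Finset.sum_insert he0]
      simp only [if_true]
      rw [← hc, neg_smul, one_smul, neg_add_eq_zero]
      refine Finset.sum_congr rfl fun e he => ?_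
      rw [if_neg]
      rintro rfl; exact he0 he
  obtain ⟨f, hf1, hf2⟩ := Submodule.exists_le_ker_of_notMem hns
  have hform : ∀ d t : P3, f (d, t) =
      (fun i => f (Pi.single i 1, 0)) ⬝ᵥ d + (fun i => f (0, Pi.single i 1)) ⬝ᵥ t := by
    intro d t
    have hd : d = ∑ i, d i • (Pi.single i 1 : P3) := by
      conv_lhs => rw [pi_eq_sum_univ' d]
    have ht : t = ∑ i, t i • (Pi.single i 1 : P3) := by
      conv_lhs => rw [pi_eq_sum_univ' t]
    have e1 : (d, t) = (∑ i, d i • ((Pi.single i 1 : P3), (0 : P3))) +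
        ∑ i, t i • ((0 : P3), (Pi.single i 1 : P3)) := by
      refine Prod.ext ?_ ?_
      · simp only [Prod.fst_add, Prod.fst_sum, Prod.smul_fst, smul_zero, Finset.sum_const_zero,
          add_zero]
        exact hd
      · simp only [Prod.snd_add, Prod.snd_sum, Prod.smul_snd, smul_zero, Finset.sum_const_zero,
          zero_add]
        exact ht
    rw [e1, map_add, map_sum, map_sum]
    simp only [map_smul, smul_eq_mul, dotProduct]
    congr 1 <;> exact Finset.sum_congr rfl fun i _ => mul_comm _ _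
  refine ⟨fun i => f (Pi.single i 1, 0), fun i => f (0, Pi.single i 1), ?_, ?_⟩
  · intro e he
    rw [sc, ← hform]
    exact LinearMap.mem_ker.1 (hf2 (Submodule.subset_span ⟨e, he, rfl⟩))
  · rw [sc, ← hform]
    exact hf1

/-- velocity of the screw at a point -/
def vel (a b x : P3) : P3 := a + crossProduct x b

theorem sc_eq (a b x u : P3) : sc a b x u = (x - u) ⬝ᵥ vel a b x := by
  simp only [sc, vel, dotProduct, Fin.sum_univ_three, crossProduct, LinearMap.mk₂_apply,
    Pi.sub_apply, Pi.add_apply, Matrix.cons_val_zero, Matrix.cons_val_one, Matrix.cons_val]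
  ring

theorem vel_ne (a b : P3) (h : ¬ (a = 0 ∧ b = 0)) : ∃ x, vel a b x ≠ 0 := by
  by_contra hcon
  push Not at hcon
  apply h
  have ha : a = 0 := by simpa [vel] using hcon 0
  refine ⟨ha, ?_⟩
  subst ha
  have h1 := hcon ![1, 0, 0]
  have h2 := hcon ![0, 1, 0]
  have h11 := congrFun h1 1
  have h12 := congrFun h1 2
  have h22 := congrFun h2 2
  simp [vel, crossProduct] at h11 h12 h22
  funext i
  fin_cases i
  · simpa using h22
  · simpa using h12
  · simpa using h11

theorem cross_ne (a1 b1 a2 b2 d t : P3) (h1 : a1 ⬝ᵥ d + b1 ⬝ᵥ t ≠ 0)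
    (h2 : a2 ⬝ᵥ d + b2 ⬝ᵥ t = 0) (hne : ¬ (a2 = 0 ∧ b2 = 0)) :
    ∃ z, crossProduct (vel a1 b1 z) (vel a2 b2 z) ≠ 0 := by
  by_contra hcon
  push Not at hcon
  have hz : ∀ x y z : ℝ, ∀ i, crossProduct (vel a1 b1 ![x, y, z]) (vel a2 b2 ![x, y, z]) i = 0 := by
    intro x y z i; rw [hcon]; rfl
  have g : ∀ x y z : ℝ,
      ((a1 1 + (z * b1 0 - x * b1 2)) * (a2 2 + (x * b2 1 - y * b2 0)) -
        (a1 2 + (x * b1 1 - y * b1 0)) * (a2 1 + (z * b2 0 - x * b2 2)) = 0) ∧
      ((a1 2 + (x * b1 1 - y * b1 0)) * (a2 0 + (y * b2 2 - z * b2 1)) -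
        (a1 0 + (y * b1 2 - z * b1 1)) * (a2 2 + (x * b2 1 - y * b2 0)) = 0) ∧
      ((a1 0 + (y * b1 2 - z * b1 1)) * (a2 1 + (z * b2 0 - x * b2 2)) -
        (a1 1 + (z * b1 0 - x * b1 2)) * (a2 0 + (y * b2 2 - z * b2 1)) = 0) := by
    intro x y z
    refine ⟨?_, ?_, ?_⟩
    · have := hz x y z 0
      simpa [vel, crossProduct, Matrix.vecHead, Matrix.vecTail] using this
    · have := hz x y z 1
      simpa [vel, crossProduct, Matrix.vecHead, Matrix.vecTail] using this
    · have := hz x y z 2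
      simpa [vel, crossProduct, Matrix.vecHead, Matrix.vecTail] using this
  obtain ⟨z1, z2, z3⟩ := g 0 0 0
  obtain ⟨p11, p12, p13⟩ := g 1 0 0
  obtain ⟨p21, p22, p23⟩ := g 0 1 0
  obtain ⟨p31, p32, p33⟩ := g 0 0 1
  obtain ⟨m11, m12, m13⟩ := g (-1) 0 0
  obtain ⟨m21, m22, m23⟩ := g 0 (-1) 0
  obtain ⟨m31, m32, m33⟩ := g 0 0 (-1)
  ring_nf at z1 z2 z3 p11 p12 p13 p21 p22 p23 p31 p32 p33 m11 m12 m13 m21 m22 m23 m31 m32 m33
  -- all minors vanish
  have A01 : a1 0 * a2 1 = a1 1 * a2 0 := by linarith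
  have A02 : a1 0 * a2 2 = a1 2 * a2 0 := by linarith
  have A12 : a1 1 * a2 2 = a1 2 * a2 1 := by linarith
  have B01 : b1 0 * b2 1 = b1 1 * b2 0 := by linarith
  have B02 : b1 0 * b2 2 = b1 2 * b2 0 := by linarith
  have B12 : b1 1 * b2 2 = b1 2 * b2 1 := by linarith
  have C00 : a1 0 * b2 0 = b1 0 * a2 0 := by linarith
  have C11 : a1 1 * b2 1 = b1 1 * a2 1 := by linarith
  have C22 : a1 2 * b2 2 = b1 2 * a2 2 := by linarith
  have C01 : a1 0 * b2 1 = b1 1 * a2 0 := by linarith
  have C10 : a1 1 * b2 0 = b1 0 * a2 1 := by linarith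
  have C02 : a1 0 * b2 2 = b1 2 * a2 0 := by linarith
  have C20 : a1 2 * b2 0 = b1 0 * a2 2 := by linarith
  have C12 : a1 1 * b2 2 = b1 2 * a2 1 := by linarith
  have C21 : a1 2 * b2 1 = b1 1 * a2 2 := by linarith
  simp only [dotProduct, Fin.sum_univ_three] at h1 h2
  set s := a1 0 * d 0 + a1 1 * d 1 + a1 2 * d 2 + (b1 0 * t 0 + b1 1 * t 1 + b1 2 * t 2) with hs
  have k0 : a2 0 * s = 0 := by
    rw [hs]; linear_combination a1 0 * h2 - d 1 * A01 - d 2 * A02 - t 0 * C00 - t 1 * C01 - t 2 * C02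
  have k1 : a2 1 * s = 0 := by
    rw [hs]; linear_combination a1 1 * h2 + d 0 * A01 - d 2 * A12 - t 0 * C10 - t 1 * C11 - t 2 * C12
  have k2 : a2 2 * s = 0 := by
    rw [hs]; linear_combination a1 2 * h2 + d 0 * A02 + d 1 * A12 - t 0 * C20 - t 1 * C21 - t 2 * C22
  have l0 : b2 0 * s = 0 := by
    rw [hs]; linear_combination b1 0 * h2 + d 0 * C00 + d 1 * C10 + d 2 * C20 - t 1 * B01 - t 2 * B02
  have l1 : b2 1 * s = 0 := by
    rw [hs]; linear_combination b1 1 * h2 + d 0 * C01 + d 1 * C11 + d 2 * C21 + t 0 * B01 - t 2 * B12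
  have l2 : b2 2 * s = 0 := by
    rw [hs]; linear_combination b1 2 * h2 + d 0 * C02 + d 1 * C12 + d 2 * C22 + t 0 * B02 + t 1 * B12
  apply hne
  constructor
  · funext i
    fin_cases i
    · exact (mul_eq_zero.1 k0).resolve_right h1
    · exact (mul_eq_zero.1 k1).resolve_right h1
    · exact (mul_eq_zero.1 k2).resolve_right h1
  · funext i
    fin_cases i
    · exact (mul_eq_zero.1 l0).resolve_right h1
    · exact (mul_eq_zero.1 l1).resolve_right h1
    · exact (mul_eq_zero.1 l2).resolve_right h1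

theorem exists_t (α β A B C : ℝ) (h : α ≠ 0) (h' : A + B + C ≠ 0) :
    ∃ t : ℝ, α + β * t ≠ 0 ∧ A + B * t + C * t ^ 2 ≠ 0 := by
  by_contra hcon
  push Not at hcon
  by_cases hA : A = 0
  · by_cases hab : α + β = 0
    · have h2 := hcon 2 (by intro h2; apply h; linarith)
      have h3 := hcon 3 (by intro h3; apply h; linarith)
      apply h'
      linarith
    · have := hcon 1 (by simpa using hab)
      apply h'; linarith
  · exact hA (by simpa using hcon 0 (by simpa using h))


/-- a point where a nonzero affine function and a nonzero cross product of two velocities are both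
nonzero -/
theorem exists_point (a1 b1 a2 b2 w x0 z0 : P3) (h1 : sc a1 b1 x0 w ≠ 0)
    (h2 : crossProduct (vel a1 b1 z0) (vel a2 b2 z0) ≠ 0) :
    ∃ x, sc a1 b1 x w ≠ 0 ∧ crossProduct (vel a1 b1 x) (vel a2 b2 x) ≠ 0 := by
  obtain ⟨i, hi⟩ := Function.ne_iff.1 h2
  -- quadratic interpolation data
  let x : ℝ → P3 := fun t => x0 + t • (z0 - x0)
  obtain ⟨α, β, hG⟩ : ∃ α β : ℝ, ∀ t, sc a1 b1 (x t) w = α + β * t := by
    refine ⟨sc a1 b1 x0 w, sc a1 b1 z0 w - sc a1 b1 x0 w, fun t => ?_⟩
    simp only [x, sc, dotProduct, Fin.sum_univ_three, crossProduct, LinearMap.mk₂_apply,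
      Pi.sub_apply, Pi.add_apply, Pi.smul_apply, smul_eq_mul, Matrix.cons_val_zero,
      Matrix.cons_val_one, Matrix.cons_val]
    ring
  obtain ⟨A, B, C, hC⟩ : ∃ A B C : ℝ, ∀ t,
      crossProduct (vel a1 b1 (x t)) (vel a2 b2 (x t)) i = A + B * t + C * t ^ 2 := by
    have key : ∀ t, vel a1 b1 (x t) = vel a1 b1 x0 + t • (vel a1 b1 z0 - vel a1 b1 x0) := by
      intro t
      simp only [x, vel, map_add, map_smul, map_sub, LinearMap.add_apply, LinearMap.smul_apply,
        LinearMap.sub_apply]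
      module
    have key2 : ∀ t, vel a2 b2 (x t) = vel a2 b2 x0 + t • (vel a2 b2 z0 - vel a2 b2 x0) := by
      intro t
      simp only [x, vel, map_add, map_smul, map_sub, LinearMap.add_apply, LinearMap.smul_apply,
        LinearMap.sub_apply]
      module
    refine ⟨crossProduct (vel a1 b1 x0) (vel a2 b2 x0) i,
      crossProduct (vel a1 b1 x0) (vel a2 b2 z0 - vel a2 b2 x0) i +
      crossProduct (vel a1 b1 z0 - vel a1 b1 x0) (vel a2 b2 x0) i,
      crossProduct (vel a1 b1 z0 - vel a1 b1 x0) (vel a2 b2 z0 - vel a2 b2 x0) i, fun t => ?_⟩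
    rw [key, key2]
    simp only [map_add, map_smul, LinearMap.add_apply, LinearMap.smul_apply, Pi.add_apply,
      Pi.smul_apply, smul_eq_mul]
    ring
  have e0 := hG 0
  have e1 := hC 1
  have hx0 : x 0 = x0 := by simp [x]
  have hx1 : x 1 = z0 := by simp [x]
  rw [hx0] at e0
  rw [hx1] at e1
  obtain ⟨t, ht1, ht2⟩ := exists_t α β A B C
    (by intro h; apply h1; rw [e0, h]; ring)
    (by intro h; apply hi; rw [e1]; simp only [Pi.zero_apply]; linarith)
  refine ⟨x t, ?_, ?_⟩
  · rw [hG]; exact ht1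
  · intro h
    apply ht2
    rw [← hC, h]; rfl

theorem dot_self_ne {v : P3} (h : v ≠ 0) : v ⬝ᵥ v ≠ 0 := by
  intro h0
  exact h (dotProduct_self_eq_zero.1 h0)

/-- the induction step: a vertex on the right of degree one -/
theorem step (F : Finset (V × V)) (X : Finset V) (hF : ∀ e ∈ F, e.1 ∈ X ∧ e.2 ∉ X)
    (hc : F.card ≤ 6) (h1 : ∀ x, (F.filter (fun e => e.1 = x)).card ≤ 2)
    (e0 : V × V) (he0 : e0 ∈ F) (hu : ∀ e ∈ F, e.2 = e0.2 → e = e0)
    (IH : ∃ p : V → P3, LinesIndep (F.erase e0) p) : ∃ p : V → P3, LinesIndep F p := by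
  obtain ⟨p, hp⟩ := IH
  obtain ⟨x0, u0⟩ := e0
  have hx0 : x0 ∈ X := (hF _ he0).1
  have hu0 : u0 ∉ X := (hF _ he0).2
  have hxu : x0 ≠ u0 := by rintro rfl; exact hu0 hx0
  have hins : insert (x0, u0) (F.erase (x0, u0)) = F := Finset.insert_erase he0
  have hmem : ∀ e ∈ F.erase (x0, u0), e.1 ∈ X ∧ e.2 ∉ X ∧ e.2 ≠ u0 := by
    intro e he
    rw [mem_erase] at he
    refine ⟨(hF e he.2).1, (hF e he.2).2, fun h => he.1 (hu e he.2 h)⟩
  have hcard : (F.erase (x0, u0)).card ≤ 5 := by
    rw [Finset.card_erase_of_mem he0]; omega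
  by_cases hdeg : ∃ e1 ∈ F.erase (x0, u0), e1.1 = x0
  · -- second edge at x0
    obtain ⟨⟨x1, u1⟩, he1, rfl⟩ := hdeg
    simp only at *
    have hu1 : u1 ∉ X := (hmem _ he1).2.1
    have hu10 : u1 ≠ u0 := (hmem _ he1).2.2
    have hxu1 : x1 ≠ u1 := by rintro rfl; exact hu1 hx0
    set F2 := (F.erase (x1, u0)).erase (x1, u1) with hF2
    have hins2 : insert (x1, u1) F2 = F.erase (x1, u0) := Finset.insert_erase he1
    have hx1 : ∀ e ∈ F2, e.1 ≠ x1 := by
      intro e he heq
      rw [hF2, mem_erase, mem_erase] at he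
      have hsub : ({(x1, u0), (x1, u1), e} : Finset (V × V)) ⊆ F.filter (fun e => e.1 = x1) := by
        intro f hf
        simp only [mem_insert, mem_singleton] at hf
        rw [mem_filter]
        rcases hf with rfl | rfl | rfl
        · exact ⟨he0, rfl⟩
        · exact ⟨(mem_erase.1 he1).2, rfl⟩
        · exact ⟨he.2.2, heq⟩
      have hc3 : ({(x1, u0), (x1, u1), e} : Finset (V × V)).card = 3 := by
        rw [Finset.card_eq_three]
        refine ⟨_, _, _, ?_, ?_, ?_, rfl⟩
        · intro h; exact hu10 (by simpa using (Prod.mk.inj h).2.symm)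
        · exact fun h => he.2.1 h.symm
        · exact fun h => he.1 h.symm
      have := Finset.card_le_card hsub
      have := h1 x1
      omega
    have hmem2 : ∀ e ∈ F2, e.1 ≠ x1 ∧ e.1 ≠ u0 ∧ e.2 ≠ x1 ∧ e.2 ≠ u0 := by
      intro e he
      have he' := hmem e (mem_of_mem_erase he)
      refine ⟨hx1 e he, ?_, ?_, he'.2.2⟩
      · rintro h; rw [h] at he'; exact hu0 he'.1
      · rintro h; rw [h] at he'; exact he'.2.1 hx0
    -- screws
    have hp' : LinesIndep (insert (x1, u1) F2) p := by rw [hins2]; exact hp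
    obtain ⟨a1, b1, hf1, hg1⟩ := exists_screw_ne (x1, u1) (Finset.notMem_erase _ _) hp'
    obtain ⟨a2, b2, hne2, hf2⟩ := exists_screw (F.erase (x1, u0)) p hcard
    have hg2 := hf2 _ he1
    simp only at hg1 hg2
    obtain ⟨z0, hz0⟩ := cross_ne a1 b1 a2 b2 (p x1 - p u1) (crossProduct (p x1) (p u1)) hg1 hg2 hne2
    obtain ⟨x, hxa, hxb⟩ := exists_point a1 b1 a2 b2 (p u1) (p x1) z0 hg1 hz0
    -- the combined screw
    set G1 := sc a1 b1 x (p u1) with hG1
    set G2 := sc a2 b2 x (p u1) with hG2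
    set a := G2 • a1 - G1 • a2 with ha
    set b := G2 • b1 - G1 • b2 with hb
    have hlin : ∀ y v, sc a b y v = G2 * sc a1 b1 y v - G1 * sc a2 b2 y v := by
      intro y v
      simp only [sc, ha, hb, sub_dotProduct, smul_dotProduct, smul_eq_mul]
      ring
    have hvlin : vel a b x = G2 • vel a1 b1 x - G1 • vel a2 b2 x := by
      simp only [vel, ha, hb, map_sub, map_smul]
      module
    have hv : vel a b x ≠ 0 := by
      intro h0
      rw [hvlin, sub_eq_zero] at h0
      apply hxb
      have : vel a2 b2 x = (G1⁻¹ * G2) • vel a1 b1 x := by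
        rw [mul_smul, h0, smul_smul, inv_mul_cancel₀ hxa, one_smul]
      rw [this, map_smul, cross_self, smul_zero]
    let q : V → P3 := Function.update (Function.update p x1 x) u0 (x - vel a b x)
    have q1 : q x1 = x := by
      simp only [q]
      rw [Function.update_of_ne hxu, Function.update_self]
    have q0 : q u0 = x - vel a b x := by
      simp only [q]
      rw [Function.update_self]
    have qo : ∀ v, v ≠ x1 → v ≠ u0 → q v = p v := by
      intro v h1 h2
      simp only [q]
      rw [Function.update_of_ne h2, Function.update_of_ne h1]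
    have qu1 : q u1 = p u1 := qo u1 (Ne.symm hxu1) hu10
    refine ⟨q, ?_⟩
    rw [← hins, ← hins2]
    have hq2 : ∀ e ∈ F2, p e.1 = q e.1 ∧ p e.2 = q e.2 := by
      intro e he
      obtain ⟨g1, g2, g3, g4⟩ := hmem2 e he
      exact ⟨(qo _ g1 g2).symm, (qo _ g3 g4).symm⟩
    refine indep_insert (x1, u0) (indep_insert (x1, u1) (indep_congr (indep_mono hp' ?_) hq2) a1 b1
      ?_ ?_) a b ?_ ?_
    · exact Finset.subset_insert _ _
    · intro e he
      rw [← (hq2 e he).1, ← (hq2 e he).2]
      exact hf1 e he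
    · simp only [q1, qu1]
      exact hxa
    · intro e he
      rcases mem_insert.1 he with rfl | he
      · simp only [q1, qu1]
        rw [hlin]
        simp only [← hG1, ← hG2]
        ring
      · rw [← (hq2 e he).1, ← (hq2 e he).2, hlin, hf1 e he, hf2 e (mem_of_mem_erase he)]
        ring
    · simp only [q1, q0]
      rw [sc_eq, sub_sub_cancel]
      exact dot_self_ne hv
  · push Not at hdeg
    obtain ⟨a, b, hne, hf⟩ := exists_screw (F.erase (x0, u0)) p hcard
    obtain ⟨x, hx⟩ := vel_ne a b hne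
    let q : V → P3 := Function.update (Function.update p x0 x) u0 (x - vel a b x)
    have q1 : q x0 = x := by
      simp only [q]
      rw [Function.update_of_ne hxu, Function.update_self]
    have q0 : q u0 = x - vel a b x := by
      simp only [q]
      rw [Function.update_self]
    have hq : ∀ e ∈ F.erase (x0, u0), p e.1 = q e.1 ∧ p e.2 = q e.2 := by
      intro e he
      have he' := hmem e he
      have g1 : e.1 ≠ x0 := hdeg e he
      have g2 : e.1 ≠ u0 := by rintro h; rw [h] at he'; exact hu0 he'.1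
      have g3 : e.2 ≠ x0 := by rintro h; rw [h] at he'; exact he'.2.1 hx0
      have g4 : e.2 ≠ u0 := he'.2.2
      simp only [q]
      rw [Function.update_of_ne g2, Function.update_of_ne g1, Function.update_of_ne g4,
        Function.update_of_ne g3]
      exact ⟨rfl, rfl⟩
    refine ⟨q, ?_⟩
    rw [← hins]
    refine indep_insert (x0, u0) (indep_congr hp hq) a b ?_ ?_
    · intro e he
      rw [← (hq e he).1, ← (hq e he).2]
      exact hf e he
    · simp only [q1, q0]
      rw [sc_eq, sub_sub_cancel]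
      exact dot_self_ne hx

theorem indep_swap {F : Finset (V × V)} {p : V → P3} (h : LinesIndep (F.image Prod.swap) p) :
    LinesIndep F p := by
  intro ω h1 h2 e he
  have hinj : Set.InjOn (Prod.swap : V × V → V × V) F := Prod.swap_injective.injOn
  have := h (fun e => ω e.swap) ?_ ?_ e.swap (mem_image_of_mem _ he)
  · simpa using this
  · rw [Finset.sum_image hinj, ← neg_eq_zero, ← Finset.sum_neg_distrib, ← h1]
    refine Finset.sum_congr rfl fun e _ => ?_
    simp only [Prod.swap_swap, Prod.fst_swap, Prod.snd_swap]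
    rw [← smul_neg, neg_sub]
  · rw [Finset.sum_image hinj, ← neg_eq_zero, ← Finset.sum_neg_distrib, ← h2]
    refine Finset.sum_congr rfl fun e _ => ?_
    simp only [Prod.swap_swap, Prod.fst_swap, Prod.snd_swap]
    rw [← smul_neg, cross_anticomm]

theorem indep_swap' {F : Finset (V × V)} {p : V → P3} (h : LinesIndep F p) :
    LinesIndep (F.image Prod.swap) p := by
  apply indep_swap
  rw [Finset.image_image]
  have : (Prod.swap ∘ Prod.swap : V × V → V × V) = id := by
    funext e; simp
  rw [this, Finset.image_id]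
  exact h


/-- four lines of a tetrahedron -/
theorem square (x1 x2 u1 u2 : V) (hx : x1 ≠ x2) (hu : u1 ≠ u2) (h11 : x1 ≠ u1) (h12 : x1 ≠ u2)
    (h21 : x2 ≠ u1) (h22 : x2 ≠ u2) : ∃ p : V → P3,
    LinesIndep ({(x1, u1), (x1, u2), (x2, u1), (x2, u2)} : Finset (V × V)) p := by
  refine ⟨fun v => if v = x1 then ![0, 0, 0] else if v = x2 then ![1, 0, 0] else
    if v = u1 then ![0, 1, 0] else ![0, 0, 1], ?_⟩
  intro ω h1 h2
  rw [Finset.sum_insert (by simp [hx, hu]), Finset.sum_insert (by simp [hx]),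
    Finset.sum_insert (by simp [hu]), Finset.sum_singleton] at h1 h2
  simp only [if_true, hx.symm, hu.symm, h11.symm, h12.symm, h21.symm, h22.symm, if_false] at h1 h2
  have a0 := congrFun h1 0
  have a1 := congrFun h1 1
  have a2 := congrFun h1 2
  have b0 := congrFun h2 0
  have b1 := congrFun h2 1
  have b2 := congrFun h2 2
  simp [crossProduct] at a0 a1 a2 b0 b1 b2
  intro e he
  simp only [mem_insert, mem_singleton] at he
  rcases he with rfl | rfl | rfl | rfl <;> linarith

/-- six lines of a hexagon -/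
theorem hexagon (x1 x2 x3 u1 u2 u3 : V) (hx : x1 ≠ x2) (hx' : x1 ≠ x3) (hx'' : x2 ≠ x3)
    (hu : u1 ≠ u2) (hu' : u1 ≠ u3) (hu'' : u2 ≠ u3) (h11 : x1 ≠ u1) (h12 : x1 ≠ u2) (h13 : x1 ≠ u3)
    (h21 : x2 ≠ u1) (h22 : x2 ≠ u2) (h23 : x2 ≠ u3) (h31 : x3 ≠ u1) (h32 : x3 ≠ u2)
    (h33 : x3 ≠ u3) : ∃ p : V → P3,
    LinesIndep ({(x1, u1), (x1, u2), (x2, u1), (x2, u3), (x3, u2), (x3, u3)} :
      Finset (V × V)) p := by
  refine ⟨fun v => if v = x1 then ![0, 0, 0] else if v = x2 then ![1, 0, 0] else
    if v = x3 then ![0, 1, 0] else if v = u1 then ![0, 0, 1] else if v = u2 then ![0, 1, 1] else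
    ![1, 0, 1], ?_⟩
  intro ω h1 h2
  rw [Finset.sum_insert (by simp [hx, hx', hu, hu', hu'']),
    Finset.sum_insert (by simp [hx, hx', hu, hu', hu'']),
    Finset.sum_insert (by simp [hx'', hu, hu', hu'']),
    Finset.sum_insert (by simp [hx'', hu, hu', hu'']),
    Finset.sum_insert (by simp [hu'']), Finset.sum_singleton] at h1 h2
  simp only [if_true, hx.symm, hx'.symm, hx''.symm, hu.symm, hu'.symm, hu''.symm, h11.symm,
    h12.symm, h13.symm, h21.symm, h22.symm, h23.symm, h31.symm, h32.symm, h33.symm,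
    if_false] at h1 h2
  have a0 := congrFun h1 0
  have a1 := congrFun h1 1
  have a2 := congrFun h1 2
  have b0 := congrFun h2 0
  have b1 := congrFun h2 1
  have b2 := congrFun h2 2
  simp [crossProduct] at a0 a1 a2 b0 b1 b2
  intro e he
  simp only [mem_insert, mem_singleton] at he
  rcases he with rfl | rfl | rfl | rfl | rfl | rfl <;> linarith

theorem three_left {F : Finset (V × V)} (h1 : ∀ x, (F.filter (fun e => e.1 = x)).card ≤ 2)
    {x u v w : V} (hu : (x, u) ∈ F) (hv : (x, v) ∈ F) (hw : (x, w) ∈ F) (huv : u ≠ v)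
    (huw : u ≠ w) (hvw : v ≠ w) : False := by
  have hsub : ({(x, u), (x, v), (x, w)} : Finset (V × V)) ⊆ F.filter (fun e => e.1 = x) := by
    intro f hf
    simp only [mem_insert, mem_singleton] at hf
    rw [mem_filter]
    rcases hf with rfl | rfl | rfl
    · exact ⟨hu, rfl⟩
    · exact ⟨hv, rfl⟩
    · exact ⟨hw, rfl⟩
  have h3 : ({(x, u), (x, v), (x, w)} : Finset (V × V)).card = 3 := by
    rw [Finset.card_insert_of_notMem (by simp [huv, huw]),
      Finset.card_insert_of_notMem (by simp [hvw]), Finset.card_singleton]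
  have := Finset.card_le_card hsub
  have := h1 x
  omega

theorem three_right {F : Finset (V × V)} (h2 : ∀ x, (F.filter (fun e => e.2 = x)).card ≤ 2)
    {x y z u : V} (hu : (x, u) ∈ F) (hv : (y, u) ∈ F) (hw : (z, u) ∈ F) (hxy : x ≠ y)
    (hxz : x ≠ z) (hyz : y ≠ z) : False := by
  have hsub : ({(x, u), (y, u), (z, u)} : Finset (V × V)) ⊆ F.filter (fun e => e.2 = u) := by
    intro f hf
    simp only [mem_insert, mem_singleton] at hf
    rw [mem_filter]
    rcases hf with rfl | rfl | rfl
    · exact ⟨hu, rfl⟩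
    · exact ⟨hv, rfl⟩
    · exact ⟨hw, rfl⟩
  have h3 : ({(x, u), (y, u), (z, u)} : Finset (V × V)).card = 3 := by
    rw [Finset.card_insert_of_notMem (by simp [hxy, hxz]),
      Finset.card_insert_of_notMem (by simp [hyz]), Finset.card_singleton]
  have := Finset.card_le_card hsub
  have := h2 u
  omega

/-- the case in which all degrees are zero or two -/
theorem cycle_case (F : Finset (V × V)) (X : Finset V) (hF : ∀ e ∈ F, e.1 ∈ X ∧ e.2 ∉ X)
    (hc : F.card ≤ 6) (h1 : ∀ x, (F.filter (fun e => e.1 = x)).card ≤ 2)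
    (h2 : ∀ x, (F.filter (fun e => e.2 = x)).card ≤ 2) (hne : F.Nonempty)
    (hl : ∀ x u, (x, u) ∈ F → ∃ v, v ≠ u ∧ (x, v) ∈ F)
    (hr : ∀ x u, (x, u) ∈ F → ∃ y, y ≠ x ∧ (y, u) ∈ F) :
    ∃ p : V → P3, LinesIndep F p := by
  have hXne : ∀ x u y v, (x, u) ∈ F → (y, v) ∈ F → x ≠ v := by
    intro x u y v h h' heq
    subst heq
    exact (hF _ h').2 (hF _ h).1
  obtain ⟨⟨x1, u1⟩, e11⟩ := hne
  obtain ⟨u2, hu12, e12⟩ := hl _ _ e11
  obtain ⟨x2, hx12, e21⟩ := hr _ _ e11
  obtain ⟨x3, hx13, e32⟩ := hr _ _ e12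
  by_cases hx23 : x2 = x3
  · subst hx23
    obtain ⟨p, hp⟩ := square x1 x2 u1 u2 hx12.symm hu12.symm (hXne _ _ _ _ e11 e11)
      (hXne _ _ _ _ e11 e12) (hXne _ _ _ _ e21 e11) (hXne _ _ _ _ e21 e12)
    refine ⟨p, indep_mono hp ?_⟩
    intro f hf
    by_contra hcon
    obtain ⟨y, v⟩ := f
    simp only [mem_insert, mem_singleton, Prod.mk.injEq, not_or, not_and] at hcon
    obtain ⟨c1, c2, c3, c4⟩ := hcon
    have hy1 : y ≠ x1 := by
      rintro rfl
      exact three_left h1 e11 e12 hf hu12.symm (fun h => c1 rfl h.symm) (fun h => c2 rfl h.symm)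
    have hy2 : y ≠ x2 := by
      rintro rfl
      exact three_left h1 e21 e32 hf hu12.symm (fun h => c3 rfl h.symm) (fun h => c4 rfl h.symm)
    have hv1 : v ≠ u1 := by
      rintro rfl
      exact three_right h2 e11 e21 hf hx12.symm hy1.symm hy2.symm
    have hv2 : v ≠ u2 := by
      rintro rfl
      exact three_right h2 e12 e32 hf hx12.symm hy1.symm hy2.symm
    obtain ⟨v', hv', ev'⟩ := hl _ _ hf
    obtain ⟨y', hy', ey'⟩ := hr _ _ hf
    have hsub : ({(x1, u1), (x1, u2), (x2, u1), (x2, u2), (y, v), (y, v'), (y', v)} :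
        Finset (V × V)) ⊆ F := by
      intro f hf'
      simp only [mem_insert, mem_singleton] at hf'
      rcases hf' with rfl | rfl | rfl | rfl | rfl | rfl | rfl <;> assumption
    have hcard : ({(x1, u1), (x1, u2), (x2, u1), (x2, u2), (y, v), (y, v'), (y', v)} :
        Finset (V × V)).card = 7 := by
      rw [Finset.card_insert_of_notMem (by
          simp [hx12.symm, hu12.symm, hy1.symm, hv1.symm]),
        Finset.card_insert_of_notMem (by
          simp [hx12.symm, hu12.symm, hy1.symm, hv2.symm]),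
        Finset.card_insert_of_notMem (by
          simp [hu12.symm, hy2.symm, hv1.symm]),
        Finset.card_insert_of_notMem (by
          simp [hy2.symm, hv2.symm]),
        Finset.card_insert_of_notMem (by
          simp [hv'.symm, hy'.symm]),
        Finset.card_insert_of_notMem (by
          simp [hv']), Finset.card_singleton]
    have := Finset.card_le_card hsub
    omega
  · obtain ⟨u3, hu31, e23⟩ := hl _ _ e21
    obtain ⟨u4, hu42, e34⟩ := hl _ _ e32
    have hu32 : u3 ≠ u2 := by
      rintro rfl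
      exact three_right h2 e12 e32 e23 hx13.symm hx12.symm (Ne.symm hx23)
    have hu41 : u4 ≠ u1 := by
      rintro rfl
      exact three_right h2 e11 e21 e34 hx12.symm hx13.symm hx23
    by_cases hu34 : u3 = u4
    · subst hu34
      obtain ⟨p, hp⟩ := hexagon x1 x2 x3 u1 u2 u3 hx12.symm hx13.symm hx23 hu12.symm hu31.symm
        hu32.symm (hXne _ _ _ _ e11 e11) (hXne _ _ _ _ e11 e12) (hXne _ _ _ _ e11 e23)
        (hXne _ _ _ _ e21 e11) (hXne _ _ _ _ e21 e12) (hXne _ _ _ _ e21 e23)
        (hXne _ _ _ _ e32 e11) (hXne _ _ _ _ e32 e12) (hXne _ _ _ _ e32 e23)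
      refine ⟨p, indep_mono hp ?_⟩
      have hsub : ({(x1, u1), (x1, u2), (x2, u1), (x2, u3), (x3, u2), (x3, u3)} :
          Finset (V × V)) ⊆ F := by
        intro f hf'
        simp only [mem_insert, mem_singleton] at hf'
        rcases hf' with rfl | rfl | rfl | rfl | rfl | rfl <;> assumption
      have hcard : ({(x1, u1), (x1, u2), (x2, u1), (x2, u3), (x3, u2), (x3, u3)} :
          Finset (V × V)).card = 6 := by
        rw [Finset.card_insert_of_notMem (by
            simp [hx12.symm, hx13.symm, hu12.symm]),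
          Finset.card_insert_of_notMem (by
            simp [hx12.symm, hx13.symm]),
          Finset.card_insert_of_notMem (by
            simp [hx23, hu31.symm]),
          Finset.card_insert_of_notMem (by
            simp [hx23]),
          Finset.card_insert_of_notMem (by
            simp [hu32.symm]), Finset.card_singleton]
      rw [Finset.eq_of_subset_of_card_le hsub (by omega)]
    · exfalso
      obtain ⟨y, hy2, ey3⟩ := hr _ _ e23
      have hsub : ({(x1, u1), (x1, u2), (x2, u1), (x2, u3), (x3, u2), (x3, u4), (y, u3)} :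
          Finset (V × V)) ⊆ F := by
        intro f hf'
        simp only [mem_insert, mem_singleton] at hf'
        rcases hf' with rfl | rfl | rfl | rfl | rfl | rfl | rfl <;> assumption
      have hcard : ({(x1, u1), (x1, u2), (x2, u1), (x2, u3), (x3, u2), (x3, u4), (y, u3)} :
          Finset (V × V)).card = 7 := by
        rw [Finset.card_insert_of_notMem (by
            simp [hx12.symm, hx13.symm, hu12.symm, hu31.symm]),
          Finset.card_insert_of_notMem (by
            simp [hx12.symm, hx13.symm, hu32.symm]),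
          Finset.card_insert_of_notMem (by
            simp [hx23, hu31.symm]),
          Finset.card_insert_of_notMem (by
            simp [hx23, hy2.symm]),
          Finset.card_insert_of_notMem (by
            simp [hu42.symm, hu32.symm]),
          Finset.card_insert_of_notMem (by
            simp [Ne.symm hu34]), Finset.card_singleton]
      have := Finset.card_le_card hsub
      omega

end Lines

/-- (B1) -/
theorem exists_lines (F : Finset (V × V)) (X : Finset V) (hF : ∀ e ∈ F, e.1 ∈ X ∧ e.2 ∉ X)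
    (hc : F.card ≤ 6) (h1 : ∀ x, (F.filter (fun e => e.1 = x)).card ≤ 2)
    (h2 : ∀ x, (F.filter (fun e => e.2 = x)).card ≤ 2) : ∃ p : V → P3, LinesIndep F p := by
  obtain ⟨n, hn⟩ : ∃ n, F.card = n := ⟨_, rfl⟩
  induction n using Nat.strong_induction_on generalizing F with
  | _ n ih =>
    have IH : ∀ e0 ∈ F, ∃ p : V → P3, LinesIndep (F.erase e0) p := by
      intro e0 he0
      have hcd : (F.erase e0).card < n := by
        rw [Finset.card_erase_of_mem he0, hn]
        have : 0 < F.card := Finset.card_pos.2 ⟨_, he0⟩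
        omega
      refine ih _ hcd (F.erase e0) (fun e he => hF e (mem_of_mem_erase he)) (by omega) ?_ ?_ rfl
      · intro x
        exact (Finset.card_le_card (Finset.filter_subset_filter _ (Finset.erase_subset _ _))).trans
          (h1 x)
      · intro x
        exact (Finset.card_le_card (Finset.filter_subset_filter _ (Finset.erase_subset _ _))).trans
          (h2 x)
    rcases F.eq_empty_or_nonempty with rfl | hne
    · exact ⟨0, fun ω _ _ e he => absurd he (Finset.notMem_empty _)⟩
    by_cases hR : ∃ e0 ∈ F, ∀ e ∈ F, e.2 = e0.2 → e = e0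
    · obtain ⟨e0, he0, hu⟩ := hR
      exact Lines.step F X hF hc h1 e0 he0 hu (IH e0 he0)
    by_cases hL : ∃ e0 ∈ F, ∀ e ∈ F, e.1 = e0.1 → e = e0
    · obtain ⟨e0, he0, hu⟩ := hL
      obtain ⟨p, hp⟩ := IH e0 he0
      have hsw : ∀ e, e ∈ F.image Prod.swap ↔ e.swap ∈ F := by
        intro e
        rw [mem_image]
        constructor
        · rintro ⟨f, hf, rfl⟩; simpa using hf
        · intro h; exact ⟨_, h, by simp⟩
      have hcdswap : (F.image Prod.swap).card = F.card :=
        Finset.card_image_of_injective _ Prod.swap_injective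
      have := Lines.step (F.image Prod.swap) Xᶜ ?_ ?_ ?_ e0.swap ?_ ?_ ?_
      · obtain ⟨q, hq⟩ := this
        exact ⟨q, Lines.indep_swap hq⟩
      · intro e he
        rw [hsw] at he
        have := hF _ he
        simp only [Prod.fst_swap, Prod.snd_swap] at this
        rw [mem_compl, mem_compl, not_not]
        exact ⟨this.2, this.1⟩
      · rw [hcdswap]; exact hc
      · intro x
        refine le_trans (le_of_eq ?_) (h2 x)
        rw [Finset.filter_image, Finset.card_image_of_injective _ Prod.swap_injective]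
        rfl
      · rw [hsw]; simpa using he0
      · intro e he h
        rw [hsw] at he
        have := hu _ he (by simpa using h)
        rw [← this]; simp
      · refine ⟨p, ?_⟩
        have : (F.image Prod.swap).erase e0.swap = (F.erase e0).image Prod.swap := by
          rw [Finset.image_erase Prod.swap_injective]
        rw [this]
        exact Lines.indep_swap' hp
    push Not at hR hL
    refine Lines.cycle_case F X hF hc h1 h2 hne ?_ ?_
    · intro x u hxu
      obtain ⟨⟨y, v⟩, hyv, h, hne⟩ := hL _ hxu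
      simp only at h
      subst h
      exact ⟨v, fun h => hne (by rw [h]), hyv⟩
    · intro x u hxu
      obtain ⟨⟨y, v⟩, hyv, h, hne⟩ := hR _ hxu
      simp only at h
      subst h
      exact ⟨y, fun h => hne (by rw [h]), hyv⟩

end Pool.Agent.H38.Rig
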