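import Pool.Agent.H38.Rig.Gen
import Pool.Agent.H38.Rig.JJP
import Pool.Agent.H38.Rig.Lines

set_option autoImplicit false
set_option linter.unusedSectionVars false
set_option linter.unusedVariables false

namespace Pool.Agent.H38.Rig

open Finset GenL

variable {V : Type} [Fintype V] [DecidableEq V]

/-! ### Edge cuts (helper27) -/

open Classical in
/-- independence of the lines of a cut is open along lines of placements -/
lemma lopen_lines (F : Finset (V × V)) : LOpen {p : V → P3 | LinesIndep F p} := by
  refine lopen_of_rows (ι := V × V) (κ := (Fin 3) ⊕ ((Fin 3) ⊕ (V × V))) _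
    (fun e k p => Sum.elim (fun k => if e ∈ F then (p e.1 - p e.2) k else 0)
      (Sum.elim (fun k => if e ∈ F then (crossProduct (p e.1) (p e.2)) k else 0)
        (fun f : V × V => if e = f ∧ e ∉ F then 1 else 0)) k) ?_ ?_
  · rintro e (k | k | f) p q
    · simp only [Sum.elim_inl]
      by_cases h : e ∈ F
      · simp only [h, if_true, Pi.sub_apply]
        exact (isPoly_coord p q _ k).sub (isPoly_coord p q _ k)
      · simp only [h, if_false]
        exact PolyF.const _
    · simp only [Sum.elim_inl, Sum.elim_inr]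
      by_cases h : e ∈ F
      · simp only [h, if_true]
        fin_cases k
        · simp only [cross_apply, Fin.zero_eta, Matrix.cons_val_zero]
          exact ((isPoly_coord p q _ _).mul (isPoly_coord p q _ _)).sub
            ((isPoly_coord p q _ _).mul (isPoly_coord p q _ _))
        · simp only [cross_apply, Fin.mk_one, Matrix.cons_val_one, Matrix.cons_val_zero]
          exact ((isPoly_coord p q _ _).mul (isPoly_coord p q _ _)).sub
            ((isPoly_coord p q _ _).mul (isPoly_coord p q _ _))
        · simp only [cross_apply, Fin.reduceFinMk, Matrix.cons_val]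
          exact ((isPoly_coord p q _ _).mul (isPoly_coord p q _ _)).sub
            ((isPoly_coord p q _ _).mul (isPoly_coord p q _ _))
      · simp only [h, if_false]
        exact PolyF.const _
    · exact PolyF.const _
  · intro p
    have key : ∀ c : V × V → ℝ, (∀ k : (Fin 3) ⊕ ((Fin 3) ⊕ (V × V)), ∑ e : V × V, c e *
        (Sum.elim (fun k => if e ∈ F then (p e.1 - p e.2) k else 0)
      (Sum.elim (fun k => if e ∈ F then (crossProduct (p e.1) (p e.2)) k else 0)
        (fun f : V × V => if e = f ∧ e ∉ F then (1 : ℝ) else 0)) k) = 0) ↔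
        ((∑ e ∈ F, c e • (p e.1 - p e.2) = 0) ∧
          (∑ e ∈ F, c e • (crossProduct (p e.1) (p e.2)) = 0) ∧ (∀ e, e ∉ F → c e = 0)) := by
      intro c
      rw [Sum.forall, Sum.forall]
      simp only [Sum.elim_inl, Sum.elim_inr]
      have e0 : ∀ g : V × V → P3, (∀ k, ∑ e : V × V, c e * (if e ∈ F then g e k else 0) = 0) ↔
          ∑ e ∈ F, c e • g e = 0 := by
        intro g
        have : ∀ k, ∑ e : V × V, c e * (if e ∈ F then g e k else 0) = (∑ e ∈ F, c e • g e) k := by
          intro k
          rw [Finset.sum_apply]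
          simp only [mul_ite, mul_zero, Pi.smul_apply, smul_eq_mul]
          rw [← Finset.sum_filter]
          congr 1
          ext e; simp
        constructor
        · intro h
          ext k
          rw [← this, h k]; rfl
        · intro h k
          rw [this, h]; rfl
      have e3 : (∀ a : V × V, ∑ x : V × V, c x * (if x = a ∧ x ∉ F then (1 : ℝ) else 0)
          = 0) ↔ (∀ e, e ∉ F → c e = 0) := by
        have h0 : ∀ a : V × V, ∑ x : V × V, c x * (if x = a ∧ x ∉ F then (1 : ℝ) else 0) =
            if a ∉ F then c a else 0 := by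
          intro a
          rw [Finset.sum_eq_single a]
          · simp
          · intro b _ hb; simp [hb]
          · simp
        constructor
        · intro h e he
          have := h e
          rw [h0, if_pos he] at this
          exact this
        · intro h e
          rw [h0]
          split_ifs with h1
          · rfl
          · exact h e h1
      rw [e0 (fun e => p e.1 - p e.2), e0 (fun e => crossProduct (p e.1) (p e.2)), e3]
    simp only [Set.mem_ofPred_eq]
    constructor
    · intro h c hc
      rw [key] at hc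
      ext e
      by_cases he : e ∈ F
      · exact h c hc.1 hc.2.1 e he
      · exact hc.2.2 e he
    · intro h ω h1 h2 e he
      have := h (fun e => if e ∈ F then ω e else 0) ((key _).2 ⟨?_, ?_, ?_⟩)
      · have := congrFun this e
        simpa [he] using this
      · rw [← h1]
        exact Finset.sum_congr rfl (fun e he => by rw [if_pos he])
      · rw [← h2]
        exact Finset.sum_congr rfl (fun e he => by rw [if_pos he])
      · intro e he
        rw [if_neg he]

/-- an antisymmetric double sum vanishes -/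
lemma sum_antisymm_cut {M : Type} [AddCommGroup M] [Module ℝ M] (X : Finset V) (g : V → V → M)
    (hg : ∀ u v, g u v = - g v u) : ∑ u ∈ X, ∑ v ∈ X, g u v = 0 := by
  have h1 : ∑ u ∈ X, ∑ v ∈ X, g u v = - ∑ u ∈ X, ∑ v ∈ X, g u v := by
    conv_lhs => rw [Finset.sum_comm]
    rw [← Finset.sum_neg_distrib]
    refine Finset.sum_congr rfl (fun v _ => ?_)
    rw [← Finset.sum_neg_distrib]
    exact Finset.sum_congr rfl (fun u _ => hg _ _)
  have h2 : (2 : ℝ) • ∑ u ∈ X, ∑ v ∈ X, g u v = 0 := by
    rw [two_smul]
    nth_rewrite 2 [h1]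
    simp
  have := smul_eq_zero.1 h2
  rcases this with h | h
  · norm_num at h
  · exact h

open Classical in
/-- the edges of the cut between `X` and its complement -/
noncomputable def cutE (G : SimpleGraph V) (X : Finset V) : Finset (V × V) :=
  (X ×ˢ Xᶜ).filter (fun e => G.Adj e.1 e.2)

lemma mem_cutE {G : SimpleGraph V} {X : Finset V} {e : V × V} :
    e ∈ cutE G X ↔ e.1 ∈ X ∧ e.2 ∉ X ∧ G.Adj e.1 e.2 := by
  classical
  simp [cutE, and_assoc]

lemma card_cutE (G : SimpleGraph V) (X : Finset V) : (cutE G X).card = bd G X := by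
  classical
  unfold bd cutE
  rw [eb_eq_sum, Finset.card_filter, Finset.sum_product]

lemma sum_cutE {M : Type} [AddCommMonoid M] (G : SimpleGraph V) (X : Finset V) (g : V → V → M)
    (hg : ∀ u v, ¬ G.Adj u v → g u v = 0) :
    ∑ e ∈ cutE G X, g e.1 e.2 = ∑ u ∈ X, ∑ v ∈ Xᶜ, g u v := by
  classical
  unfold cutE
  rw [Finset.sum_filter, Finset.sum_product]
  refine Finset.sum_congr rfl (fun u _ => Finset.sum_congr rfl (fun v _ => ?_))
  simp only
  split_ifs with h
  · rfl
  · exact (hg u v h).symm

/-- stress-freeness of a graph with an edge cut -/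
lemma stressFree_of_cut (G : SimpleGraph V) (X : Finset V) (p : V → P3)
    (h1 : StressFree (restr G X) p) (h2 : StressFree (restr G Xᶜ) p)
    (h3 : LinesIndep (cutE G X) p) : StressFree G p := by
  classical
  intro ω hsym hsupp heq
  -- forces
  have hF : ∑ e ∈ cutE G X, ω e.1 e.2 • (p e.1 - p e.2) = 0 := by
    rw [sum_cutE G X (fun u v => ω u v • (p u - p v)) (fun u v h => by rw [hsupp u v h, zero_smul])]
    have e1 : ∑ u ∈ X, ∑ v, ω u v • (p u - p v) = 0 :=
      Finset.sum_eq_zero (fun u _ => heq u)
    have e2 : ∑ u ∈ X, ∑ v ∈ X, ω u v • (p u - p v) = 0 := by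
      apply sum_antisymm_cut
      intro u v
      rw [hsym u v, ← smul_neg, neg_sub]
    have e3 : ∑ u ∈ X, ∑ v, ω u v • (p u - p v) = ∑ u ∈ X, ∑ v ∈ X, ω u v • (p u - p v) +
        ∑ u ∈ X, ∑ v ∈ Xᶜ, ω u v • (p u - p v) := by
      rw [← Finset.sum_add_distrib]
      exact Finset.sum_congr rfl (fun u _ => (Finset.sum_add_sum_compl X _).symm)
    rw [e1, e2, zero_add] at e3
    exact e3.symm
  -- torques
  have hT : ∑ e ∈ cutE G X, ω e.1 e.2 • (crossProduct (p e.1) (p e.2)) = 0 := by
    rw [sum_cutE G X (fun u v => ω u v • (crossProduct (p u) (p v)))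
      (fun u v h => by rw [hsupp u v h, zero_smul])]
    have e1 : ∑ u ∈ X, ∑ v, ω u v • (crossProduct (p u) (p v)) = 0 := by
      refine Finset.sum_eq_zero (fun u _ => ?_)
      have h := congrArg (crossProduct (p u)) (heq u)
      rw [map_sum, map_zero] at h
      have h' : ∑ v, ω u v • (crossProduct (p u) (p v)) =
          - ∑ v, (crossProduct (p u)) (ω u v • (p u - p v)) := by
        rw [← Finset.sum_neg_distrib]
        refine Finset.sum_congr rfl (fun v _ => ?_)
        rw [map_smul, map_sub, cross_self, zero_sub, smul_neg, neg_neg]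
      rw [h', h, neg_zero]
    have e2 : ∑ u ∈ X, ∑ v ∈ X, ω u v • (crossProduct (p u) (p v)) = 0 := by
      apply sum_antisymm_cut
      intro u v
      rw [hsym u v, ← smul_neg, cross_anticomm]
    have e3 : ∑ u ∈ X, ∑ v, ω u v • (crossProduct (p u) (p v)) =
        ∑ u ∈ X, ∑ v ∈ X, ω u v • (crossProduct (p u) (p v)) +
        ∑ u ∈ X, ∑ v ∈ Xᶜ, ω u v • (crossProduct (p u) (p v)) := by
      rw [← Finset.sum_add_distrib]
      exact Finset.sum_congr rfl (fun u _ => (Finset.sum_add_sum_compl X _).symm)
    rw [e1, e2, zero_add] at e3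
    exact e3.symm
  have hcut := h3 (fun e => ω e.1 e.2) hF hT
  have hcut' : ∀ u v, u ∈ X → v ∉ X → ω u v = 0 := by
    intro u v hu hv
    by_cases h : G.Adj u v
    · exact hcut (u, v) (mem_cutE.2 ⟨hu, hv, h⟩)
    · exact hsupp u v h
  -- stresses inside a side
  have hside : ∀ Y : Finset V, (∀ u v, u ∈ Y → v ∉ Y → ω u v = 0) → StressFree (restr G Y) p →
      ∀ u v, u ∈ Y → v ∈ Y → ω u v = 0 := by
    intro Y hY hfree u v hu hv
    have := hfree (fun u v => if u ∈ Y ∧ v ∈ Y then ω u v else 0)
      (by
        intro u v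
        simp only [and_comm (a := u ∈ Y), hsym u v])
      (by
        intro u v huv
        split_ifs with h
        · exact hsupp u v (fun h' => huv ⟨h', h.1, h.2⟩)
        · rfl)
      (by
        intro v
        by_cases hv : v ∈ Y
        · rw [← heq v]
          refine Finset.sum_congr rfl (fun u _ => ?_)
          by_cases hu : u ∈ Y
          · simp [hu, hv]
          · simp [hu, hY v u hv hu]
        · refine Finset.sum_eq_zero (fun u _ => ?_)
          simp [hv]) u v
    simpa [hu, hv] using this
  intro u v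
  by_cases hu : u ∈ X
  · by_cases hv : v ∈ X
    · exact hside X hcut' h1 u v hu hv
    · exact hcut' u v hu hv
  · by_cases hv : v ∈ X
    · rw [hsym]; exact hcut' v u hv hu
    · refine hside Xᶜ (fun u v hu hv => ?_) h2 u v (by simpa using hu) (by simpa using hv)
      rw [hsym]
      exact hcut' v u (by simpa using hv) (by simpa using hu)

lemma restr_le (G : SimpleGraph V) (X : Finset V) : ∀ a b, (restr G X).Adj a b → G.Adj a b :=
  fun a b h => h.1

/-- one side of a cut of a connected 5-regular sparse graph is independent -/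
lemma ind_restr (G : SimpleGraph V) (hs : Sparse G) (hr : Reg5 G) (hconn : Conn G)
    (X : Finset V) (w : V) (hw : w ∉ X) : Ind (restr G X) := by
  refine JJP (restr G X) w (sparse_of_le (restr_le G X) hs) (fun u _ => ?_) ?_
  · rw [← hr u]; exact Finset.card_le_card (nb_mono_of_le (restr_le G X) u)
  · intro C hC hwC hcl
    by_cases hCX : C ⊆ X
    · obtain ⟨u, huC, z, hzC, huz⟩ := hconn C hC (fun e => hwC (e ▸ Finset.mem_univ w))
      refine ⟨u, huC, ?_⟩
      have hzX : z ∉ X := by
        intro hzX
        rcases hcl u huC z ⟨huz, hCX huC, hzX⟩ with h | h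
        · exact hzC h
        · exact hw (h ▸ hzX)
      have h1 : nb (restr G X) u ⊆ (nb G u).erase z := by
        intro y hy
        rw [mem_nb] at hy
        rw [mem_erase, mem_nb]
        exact ⟨fun e => hzX (e ▸ hy.2.2), hy.1⟩
      have h2 := Finset.card_le_card h1
      rw [Finset.card_erase_of_mem (by rw [mem_nb]; exact huz), hr u] at h2
      exact h2
    · rw [Finset.not_subset] at hCX
      obtain ⟨z, hzC, hzX⟩ := hCX
      refine ⟨z, hzC, ?_⟩
      have : nb (restr G X) z = ∅ := by
        ext y
        rw [mem_nb]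
        constructor
        · intro h; exact absurd h.2.1 hzX
        · intro h; simp at h
      rw [this]; simp

/-- moving a vertex with at least three cut edges to the other side decreases the cut -/
lemma bd_erase_lt {G : SimpleGraph V} (hr : Reg5 G) {X : Finset V} {u : V} (hu : u ∈ X)
    (h3 : 3 ≤ (nb G u ∩ Xᶜ).card) : bd G (X.erase u) < bd G X := by
  have h1 := bd_reg hr X
  have h2 := bd_reg hr (X.erase u)
  have h3' := fz_erase G hu
  have h4 := card_nb_split G u X
  rw [hr u] at h4
  rw [Finset.card_erase_of_mem hu] at h2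
  have h5 : 0 < X.card := Finset.card_pos.2 ⟨u, hu⟩
  have h6 : ((X.card - 1 : ℕ) : ℤ) = (X.card : ℤ) - 1 := by omega
  rw [h6] at h2
  omega

/-- the cut lemma -/
theorem ind_of_cut (G : SimpleGraph V) (hs : Sparse G) (hr : Reg5 G) (hconn : Conn G)
    (X : Finset V) (h2 : 2 ≤ X.card) (hn : X.card + 2 ≤ Fintype.card V) (hd : bd G X ≤ 6) :
    Ind G := by
  classical
  -- choose `X` with minimal boundary
  set S : Finset (Finset V) := univ.filter (fun Y => 2 ≤ Y.card ∧ Y.card + 2 ≤ Fintype.card V)
    with hS
  have hXS : X ∈ S := by simp [hS, h2, hn]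
  obtain ⟨Y, hYS, hmin⟩ := Finset.exists_min_image S (bd G) ⟨X, hXS⟩
  have hY : 2 ≤ Y.card ∧ Y.card + 2 ≤ Fintype.card V := by simpa [hS] using hYS
  have hYd : bd G Y ≤ 6 := (hmin X hXS).trans hd
  -- both sides have at least six elements
  have hsix : ∀ Z : Finset V, 2 ≤ Z.card → bd G Z ≤ 6 → 6 ≤ Z.card := by
    intro Z hZ hZd
    have h := bd_reg hr Z
    by_cases h3 : 3 ≤ Z.card
    · have := hs Z h3
      omega
    · exfalso
      have h4 : Z.card = 2 := by omega
      obtain ⟨a, b, hab, rfl⟩ := Finset.card_eq_two.1 h4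
      have h5 := fz_pair G hab
      have h6 : (-1 : ℤ) ≤ fz G {a, b} := by rw [h5]; split_ifs <;> norm_num
      omega
  have hYc : Yᶜ.card = Fintype.card V - Y.card := Finset.card_compl Y
  have hY6 := hsix Y hY.1 hYd
  have hYc6 := hsix Yᶜ (by omega) (by rw [bd_compl]; exact hYd)
  -- cut degrees are at most two
  have hdeg : ∀ Z : Finset V, Z ∈ S → 6 ≤ Z.card → bd G Z = bd G Y → ∀ u ∈ Z,
      (nb G u ∩ Zᶜ).card ≤ 2 := by
    intro Z hZ hZ6 hZb u hu
    by_contra hc
    have h1 := bd_erase_lt hr hu (by omega)
    have h2 : Z.erase u ∈ S := by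
      simp only [hS, mem_filter, mem_univ, true_and] at hZ ⊢
      rw [Finset.card_erase_of_mem hu]
      omega
    have h3 := hmin _ h2
    omega
  have hYcS : Yᶜ ∈ S := by
    simp only [hS, mem_filter, mem_univ, true_and]
    omega
  -- vertices on both sides
  obtain ⟨y₀, hy₀⟩ : Y.Nonempty := Finset.card_pos.1 (by omega)
  obtain ⟨z₀, hz₀⟩ : Yᶜ.Nonempty := Finset.card_pos.1 (by omega)
  have hz₀' : z₀ ∉ Y := by simpa using hz₀
  obtain ⟨p1, hp1⟩ := ind_restr G hs hr hconn Y z₀ hz₀'
  obtain ⟨p2, hp2⟩ := ind_restr G hs hr hconn Yᶜ y₀ (by simpa using hy₀)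
  obtain ⟨p3, hp3⟩ := exists_lines (cutE G Y) Y (fun e he => by
      rw [mem_cutE] at he; exact ⟨he.1, he.2.1⟩)
    (by rw [card_cutE]; exact hYd)
    (by
      intro x
      by_cases hx : x ∈ Y
      · refine (Finset.card_le_card_of_injOn Prod.snd ?_ ?_).trans (hdeg Y hYS hY6 rfl x hx)
        · intro e he
          simp only [coe_filter, Set.mem_ofPred_eq, mem_cutE] at he
          simp only [coe_inter, Set.mem_inter_iff, mem_coe, mem_nb, mem_compl]
          obtain ⟨⟨h1, h2, h3⟩, rfl⟩ := he
          exact ⟨h3, h2⟩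
        · rintro ⟨a, b⟩ h1 ⟨c, d⟩ h2 h
          simp only [coe_filter, Set.mem_ofPred_eq] at h1 h2 h
          rw [h1.2, h2.2, h]
      · rw [Finset.card_eq_zero.2]
        · norm_num
        · rw [Finset.filter_eq_empty_iff]
          intro e he h
          rw [mem_cutE] at he
          exact hx (h ▸ he.1))
    (by
      intro x
      by_cases hx : x ∈ Y
      · rw [Finset.card_eq_zero.2]
        · norm_num
        · rw [Finset.filter_eq_empty_iff]
          intro e he h
          rw [mem_cutE] at he
          exact he.2.1 (h ▸ hx)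
      · have h := hdeg Yᶜ hYcS hYc6 (bd_compl G Y) x (by simpa using hx)
        rw [compl_compl] at h
        refine (Finset.card_le_card_of_injOn Prod.fst ?_ ?_).trans h
        · intro e he
          simp only [coe_filter, Set.mem_ofPred_eq, mem_cutE] at he
          simp only [coe_inter, Set.mem_inter_iff, mem_coe, mem_nb]
          obtain ⟨⟨h1, h2, h3⟩, rfl⟩ := he
          exact ⟨h3.symm, h1⟩
        · rintro ⟨a, b⟩ h1 ⟨c, d⟩ h2 h
          simp only [coe_filter, Set.mem_ofPred_eq] at h1 h2 h
          rw [h1.2, h2.2, h])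
  have l12 : ({p : V → P3 | StressFree (restr G Y) p} ∩
      {p : V → P3 | StressFree (restr G Yᶜ) p}).Nonempty :=
    (lopen_stressFree _).inter_nonempty (lopen_stressFree _) ⟨p1, hp1⟩ ⟨p2, hp2⟩
  obtain ⟨p, ⟨h1, h2⟩, h3⟩ := ((lopen_stressFree (restr G Y)).inter
    (lopen_stressFree (restr G Yᶜ))).inter_nonempty (lopen_lines (cutE G Y)) l12 ⟨p3, hp3⟩
  exact ⟨p, stressFree_of_cut G Y p h1 h2 h3⟩

end Pool.Agent.H38.Rig
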