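import Pool.Agent.H38.Rig.K4c

set_option autoImplicit false

namespace Pool.Agent.H38.Rig

open Finset

variable {V : Type} [Fintype V] [DecidableEq V]

/-- graphs with a `K4` have a good pair -/
theorem good_of_K4 {G : SimpleGraph V} (hs : Sparse G) (hr : Reg5 G) (hcut : Cut7 G)
    (hn : 12 ≤ Fintype.card V) (h4 : ¬ K4Free G) : HasGood G := by
  by_cases h : ∀ T : Finset V, T.card = 5 → ie G T ≤ 8
  · exact good_of_K4c hs hr hcut hn h h4
  · push Not at h
    obtain ⟨T, hT, hTe⟩ := h
    exact good_of_five hs hr hcut hn T hT hTe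

end Pool.Agent.H38.Rig
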