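import Pool.Agent.H38.Rig.Good

/-!
# Module H: `K_{6,6}` minus a perfect matching is independent
-/

set_option autoImplicit false
set_option linter.unusedSectionVars false
set_option linter.unusedVariables false

namespace Pool.Agent.H38.Rig

open Finset

namespace K66

/-- coordinates of the first class -/
def ca : Fin 6 → Fin 3 → ℝ := ![![-1, 1, 1], ![-1, -1, 1], ![-1, 1, -1], ![1, 0, 0], ![1, -1, 1], ![1, 0, -1]]

/-- coordinates of the second class -/
def cb : Fin 6 → Fin 3 → ℝ := ![![0, 1, -1], ![1, 1, -1], ![1, -1, -1], ![0, -1, -1], ![-1, 1, 0], ![1, -1, 0]]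

theorem solve (W : Fin 6 → Fin 6 → ℝ) (hd : ∀ i, W i i = 0)
    (hA : ∀ i c, ∑ j, W i j * (ca i c - cb j c) = 0)
    (hB : ∀ j c, ∑ i, W i j * (cb j c - ca i c) = 0) : ∀ i j, W i j = 0 := by
  have e00 : (-2) * W 0 1 + (-2) * W 0 2 + (-1) * W 0 3 + (-2) * W 0 5 = (0 : ℝ) := by
    have h := hA 0 0
    have hh := hd 0
    simp [Fin.sum_univ_six, ca, cb] at h
    linear_combination h - (-1) * hh
  have e01 : (2) * W 0 2 + (2) * W 0 3 + (2) * W 0 5 = (0 : ℝ) := by
    have h := hA 0 1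
    have hh := hd 0
    simp [Fin.sum_univ_six, ca, cb] at h
    linear_combination h - (0) * hh
  have e02 : (2) * W 0 1 + (2) * W 0 2 + (2) * W 0 3 + (1) * W 0 4 + (1) * W 0 5 = (0 : ℝ) := by
    have h := hA 0 2
    have hh := hd 0
    simp [Fin.sum_univ_six, ca, cb] at h
    linear_combination h - (2) * hh
  have e10 : (-1) * W 1 0 + (-2) * W 1 2 + (-1) * W 1 3 + (-2) * W 1 5 = (0 : ℝ) := by
    have h := hA 1 0
    have hh := hd 1
    simp [Fin.sum_univ_six, ca, cb] at h
    linear_combination h - (-2) * hh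
  have e11 : (-2) * W 1 0 + (-2) * W 1 4 = (0 : ℝ) := by
    have h := hA 1 1
    have hh := hd 1
    simp [Fin.sum_univ_six, ca, cb] at h
    linear_combination h - (-2) * hh
  have e12 : (2) * W 1 0 + (2) * W 1 2 + (2) * W 1 3 + (1) * W 1 4 + (1) * W 1 5 = (0 : ℝ) := by
    have h := hA 1 2
    have hh := hd 1
    simp [Fin.sum_univ_six, ca, cb] at h
    linear_combination h - (2) * hh
  have e20 : (-1) * W 2 0 + (-2) * W 2 1 + (-1) * W 2 3 + (-2) * W 2 5 = (0 : ℝ) := by
    have h := hA 2 0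
    have hh := hd 2
    simp [Fin.sum_univ_six, ca, cb] at h
    linear_combination h - (-2) * hh
  have e21 : (2) * W 2 3 + (2) * W 2 5 = (0 : ℝ) := by
    have h := hA 2 1
    have hh := hd 2
    simp [Fin.sum_univ_six, ca, cb] at h
    linear_combination h - (2) * hh
  have e22 : (-1) * W 2 4 + (-1) * W 2 5 = (0 : ℝ) := by
    have h := hA 2 2
    have hh := hd 2
    simp [Fin.sum_univ_six, ca, cb] at h
    linear_combination h - (0) * hh
  have e30 : (1) * W 3 0 + (2) * W 3 4 = (0 : ℝ) := by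
    have h := hA 3 0
    have hh := hd 3
    simp [Fin.sum_univ_six, ca, cb] at h
    linear_combination h - (1) * hh
  have e31 : (-1) * W 3 0 + (-1) * W 3 1 + (1) * W 3 2 + (-1) * W 3 4 + (1) * W 3 5 = (0 : ℝ) := by
    have h := hA 3 1
    have hh := hd 3
    simp [Fin.sum_univ_six, ca, cb] at h
    linear_combination h - (1) * hh
  have e32 : (1) * W 3 0 + (1) * W 3 1 + (1) * W 3 2 = (0 : ℝ) := by
    have h := hA 3 2
    have hh := hd 3
    simp [Fin.sum_univ_six, ca, cb] at h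
    linear_combination h - (1) * hh
  have e40 : (1) * W 4 0 + (1) * W 4 3 = (0 : ℝ) := by
    have h := hA 4 0
    have hh := hd 4
    simp [Fin.sum_univ_six, ca, cb] at h
    linear_combination h - (2) * hh
  have e41 : (-2) * W 4 0 + (-2) * W 4 1 = (0 : ℝ) := by
    have h := hA 4 1
    have hh := hd 4
    simp [Fin.sum_univ_six, ca, cb] at h
    linear_combination h - (-2) * hh
  have e42 : (2) * W 4 0 + (2) * W 4 1 + (2) * W 4 2 + (2) * W 4 3 + (1) * W 4 5 = (0 : ℝ) := by
    have h := hA 4 2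
    have hh := hd 4
    simp [Fin.sum_univ_six, ca, cb] at h
    linear_combination h - (1) * hh
  have e50 : (1) * W 5 0 + (1) * W 5 3 + (2) * W 5 4 = (0 : ℝ) := by
    have h := hA 5 0
    have hh := hd 5
    simp [Fin.sum_univ_six, ca, cb] at h
    linear_combination h - (0) * hh
  have e51 : (-1) * W 5 0 + (-1) * W 5 1 + (1) * W 5 2 + (1) * W 5 3 + (-1) * W 5 4 = (0 : ℝ) := by
    have h := hA 5 1
    have hh := hd 5
    simp [Fin.sum_univ_six, ca, cb] at h
    linear_combination h - (1) * hh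
  have e52 : (-1) * W 5 4 = (0 : ℝ) := by
    have h := hA 5 2
    have hh := hd 5
    simp [Fin.sum_univ_six, ca, cb] at h
    linear_combination h - (-1) * hh
  have f00 : (1) * W 1 0 + (1) * W 2 0 + (-1) * W 3 0 + (-1) * W 4 0 + (-1) * W 5 0 = (0 : ℝ) := by
    have h := hB 0 0
    have hh := hd 0
    simp [Fin.sum_univ_six, ca, cb] at h
    linear_combination h - (1) * hh
  have f01 : (2) * W 1 0 + (1) * W 3 0 + (2) * W 4 0 + (1) * W 5 0 = (0 : ℝ) := by
    have h := hB 0 1
    have hh := hd 0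
    simp [Fin.sum_univ_six, ca, cb] at h
    linear_combination h - (0) * hh
  have f02 : (-2) * W 1 0 + (-1) * W 3 0 + (-2) * W 4 0 = (0 : ℝ) := by
    have h := hB 0 2
    have hh := hd 0
    simp [Fin.sum_univ_six, ca, cb] at h
    linear_combination h - (-2) * hh
  have f10 : (2) * W 0 1 + (2) * W 2 1 = (0 : ℝ) := by
    have h := hB 1 0
    have hh := hd 1
    simp [Fin.sum_univ_six, ca, cb] at h
    linear_combination h - (2) * hh
  have f11 : (1) * W 3 1 + (2) * W 4 1 + (1) * W 5 1 = (0 : ℝ) := by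
    have h := hB 1 1
    have hh := hd 1
    simp [Fin.sum_univ_six, ca, cb] at h
    linear_combination h - (2) * hh
  have f12 : (-2) * W 0 1 + (-1) * W 3 1 + (-2) * W 4 1 = (0 : ℝ) := by
    have h := hB 1 2
    have hh := hd 1
    simp [Fin.sum_univ_six, ca, cb] at h
    linear_combination h - (-2) * hh
  have f20 : (2) * W 0 2 + (2) * W 1 2 = (0 : ℝ) := by
    have h := hB 2 0
    have hh := hd 2
    simp [Fin.sum_univ_six, ca, cb] at h
    linear_combination h - (2) * hh
  have f21 : (-2) * W 0 2 + (-1) * W 3 2 + (-1) * W 5 2 = (0 : ℝ) := by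
    have h := hB 2 1
    have hh := hd 2
    simp [Fin.sum_univ_six, ca, cb] at h
    linear_combination h - (-2) * hh
  have f22 : (-2) * W 0 2 + (-2) * W 1 2 + (-1) * W 3 2 + (-2) * W 4 2 = (0 : ℝ) := by
    have h := hB 2 2
    have hh := hd 2
    simp [Fin.sum_univ_six, ca, cb] at h
    linear_combination h - (0) * hh
  have f30 : (1) * W 0 3 + (1) * W 1 3 + (1) * W 2 3 + (-1) * W 4 3 + (-1) * W 5 3 = (0 : ℝ) := by
    have h := hB 3 0
    have hh := hd 3
    simp [Fin.sum_univ_six, ca, cb] at h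
    linear_combination h - (-1) * hh
  have f31 : (-2) * W 0 3 + (-2) * W 2 3 + (-1) * W 5 3 = (0 : ℝ) := by
    have h := hB 3 1
    have hh := hd 3
    simp [Fin.sum_univ_six, ca, cb] at h
    linear_combination h - (-1) * hh
  have f32 : (-2) * W 0 3 + (-2) * W 1 3 + (-2) * W 4 3 = (0 : ℝ) := by
    have h := hB 3 2
    have hh := hd 3
    simp [Fin.sum_univ_six, ca, cb] at h
    linear_combination h - (-1) * hh
  have f40 : (-2) * W 3 4 + (-2) * W 5 4 = (0 : ℝ) := by
    have h := hB 4 0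
    have hh := hd 4
    simp [Fin.sum_univ_six, ca, cb] at h
    linear_combination h - (-2) * hh
  have f41 : (2) * W 1 4 + (1) * W 3 4 + (1) * W 5 4 = (0 : ℝ) := by
    have h := hB 4 1
    have hh := hd 4
    simp [Fin.sum_univ_six, ca, cb] at h
    linear_combination h - (2) * hh
  have f42 : (-1) * W 0 4 + (-1) * W 1 4 + (1) * W 2 4 + (1) * W 5 4 = (0 : ℝ) := by
    have h := hB 4 2
    have hh := hd 4
    simp [Fin.sum_univ_six, ca, cb] at h
    linear_combination h - (-1) * hh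
  have f50 : (2) * W 0 5 + (2) * W 1 5 + (2) * W 2 5 = (0 : ℝ) := by
    have h := hB 5 0
    have hh := hd 5
    simp [Fin.sum_univ_six, ca, cb] at h
    linear_combination h - (0) * hh
  have f51 : (-2) * W 0 5 + (-2) * W 2 5 + (-1) * W 3 5 = (0 : ℝ) := by
    have h := hB 5 1
    have hh := hd 5
    simp [Fin.sum_univ_six, ca, cb] at h
    linear_combination h - (-1) * hh
  have f52 : (-1) * W 0 5 + (-1) * W 1 5 + (1) * W 2 5 + (-1) * W 4 5 = (0 : ℝ) := by
    have h := hB 5 2
    have hh := hd 5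
    simp [Fin.sum_univ_six, ca, cb] at h
    linear_combination h - (1) * hh
  have w01 : W 0 1 = 0 := by linear_combination (-1/2) * e00 + (-1/2) * e01 + (1/2) * e11 + (-1/2) * e30 + (-1) * e40 + (-3/4) * e50 + (-1/2) * e52 + (3/4) * f01 + (1/4) * f02 + (-1/2) * f30 + (-1/4) * f31 + (-1/4) * f32 + (-1/4) * f40 + (1/2) * f41
  have w02 : W 0 2 = 0 := by linear_combination (1/2) * e01 + (-1) * e10 + (-1) * e11 + (-1) * e12 + (1/2) * e21 + (1/2) * e30 + (1) * e40 + (2) * e50 + (3) * e52 + (-2) * f01 + (-3/2) * f02 + (1) * f30 + (1) * f31 + (1/4) * f40 + (-1/2) * f41 + (-1/2) * f50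
  have w03 : W 0 3 = 0 := by linear_combination (1) * e11 + (-1) * e30 + (-2) * e40 + (-3/2) * e50 + (-1) * e52 + (3/2) * f01 + (1/2) * f02 + (-1) * f30 + (-1/2) * f31 + (-1/2) * f32 + (-1/2) * f40 + (1) * f41
  have w04 : W 0 4 = 0 := by linear_combination (-1) * e11 + (-1/2) * e21 + (-1) * e22 + (1) * e30 + (2) * e40 + (1) * e50 + (-1) * e52 + (-1) * f01 + (1) * f30 + (1/2) * f32 + (1/4) * f40 + (-3/2) * f41 + (-1) * f42
  have w05 : W 0 5 = 0 := by linear_combination (1) * e10 + (1) * e12 + (-1/2) * e21 + (1/2) * e30 + (1) * e40 + (-1/2) * e50 + (-2) * e52 + (1/2) * f01 + (1) * f02 + (-1/2) * f31 + (1/2) * f32 + (1/4) * f40 + (-1/2) * f41 + (1/2) * f50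
  have w10 : W 1 0 = 0 := by linear_combination (-1/2) * e11 + (-1/4) * f40 + (-1/2) * f41
  have w12 : W 1 2 = 0 := by linear_combination (1/2) * e10 + (3/2) * e11 + (1) * e12 + (-3/4) * e30 + (-3/2) * e40 + (-9/4) * e50 + (-3) * e52 + (9/4) * f01 + (3/2) * f02 + (-3/2) * f30 + (-3/4) * f31 + (-1/4) * f40 + (1) * f41
  have w13 : W 1 3 = 0 := by linear_combination (-1/2) * e11 + (1/2) * e30 + (1) * e40 + (3/2) * e50 + (2) * e52 + (-3/2) * f01 + (-1) * f02 + (1) * f30 + (1/2) * f31 + (1/4) * f40 + (-1/2) * f41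
  have w14 : W 1 4 = 0 := by linear_combination (1/4) * f40 + (1/2) * f41
  have w15 : W 1 5 = 0 := by linear_combination (-1) * e10 + (-1) * e11 + (-1) * e12 + (1/2) * e30 + (1) * e40 + (3/2) * e50 + (2) * e52 + (-3/2) * f01 + (-1) * f02 + (1) * f30 + (1/2) * f31 + (1/4) * f40 + (-1/2) * f41
  have w20 : W 2 0 = 0 := by linear_combination (1) * e11 + (1/2) * e30 + (-1) * e52 + (1) * f00 + (1) * f01 + (1/2) * f02 + (1) * f40 + (1) * f41
  have w21 : W 2 1 = 0 := by linear_combination (-1) * e11 + (-1/2) * e20 + (-1/2) * e21 + (1/4) * e30 + (1) * e40 + (1/2) * e50 + (1/2) * e52 + (-1/2) * f00 + (-1) * f01 + (-1/4) * f02 + (1/2) * f30 + (1/4) * f32 + (-1/4) * f40 + (-1) * f41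
  have w23 : W 2 3 = 0 := by linear_combination (-1) * e11 + (1) * e30 + (2) * e40 + (1) * e50 + (-1) * f01 + (1) * f30 + (1/2) * f32 + (1/2) * f40 + (-1) * f41
  have w24 : W 2 4 = 0 := by linear_combination (-1) * e11 + (-1/2) * e21 + (-1) * e22 + (1) * e30 + (2) * e40 + (1) * e50 + (-1) * f01 + (1) * f30 + (1/2) * f32 + (1/2) * f40 + (-1) * f41
  have w25 : W 2 5 = 0 := by linear_combination (1) * e11 + (1/2) * e21 + (-1) * e30 + (-2) * e40 + (-1) * e50 + (1) * f01 + (-1) * f30 + (-1/2) * f32 + (-1/2) * f40 + (1) * f41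
  have w30 : W 3 0 = 0 := by linear_combination (1) * e30 + (-2) * e52 + (1) * f40
  have w31 : W 3 1 = 0 := by linear_combination (1) * e01 + (-1) * e10 + (-1/2) * e30 + (1) * e32 + (1) * e40 + (1) * e41 + (1) * e42 + (3/2) * e50 + (4) * e52 + (-3/2) * f01 + (-1) * f02 + (1) * f22 + (1) * f30 + (1/2) * f31 + (1) * f32 + (-1/2) * f40 + (-1/2) * f50 + (1) * f52
  have w32 : W 3 2 = 0 := by linear_combination (-1) * e01 + (1) * e10 + (-1/2) * e30 + (-1) * e40 + (-1) * e41 + (-1) * e42 + (-3/2) * e50 + (-2) * e52 + (3/2) * f01 + (1) * f02 + (-1) * f22 + (-1) * f30 + (-1/2) * f31 + (-1) * f32 + (-1/2) * f40 + (1/2) * f50 + (-1) * f52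
  have w34 : W 3 4 = 0 := by linear_combination (1) * e52 + (-1/2) * f40
  have w35 : W 3 5 = 0 := by linear_combination (-2) * e10 + (-2) * e11 + (-2) * e12 + (1) * e30 + (2) * e40 + (3) * e50 + (4) * e52 + (-3) * f01 + (-2) * f02 + (2) * f30 + (1) * f31 + (1/2) * f40 + (-1) * f41 + (-1) * f50 + (-1) * f51
  have w40 : W 4 0 = 0 := by linear_combination (1/2) * e11 + (-1/2) * e30 + (1) * e52 + (-1/2) * f02 + (-1/4) * f40 + (1/2) * f41
  have w41 : W 4 1 = 0 := by linear_combination (-1/2) * e11 + (1/2) * e30 + (-1/2) * e41 + (-1) * e52 + (1/2) * f02 + (1/4) * f40 + (-1/2) * f41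
  have w42 : W 4 2 = 0 := by linear_combination (-1/2) * e11 + (-1/2) * e21 + (1/2) * e30 + (1) * e40 + (1/2) * e41 + (1/2) * e42 + (1) * e50 + (1) * e52 + (-1) * f01 + (-1/2) * f02 + (1) * f30 + (1/2) * f32 + (1/4) * f40 + (-1/2) * f41 + (1/4) * f50 + (1/2) * f52
  have w43 : W 4 3 = 0 := by linear_combination (-1/2) * e11 + (1/2) * e30 + (1) * e40 + (-1) * e52 + (1/2) * f02 + (1/4) * f40 + (-1/2) * f41
  have w45 : W 4 5 = 0 := by linear_combination (2) * e11 + (1) * e21 + (-2) * e30 + (-4) * e40 + (-2) * e50 + (2) * f01 + (-2) * f30 + (-1) * f32 + (-1) * f40 + (2) * f41 + (-1/2) * f50 + (-1) * f52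
  have w50 : W 5 0 = 0 := by linear_combination (1) * f01 + (1) * f02
  have w51 : W 5 1 = 0 := by linear_combination (1) * e10 + (2) * e11 + (2) * e12 + (-1) * e21 + (-1/2) * e30 + (-1) * e40 + (1) * e41 + (1) * e42 + (-3/2) * e50 + (-1) * e51 + (-1) * e52 + (1/2) * f01 + (-1) * f21 + (1) * f22 + (-1) * f30 + (-3/2) * f31 + (1) * f32 + (1) * f41 + (1/2) * f50 + (1) * f52
  have w52 : W 5 2 = 0 := by linear_combination (1) * e10 + (2) * e11 + (2) * e12 + (-1) * e21 + (-1/2) * e30 + (-1) * e40 + (1) * e41 + (1) * e42 + (-5/2) * e50 + (-4) * e52 + (5/2) * f01 + (2) * f02 + (-1) * f21 + (1) * f22 + (-1) * f30 + (-3/2) * f31 + (1) * f32 + (1) * f41 + (1/2) * f50 + (1) * f52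
  have w53 : W 5 3 = 0 := by linear_combination (1) * e50 + (2) * e52 + (-1) * f01 + (-1) * f02
  have w54 : W 5 4 = 0 := by linear_combination (-1) * e52
  intro i j
  fin_cases i <;> fin_cases j <;> first | exact hd _ | assumption

/-- the placement -/
def pl (v : Fin 2 × Fin 6) : P3 := if v.1 = 0 then ca v.2 else cb v.2

lemma pl0 (i : Fin 6) : pl (0, i) = ca i := by simp [pl]

lemma pl1 (i : Fin 6) : pl (1, i) = cb i := by simp [pl]

end K66

theorem ind_K66PM : Ind K66PM := by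
  refine ⟨K66.pl, fun ω hs hz he => ?_⟩
  have h00 : ∀ i j, ω (0, i) (0, j) = 0 := fun i j => hz _ _ (fun h => h.1 rfl)
  have h11 : ∀ i j, ω (1, i) (1, j) = 0 := fun i j => hz _ _ (fun h => h.1 rfl)
  have hW := K66.solve (fun i j => ω (0, i) (1, j)) (fun i => hz _ _ (fun h => h.2 rfl))
    (by
      intro i c
      have h := congrFun (he (0, i)) c
      rw [Fintype.sum_prod_type, Fin.sum_univ_two] at h
      simp only [K66.pl0, K66.pl1, h00, zero_smul, Finset.sum_const_zero, zero_add,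
        Finset.sum_apply, Pi.smul_apply, Pi.sub_apply, smul_eq_mul, Pi.zero_apply] at h
      exact h)
    (by
      intro j c
      have h := congrFun (he (1, j)) c
      rw [Fintype.sum_prod_type, Fin.sum_univ_two] at h
      simp only [K66.pl0, K66.pl1, h11, zero_smul, Finset.sum_const_zero, add_zero,
        Finset.sum_apply, Pi.smul_apply, Pi.sub_apply, smul_eq_mul, Pi.zero_apply] at h
      simp only [hs (1, j)] at h
      exact h)
  rintro ⟨a, i⟩ ⟨b, j⟩
  fin_cases a <;> fin_cases b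
  · exact h00 i j
  · exact hW i j
  · exact (hs _ _).trans (hW j i)
  · exact h11 i j

theorem ind_of_iso {V : Type} [Fintype V] [DecidableEq V] {W : Type} [Fintype W] [DecidableEq W]
    {G : SimpleGraph V} {H : SimpleGraph W} (e : G ≃g H) (h : Ind H) : Ind G := by
  obtain ⟨p, hp⟩ := h
  refine ⟨fun v => p (e v), fun ω hs hz he => ?_⟩
  have key := hp (fun a b => ω (e.symm a) (e.symm b)) (fun a b => hs _ _)
    (fun a b hab => hz _ _ (fun h' => hab (by
      have := e.map_rel_iff.2 h'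
      simpa using this)))
    (fun a => by
      have h1 := he (e.symm a)
      rw [← h1]
      refine Fintype.sum_equiv e.toEquiv.symm _ _ (fun u => ?_)
      have h2 : e (e.symm a) = a := e.apply_symm_apply a
      have h3 : e (e.symm u) = u := e.apply_symm_apply u
      show ω (e.symm a) (e.symm u) • (p a - p u) =
        ω (e.symm a) (e.symm u) • (p (e (e.symm a)) - p (e (e.symm u)))
      rw [h2, h3])
  intro u v
  have := key (e u) (e v)
  simpa using this

end Pool.Agent.H38.Rig
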