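import Pool.Agent.H38.Rig.Good

set_option autoImplicit false
set_option linter.unusedSectionVars false
set_option linter.unusedVariables false

namespace Pool.Agent.H38.Rig

open Finset

namespace G1

variable {V : Type} [Fintype V] [DecidableEq V]

/-- degree inside `X` is at most `|X| - 1` -/
lemma deg_le (G : SimpleGraph V) {X : Finset V} {v : V} (hv : v ∈ X) :
    (nb G v ∩ X).card ≤ X.card - 1 := by
  rw [← card_erase_of_mem hv]
  apply card_le_card
  intro u hu
  rw [mem_inter, mem_nb] at hu
  exact mem_erase.2 ⟨fun h => G.irrefl (h ▸ hu.1), hu.2⟩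

/-- four vertices spanning six edges are pairwise adjacent -/
lemma adj_of_full (G : SimpleGraph V) {W : Finset V} (hW : W.card = 4) (hi : 6 ≤ ie G W) :
    ∀ u ∈ W, ∀ w ∈ W, u ≠ w → G.Adj u w := by
  intro u hu w hw huw
  have h1 := two_ie' G W
  have h2 : ∀ v ∈ W, (nb G v ∩ W).card ≤ 3 := fun v hv => by
    have := deg_le G hv
    omega
  have h3 : ∑ v ∈ W, (nb G v ∩ W).card = ∑ v ∈ W, 3 := by
    apply le_antisymm (Finset.sum_le_sum h2)
    rw [Finset.sum_const, hW, smul_eq_mul]
    omega
  have h4 := (Finset.sum_eq_sum_iff_of_le h2).1 h3 u hu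
  have h5 : nb G u ∩ W = W.erase u := by
    apply eq_of_subset_of_card_le
    · intro z hz
      rw [mem_inter, mem_nb] at hz
      exact mem_erase.2 ⟨fun h => G.irrefl (h ▸ hz.1), hz.2⟩
    · rw [card_erase_of_mem hu, h4]; omega
  have h6 : w ∈ nb G u ∩ W := by rw [h5]; exact mem_erase.2 ⟨huw.symm, hw⟩
  rw [mem_inter, mem_nb] at h6
  exact h6.1

lemma no_K4 {G : SimpleGraph V} (h4 : K4Free G) {W : Finset V} (hW : W.card = 4)
    (hi : 6 ≤ ie G W) : False := by
  have h := adj_of_full G hW hi
  obtain ⟨a, T, haT, rfl, hT⟩ := Finset.card_eq_succ.1 hW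
  obtain ⟨b, c, d, hbc, hbd, hcd, rfl⟩ := Finset.card_eq_three.1 hT
  simp only [mem_insert, mem_singleton, not_or] at haT
  obtain ⟨hab, hac, had⟩ := haT
  exact h4 a b c d (h a (by simp) b (by simp) hab) (h a (by simp) c (by simp) hac)
    (h a (by simp) d (by simp) had) (h b (by simp) c (by simp) hbc)
    (h b (by simp) d (by simp) hbd) (h c (by simp) d (by simp) hcd)

/-- tight sets with four or five elements contain a `K4` -/
lemma no_tight {G : SimpleGraph V} (hs : Sparse G) (h4 : K4Free G) {W : Finset V}
    (hW : 4 ≤ W.card) (hW' : W.card ≤ 5) (hf : fz G W ≤ 0) : False := by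
  have hf' := hs W (by omega)
  rw [fz_def] at hf hf'
  rcases (by omega : W.card = 4 ∨ W.card = 5) with hc | hc
  · exact no_K4 h4 hc (by rw [hc] at hf; push_cast at hf; omega)
  · have hi : ie G W = 9 := by rw [hc] at hf hf'; push_cast at hf hf'; omega
    have h1 := two_ie' G W
    by_cases hall : ∀ v ∈ W, 4 ≤ (nb G v ∩ W).card
    · have h2 : ∑ v ∈ W, 4 ≤ ∑ v ∈ W, (nb G v ∩ W).card := Finset.sum_le_sum hall
      rw [Finset.sum_const, hc, smul_eq_mul] at h2
      omega
    · push Not at hall
      obtain ⟨v, hv, hd⟩ := hall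
      have h3 := ie_insert G (notMem_erase v W)
      rw [insert_erase hv, nb_inter_erase_self] at h3
      exact no_K4 h4 (W := W.erase v) (by rw [card_erase_of_mem hv]; omega) (by omega)

/-- a star `K_{1,4}` in `N(h)` and its complement: no four neighbours of `h` span four edges -/
lemma no_wheel' {G : SimpleGraph V} (hr : Reg5 G) (h4 : K4Free G) (h2 : NoAdjTwo G) (h : V)
    (R : Finset V) (hR : R ⊆ nb G h) (hRc : R.card = 4) : ie G R ≤ 3 := by
  by_contra hcon
  push Not at hcon
  have hN := hr h
  -- the fifth neighbour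
  have hadj : ∀ r ∈ R, G.Adj h r := fun r hr' => by simpa using hR hr'
  have htri : ∀ a ∈ nb G h, ∀ b ∈ nb G h, ∀ c ∈ nb G h, G.Adj a b → G.Adj a c → G.Adj b c →
      False := by
    intro a ha b hb c hc hab hac hbc
    rw [mem_nb] at ha hb hc
    exact h4 h a b c ha hb hc hab hac hbc
  have hdeg2 : ∀ r ∈ nb G h, (nb G r ∩ nb G h).card ≠ 2 := by
    intro r hr'
    have := h2 h r (by simpa using hr')
    rwa [cn, inter_comm] at this
  have hsum := two_ie' G R
  have hR3 : ∀ r ∈ R, (nb G r ∩ R).card ≤ 3 := fun r hr' => by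
    have := deg_le G hr'
    omega
  -- a vertex of degree at least two in `R`
  obtain ⟨r, hrR, hr2⟩ : ∃ r ∈ R, 2 ≤ (nb G r ∩ R).card := by
    by_contra hno
    push Not at hno
    have : ∑ v ∈ R, (nb G v ∩ R).card ≤ ∑ v ∈ R, 1 := Finset.sum_le_sum (fun v hv => by
      have := hno v hv; omega)
    rw [Finset.sum_const, hRc, smul_eq_mul] at this
    omega
  -- every vertex of `R` with an `R`-neighbour of degree three ...
  obtain ⟨e, heR⟩ : ∃ e, nb G h \ R = {e} := card_eq_one.1 (by
    rw [card_sdiff_of_subset hR, hN, hRc])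
  have he : e ∈ nb G h ∧ e ∉ R := by
    have : e ∈ nb G h \ R := by rw [heR]; simp
    simpa using this
  have hNe : nb G h = insert e R := by
    ext u
    constructor
    · intro hu
      by_cases hu' : u ∈ R
      · simp [hu']
      · have : u ∈ nb G h \ R := mem_sdiff.2 ⟨hu, hu'⟩
        rw [heR] at this
        simp at this
        simp [this]
    · intro hu
      rw [mem_insert] at hu
      rcases hu with rfl | hu
      · exact he.1
      · exact hR hu
  -- degree in `N(h)` = degree in `R` + [adjacent to `e`]
  have hdegN : ∀ r, (nb G r ∩ nb G h).card = (nb G r ∩ R).card + (nb G r ∩ {e}).card := by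
    intro r
    rw [hNe, insert_eq, inter_union_distrib_left, card_union_of_disjoint, add_comm]
    rw [disjoint_left]
    intro u hu hu'
    rw [mem_inter, mem_singleton] at hu
    rw [mem_inter] at hu'
    exact he.2 (hu.2 ▸ hu'.2)
  have hele : ∀ r, (nb G r ∩ {e}).card ≤ 1 := fun r => by
    have := card_le_card (inter_subset_right (s₁ := nb G r) (s₂ := {e}))
    simpa using this
  -- two adjacent vertices of `R` have no common neighbour in `N(h)`
  have hdis : ∀ a ∈ nb G h, ∀ b ∈ nb G h, G.Adj a b →
      (nb G a ∩ nb G h).card + (nb G b ∩ nb G h).card ≤ 5 := by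
    intro a ha b hb hab
    rw [← card_union_of_disjoint]
    · rw [← hN]
      exact card_le_card (union_subset inter_subset_right inter_subset_right)
    · rw [disjoint_left]
      intro u hu hu'
      rw [mem_inter, mem_nb] at hu hu'
      exact htri a ha b hb u hu.2 hab hu.1 hu'.1
  -- neighbours of a vertex of degree ≥ 3 have degree 1 (not 2, ≤ 2)
  have h3 : ∀ a ∈ nb G h, 2 ≤ (nb G a ∩ nb G h).card → ∀ b ∈ nb G h, G.Adj a b →
      (nb G b ∩ nb G h).card = 1 ∧ nb G b ∩ nb G h = {a} := by
    intro a ha ha2 b hb hab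
    have h5 := hdis a ha b hb hab
    have h6 := hdeg2 a ha
    have h7 := hdeg2 b hb
    have hab' : a ∈ nb G b ∩ nb G h := by simp [hab.symm]; simpa using ha
    have h8 : 0 < (nb G b ∩ nb G h).card := card_pos.2 ⟨a, hab'⟩
    have h9 : (nb G b ∩ nb G h).card = 1 := by omega
    obtain ⟨z, hz⟩ := card_eq_one.1 h9
    refine ⟨h9, ?_⟩
    rw [hz] at hab' ⊢
    rw [mem_singleton] at hab'
    rw [hab']
  have hrN := hR hrR
  have hrd : 2 ≤ (nb G r ∩ nb G h).card := by rw [hdegN]; omega
  -- count the edges of R : all at r, plus edges among non-neighbours (at most one non-neighbour)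
  have h10 := ie_insert G (notMem_erase r R)
  rw [insert_erase hrR, nb_inter_erase_self] at h10
  have hrd3 : 3 ≤ (nb G r ∩ nb G h).card := by
    have := hdeg2 r hrN; omega
  have hr3 : 2 ≤ (nb G r ∩ R).card := hr2
  -- R.erase r spans no edges
  have h11 : ie G (R.erase r) = 0 := by
    have h12 := two_ie' G (R.erase r)
    have h13 : ∀ w ∈ R.erase r, (nb G w ∩ R.erase r).card = 0 := by
      intro w hw
      rw [card_eq_zero, eq_empty_iff_forall_notMem]
      intro u hu
      rw [mem_inter, mem_nb, mem_erase] at hu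
      rw [mem_erase] at hw
      -- if w is adjacent to r then its only neighbour in N(h) is r
      by_cases hwr : G.Adj r w
      · have := (h3 r hrN hrd w (hR hw.2) hwr).2
        have hu' : u ∈ nb G w ∩ nb G h := by
          rw [mem_inter, mem_nb]; exact ⟨hu.1, hR hu.2.2⟩
        rw [this, mem_singleton] at hu'
        exact hu.2.1 hu'
      · by_cases hur : G.Adj r u
        · have := (h3 r hrN hrd u (hR hu.2.2) hur).2
          have hw' : w ∈ nb G u ∩ nb G h := by
            rw [mem_inter, mem_nb]; exact ⟨hu.1.symm, hR hw.2⟩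
          rw [this, mem_singleton] at hw'
          exact hw.1 hw'
        · -- two non-neighbours of r in R: deg_R r ≤ 1
          have h14 : nb G r ∩ R ⊆ (R.erase r \ {w, u}) := by
            intro z hz
            rw [mem_inter, mem_nb] at hz
            simp only [mem_sdiff, mem_erase, mem_insert, mem_singleton, not_or]
            refine ⟨⟨fun e' => G.irrefl (e' ▸ hz.1), hz.2⟩, fun e' => hwr (e' ▸ hz.1),
              fun e' => hur (e' ▸ hz.1)⟩
          have h15 := card_le_card h14
          have h16 : ({w, u} : Finset V) ⊆ R.erase r := by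
            intro z hz
            simp only [mem_insert, mem_singleton] at hz
            rcases hz with rfl | rfl
            · exact mem_erase.2 hw
            · exact mem_erase.2 hu.2
          rw [card_sdiff_of_subset h16, card_erase_of_mem hrR,
            card_pair (G.ne_of_adj hu.1)] at h15
          omega
    rw [Finset.sum_eq_zero h13] at h12
    omega
  have := hR3 r hrR
  omega

end G1

variable {V : Type} [Fintype V] [DecidableEq V]

/-- (G1; holds for all n ≥ 12) -/
theorem good_of_three {G : SimpleGraph V} (hs : Sparse G) (hr : Reg5 G) (hcut : Cut7 G)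
    (hn : 12 ≤ Fintype.card V) (h4 : K4Free G) (h2 : NoAdjTwo G) {x y : V} (hxy : x ≠ y)
    (hnadj : ¬ G.Adj x y) (hc : (cn G x y).card = 3) : GoodN G x y := by
  classical
  refine ⟨hxy, hnadj, by omega, by omega, ?_⟩
  intro Y hx hy hY6
  by_contra hcon
  push Not at hcon
  have hcY : (cn G x y ∩ Y).card ≤ 3 := by
    rw [← hc]; exact card_le_card inter_subset_left
  have hYn : Y ≠ univ := by
    rintro rfl
    rw [inter_univ, hc] at hcon
    have := hs univ (by rw [card_univ]; omega)
    push_cast at hcon
    omega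
  have hc1 : (cn G x y ∩ Y).card ≤ 1 := by
    by_contra h
    push Not at h
    have hf : fz G Y ≤ 0 := by omega
    rcases tight_cases hr hcut hn (X := Y) (by omega) hf with h' | h'
    · omega
    · exact hYn h'.1
  have hY11 : ¬ (Y.card = 11 ∧ Fintype.card V = 12) := by
    rintro ⟨h1, h2'⟩
    have h3 : Yᶜ.card = 1 := by rw [card_compl, h1, h2']
    have h5 : cn G x y ⊆ (cn G x y ∩ Y) ∪ Yᶜ := by
      intro u hu
      by_cases h : u ∈ Y
      · exact mem_union_left _ (mem_inter.2 ⟨hu, h⟩)
      · exact mem_union_right _ (mem_compl.2 h)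
    have h6 := (card_le_card h5).trans (card_union_le _ _)
    omega
  have hY9 : Y.card ≤ 9 := by
    rcases two_cases hr hcut hn (X := Y) (by omega) (by omega) with h | h | h
    · exact h
    · exact absurd h.1 hYn
    · exact absurd h hY11
  -- degrees of x and y
  have hdeg : ∀ z, cn G x y ⊆ nb G z → (nb G z ∩ Y).card ≤ 2 + (cn G x y ∩ Y).card := by
    intro z hz
    have h1 := card_nb_split G z Y
    rw [hr z] at h1
    have h3 : (cn G x y ∩ Y).card + (cn G x y \ Y).card = (cn G x y).card :=
      card_inter_add_card_sdiff _ _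
    have h5 : (cn G x y \ Y).card ≤ (nb G z ∩ Yᶜ).card := by
      apply card_le_card
      intro u hu
      rw [mem_sdiff] at hu
      exact mem_inter.2 ⟨hz hu.1, mem_compl.2 hu.2⟩
    omega
  have hdx := hdeg x inter_subset_left
  have hdy := hdeg y inter_subset_right
  have hW := fz_sdiff_pair G hxy hx hy
  rw [if_neg hnadj] at hW
  set W := Y \ {x, y} with hWdef
  have hWc : W.card + 2 = Y.card := by
    rw [hWdef, card_sdiff_of_subset, card_pair hxy]
    · omega
    · intro z hz
      simp only [mem_insert, mem_singleton] at hz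
      rcases hz with rfl | rfl <;> assumption
  rcases (by omega : (cn G x y ∩ Y).card = 0 ∨ (cn G x y ∩ Y).card = 1) with h0 | h1
  · rw [h0] at hcon hdx hdy
    have hfW : fz G W ≤ 0 := by push_cast at hcon; omega
    rcases tight_cases hr hcut hn (X := W) (by omega) hfW with h' | h'
    · exact G1.no_tight hs h4 (by omega) h' hfW
    · have : W.card = Fintype.card V := by rw [h'.1, card_univ]
      omega
  · rw [h1] at hcon hdx hdy
    have hfY : fz G Y ≤ 1 := by push_cast at hcon; omega
    have hY7 : Y.card ≤ 7 := by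
      rcases one_cases hr hcut hn (X := Y) (by omega) hfY with h | h
      · exact h
      · exact absurd h.1 hYn
    have hfW1 : fz G W ≤ 1 := by omega
    by_cases hfW : fz G W ≤ 0
    · exact G1.no_tight hs h4 (by omega) (by omega) hfW
    · have hfW' : fz G W = 1 := by omega
      have hdx3 : (nb G x ∩ Y).card = 3 := by omega
      have hdy3 : (nb G y ∩ Y).card = 3 := by omega
      -- |W| ≥ 5
      have h5 : (nb G x ∩ Y) ∪ (nb G y ∩ Y) ⊆ W := by
        intro u hu
        rw [hWdef]
        simp only [mem_sdiff, mem_insert, mem_singleton, not_or]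
        simp only [mem_union, mem_inter, mem_nb] at hu
        rcases hu with ⟨hu1, hu2⟩ | ⟨hu1, hu2⟩
        · exact ⟨hu2, fun e => G.irrefl (e ▸ hu1), fun e => hnadj (e ▸ hu1)⟩
        · exact ⟨hu2, fun e => hnadj (e ▸ hu1.symm), fun e => G.irrefl (e ▸ hu1)⟩
      have h6 := card_le_card h5
      have h7 := card_union_add_card_inter (nb G x ∩ Y) (nb G y ∩ Y)
      have h8 : (nb G x ∩ Y) ∩ (nb G y ∩ Y) = cn G x y ∩ Y := by
        ext u; simp only [cn, mem_inter]; tauto
      rw [h8, h1, hdx3, hdy3] at h7
      have hW5 : W.card = 5 := by omega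
      have hi : ie G W = 8 := by
        rw [fz_def, hW5] at hfW'
        push_cast at hfW'
        omega
      -- a vertex of degree four in W
      have h9 := two_ie' G W
      obtain ⟨h, hhW, hh4⟩ : ∃ h ∈ W, 4 ≤ (nb G h ∩ W).card := by
        by_contra hno
        push Not at hno
        have : ∑ v ∈ W, (nb G v ∩ W).card ≤ ∑ v ∈ W, 3 := Finset.sum_le_sum (fun v hv => by
          have := hno v hv; omega)
        rw [Finset.sum_const, hW5, smul_eq_mul] at this
        omega
      have hh4' := G1.deg_le G hhW
      have h10 := ie_insert G (notMem_erase h W)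
      rw [insert_erase hhW, nb_inter_erase_self] at h10
      have h11 : nb G h ∩ W = W.erase h := by
        apply eq_of_subset_of_card_le
        · intro z hz
          rw [mem_inter, mem_nb] at hz
          exact mem_erase.2 ⟨fun h => G.irrefl (h ▸ hz.1), hz.2⟩
        · rw [card_erase_of_mem hhW]; omega
      have h12 : W.erase h ⊆ nb G h := by
        rw [← h11]; exact inter_subset_left
      have h13 := G1.no_wheel' hr h4 h2 h (W.erase h) h12 (by rw [card_erase_of_mem hhW]; omega)
      omega

end Pool.Agent.H38.Rig
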