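import Pool.Agent.H38.Rig.Wheel

set_option autoImplicit false
set_option linter.unusedSectionVars false
set_option linter.unusedVariables false

namespace Pool.Agent.H38.Rig

open Finset

variable {V : Type} [Fintype V] [DecidableEq V]

/-- an adjacent pair with exactly two common neighbours is good -/
theorem good_of_adj_two {G : SimpleGraph V} (hs : Sparse G) (hr : Reg5 G) (hcut : Cut7 G)
    (hn : 12 ≤ Fintype.card V) (h4 : K4Free G) {x y : V} (hxy : G.Adj x y)
    (hc : (cn G x y).card = 2) : GoodA G x y := by
  classical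
  have hne := G.ne_of_adj hxy
  refine ⟨hxy, by omega, by omega, ?_⟩
  intro Y hx hy hY6
  by_contra hcon
  push Not at hcon
  have hYn : Y ≠ univ := by
    rintro rfl
    rw [inter_univ, hc] at hcon
    have := hs univ (by rw [card_univ]; omega)
    push_cast at hcon
    omega
  have hpos : ¬ fz G Y ≤ 0 := by
    intro hf
    rcases tight_cases hr hcut hn (X := Y) (by omega) hf with h' | h'
    · omega
    · exact hYn h'.1
  have hc0 : (cn G x y ∩ Y).card = 0 := by omega
  have hf1 : fz G Y = 1 := by omega
  have hcY : ∀ z, z ∈ cn G x y → z ∉ Y := by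
    intro z hz hzY
    have : z ∈ cn G x y ∩ Y := mem_inter.2 ⟨hz, hzY⟩
    rw [card_eq_zero.1 hc0] at this
    simp at this
  have hdeg : ∀ z, cn G x y ⊆ nb G z → (nb G z ∩ Y).card ≤ 3 := by
    intro z hz
    have h1 := card_nb_split G z Y
    rw [hr z] at h1
    have h5 : (cn G x y).card ≤ (nb G z ∩ Yᶜ).card := by
      apply card_le_card
      intro u hu
      exact mem_inter.2 ⟨hz hu, mem_compl.2 (hcY u hu)⟩
    omega
  have hdx := hdeg x inter_subset_left
  have hdy := hdeg y inter_subset_right
  have hW := fz_sdiff_pair G hne hx hy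
  rw [if_pos hxy] at hW
  have hWc : (Y \ {x, y}).card + 2 = Y.card := by
    rw [card_sdiff_of_subset, card_pair hne]
    · omega
    · intro z hz
      simp only [mem_insert, mem_singleton] at hz
      rcases hz with rfl | rfl <;> assumption
  have hfW : fz G (Y \ {x, y}) ≤ 0 := by omega
  rcases tight_cases hr hcut hn (X := Y \ {x, y}) (by omega) hfW with h' | h'
  · exact G1.no_tight hs h4 (by omega) h' hfW
  · have h5 : (Y \ {x, y}).card = Fintype.card V := by rw [h'.1, card_univ]
    have h6 := Finset.card_le_univ Y
    omega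

/-- if some adjacent pair has a common neighbour, some adjacent pair has exactly one -/
lemma exists_adj_one {G : SimpleGraph V} (hr : Reg5 G) (h4 : K4Free G) (h2 : NoAdjTwo G)
    (htri : ∃ x y, G.Adj x y ∧ (cn G x y).Nonempty) :
    ∃ x y, G.Adj x y ∧ (cn G x y).card = 1 := by
  classical
  by_contra hno
  push Not at hno
  obtain ⟨x, y, hxy, z, hz⟩ := htri
  have h1 := hno x y hxy
  have h3 := h2 x y hxy
  have h5 : 0 < (cn G x y).card := card_pos.2 ⟨z, hz⟩
  have h6 : 3 ≤ (cn G x y).card := by omega
  have hz' : G.Adj x z ∧ G.Adj y z := by simpa [cn] using hz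
  -- neighbours of x that are also neighbours of z
  have h7 : cn G x z ⊆ insert y (nb G x \ (insert y (cn G x y))) := by
    intro u hu
    simp only [cn, mem_inter, mem_nb] at hu
    by_cases huy : u = y
    · simp [huy]
    · rw [mem_insert]
      right
      simp only [mem_sdiff, mem_nb, mem_insert, cn, mem_inter, not_or, not_and]
      refine ⟨hu.1, huy, fun _ hyu => ?_⟩
      exact h4 x y z u hxy hz'.1 hu.1 hz'.2 hyu hu.2
  have h8 : (nb G x \ (insert y (cn G x y))).card ≤ 1 := by
    rw [card_sdiff_of_subset, hr x, card_insert_of_notMem]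
    · omega
    · simp [cn]
    · intro u hu
      rw [mem_insert] at hu
      rcases hu with rfl | hu
      · simpa using hxy
      · exact inter_subset_left hu
  have h9 := (card_le_card h7).trans (card_insert_le _ _)
  have h10 := h2 x z hz'.1
  have h11 := hno x z hz'.1
  have h12 : 0 < (cn G x z).card := card_pos.2 ⟨y, by simp [cn, hxy, hz'.2.symm]⟩
  omega

theorem good_of_triangle {G : SimpleGraph V} (hs : Sparse G) (hr : Reg5 G) (hcut : Cut7 G)
    (hn : 14 ≤ Fintype.card V) (h4 : K4Free G) (h2 : NoAdjTwo G)
    (htri : ∃ x y, G.Adj x y ∧ (cn G x y).Nonempty) : HasGood G := by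
  classical
  obtain ⟨x, y, hxy, hc⟩ := exists_adj_one hr h4 h2 htri
  left
  refine ⟨x, y, hxy, by omega, by omega, ?_⟩
  have hne := G.ne_of_adj hxy
  intro Y hx hy hY6
  by_contra hcon
  push Not at hcon
  have hYn : Y ≠ univ := by
    rintro rfl
    rw [inter_univ, hc] at hcon
    have := fz_univ hr
    push_cast at hcon
    omega
  have hpos : ¬ fz G Y ≤ 0 := by
    intro hf
    rcases tight_cases hr hcut (by omega) (X := Y) (by omega) hf with h' | h'
    · omega
    · exact hYn h'.1
  have hc0 : (cn G x y ∩ Y).card = 0 := by omega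
  have hf1 : fz G Y = 1 := by omega
  have hY7 : Y.card ≤ 7 := by
    rcases one_cases hr hcut (by omega) (X := Y) (by omega) (by omega) with h | h
    · exact h
    · exact absurd h.1 hYn
  have hcY : ∀ z, z ∈ cn G x y → z ∉ Y := by
    intro z hz hzY
    have : z ∈ cn G x y ∩ Y := mem_inter.2 ⟨hz, hzY⟩
    rw [card_eq_zero.1 hc0] at this
    simp at this
  -- degrees of x and y in Y
  have hdeg : (nb G x ∩ Y).card + (nb G y ∩ Y).card ≤ Y.card := by
    rw [← card_union_of_disjoint]
    · exact card_le_card (union_subset inter_subset_right inter_subset_right)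
    · rw [disjoint_left]
      intro u hu hu'
      rw [mem_inter] at hu hu'
      exact hcY u (mem_inter.2 ⟨hu.1, hu'.1⟩) hu.2
  have hW := fz_sdiff_pair G hne hx hy
  rw [if_pos hxy] at hW
  have hWc : (Y \ {x, y}).card + 2 = Y.card := by
    rw [card_sdiff_of_subset, card_pair hne]
    · omega
    · intro z hz
      simp only [mem_insert, mem_singleton] at hz
      rcases hz with rfl | rfl <;> assumption
  set W := Y \ {x, y} with hWdef
  rcases (by omega : Y.card = 6 ∨ Y.card = 7) with h6 | h7
  · have hfW : fz G W ≤ 0 := by omega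
    exact G1.no_tight hs h4 (by omega) (by omega) hfW
  · have hfW : fz G W ≤ 1 := by omega
    by_cases hfW0 : fz G W ≤ 0
    · exact G1.no_tight hs h4 (by omega) (by omega) hfW0
    have hW5 : W.card = 5 := by omega
    have hfW' : fz G W = 1 := by omega
    have hi : ie G W = 8 := by
      rw [fz_def, hW5] at hfW'
      push_cast at hfW'
      omega
    have h9 := two_ie' G W
    obtain ⟨h, hhW, hh4⟩ : ∃ h ∈ W, 4 ≤ (nb G h ∩ W).card := by
      by_contra hno
      push Not at hno
      have : ∑ v ∈ W, (nb G v ∩ W).card ≤ ∑ v ∈ W, 3 := Finset.sum_le_sum (fun v hv => by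
        have := hno v hv; omega)
      rw [Finset.sum_const, hW5, smul_eq_mul] at this
      omega
    have hh4' := G1.deg_le G hhW
    have h10 := ie_insert G (notMem_erase h W)
    rw [insert_erase hhW, nb_inter_erase_self] at h10
    have h11 : nb G h ∩ W = W.erase h := by
      apply eq_of_subset_of_card_le
      · intro z hz
        rw [mem_inter, mem_nb] at hz
        exact mem_erase.2 ⟨fun h => G.irrefl (h ▸ hz.1), hz.2⟩
      · rw [card_erase_of_mem hhW]; omega
    have h12 : W.erase h ⊆ nb G h := by
      rw [← h11]; exact inter_subset_left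
    have h13 := no_wheel hr h4 h2 h (W.erase h) h12 (by rw [card_erase_of_mem hhW]; omega)
    omega

end Pool.Agent.H38.Rig
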