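import Pool.Agent.H38.Rig.F3

set_option autoImplicit false
set_option linter.unusedSectionVars false
set_option linter.unusedVariables false

namespace Pool.Agent.H38.Rig

open Finset

variable {V : Type} [Fintype V] [DecidableEq V]

theorem f3_large {G : SimpleGraph V} (hr : Reg5 G) (hcut : Cut7 G) (hn : 16 ≤ Fintype.card V)
    (h3 : ∀ x y, G.Adj x y → cn G x y = ∅)
    (hc : ∀ x y, x ≠ y → ¬ G.Adj x y → (cn G x y).card = 0 ∨ 4 ≤ (cn G x y).card) : False := by
  refine F3.final hr hcut (by omega) h3 (fun x y hxy hnadj => ?_) (fun _ x y hxy hnadj => ?_)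
  · have := hc x y hxy hnadj; omega
  · have := hc x y hxy hnadj; omega

theorem f3_fourteen {G : SimpleGraph V} (hr : Reg5 G) (hcut : Cut7 G) (hn : Fintype.card V = 14)
    (h3 : ∀ x y, G.Adj x y → cn G x y = ∅)
    (hc : ∀ x y, x ≠ y → ¬ G.Adj x y → (cn G x y).card ≤ 1 ∨ 4 ≤ (cn G x y).card) : False := by
  refine F3.final hr hcut (by omega) h3 (fun x y hxy hnadj => ?_) (fun h => by omega)
  have := hc x y hxy hnadj; omega

end Pool.Agent.H38.Rig
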