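import Pool.Agent.H38.Rig.Good
import Pool.Agent.H38.Rig.TriFree3

set_option autoImplicit false
set_option linter.unusedSectionVars false
set_option linter.unusedVariables false

namespace Pool.Agent.H38.Rig

open Finset

variable {V : Type} [Fintype V] [DecidableEq V]

/-! ### Triangle-free case -/

/-- in a triangle-free graph the degrees of two adjacent vertices into `W` sum to at most `|W|` -/
lemma triFree_deg_add {G : SimpleGraph V} (h3 : ∀ x y, G.Adj x y → cn G x y = ∅) {a b : V}
    (hab : G.Adj a b) (W : Finset V) : (nb G a ∩ W).card + (nb G b ∩ W).card ≤ W.card := by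
  rw [← Finset.card_union_of_disjoint]
  · exact Finset.card_le_card (Finset.union_subset inter_subset_right inter_subset_right)
  · rw [Finset.disjoint_left]
    intro u hu hu'
    have : u ∈ cn G a b := by
      simp only [cn, mem_inter] at hu hu' ⊢
      exact ⟨hu.1, hu'.1⟩
    rw [h3 a b hab] at this
    simp at this

lemma card_sdiff_pair_add {a b : V} {W : Finset V} (hab : a ≠ b) (ha : a ∈ W) (hb : b ∈ W) :
    (W \ {a, b}).card + 2 = W.card := by
  have h1 : ({a, b} : Finset V) ⊆ W := by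
    intro u hu
    simp only [mem_insert, mem_singleton] at hu
    rcases hu with rfl | rfl <;> assumption
  have h2 := Finset.card_sdiff_add_card_eq_card h1
  rw [Finset.card_pair hab] at h2
  exact h2

lemma ie_sdiff_pair_adj {G : SimpleGraph V} {a b : V} {W : Finset V} (hab : G.Adj a b)
    (ha : a ∈ W) (hb : b ∈ W) :
    ie G W + 1 = ie G (W \ {a, b}) + (nb G a ∩ W).card + (nb G b ∩ W).card := by
  classical
  have h := fz_sdiff_pair G (G.ne_of_adj hab) ha hb
  rw [if_pos hab, fz_def, fz_def] at h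
  have hc := card_sdiff_pair_add (G.ne_of_adj hab) ha hb
  omega

lemma ie_sdiff_pair_nadj {G : SimpleGraph V} {a b : V} {W : Finset V} (hne : a ≠ b)
    (hab : ¬ G.Adj a b) (ha : a ∈ W) (hb : b ∈ W) :
    ie G W = ie G (W \ {a, b}) + (nb G a ∩ W).card + (nb G b ∩ W).card := by
  classical
  have h := fz_sdiff_pair G hne ha hb
  rw [if_neg hab, fz_def, fz_def] at h
  have hc := card_sdiff_pair_add hne ha hb
  omega

/-- Mantel -/
lemma mantel {G : SimpleGraph V} (h3 : ∀ x y, G.Adj x y → cn G x y = ∅) :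
    ∀ (n : ℕ) (W : Finset V), W.card = n → 4 * ie G W ≤ n * n := by
  intro n
  induction n using Nat.strong_induction_on with
  | _ n ih =>
    intro W hW
    by_cases h0 : ie G W = 0
    · rw [h0]; simp
    · have h1 : eb G W W ≠ 0 := by
        intro h
        apply h0
        have := two_ie G W
        omega
      rw [Ne, eb_eq_zero] at h1
      push Not at h1
      obtain ⟨a, ha, b, hb, hab⟩ := h1
      have h2 := ie_sdiff_pair_adj hab ha hb
      have h4 := triFree_deg_add h3 hab W
      have h5 := card_sdiff_pair_add (G.ne_of_adj hab) ha hb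
      have h6 := ih (n - 2) (by omega) (W \ {a, b}) (by omega)
      obtain ⟨m, rfl⟩ : ∃ m, n = m + 2 := ⟨n - 2, by omega⟩
      simp only [Nat.add_sub_cancel] at h6
      nlinarith

/-- the sum of the degrees of a nonadjacent pair into `Y` -/
lemma deg_add_le {G : SimpleGraph V} {x y : V} {Y : Finset V} (hne : x ≠ y)
    (hxy : ¬ G.Adj x y) (hx : x ∈ Y) (hy : y ∈ Y) :
    (nb G x ∩ Y).card + (nb G y ∩ Y).card + 2 ≤ Y.card + (cn G x y ∩ Y).card := by
  have h1 := Finset.card_union_add_card_inter (nb G x ∩ Y) (nb G y ∩ Y)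
  have h2 : (nb G x ∩ Y) ∩ (nb G y ∩ Y) = cn G x y ∩ Y := by
    ext u; simp only [cn, mem_inter]; tauto
  rw [h2] at h1
  have h3 : (nb G x ∩ Y) ∪ (nb G y ∩ Y) ⊆ Y \ {x, y} := by
    intro u hu
    simp only [mem_union, mem_inter, mem_nb, mem_sdiff, mem_insert, mem_singleton] at hu ⊢
    rcases hu with ⟨h, h'⟩ | ⟨h, h'⟩
    · refine ⟨h', ?_⟩
      rintro (rfl | rfl)
      · exact G.irrefl h
      · exact hxy h
    · refine ⟨h', ?_⟩
      rintro (rfl | rfl)
      · exact hxy h.symm
      · exact G.irrefl h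
  have h4 := Finset.card_le_card h3
  have h5 := card_sdiff_pair_add hne hx hy
  omega

/-- A violator of a nonadjacent pair has nine elements or is everything. -/
lemma violator_card {G : SimpleGraph V} (hr : Reg5 G) (hcut : Cut7 G)
    (hn : 14 ≤ Fintype.card V) (h3 : ∀ x y, G.Adj x y → cn G x y = ∅) {x y : V} (hne : x ≠ y)
    (hxy : ¬ G.Adj x y) {Y : Finset V} (hx : x ∈ Y) (hy : y ∈ Y) (h6 : 6 ≤ Y.card)
    (hf : fz G Y + ((cn G x y ∩ Y).card : ℤ) ≤ 2) :
    Y.card = 9 ∨ (Y = univ ∧ Fintype.card V = 14 ∧ (cn G x y).card ≤ 1) ∨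
      (Y = univ ∧ Fintype.card V = 16 ∧ (cn G x y).card = 0) := by
  have h1 := deg_add_le hne hxy hx hy
  have h2 := ie_sdiff_pair_nadj hne hxy hx hy
  have h4 := card_sdiff_pair_add hne hx hy
  have h5 := mantel h3 _ (Y \ {x, y}) rfl
  rcases two_cases hr hcut (by omega) (by omega : 2 ≤ Y.card) (by omega) with h7 | h7 | h7
  · left
    by_contra hne9
    have h8 : Y.card = 6 ∨ Y.card = 7 ∨ Y.card = 8 := by omega
    rw [fz_def] at hf
    rcases h8 with h8 | h8 | h8 <;> rw [h8] at h4
    · have h9 : (Y \ {x, y}).card = 4 := by omega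
      rw [h9] at h5; omega
    · have h9 : (Y \ {x, y}).card = 5 := by omega
      rw [h9] at h5; omega
    · have h9 : (Y \ {x, y}).card = 6 := by omega
      rw [h9] at h5; omega
  · right
    obtain ⟨rfl, h8⟩ := h7
    have h9 := fz_univ hr
    rw [inter_univ] at hf
    have h10 := card_even hr
    have : Fintype.card V = 14 ∨ Fintype.card V = 16 := by omega
    rcases this with h11 | h11
    · left; refine ⟨rfl, h11, ?_⟩; omega
    · right; refine ⟨rfl, h11, ?_⟩; omega
  · omega

/-- The nine-vertex violators are `K_{4,5}` minus the edge `xy`. -/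
lemma violator_nine {G : SimpleGraph V} (hr : Reg5 G) (hcut : Cut7 G)
    (hn : 14 ≤ Fintype.card V) (h3 : ∀ x y, G.Adj x y → cn G x y = ∅) {x y : V} (hne : x ≠ y)
    (hxy : ¬ G.Adj x y) {Y : Finset V} (hx : x ∈ Y) (hy : y ∈ Y) (h9 : Y.card = 9)
    (hf : fz G Y + ((cn G x y ∩ Y).card : ℤ) ≤ 2) :
    fz G Y = 2 ∧ cn G x y ∩ Y = ∅ ∧
      ((nb G x ∩ Y).card = 3 ∧ (nb G y ∩ Y).card = 4 ∨
        (nb G x ∩ Y).card = 4 ∧ (nb G y ∩ Y).card = 3) ∧
      (∀ a ∈ nb G x ∩ Y, ∀ b ∈ nb G y ∩ Y, G.Adj a b) := by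
  classical
  have h1 := deg_add_le hne hxy hx hy
  have h2 := ie_sdiff_pair_nadj hne hxy hx hy
  have h4 := card_sdiff_pair_add hne hx hy
  have h5 := mantel h3 _ (Y \ {x, y}) rfl
  have h6 := card_le_of_fz hr hcut (X := Y) (by omega) (by omega)
  have h7 : (Y \ {x, y}).card = 7 := by omega
  rw [h7] at h5
  have h8 : fz G Y = 2 := by omega
  have h10 : (cn G x y ∩ Y).card = 0 := by omega
  have h11 := h8
  rw [fz_def] at h11
  have h12 : ie G (Y \ {x, y}) = 12 := by omega
  have h13 : (nb G x ∩ Y).card + (nb G y ∩ Y).card = 7 := by omega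
  rw [Finset.card_eq_zero] at h10
  set A := nb G x ∩ Y with hA
  set B := nb G y ∩ Y with hB
  have hdis : Disjoint A B := by
    rw [Finset.disjoint_left]
    intro u hu hu'
    have : u ∈ cn G x y ∩ Y := by
      simp only [hA, hB, cn, mem_inter] at hu hu' ⊢
      exact ⟨⟨hu.1, hu'.1⟩, hu.2⟩
    rw [h10] at this
    simp at this
  have hsub : A ∪ B ⊆ Y \ {x, y} := by
    intro u hu
    simp only [hA, hB, mem_union, mem_inter, mem_nb, mem_sdiff, mem_insert, mem_singleton] at hu ⊢
    rcases hu with ⟨h, h'⟩ | ⟨h, h'⟩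
    · refine ⟨h', ?_⟩
      rintro (rfl | rfl)
      · exact G.irrefl h
      · exact hxy h
    · refine ⟨h', ?_⟩
      rintro (rfl | rfl)
      · exact hxy h.symm
      · exact G.irrefl h
  have hU : A ∪ B = Y \ {x, y} := by
    apply Finset.eq_of_subset_of_card_le hsub
    rw [Finset.card_union_of_disjoint hdis, h13, h7]
  have hind : ∀ v : V, ie G (nb G v ∩ Y) = 0 := by
    intro v
    have : eb G (nb G v ∩ Y) (nb G v ∩ Y) = 0 := by
      rw [eb_eq_zero]
      intro a ha b hb hab
      simp only [mem_inter, mem_nb] at ha hb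
      have : b ∈ cn G v a := by simp [cn, hb.1, hab]
      rw [h3 v a ha.1] at this
      simp at this
    have h := two_ie G (nb G v ∩ Y)
    omega
  have h14 := ie_union G hdis
  rw [hU, h12, hA, hB, hind x, hind y, ← hA, ← hB] at h14
  have h15 : eb G A B = 12 := by omega
  -- counting
  have h16 : ∀ a ∈ A, (nb G a ∩ B).card ≤ B.card := fun a _ =>
    Finset.card_le_card inter_subset_right
  have h17 : eb G A B ≤ A.card * B.card := by
    unfold eb
    calc ∑ a ∈ A, (nb G a ∩ B).card ≤ ∑ a ∈ A, B.card := Finset.sum_le_sum h16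
      _ = A.card * B.card := by simp
  have h18 : A.card = 3 ∧ B.card = 4 ∨ A.card = 4 ∧ B.card = 3 := by
    have hA7 : A.card ≤ 7 := by omega
    have hB7 : B.card = 7 - A.card := by omega
    rw [h15, hB7] at h17
    rw [hB7]
    interval_cases A.card <;> omega
  refine ⟨h8, h10, h18, ?_⟩
  intro a ha b hb
  by_contra hab
  have h19 : (nb G a ∩ B).card < B.card := by
    apply Finset.card_lt_card
    refine ⟨inter_subset_right, fun h => ?_⟩
    have := h hb
    simp only [mem_inter, mem_nb] at this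
    exact hab this.1
  have h20 : eb G A B < A.card * B.card := by
    unfold eb
    calc ∑ a ∈ A, (nb G a ∩ B).card < ∑ a ∈ A, B.card :=
          Finset.sum_lt_sum h16 ⟨a, ha, h19⟩
      _ = A.card * B.card := by simp
  rcases h18 with ⟨e1, e2⟩ | ⟨e1, e2⟩ <;> rw [e1, e2, h15] at h20 <;> omega

lemma card_nb_sdiff {G : SimpleGraph V} (hr : Reg5 G) (v : V) (Y : Finset V) :
    (nb G v ∩ Y).card + (nb G v \ Y).card = 5 := by
  rw [← hr v]
  exact Finset.card_inter_add_card_sdiff (nb G v) Y

/-- F1 -/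
lemma triFree_F1 {G : SimpleGraph V} (hs : Sparse G) (hr : Reg5 G) (hcut : Cut7 G)
    (hn : 14 ≤ Fintype.card V) (h3 : ∀ x y, G.Adj x y → cn G x y = ∅) {x y : V} (hne : x ≠ y)
    (hxy : ¬ G.Adj x y) (hc : (cn G x y).card = 2 ∨ (cn G x y).card = 3) : GoodN G x y := by
  refine ⟨hne, hxy, by omega, by omega, ?_⟩
  intro Y hx hy h6
  by_contra hf
  have hf' : fz G Y + ((cn G x y ∩ Y).card : ℤ) ≤ 2 := by omega
  rcases violator_card hr hcut hn h3 hne hxy hx hy h6 hf' with h9 | h9 | h9
  · obtain ⟨h8, h10, h11, -⟩ := violator_nine hr hcut hn h3 hne hxy hx hy h9 hf'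
    have h12 := card_nb_sdiff hr x Y
    have h13 := card_nb_sdiff hr y Y
    have h14 : ∀ u ∈ cn G x y, u ∉ Y := by
      intro u hu hu'
      have : u ∈ cn G x y ∩ Y := by simp [hu, hu']
      rw [h10] at this
      simp at this
    have h15 : cn G x y ⊆ nb G x \ Y := by
      intro u hu
      have := h14 u hu
      simp only [cn, mem_inter] at hu
      simp only [mem_sdiff]
      exact ⟨hu.1, this⟩
    have h16 : cn G x y ⊆ nb G y \ Y := by
      intro u hu
      have := h14 u hu
      simp only [cn, mem_inter] at hu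
      simp only [mem_sdiff]
      exact ⟨hu.2, this⟩
    have h17 := Finset.card_le_card h15
    have h18 := Finset.card_le_card h16
    omega
  · omega
  · omega

lemma cn_comm (G : SimpleGraph V) (x y : V) : cn G x y = cn G y x := by
  unfold cn; rw [inter_comm]

/-- core of F2: no nine-vertex violator with `|N(x) ∩ Y| = 3` -/
lemma triFree_F2_core {G : SimpleGraph V} (hr : Reg5 G) (hcut : Cut7 G)
    (hn : 14 ≤ Fintype.card V) (h3 : ∀ x y, G.Adj x y → cn G x y = ∅)
    (hall : ∀ x y, x ≠ y → ¬ G.Adj x y → (cn G x y).card ≤ 1 ∨ 4 ≤ (cn G x y).card)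
    {x y : V} (hne : x ≠ y) (hxy : ¬ G.Adj x y) (hc : (cn G x y).card = 1) {Y : Finset V}
    (hx : x ∈ Y) (hy : y ∈ Y) (h9 : Y.card = 9) (h2 : fz G Y = 2) (hcY : cn G x y ∩ Y = ∅)
    (hA : (nb G x ∩ Y).card = 3) (hB : (nb G y ∩ Y).card = 4)
    (hAB : ∀ a ∈ nb G x ∩ Y, ∀ b ∈ nb G y ∩ Y, G.Adj a b) : False := by
  classical
  obtain ⟨z, hz⟩ := Finset.card_eq_one.1 hc
  have hz1 : z ∈ cn G x y := by rw [hz]; simp
  have hz2 : G.Adj x z ∧ G.Adj y z := by simpa [cn] using hz1
  have hz3 : z ∉ Y := by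
    intro h
    have : z ∈ cn G x y ∩ Y := by simp [hz1, h]
    rw [hcY] at this
    simp at this
  have h12 := card_nb_sdiff hr x Y
  have hzx : z ∈ nb G x \ Y := by simp [hz2.1, hz3]
  have h13 : ((nb G x \ Y).erase z).card = 1 := by
    rw [Finset.card_erase_of_mem hzx]; omega
  obtain ⟨x', hx'⟩ := Finset.card_eq_one.1 h13
  have hx'1 : x' ∈ (nb G x \ Y).erase z := by rw [hx']; simp
  have hx'2 : x' ≠ z ∧ G.Adj x x' ∧ x' ∉ Y := by simpa using hx'1
  -- every b in B is adjacent to x'
  have hb : ∀ b ∈ nb G y ∩ Y, G.Adj x' b := by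
    intro b hb
    have hb' : G.Adj y b ∧ b ∈ Y := by simpa using hb
    have hxb : ¬ G.Adj x b := by
      intro h
      have : b ∈ cn G x y ∩ Y := by simp [cn, h, hb'.1, hb'.2]
      rw [hcY] at this
      simp at this
    have hxb' : x ≠ b := by
      rintro rfl
      exact hxy hb'.1.symm
    have hsub : nb G x ∩ Y ⊆ cn G x b := by
      intro a ha
      have h1 := hAB a ha b hb
      simp only [mem_inter, mem_nb] at ha
      simp [cn, ha.1, h1.symm]
    have h4 := Finset.card_le_card hsub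
    have h5 : 4 ≤ (cn G x b).card := by
      rcases hall x b hxb' hxb with h | h
      · omega
      · exact h
    have h6 : ¬ (cn G x b ⊆ nb G x ∩ Y) := by
      intro h
      have := Finset.card_le_card h
      omega
    rw [Finset.not_subset] at h6
    obtain ⟨w, hw, hw'⟩ := h6
    have hw1 : G.Adj x w ∧ G.Adj b w := by simpa [cn] using hw
    have hw2 : w ∉ Y := by
      intro h
      exact hw' (by simp [hw1.1, h])
    have hw3 : w ≠ z := by
      rintro rfl
      have : b ∈ cn G y w := by simp [cn, hb'.1, hw1.2.symm]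
      rw [h3 y w hz2.2] at this
      simp at this
    have hw4 : w ∈ (nb G x \ Y).erase z := by simp [hw3, hw1.1, hw2]
    rw [hx', mem_singleton] at hw4
    rw [← hw4]
    exact hw1.2.symm
  have hsub : insert x (nb G y ∩ Y) ⊆ nb G x' ∩ Y := by
    intro u hu
    rw [mem_insert] at hu
    rcases hu with rfl | hu
    · simp [hx, hx'2.2.1.symm]
    · have := hb u hu
      simp only [mem_inter, mem_nb] at hu ⊢
      exact ⟨this, hu.2⟩
  have hxB : x ∉ nb G y ∩ Y := by
    simp only [mem_inter, mem_nb, not_and]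
    intro h
    exact absurd h.symm hxy
  have h14 := Finset.card_le_card hsub
  rw [Finset.card_insert_of_notMem hxB, hB] at h14
  have h15 := fz_insert G hx'2.2.2
  have h16 := card_le_of_fz hr hcut (X := insert x' Y)
    (by rw [Finset.card_insert_of_notMem hx'2.2.2]; omega)
    (by rw [Finset.card_insert_of_notMem hx'2.2.2]; omega)
  rw [Finset.card_insert_of_notMem hx'2.2.2] at h16
  push_cast at h16
  omega

/-- F2 -/
lemma triFree_F2 {G : SimpleGraph V} (hs : Sparse G) (hr : Reg5 G) (hcut : Cut7 G)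
    (hn : 16 ≤ Fintype.card V) (h3 : ∀ x y, G.Adj x y → cn G x y = ∅)
    (hall : ∀ x y, x ≠ y → ¬ G.Adj x y → (cn G x y).card ≤ 1 ∨ 4 ≤ (cn G x y).card)
    {x y : V} (hne : x ≠ y) (hxy : ¬ G.Adj x y) (hc : (cn G x y).card = 1) : GoodN G x y := by
  refine ⟨hne, hxy, by omega, by omega, ?_⟩
  intro Y hx hy h6
  by_contra hf
  have hf' : fz G Y + ((cn G x y ∩ Y).card : ℤ) ≤ 2 := by omega
  rcases violator_card hr hcut (by omega) h3 hne hxy hx hy h6 hf' with h9 | h9 | h9
  · obtain ⟨h8, h10, h11, h12⟩ := violator_nine hr hcut (by omega) h3 hne hxy hx hy h9 hf'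
    rcases h11 with ⟨hA, hB⟩ | ⟨hA, hB⟩
    · exact triFree_F2_core hr hcut (by omega) h3 hall hne hxy hc hx hy h9 h8 h10 hA hB h12
    · refine triFree_F2_core hr hcut (by omega) h3 hall hne.symm (fun h => hxy h.symm)
        (by rw [cn_comm]; exact hc) hy hx h9 h8 (by rw [cn_comm]; exact h10) hB hA ?_
      intro a ha b hb
      exact (h12 b hb a ha).symm
  · omega
  · omega

/-- Section F: a triangle-free sparse 5-regular graph with the cut property has a good pair. -/
theorem good_of_triangleFree {G : SimpleGraph V} (hs : Sparse G) (hr : Reg5 G) (hcut : Cut7 G)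
    (hn : 14 ≤ Fintype.card V) (h3 : ∀ x y, G.Adj x y → cn G x y = ∅) : HasGood G := by
  by_contra hno
  have h1 : ∀ x y, ¬ GoodN G x y := fun x y h => hno (Or.inr ⟨x, y, h⟩)
  have hall : ∀ x y, x ≠ y → ¬ G.Adj x y → (cn G x y).card ≤ 1 ∨ 4 ≤ (cn G x y).card := by
    intro x y hne hxy
    by_contra h
    exact h1 x y (triFree_F1 hs hr hcut hn h3 hne hxy (by omega))
  by_cases h16 : 16 ≤ Fintype.card V
  · refine f3_large hr hcut h16 h3 ?_
    intro x y hne hxy
    by_contra h
    have h2 := hall x y hne hxy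
    exact h1 x y (triFree_F2 hs hr hcut h16 h3 hall hne hxy (by omega))
  · have h2 := card_even hr
    exact f3_fourteen hr hcut (by omega) h3 hall

end Pool.Agent.H38.Rig
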