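import Pool.Agent.H38.Rig.Good

set_option autoImplicit false
set_option linter.unusedSectionVars false
set_option linter.unusedVariables false

namespace Pool.Agent.H38.Rig

open Finset

namespace G2

variable {V : Type} [Fintype V] [DecidableEq V]

lemma degU (G : SimpleGraph V) (v : V) {X Y : Finset V} (h : Disjoint X Y) :
    (nb G v ∩ (X ∪ Y)).card = (nb G v ∩ X).card + (nb G v ∩ Y).card := by
  rw [inter_union_distrib_left, card_union_of_disjoint]
  exact h.mono inter_subset_right inter_subset_right

lemma degS (G : SimpleGraph V) (v : V) {X Y : Finset V} (h : X ⊆ Y) :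
    (nb G v ∩ Y).card = (nb G v ∩ X).card + (nb G v ∩ (Y \ X)).card := by
  rw [← degU G v disjoint_sdiff, union_sdiff_of_subset h]

/-- a bipartite 5-regular graph on 6+6 vertices is `K66PM` -/
lemma iso_of_bip {G : SimpleGraph V} (hr : Reg5 G) (A B : Finset V) (hdisj : Disjoint A B)
    (hcov : ∀ v, v ∈ A ∨ v ∈ B) (hA : A.card = 6) (hB : B.card = 6)
    (hAA : ∀ a ∈ A, ∀ a' ∈ A, ¬ G.Adj a a') (hBB : ∀ b ∈ B, ∀ b' ∈ B, ¬ G.Adj b b') :
    Nonempty (G ≃g K66PM) := by
  classical
  have hnA : ∀ a ∈ A, nb G a ⊆ B := by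
    intro a ha u hu
    rw [mem_nb] at hu
    exact (hcov u).resolve_left (fun h => hAA a ha u h hu)
  have hnB : ∀ b ∈ B, nb G b ⊆ A := by
    intro b hb u hu
    rw [mem_nb] at hu
    exact (hcov u).resolve_right (fun h => hBB b hb u h hu)
  -- the missed vertex
  have hmiss : ∀ b : B, ∃ a, A \ nb G (b : V) = {a} := by
    intro b
    apply card_eq_one.1
    rw [card_sdiff_of_subset (hnB b b.2), hr, hA]
  choose μ hμ using hmiss
  have hμA : ∀ b : B, μ b ∈ A ∧ ¬ G.Adj b (μ b) := by
    intro b
    have : μ b ∈ A \ nb G (b : V) := by rw [hμ b]; simp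
    simpa using this
  have hμ' : ∀ (b : B) (a : V), a ∈ A → ¬ G.Adj b a → a = μ b := by
    intro b a ha hab
    have : a ∈ A \ nb G (b : V) := by simp [ha, hab]
    rw [hμ b] at this
    simpa using this
  have hμinj : Function.Injective μ := by
    intro b b' hbb
    by_contra hne
    have h1 : nb G (μ b) ⊆ (B.erase b).erase b' := by
      intro u hu
      have hu' := hnA _ (hμA b).1 hu
      rw [mem_nb] at hu
      refine mem_erase.2 ⟨?_, mem_erase.2 ⟨?_, hu'⟩⟩
      · rintro rfl
        rw [hbb] at hu
        exact (hμA b').2 hu.symm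
      · rintro rfl
        exact (hμA b).2 hu.symm
    have h2 := card_le_card h1
    rw [hr, card_erase_of_mem, card_erase_of_mem b.2, hB] at h2
    · omega
    · exact mem_erase.2 ⟨fun e => hne (Subtype.ext e.symm), b'.2⟩
  -- enumeration
  have hBF : Fintype.card B = 6 := by rw [Fintype.card_coe, hB]
  let e : Fin 6 ≃ B := (Fintype.equivFinOfCardEq hBF).symm
  let φ : Fin 2 × Fin 6 → V := fun q => if q.1 = 0 then (e q.2 : V) else μ (e q.2)
  have hφinj : Function.Injective φ := by
    rintro ⟨i, j⟩ ⟨i', j'⟩ h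
    simp only [φ] at h
    by_cases hi : i = 0 <;> by_cases hi' : i' = 0
    · rw [if_pos hi, if_pos hi'] at h
      have := e.injective (Subtype.ext h)
      rw [hi, hi', this]
    · rw [if_pos hi, if_neg hi'] at h
      exact absurd (e j).2 (fun hb => disjoint_left.1 hdisj (h ▸ (hμA (e j')).1) hb)
    · rw [if_neg hi, if_pos hi'] at h
      exact absurd (e j').2 (fun hb => disjoint_left.1 hdisj (h ▸ (hμA (e j)).1) hb)
    · rw [if_neg hi, if_neg hi'] at h
      have := e.injective (hμinj h)
      have h2 : i = i' := by omega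
      rw [h2, this]
  have hVc : Fintype.card V = 12 := by
    have : (univ : Finset V) = A ∪ B := by
      ext u; simpa using hcov u
    rw [← card_univ, this, card_union_of_disjoint hdisj, hA, hB]
  have hφbij : Function.Bijective φ := by
    rw [Fintype.bijective_iff_injective_and_card]
    refine ⟨hφinj, ?_⟩
    rw [hVc]; simp
  let Φ : Fin 2 × Fin 6 ≃ V := Equiv.ofBijective φ hφbij
  have hadj : ∀ p q, G.Adj (Φ p) (Φ q) ↔ K66PM.Adj p q := by
    have key : ∀ j j', G.Adj (e j : V) (μ (e j')) ↔ j ≠ j' := by
      intro j j'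
      constructor
      · rintro h rfl
        exact (hμA (e j)).2 h
      · intro h
        by_contra hn
        have := hμ' (e j) _ (hμA (e j')).1 hn
        exact h (e.injective (hμinj this)).symm
    rintro ⟨i, j⟩ ⟨i', j'⟩
    change G.Adj (φ (i, j)) (φ (i', j')) ↔ (i ≠ i' ∧ j ≠ j')
    simp only [φ]
    by_cases hi : i = 0 <;> by_cases hi' : i' = 0
    · rw [if_pos hi, if_pos hi', hi, hi']
      simp only [ne_eq, not_true_eq_false, false_and, iff_false]
      exact hBB _ (e j).2 _ (e j').2
    · rw [if_pos hi, if_neg hi', key]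
      constructor
      · intro h; exact ⟨fun h' => hi' (h' ▸ hi), h⟩
      · exact fun h => h.2
    · rw [if_neg hi, if_pos hi', G.adj_comm, key]
      constructor
      · intro h; exact ⟨fun h' => hi (h' ▸ hi'), h.symm⟩
      · exact fun h => h.2.symm
    · rw [if_neg hi, if_neg hi']
      have h2 : i = i' := by omega
      simp only [h2, ne_eq, not_true_eq_false, false_and, iff_false]
      exact hAA _ (hμA _).1 _ (hμA _).1
  exact ⟨(RelIso.mk Φ (hadj _ _)).symm⟩

end G2

variable {V : Type} [Fintype V] [DecidableEq V]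

/-- (G2) a vertex in no triangle -/
theorem twelve_of_indep {G : SimpleGraph V} (hr : Reg5 G) (hn : Fintype.card V = 12)
    (h3 : ∀ x y, x ≠ y → ¬ G.Adj x y → (cn G x y).card ≠ 3) (v : V)
    (hv : ∀ a ∈ nb G v, ∀ b ∈ nb G v, ¬ G.Adj a b) : Nonempty (G ≃g K66PM) := by
  classical
  set N := nb G v with hN
  have hNc : N.card = 5 := hr v
  have hvN : v ∉ N := not_mem_nb_self G v
  set S : Finset V := (insert v N)ᶜ with hS
  have hSc : S.card = 6 := by
    rw [hS, card_compl, card_insert_of_notMem hvN, hNc, hn]
  have hSmem : ∀ s, s ∈ S ↔ s ≠ v ∧ ¬ G.Adj v s := by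
    intro s
    simp [hS, hN]
  have hdisjNS : Disjoint N S := by
    rw [disjoint_left]
    intro u hu hu'
    rw [hSmem] at hu'
    exact hu'.2 (by simpa [hN] using hu)
  have hSN : ∀ s ∈ S, (nb G s ∩ N).card + (nb G s ∩ S).card = 5 := by
    intro s hs
    have h1 := card_nb_split G s (insert v N)
    rw [hr s] at h1
    have h2 : nb G s ∩ insert v N = nb G s ∩ N := by
      rw [inter_insert_of_notMem]
      rw [mem_nb]
      exact fun h => ((hSmem s).1 hs).2 h.symm
    rw [h2] at h1
    exact h1
  have hNS : ∀ a ∈ N, (nb G a ∩ S).card = 4 := by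
    intro a ha
    have h1 := card_nb_split G a (insert v N)
    rw [hr a] at h1
    have h2 : nb G a ∩ insert v N = {v} := by
      ext u
      simp only [mem_inter, mem_nb, mem_insert, mem_singleton]
      constructor
      · rintro ⟨h, rfl | h'⟩
        · rfl
        · exact absurd h (hv a ha u h')
      · rintro rfl
        exact ⟨by simpa [hN] using G.adj_symm ((mem_nb).1 ha), Or.inl rfl⟩
    rw [h2, card_singleton] at h1
    change 1 + (nb G a ∩ S).card = 5 at h1
    omega
  -- degrees in S
  set D : V → ℕ := fun s => (nb G s ∩ S).card with hD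
  have hD2 : ∀ s ∈ S, D s ≠ 2 := by
    intro s hs h
    have h1 := (hSmem s).1 hs
    have h2 := h3 v s h1.1.symm h1.2
    have h4 := hSN s hs
    have h5 : (cn G v s).card = (nb G s ∩ N).card := by rw [cn, inter_comm]
    simp only [hD] at h
    omega
  have hsum : ∑ s ∈ S, D s = 10 := by
    have h1 : ∑ s ∈ S, (nb G s ∩ N).card + ∑ s ∈ S, D s = 30 := by
      rw [← sum_add_distrib, sum_congr rfl hSN, sum_const, hSc, smul_eq_mul]
    have h2 : ∑ s ∈ S, (nb G s ∩ N).card = 20 := by
      have h4 : eb G S N = eb G N S := eb_symm G S N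
      unfold eb at h4
      rw [h4, sum_congr rfl hNS, sum_const, hNc, smul_eq_mul]
    omega
  -- hubs
  set H := S.filter (fun s => 3 ≤ D s) with hH
  set K := S \ H with hK
  have hHS : H ⊆ S := filter_subset _ _
  have hKS : K ⊆ S := sdiff_subset
  have hHmem : ∀ s ∈ H, s ∈ S ∧ 3 ≤ D s := fun s hs => by simpa [hH] using hs
  have hKmem : ∀ s ∈ K, s ∈ S ∧ D s ≤ 1 := by
    intro s hs
    have h1 : s ∈ S ∧ ¬ (3 ≤ D s) := by
      rw [hK, mem_sdiff, hH, mem_filter] at hs
      tauto
    have := hD2 s h1.1
    exact ⟨h1.1, by omega⟩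
  have hHK : H.card + K.card = 6 := by
    rw [hK, card_sdiff_of_subset hHS, hSc]
    have := card_le_card hHS
    omega
  have hsum2 : ∑ s ∈ H, D s + ∑ s ∈ K, D s = 10 := by
    rw [← hsum, add_comm, hK, sum_sdiff hHS]
  have hDsplit : ∀ s, D s = (nb G s ∩ H).card + (nb G s ∩ K).card := by
    intro s
    simp only [hD, hK]
    exact G2.degS G s hHS
  have hHsum : ∑ s ∈ H, D s = eb G H H + eb G H K := by
    unfold eb
    rw [← sum_add_distrib]
    exact sum_congr rfl (fun s _ => hDsplit s)
  have hKsum : ∑ s ∈ K, D s = eb G K H + eb G K K := by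
    unfold eb
    rw [← sum_add_distrib]
    exact sum_congr rfl (fun s _ => hDsplit s)
  have hKle : ∑ s ∈ K, D s ≤ K.card := by
    calc ∑ s ∈ K, D s ≤ ∑ s ∈ K, 1 := sum_le_sum (fun s hs => (hKmem s hs).2)
      _ = K.card := by simp
  have hHge : 3 * H.card ≤ ∑ s ∈ H, D s := by
    calc 3 * H.card = ∑ s ∈ H, 3 := by simp [mul_comm]
      _ ≤ ∑ s ∈ H, D s := sum_le_sum (fun s hs => (hHmem s hs).2)
  have hHH : eb G H H ≤ H.card * (H.card - 1) := by
    rw [← two_ie]; exact two_ie_le G H
  have hsymm : eb G H K = eb G K H := eb_symm G H K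
  have hHc : H.card = 1 ∨ H.card = 2 := by
    have h1 : H.card ≤ 3 := by omega
    interval_cases h : H.card
    · exfalso
      rw [card_eq_zero] at h
      rw [h, sum_empty] at hsum2
      omega
    · left; rfl
    · right; rfl
    · exfalso
      norm_num at hHH
      omega
  rcases hHc with hH1 | hH2
  · -- K_{1,5}
    have hK5 : K.card = 5 := by omega
    rw [hH1] at hHH
    norm_num at hHH
    obtain ⟨s0, hs0⟩ := card_eq_one.1 hH1
    have hs0S : s0 ∈ S := hHS (by rw [hs0]; simp)
    have hDs0 : D s0 = 5 := by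
      rw [hs0, sum_singleton] at hsum2 hHsum
      have h1 : D s0 ≤ 5 := by
        have := hSN s0 hs0S
        simp only [hD]; omega
      omega
    have hK1 : ∀ k ∈ K, D k = 1 := by
      have h1 : ∑ k ∈ K, D k = ∑ k ∈ K, 1 := by
        rw [hs0, sum_singleton] at hsum2
        simp only [sum_const, smul_eq_mul, mul_one]
        omega
      exact (sum_eq_sum_iff_of_le (fun k hk => (hKmem k hk).2)).1 h1
    have hs0K : ∀ k ∈ K, G.Adj s0 k := by
      have h1 : nb G s0 ∩ K = K := by
        apply eq_of_subset_of_card_le inter_subset_right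
        have h2 := hDsplit s0
        have h4 : nb G s0 ∩ H = ∅ := by
          rw [hs0, eq_empty_iff_forall_notMem]
          intro u hu
          rw [mem_inter, mem_nb, mem_singleton] at hu
          exact G.irrefl (hu.2 ▸ hu.1)
        rw [h4, card_empty] at h2
        omega
      intro k hk
      rw [← h1, mem_inter, mem_nb] at hk
      exact hk.1
    have hs0N : ∀ a ∈ N, ¬ G.Adj s0 a := by
      intro a ha h
      have h1 := hSN s0 hs0S
      have h2 : (nb G s0 ∩ N).card = 0 := by
        simp only [hD] at hDs0; omega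
      rw [card_eq_zero] at h2
      have : a ∈ nb G s0 ∩ N := by rw [mem_inter, mem_nb]; exact ⟨h, ha⟩
      rw [h2] at this
      simp at this
    have hKK : ∀ k ∈ K, ∀ k' ∈ K, ¬ G.Adj k k' := by
      intro k hk k' hk' h
      have h1 := hK1 k hk
      have h2 : ({s0, k'} : Finset V) ⊆ nb G k ∩ S := by
        intro u hu
        simp only [mem_insert, mem_singleton] at hu
        rw [mem_inter, mem_nb]
        rcases hu with rfl | rfl
        · exact ⟨(hs0K k hk).symm, hs0S⟩
        · exact ⟨h, hKS hk'⟩
      have h4 := card_le_card h2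
      have h5 : s0 ≠ k' := by
        rintro rfl
        rw [hK, mem_sdiff, hs0] at hk'
        exact hk'.2 (by simp)
      rw [card_pair h5] at h4
      simp only [hD] at h1
      omega
    have hs0N' : s0 ∉ N := fun h => disjoint_left.1 hdisjNS h hs0S
    have hvK : v ∉ K := fun h => ((hSmem v).1 (hKS h)).1 rfl
    have hs0v : s0 ≠ v := ((hSmem s0).1 hs0S).1
    refine G2.iso_of_bip hr (insert s0 N) (insert v K) ?_ ?_ ?_ ?_ ?_ ?_
    · rw [disjoint_left]
      intro u hu hu'
      rw [mem_insert] at hu hu'
      rcases hu with rfl | hu <;> rcases hu' with h | hu'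
      · exact hs0v h
      · rw [hK, mem_sdiff, hs0] at hu'
        exact hu'.2 (by simp)
      · exact hvN (h ▸ hu)
      · exact disjoint_left.1 hdisjNS hu (hKS hu')
    · intro u
      by_cases h1 : u ∈ insert v N
      · rw [mem_insert] at h1
        rcases h1 with rfl | h1
        · right; simp
        · left; simp [h1]
      · have hu : u ∈ S := by rw [hS, mem_compl]; exact h1
        by_cases h2 : u ∈ H
        · rw [hs0, mem_singleton] at h2
          left; simp [h2]
        · right
          exact mem_insert_of_mem (by rw [hK, mem_sdiff]; exact ⟨hu, h2⟩)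
    · rw [card_insert_of_notMem hs0N', hNc]
    · rw [card_insert_of_notMem hvK, hK5]
    · intro a ha a' ha'
      rw [mem_insert] at ha ha'
      rcases ha with rfl | ha <;> rcases ha' with rfl | ha'
      · exact G.irrefl
      · exact hs0N a' ha'
      · exact fun h => hs0N a ha h.symm
      · exact hv a ha a' ha'
    · intro a ha a' ha'
      rw [mem_insert] at ha ha'
      rcases ha with rfl | ha <;> rcases ha' with rfl | ha'
      · exact G.irrefl
      · exact ((hSmem a').1 (hKS ha')).2
      · exact fun h => ((hSmem a).1 (hKS ha)).2 h.symm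
      · exact hKK a ha a' ha'
  · -- double star: impossible
    exfalso
    have hK4 : K.card = 4 := by omega
    rw [hH2] at hHH hHge
    norm_num at hHH
    have e1 : ∑ k ∈ K, D k = 4 := by omega
    have e2 : eb G H H = 2 := by omega
    have e3 : eb G K H = 4 := by omega
    have e4 : ∑ k ∈ H, D k = 6 := by omega
    have e5 : eb G K K = 0 := by omega
    have hKK : ∀ k ∈ K, ∀ k' ∈ K, ¬ G.Adj k k' := eb_eq_zero.1 e5
    have hK1 : ∀ k ∈ K, D k = 1 := by
      have h1 : ∑ k ∈ K, D k = ∑ k ∈ K, 1 := by
        simp only [sum_const, smul_eq_mul, mul_one]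
        omega
      exact (sum_eq_sum_iff_of_le (fun k hk => (hKmem k hk).2)).1 h1
    obtain ⟨h1, h2, hne, hHeq⟩ := card_eq_two.1 hH2
    have m1 : h1 ∈ H := by rw [hHeq]; simp
    have m2 : h2 ∈ H := by rw [hHeq]; simp
    have hD1 : 3 ≤ D h1 := (hHmem h1 m1).2
    have hD2' : 3 ≤ D h2 := (hHmem h2 m2).2
    rw [hHeq, sum_pair hne] at e4
    -- each hub has two leaves
    have hhub : ∀ h ∈ H, (nb G h ∩ H).card ≤ 1 := by
      intro h hh
      have h5 : nb G h ∩ H ⊆ H.erase h := by
        intro z hz
        rw [mem_inter, mem_nb] at hz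
        exact mem_erase.2 ⟨fun h => G.irrefl (h ▸ hz.1), hz.2⟩
      have := card_le_card h5
      rw [card_erase_of_mem hh] at this
      omega
    have l1 : 2 ≤ (nb G h1 ∩ K).card := by
      have := hhub h1 m1
      have := hDsplit h1
      omega
    have l2 : 2 ≤ (nb G h2 ∩ K).card := by
      have := hhub h2 m2
      have := hDsplit h2
      omega
    -- every leaf is adjacent to exactly one hub
    have hleaf : ∀ k ∈ K, nb G k ∩ S = nb G k ∩ H := by
      intro k hk
      ext u
      simp only [mem_inter, mem_nb]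
      constructor
      · rintro ⟨hu, hu'⟩
        refine ⟨hu, ?_⟩
        by_contra hcon
        exact hKK k hk u (by rw [hK, mem_sdiff]; exact ⟨hu', hcon⟩) hu
      · rintro ⟨hu, hu'⟩
        exact ⟨hu, hHS hu'⟩
    have hleafN : ∀ k ∈ K, (nb G k ∩ N).card = 4 := by
      intro k hk
      have := hSN k (hKS hk)
      have := hK1 k hk
      simp only [hD] at this
      omega
    have hsame : ∀ k ∈ K, G.Adj h1 k → ∀ k' ∈ K, G.Adj h2 k' → nb G k ∩ N = nb G k' ∩ N := by
      intro k hk hadj k' hk' hadj'
      have hkk : k ≠ k' := by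
        rintro rfl
        have h5 : ({h1, h2} : Finset V) ⊆ nb G k ∩ S := by
          intro u hu
          simp only [mem_insert, mem_singleton] at hu
          rw [mem_inter, mem_nb]
          rcases hu with rfl | rfl
          · exact ⟨hadj.symm, hHS m1⟩
          · exact ⟨hadj'.symm, hHS m2⟩
        have h6 := card_le_card h5
        have h7 := hK1 k hk
        rw [card_pair hne] at h6
        simp only [hD] at h7
        omega
      have hcard := h3 k k' hkk (hKK k hk k' hk')
      have hcn : cn G k k' = (nb G k ∩ N) ∩ (nb G k' ∩ N) := by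
        ext u
        simp only [cn, mem_inter, mem_nb]
        constructor
        · rintro ⟨hu, hu'⟩
          have huN : u ∈ N := by
            by_contra hcon
            have huS : u ∈ S := by
              rw [hSmem]
              refine ⟨?_, ?_⟩
              · rintro rfl
                exact ((hSmem k).1 (hKS hk)).2 hu.symm
              · intro h; exact hcon (by simpa [hN] using h)
            -- then u is a hub adjacent to both
            have h5 : u ∈ nb G k ∩ S := by rw [mem_inter, mem_nb]; exact ⟨hu, huS⟩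
            have h6 : u ∈ nb G k' ∩ S := by rw [mem_inter, mem_nb]; exact ⟨hu', huS⟩
            have h7 := hK1 k hk
            have h8 := hK1 k' hk'
            simp only [hD] at h7 h8
            obtain ⟨w, hw⟩ := card_eq_one.1 h7
            obtain ⟨w', hw'⟩ := card_eq_one.1 h8
            have h9 : h1 ∈ nb G k ∩ S := by
              rw [mem_inter, mem_nb]; exact ⟨hadj.symm, hHS m1⟩
            have h10 : h2 ∈ nb G k' ∩ S := by
              rw [mem_inter, mem_nb]; exact ⟨hadj'.symm, hHS m2⟩
            rw [hw, mem_singleton] at h5 h9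
            rw [hw', mem_singleton] at h6 h10
            exact hne (h9.trans (h5.symm.trans (h6.trans h10.symm)))
          exact ⟨⟨hu, huN⟩, hu', huN⟩
        · rintro ⟨⟨hu, _⟩, hu', _⟩
          exact ⟨hu, hu'⟩
      rw [hcn] at hcard
      have h5 := card_union_add_card_inter (nb G k ∩ N) (nb G k' ∩ N)
      rw [hleafN k hk, hleafN k' hk'] at h5
      have h6 : ((nb G k ∩ N) ∪ (nb G k' ∩ N)).card ≤ 5 := by
        rw [← hNc]
        exact card_le_card (union_subset inter_subset_right inter_subset_right)
      have h7 : ((nb G k ∩ N) ∩ (nb G k' ∩ N)).card ≤ 4 := by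
        rw [← hleafN k hk]; exact card_le_card inter_subset_left
      have h8 : ((nb G k ∩ N) ∩ (nb G k' ∩ N)).card = 4 := by omega
      have h9 : (nb G k ∩ N) ∩ (nb G k' ∩ N) = nb G k ∩ N :=
        eq_of_subset_of_card_le inter_subset_left (by rw [h8, hleafN k hk])
      have h10 : (nb G k ∩ N) ∩ (nb G k' ∩ N) = nb G k' ∩ N :=
        eq_of_subset_of_card_le inter_subset_right (by rw [h8, hleafN k' hk'])
      rw [← h9, h10]
    -- a leaf at each hub
    obtain ⟨a, ha⟩ : (nb G h1 ∩ K).Nonempty := card_pos.1 (by omega)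
    obtain ⟨b, hb⟩ : (nb G h2 ∩ K).Nonempty := card_pos.1 (by omega)
    rw [mem_inter, mem_nb] at ha hb
    have hab := hsame a ha.2 ha.1 b hb.2 hb.1
    have hall : ∀ k ∈ K, nb G k ∩ N = nb G a ∩ N := by
      intro k hk
      have h5 : (nb G k ∩ H).card = 1 := by
        rw [← hleaf k hk]; exact hK1 k hk
      obtain ⟨w, hw⟩ := card_eq_one.1 h5
      have h6 : w ∈ nb G k ∩ H := by rw [hw]; simp
      rw [mem_inter, mem_nb, hHeq, mem_insert, mem_singleton] at h6
      rcases h6 with ⟨h6, rfl | rfl⟩
      · rw [hsame k hk h6.symm b hb.2 hb.1, hab]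
      · exact (hsame a ha.2 ha.1 k hk h6.symm).symm
    -- the missed vertex
    obtain ⟨m, hm⟩ : (N \ (nb G a ∩ N)).Nonempty := by
      rw [← card_pos, card_sdiff_of_subset inter_subset_right, hNc, hleafN a ha.2]
      omega
    rw [mem_sdiff] at hm
    have hmK : ∀ k ∈ K, ¬ G.Adj m k := by
      intro k hk h
      apply hm.2
      rw [← hall k hk, mem_inter, mem_nb]
      exact ⟨h.symm, hm.1⟩
    have h5 := hNS m hm.1
    have h6 : nb G m ∩ S ⊆ H := by
      intro u hu
      rw [mem_inter, mem_nb] at hu
      by_contra hcon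
      exact hmK u (by rw [hK, mem_sdiff]; exact ⟨hu.2, hcon⟩) hu.1
    have h7 := card_le_card h6
    omega

end Pool.Agent.H38.Rig
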