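import Pool.Agent.H38.Rig.Good

set_option autoImplicit false
set_option linter.unusedSectionVars false
set_option linter.unusedVariables false

namespace Pool.Agent.H38.Rig

open Finset

namespace G3

variable {V : Type} [Fintype V] [DecidableEq V]

/-- degree into a disjoint union -/
lemma dU (G : SimpleGraph V) (v : V) {X Y : Finset V} (h : Disjoint X Y) :
    (nb G v ∩ (X ∪ Y)).card = (nb G v ∩ X).card + (nb G v ∩ Y).card := by
  rw [inter_union_distrib_left, card_union_of_disjoint]
  exact h.mono inter_subset_right inter_subset_right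

/-- degree into a set and its relative complement -/
lemma dS (G : SimpleGraph V) (v : V) {X Y : Finset V} (h : X ⊆ Y) :
    (nb G v ∩ Y).card = (nb G v ∩ X).card + (nb G v ∩ (Y \ X)).card := by
  rw [← dU G v disjoint_sdiff, union_sdiff_of_subset h]

lemma eb_three_left (G : SimpleGraph V) {a b c : V} (hab : a ≠ b) (hac : a ≠ c) (hbc : b ≠ c)
    (X : Finset V) :
    eb G {a, b, c} X = (nb G a ∩ X).card + (nb G b ∩ X).card + (nb G c ∩ X).card := by
  rw [eb_insert_left G (by simp [hab, hac]), eb_insert_left G (by simp [hbc]), eb_singleton_left]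
  ring

lemma eb_two_left (G : SimpleGraph V) {a b : V} (hab : a ≠ b)
    (X : Finset V) :
    eb G {a, b} X = (nb G a ∩ X).card + (nb G b ∩ X).card := by
  rw [eb_insert_left G (by simp [hab]), eb_singleton_left]

/-- a constant lower/upper bound for `eb` -/
lemma eb_le_mul (G : SimpleGraph V) (A B : Finset V) (k : ℕ)
    (h : ∀ a ∈ A, (nb G a ∩ B).card ≤ k) : eb G A B ≤ A.card * k := by
  unfold eb
  calc ∑ a ∈ A, (nb G a ∩ B).card ≤ ∑ a ∈ A, k := Finset.sum_le_sum h
    _ = A.card * k := by simp

lemma eb_eq_mul (G : SimpleGraph V) (A B : Finset V) (k : ℕ)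
    (h : ∀ a ∈ A, (nb G a ∩ B).card = k) : eb G A B = A.card * k := by
  unfold eb
  rw [Finset.sum_congr rfl h]; simp

lemma eb_self_le (G : SimpleGraph V) (X : Finset V) : eb G X X ≤ X.card * (X.card - 1) := by
  rw [← two_ie]; exact two_ie_le G X

/-- if every term is at most `k` and the sum is `|A| k` then every term is `k` -/
lemma eq_of_eb_eq_mul (G : SimpleGraph V) (A B : Finset V) (k : ℕ)
    (h : ∀ a ∈ A, (nb G a ∩ B).card ≤ k) (he : A.card * k ≤ eb G A B) :
    ∀ a ∈ A, (nb G a ∩ B).card = k := by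
  have h1 : ∑ a ∈ A, (nb G a ∩ B).card = ∑ a ∈ A, k := by
    apply le_antisymm (Finset.sum_le_sum h)
    simpa [eb] using he
  exact (Finset.sum_eq_sum_iff_of_le h).1 h1

/-- (a) no adjacent pair has exactly four common neighbours -/
lemma no_four {G : SimpleGraph V} (hr : Reg5 G) (hn : Fintype.card V = 12)
    (h4 : K4Free G) (h2 : NoAdjTwo G)
    (h3 : ∀ x y, x ≠ y → ¬ G.Adj x y → (cn G x y).card ≠ 3) {x y : V} (hxy : G.Adj x y) :
    (cn G x y).card ≠ 4 := by
  classical
  intro hZ4
  set Z := cn G x y with hZ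
  have hne : x ≠ y := G.ne_of_adj hxy
  have hmemZ : ∀ z, z ∈ Z ↔ G.Adj x z ∧ G.Adj y z := by intro z; simp [hZ, cn]
  have hZind : ∀ z ∈ Z, ∀ z' ∈ Z, ¬ G.Adj z z' := by
    intro z hz z' hz' h
    exact h4 x y z z' hxy ((hmemZ z).1 hz).1 ((hmemZ z').1 hz').1 ((hmemZ z).1 hz).2
      ((hmemZ z').1 hz').2 h
  have hxZ : x ∉ Z := fun h => G.irrefl ((hmemZ x).1 h).1
  have hyZ : y ∉ Z := fun h => G.irrefl ((hmemZ y).1 h).2
  have hnbx : nb G x = insert y Z := by
    symm
    apply Finset.eq_of_subset_of_card_le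
    · intro u hu
      rw [mem_insert] at hu
      rcases hu with rfl | hu
      · simpa using hxy
      · simpa using ((hmemZ u).1 hu).1
    · rw [hr x, card_insert_of_notMem hyZ, hZ4]
  have hnby : nb G y = insert x Z := by
    symm
    apply Finset.eq_of_subset_of_card_le
    · intro u hu
      rw [mem_insert] at hu
      rcases hu with rfl | hu
      · simpa using hxy.symm
      · simpa using ((hmemZ u).1 hu).2
    · rw [hr y, card_insert_of_notMem hxZ, hZ4]
  set P : Finset V := {x, y} with hP
  have hPc : P.card = 2 := card_pair hne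
  have hPZ : Disjoint P Z := by
    rw [disjoint_left]
    intro u hu
    simp only [hP, mem_insert, mem_singleton] at hu
    rcases hu with rfl | rfl <;> assumption
  set S : Finset V := (P ∪ Z)ᶜ with hS
  have hSc : S.card = 6 := by
    rw [hS, card_compl, card_union_of_disjoint hPZ, hPc, hZ4, hn]
  have hsplit : ∀ v, (nb G v ∩ P).card + (nb G v ∩ Z).card + (nb G v ∩ S).card = 5 := by
    intro v
    rw [← dU G v hPZ, card_nb_split, hr v]
  have hSP : ∀ s ∈ S, s ≠ x ∧ s ≠ y ∧ s ∉ Z := by
    intro s hs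
    simp only [hS, hP, mem_compl, mem_union, mem_insert, mem_singleton, not_or] at hs
    exact ⟨hs.1.1, hs.1.2, hs.2⟩
  have hSx : ∀ s ∈ S, ¬ G.Adj s x := by
    intro s hs h
    have : s ∈ nb G x := by simpa using h.symm
    rw [hnbx, mem_insert] at this
    exact this.elim (hSP s hs).2.1 (hSP s hs).2.2
  have hSy : ∀ s ∈ S, ¬ G.Adj s y := by
    intro s hs h
    have : s ∈ nb G y := by simpa using h.symm
    rw [hnby, mem_insert] at this
    exact this.elim (hSP s hs).1 (hSP s hs).2.2
  have hSP0 : ∀ s ∈ S, (nb G s ∩ P).card = 0 := by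
    intro s hs
    rw [card_eq_zero, eq_empty_iff_forall_notMem]
    intro u hu
    simp only [hP, mem_inter, mem_nb, mem_insert, mem_singleton] at hu
    rcases hu with ⟨h, rfl | rfl⟩
    · exact hSx s hs h
    · exact hSy s hs h
  have hZP2 : ∀ z ∈ Z, nb G z ∩ P = P := by
    intro z hz
    rw [inter_eq_right]
    intro u hu
    simp only [hP, mem_insert, mem_singleton] at hu
    rcases hu with rfl | rfl
    · simpa using ((hmemZ z).1 hz).1.symm
    · simpa using ((hmemZ z).1 hz).2.symm
  have hZZ : ∀ z ∈ Z, (nb G z ∩ Z).card = 0 := by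
    intro z hz
    rw [card_eq_zero, eq_empty_iff_forall_notMem]
    intro u hu
    simp only [mem_inter, mem_nb] at hu
    exact hZind z hz u hu.2 hu.1
  have hZS : ∀ z ∈ Z, (nb G z ∩ S).card = 3 := by
    intro z hz
    have h := hsplit z
    rw [hZP2 z hz, hPc, hZZ z hz] at h
    omega
  -- `c(x,s)`
  have hcs : ∀ s ∈ S, (nb G s ∩ Z).card ≠ 3 := by
    intro s hs h
    apply h3 x s (hSP s hs).1.symm (fun h => hSx s hs h.symm)
    rw [← h]
    congr 1
    unfold cn
    rw [hnbx]
    ext u
    simp only [mem_inter, mem_insert, mem_nb]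
    constructor
    · rintro ⟨rfl | h, h'⟩
      · exact absurd h' (hSy s hs)
      · exact ⟨h', h⟩
    · rintro ⟨h, h'⟩; exact ⟨Or.inr h', h⟩
  have hcs4 : ∀ s ∈ S, (nb G s ∩ Z).card ≤ 4 := by
    intro s _
    rw [← hZ4]; exact card_le_card inter_subset_right
  have hSS : ∀ s ∈ S, (nb G s ∩ Z).card + (nb G s ∩ S).card = 5 := by
    intro s hs
    have h := hsplit s
    rw [hSP0 s hs] at h
    omega
  have hebZS : eb G Z S = 12 := by
    rw [eb_eq_mul G Z S 3 hZS, hZ4]
  have hebSZ : eb G S Z = 12 := by rw [eb_symm]; exact hebZS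
  have hebSS : eb G S S = 18 := by
    have : eb G S Z + eb G S S = S.card * 5 := by
      unfold eb
      rw [← Finset.sum_add_distrib, Finset.sum_congr rfl hSS]
      simp
    omega
  -- Step 1
  have step1 : ∀ a ∈ S, ∀ b ∈ S, a ≠ b → (nb G a ∩ Z).card = 4 → (nb G b ∩ Z).card = 4 →
      False := by
    intro a ha b hb hab ha4 hb4
    have h1 := hSS a ha
    have h2 := hSS b hb
    set Q : Finset V := {a, b} with hQ
    have hQS : Q ⊆ S := by
      intro u hu
      simp only [hQ, mem_insert, mem_singleton] at hu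
      rcases hu with rfl | rfl <;> assumption
    have hQc : Q.card = 2 := card_pair hab
    have hRc : (S \ Q).card = 4 := by rw [card_sdiff_of_subset hQS, hSc, hQc]
    have e1 : eb G S S = eb G Q S + eb G (S \ Q) S := by
      rw [← eb_union_left G disjoint_sdiff, union_sdiff_of_subset hQS]
    have e2 : eb G (S \ Q) S = eb G (S \ Q) Q + eb G (S \ Q) (S \ Q) := by
      rw [← eb_union_right G disjoint_sdiff, union_sdiff_of_subset hQS]
    have e3 : eb G (S \ Q) Q ≤ eb G Q S := by
      rw [eb_symm]; exact eb_mono G (Subset.refl _) sdiff_subset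
    have e4 : eb G Q S = (nb G a ∩ S).card + (nb G b ∩ S).card := eb_two_left G hab S
    have e5 := eb_self_le G (S \ Q)
    rw [hRc] at e5
    omega
  -- choose a vertex of `Z`
  have hZne : Z.Nonempty := by rw [← card_pos]; omega
  obtain ⟨z1, hz1⟩ := hZne
  have hT3 : (Z.erase z1).card = 3 := by rw [card_erase_of_mem hz1]; omega
  obtain ⟨z2, z3, z4, h23, h24, h34, hT⟩ := card_eq_three.1 hT3
  have hz2 : z2 ∈ Z.erase z1 := by rw [hT]; simp
  have hz3 : z3 ∈ Z.erase z1 := by rw [hT]; simp
  have hz4 : z4 ∈ Z.erase z1 := by rw [hT]; simp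
  set A := nb G z1 ∩ S with hA
  have hAS : A ⊆ S := inter_subset_right
  have hA3 : A.card = 3 := hZS z1 hz1
  obtain ⟨s1, s2, s3, k12, k13, k23, hAe⟩ := card_eq_three.1 hA3
  have hs1 : s1 ∈ A := by rw [hAe]; simp
  have hs2 : s2 ∈ A := by rw [hAe]; simp
  have hs3 : s3 ∈ A := by rw [hAe]; simp
  -- the intersection `N_1 ∩ N_j`
  have hne1 : ∀ z ∈ Z.erase z1, (nb G z ∩ A).card ≠ 1 := by
    intro z hz h
    have hz' := mem_of_mem_erase hz
    apply h3 z1 z (ne_of_mem_erase hz).symm (hZind z1 hz1 z hz')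
    have : cn G z1 z = P ∪ (nb G z ∩ A) := by
      ext u
      simp only [cn, hA, mem_inter, mem_union]
      constructor
      · rintro ⟨h1, h2⟩
        by_cases huP : u ∈ P
        · exact Or.inl huP
        · right
          refine ⟨h2, h1, ?_⟩
          simp only [hS, mem_compl, mem_union, not_or]
          refine ⟨huP, fun hu => hZind z1 hz1 u hu (by simpa using h1)⟩
      · rintro (h | ⟨h1, h2, h3⟩)
        · have e1 := hZP2 z1 hz1
          have e2 := hZP2 z hz'
          rw [inter_eq_right] at e1 e2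
          exact ⟨e1 h, e2 h⟩
        · exact ⟨h2, h1⟩
    rw [this, card_union_of_disjoint, hPc, h]
    apply disjoint_left.2
    intro u hu hu'
    have := hAS (mem_of_mem_inter_right hu')
    rw [hS, mem_compl, mem_union, not_or] at this
    exact this.1 hu
  have hle3 : ∀ z, (nb G z ∩ A).card ≤ 3 := by
    intro z; rw [← hA3]; exact card_le_card inter_subset_right
  -- double count
  have hdc : (nb G z2 ∩ A).card + (nb G z3 ∩ A).card + (nb G z4 ∩ A).card =
      (nb G s1 ∩ Z.erase z1).card + (nb G s2 ∩ Z.erase z1).card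
        + (nb G s3 ∩ Z.erase z1).card := by
    rw [← eb_three_left G h23 h24 h34, ← eb_three_left G k12 k13 k23, ← hT, ← hAe, eb_symm]
  have hdeg : ∀ s ∈ A, (nb G s ∩ Z.erase z1).card + 1 = (nb G s ∩ Z).card := by
    intro s hs
    have h1 : z1 ∈ nb G s ∩ Z := by
      rw [mem_inter, mem_nb]
      exact ⟨by simpa using (G.adj_symm (by simpa using mem_of_mem_inter_left hs)), hz1⟩
    have h2 : nb G s ∩ Z.erase z1 = (nb G s ∩ Z).erase z1 := by
      ext u; simp only [mem_inter, mem_erase]; tauto
    rw [h2, card_erase_of_mem h1]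
    have := card_pos.2 ⟨z1, h1⟩
    omega
  have d1 := hdeg s1 hs1
  have d2 := hdeg s2 hs2
  have d3 := hdeg s3 hs3
  have c1 := hcs s1 (hAS hs1)
  have c2 := hcs s2 (hAS hs2)
  have c3 := hcs s3 (hAS hs3)
  have c1' := hcs4 s1 (hAS hs1)
  have c2' := hcs4 s2 (hAS hs2)
  have c3' := hcs4 s3 (hAS hs3)
  have g12 := step1 s1 (hAS hs1) s2 (hAS hs2) k12
  have g13 := step1 s1 (hAS hs1) s3 (hAS hs3) k13
  have g23 := step1 s2 (hAS hs2) s3 (hAS hs3) k23
  have n2 := hne1 z2 hz2
  have n3 := hne1 z3 hz3
  have n4 := hne1 z4 hz4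
  -- Step 2
  have step2 : ∀ a ∈ S, (nb G a ∩ Z).card ≠ 4 := by
    intro a ha ha4
    have hZa : Z ⊆ nb G a := by
      have : nb G a ∩ Z = Z := eq_of_subset_of_card_le inter_subset_right (by omega)
      rwa [inter_eq_right] at this
    have haA : a ∈ A := by
      rw [hA, mem_inter, mem_nb]
      exact ⟨by simpa using (G.adj_symm (by simpa using hZa hz1)), ha⟩
    have hpos : ∀ z ∈ Z.erase z1, 2 ≤ (nb G z ∩ A).card := by
      intro z hz
      have h1 := hne1 z hz
      have h2 : 0 < (nb G z ∩ A).card := by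
        apply card_pos.2
        refine ⟨a, ?_⟩
        rw [mem_inter, mem_nb]
        exact ⟨by simpa using (G.adj_symm (by simpa using hZa (mem_of_mem_erase hz))), haA⟩
      omega
    have p2 := hpos z2 hz2
    have p3 := hpos z3 hz3
    have p4 := hpos z4 hz4
    rw [hAe] at haA
    simp only [mem_insert, mem_singleton] at haA
    rcases haA with e | e | e
    · rw [e] at ha4
      have : (nb G s2 ∩ Z).card ≠ 4 := fun h => g12 ha4 h
      have : (nb G s3 ∩ Z).card ≠ 4 := fun h => g13 ha4 h
      omega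
    · rw [e] at ha4
      have : (nb G s1 ∩ Z).card ≠ 4 := fun h => g12 h ha4
      have : (nb G s3 ∩ Z).card ≠ 4 := fun h => g23 ha4 h
      omega
    · rw [e] at ha4
      have : (nb G s1 ∩ Z).card ≠ 4 := fun h => g13 h ha4
      have : (nb G s2 ∩ Z).card ≠ 4 := fun h => g23 h ha4
      omega
  -- Step 3
  have hle2 : ∀ s ∈ S, (nb G s ∩ Z).card ≤ 2 := by
    intro s hs
    have h1 := hcs s hs
    have h2 := hcs4 s hs
    have h3 := step2 s hs
    omega
  have heq2 := eq_of_eb_eq_mul G S Z 2 hle2 (by rw [hSc, hebSZ])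
  have f1 := heq2 s1 (hAS hs1)
  have f2 := heq2 s2 (hAS hs2)
  have f3 := heq2 s3 (hAS hs3)
  have l2 := hle3 z2
  have l3 := hle3 z3
  have l4 := hle3 z4
  have hex : ∃ z ∈ Z.erase z1, (nb G z ∩ A).card = 0 := by
    have : (nb G z2 ∩ A).card = 0 ∨ (nb G z3 ∩ A).card = 0 := by omega
    rcases this with h | h
    · exact ⟨z2, hz2, h⟩
    · exact ⟨z3, hz3, h⟩
  obtain ⟨z, hz, hzA⟩ := hex
  have hzZ := mem_of_mem_erase hz
  set B := nb G z ∩ S with hB
  have hBS : B ⊆ S := inter_subset_right
  have hB3 : B.card = 3 := hZS z hzZ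
  have hAB : Disjoint A B := by
    rw [card_eq_zero] at hzA
    rw [disjoint_left]
    intro u hu hu'
    have : u ∈ nb G z ∩ A := mem_inter.2 ⟨mem_of_mem_inter_left hu', hu⟩
    rw [hzA] at this
    exact absurd this (notMem_empty u)
  have hABS : A ∪ B = S := by
    apply eq_of_subset_of_card_le (union_subset hAS hBS)
    rw [card_union_of_disjoint hAB, hA3, hB3, hSc]
  have hBdeg : ∀ b ∈ B, (nb G b ∩ B).card ≤ 1 := by
    intro b hb
    have hbz : G.Adj z b := by simpa using mem_of_mem_inter_left hb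
    have h1 := h2 z b hbz
    have h5 : cn G z b = nb G b ∩ B := by
      ext u
      simp only [cn, hB, mem_inter]
      constructor
      · rintro ⟨k1, k2⟩
        refine ⟨k2, k1, ?_⟩
        rw [hS, mem_compl, mem_union, not_or]
        have hbS := hBS hb
        refine ⟨?_, fun hu => hZind z hzZ u hu (by simpa using k1)⟩
        intro hu
        simp only [hP, mem_insert, mem_singleton] at hu
        rcases hu with rfl | rfl
        · exact hSx b hbS (by simpa using k2)
        · exact hSy b hbS (by simpa using k2)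
      · rintro ⟨k1, k2, k3⟩
        exact ⟨k2, k1⟩
    rw [h5] at h1
    have h6 : (nb G b ∩ B).card ≤ (B.erase b).card := by
      apply card_le_card
      intro u hu
      rw [mem_inter, mem_nb] at hu
      exact mem_erase.2 ⟨(G.ne_of_adj hu.1).symm, hu.2⟩
    rw [card_erase_of_mem hb, hB3] at h6
    omega
  have hexb : ∃ b ∈ B, (nb G b ∩ B).card = 0 := by
    by_contra hcon
    push Not at hcon
    have h1 : eb G B B = B.card * 1 := by
      apply eb_eq_mul
      intro b hb
      have := hcon b hb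
      have := hBdeg b hb
      omega
    have h2 := eb_self_even G B
    rw [h1, hB3] at h2
    omega
  obtain ⟨b, hb, hb0⟩ := hexb
  have hbS := hBS hb
  have hbA : (nb G b ∩ A).card = 3 := by
    have h1 := hSS b hbS
    have h2 := heq2 b hbS
    have h5 := dU G b hAB
    rw [hABS] at h5
    omega
  have hAb : A ⊆ nb G b := by
    have : nb G b ∩ A = A := eq_of_subset_of_card_le inter_subset_right (by omega)
    rwa [inter_eq_right] at this
  have hbnA : b ∉ A := fun h => disjoint_left.1 hAB h hb
  apply h3 z1 b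
  · intro h
    exact (hSP b hbS).2.2 (h ▸ hz1)
  · intro h
    exact hbnA (mem_inter.2 ⟨by simpa using h, hbS⟩)
  · have : cn G z1 b = A := by
      ext u
      simp only [cn, mem_inter]
      constructor
      · rintro ⟨k1, k2⟩
        rw [hA, mem_inter]
        refine ⟨k1, ?_⟩
        rw [hS, mem_compl, mem_union, not_or]
        refine ⟨?_, fun hu => hZind z1 hz1 u hu (by simpa using k1)⟩
        intro hu
        simp only [hP, mem_insert, mem_singleton] at hu
        rcases hu with rfl | rfl
        · exact hSx b hbS (by simpa using k2)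
        · exact hSy b hbS (by simpa using k2)
      · intro hu
        exact ⟨mem_of_mem_inter_left hu, hAb hu⟩
    rw [this, hA3]

/-- if all neighbours of `v` are in a set of at most five elements then they are all of it -/
lemma nb_eq_of_subset {G : SimpleGraph V} (hr : Reg5 G) {v : V} {W : Finset V} (h : nb G v ⊆ W)
    (hW : W.card ≤ 5) : nb G v = W :=
  eq_of_subset_of_card_le h (by rw [hr v]; exact hW)

/-- (b) no adjacent pair has exactly three common neighbours -/
lemma no_three {G : SimpleGraph V} (hr : Reg5 G) (hn : Fintype.card V = 12)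
    (h4 : K4Free G) (h2 : NoAdjTwo G)
    (h3 : ∀ x y, x ≠ y → ¬ G.Adj x y → (cn G x y).card ≠ 3) {x y : V} (hxy : G.Adj x y) :
    (cn G x y).card ≠ 3 := by
  classical
  intro hZ3
  set Z := cn G x y with hZ
  have hne : x ≠ y := G.ne_of_adj hxy
  have hmemZ : ∀ z, z ∈ Z ↔ G.Adj x z ∧ G.Adj y z := by intro z; simp [hZ, cn]
  have hZind : ∀ z ∈ Z, ∀ z' ∈ Z, ¬ G.Adj z z' := by
    intro z hz z' hz' h
    exact h4 x y z z' hxy ((hmemZ z).1 hz).1 ((hmemZ z').1 hz').1 ((hmemZ z).1 hz).2
      ((hmemZ z').1 hz').2 h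
  have hxZ : x ∉ Z := fun h => G.irrefl ((hmemZ x).1 h).1
  have hyZ : y ∉ Z := fun h => G.irrefl ((hmemZ y).1 h).2
  -- the fifth neighbours
  have hx' : ∃ x', nb G x = insert y (insert x' Z) ∧ x' ≠ y ∧ x' ∉ Z := by
    have h1 : insert y Z ⊆ nb G x := by
      intro u hu
      rw [mem_insert] at hu
      rcases hu with rfl | hu
      · simpa using hxy
      · simpa using ((hmemZ u).1 hu).1
    have h5 : (nb G x \ insert y Z).card = 1 := by
      rw [card_sdiff_of_subset h1, card_insert_of_notMem hyZ, hZ3, hr x]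
    obtain ⟨x', hx'⟩ := card_eq_one.1 h5
    have hm : x' ∈ nb G x \ insert y Z := by rw [hx']; simp
    rw [mem_sdiff, mem_insert, not_or] at hm
    refine ⟨x', ?_, hm.2.1, hm.2.2⟩
    rw [← sdiff_union_of_subset h1, hx']
    ext u; simp only [mem_union, mem_singleton, mem_insert]; tauto
  have hy' : ∃ y', nb G y = insert x (insert y' Z) ∧ y' ≠ x ∧ y' ∉ Z := by
    have h1 : insert x Z ⊆ nb G y := by
      intro u hu
      rw [mem_insert] at hu
      rcases hu with rfl | hu
      · simpa using hxy.symm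
      · simpa using ((hmemZ u).1 hu).2
    have h5 : (nb G y \ insert x Z).card = 1 := by
      rw [card_sdiff_of_subset h1, card_insert_of_notMem hxZ, hZ3, hr y]
    obtain ⟨x', hx'⟩ := card_eq_one.1 h5
    have hm : x' ∈ nb G y \ insert x Z := by rw [hx']; simp
    rw [mem_sdiff, mem_insert, not_or] at hm
    refine ⟨x', ?_, hm.2.1, hm.2.2⟩
    rw [← sdiff_union_of_subset h1, hx']
    ext u; simp only [mem_union, mem_singleton, mem_insert]; tauto
  obtain ⟨x', hnbx, hx'y, hx'Z⟩ := hx'
  obtain ⟨y', hnby, hy'x, hy'Z⟩ := hy'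
  have hadjx : ∀ u, G.Adj x u ↔ u = y ∨ u = x' ∨ u ∈ Z := by
    intro u; rw [← mem_nb, hnbx]; simp
  have hadjy : ∀ u, G.Adj y u ↔ u = x ∨ u = y' ∨ u ∈ Z := by
    intro u; rw [← mem_nb, hnby]; simp
  have hx'x : x' ≠ x := by
    intro h
    have := (hadjx x').2 (Or.inr (Or.inl rfl))
    rw [h] at this
    exact G.irrefl this
  have hy'y : y' ≠ y := by
    intro h
    have := (hadjy y').2 (Or.inr (Or.inl rfl))
    rw [h] at this
    exact G.irrefl this
  have hx'y' : x' ≠ y' := by
    intro h
    apply hx'Z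
    rw [hmemZ]
    exact ⟨(hadjx x').2 (Or.inr (Or.inl rfl)), (hadjy x').2 (Or.inr (Or.inl h))⟩
  -- `x'` and `y'` are not adjacent to `Z`
  have hx'Z' : ∀ z ∈ Z, ¬ G.Adj z x' := by
    intro z hz h
    apply h2 x z ((hmemZ z).1 hz).1
    have : cn G x z = {y, x'} := by
      ext u
      simp only [cn, mem_inter, mem_nb, mem_insert, mem_singleton, hadjx]
      constructor
      · rintro ⟨k1 | k1 | k1, k2⟩
        · exact Or.inl k1
        · exact Or.inr k1
        · exact absurd k2 (hZind z hz u k1)
      · rintro (rfl | rfl)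
        · exact ⟨Or.inl rfl, ((hmemZ z).1 hz).2.symm⟩
        · exact ⟨Or.inr (Or.inl rfl), h⟩
    rw [this, card_pair hx'y.symm]
  have hy'Z' : ∀ z ∈ Z, ¬ G.Adj z y' := by
    intro z hz h
    apply h2 y z ((hmemZ z).1 hz).2
    have : cn G y z = {x, y'} := by
      ext u
      simp only [cn, mem_inter, mem_nb, mem_insert, mem_singleton, hadjy]
      constructor
      · rintro ⟨k1 | k1 | k1, k2⟩
        · exact Or.inl k1
        · exact Or.inr k1
        · exact absurd k2 (hZind z hz u k1)
      · rintro (rfl | rfl)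
        · exact ⟨Or.inl rfl, ((hmemZ z).1 hz).1.symm⟩
        · exact ⟨Or.inr (Or.inl rfl), h⟩
    rw [this, card_pair hy'x.symm]
  set P : Finset V := {x, y} with hP
  set Q : Finset V := {x', y'} with hQ
  have hPc : P.card = 2 := card_pair hne
  have hQc : Q.card = 2 := card_pair hx'y'
  have hPZ : Disjoint P Z := by
    rw [disjoint_left]
    intro u hu
    simp only [hP, mem_insert, mem_singleton] at hu
    rcases hu with rfl | rfl <;> assumption
  have hPQ : Disjoint P Q := by
    rw [disjoint_left]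
    intro u hu hu'
    simp only [hP, hQ, mem_insert, mem_singleton] at hu hu'
    rcases hu with rfl | rfl <;> rcases hu' with h | h
    · exact hx'x h.symm
    · exact hy'x h.symm
    · exact hx'y h.symm
    · exact hy'y h.symm
  have hZQ : Disjoint Z Q := by
    rw [disjoint_right]
    intro u hu
    simp only [hQ, mem_insert, mem_singleton] at hu
    rcases hu with rfl | rfl <;> assumption
  have hPZQ : Disjoint (P ∪ Z) Q := disjoint_union_left.2 ⟨hPQ, hZQ⟩
  set S : Finset V := (P ∪ Z ∪ Q)ᶜ with hS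
  have hSc : S.card = 5 := by
    rw [hS, card_compl, card_union_of_disjoint hPZQ, card_union_of_disjoint hPZ, hPc, hQc, hZ3, hn]
  have hsplit : ∀ v, (nb G v ∩ P).card + (nb G v ∩ Z).card + (nb G v ∩ Q).card
      + (nb G v ∩ S).card = 5 := by
    intro v
    rw [← dU G v hPZ, ← dU G v hPZQ, card_nb_split, hr v]
  have hSP : ∀ s ∈ S, s ≠ x ∧ s ≠ y ∧ s ∉ Z ∧ s ≠ x' ∧ s ≠ y' := by
    intro s hs
    simp only [hS, hP, hQ, mem_compl, mem_union, mem_insert, mem_singleton, not_or] at hs
    tauto
  have hSx : ∀ s ∈ S, ¬ G.Adj s x := by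
    intro s hs h
    have h5 := hSP s hs
    rcases (hadjx s).1 h.symm with k | k | k <;> tauto
  have hSy : ∀ s ∈ S, ¬ G.Adj s y := by
    intro s hs h
    have h5 := hSP s hs
    rcases (hadjy s).1 h.symm with k | k | k <;> tauto
  have hSP0 : ∀ s ∈ S, (nb G s ∩ P).card = 0 := by
    intro s hs
    rw [card_eq_zero, eq_empty_iff_forall_notMem]
    intro u hu
    simp only [hP, mem_inter, mem_nb, mem_insert, mem_singleton] at hu
    rcases hu with ⟨h, rfl | rfl⟩
    · exact hSx s hs h
    · exact hSy s hs h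
  have hZP2 : ∀ z ∈ Z, P ⊆ nb G z := by
    intro z hz u hu
    simp only [hP, mem_insert, mem_singleton] at hu
    rcases hu with rfl | rfl
    · simpa using ((hmemZ z).1 hz).1.symm
    · simpa using ((hmemZ z).1 hz).2.symm
  have hZZ : ∀ z ∈ Z, (nb G z ∩ Z).card = 0 := by
    intro z hz
    rw [card_eq_zero, eq_empty_iff_forall_notMem]
    intro u hu
    simp only [mem_inter, mem_nb] at hu
    exact hZind z hz u hu.2 hu.1
  have hZQ0 : ∀ z ∈ Z, (nb G z ∩ Q).card = 0 := by
    intro z hz
    rw [card_eq_zero, eq_empty_iff_forall_notMem]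
    intro u hu
    simp only [hQ, mem_inter, mem_nb, mem_insert, mem_singleton] at hu
    rcases hu with ⟨h, rfl | rfl⟩
    · exact hx'Z' z hz h
    · exact hy'Z' z hz h
  have hZS : ∀ z ∈ Z, (nb G z ∩ S).card = 3 := by
    intro z hz
    have h := hsplit z
    rw [inter_eq_right.2 (hZP2 z hz), hPc, hZZ z hz, hZQ0 z hz] at h
    omega
  -- pairwise intersections
  have hcnz : ∀ z ∈ Z, ∀ z' ∈ Z, z ≠ z' → (nb G z ∩ nb G z' ∩ S).card ≠ 1 := by
    intro z hz z' hz' hzz h
    apply h3 z z' hzz (hZind z hz z' hz')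
    have : cn G z z' = P ∪ (nb G z ∩ nb G z' ∩ S) := by
      ext u
      simp only [cn, mem_inter, mem_union]
      constructor
      · rintro ⟨k1, k2⟩
        by_cases huP : u ∈ P
        · exact Or.inl huP
        · right
          refine ⟨⟨k1, k2⟩, ?_⟩
          rw [hS, mem_compl, mem_union, mem_union, not_or, not_or]
          refine ⟨⟨huP, fun hu => hZind z hz u hu (by simpa using k1)⟩, ?_⟩
          intro hu
          simp only [hQ, mem_insert, mem_singleton] at hu
          rcases hu with rfl | rfl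
          · exact hx'Z' z hz (by simpa using k1)
          · exact hy'Z' z hz (by simpa using k1)
      · rintro (k | ⟨k, -⟩)
        · exact ⟨hZP2 z hz k, hZP2 z' hz' k⟩
        · exact k
    rw [this, card_union_of_disjoint, hPc, h]
    apply disjoint_left.2
    intro u hu hu'
    have := hSP u (mem_of_mem_inter_right hu')
    simp only [hP, mem_insert, mem_singleton] at hu
    tauto
  -- `c(x,s)` and `c(y,s)`
  have hcx : ∀ s ∈ S, (nb G s ∩ Z).card = 3 → G.Adj s x' := by
    intro s hs h
    by_contra hcon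
    apply h3 x s (hSP s hs).1.symm (fun h => hSx s hs h.symm)
    rw [← h]
    congr 1
    ext u
    simp only [cn, mem_inter, mem_nb, hadjx]
    constructor
    · rintro ⟨rfl | rfl | k, h'⟩
      · exact absurd h' (hSy s hs)
      · exact absurd h' hcon
      · exact ⟨h', k⟩
    · rintro ⟨k, h'⟩; exact ⟨Or.inr (Or.inr h'), k⟩
  have hcy : ∀ s ∈ S, (nb G s ∩ Z).card = 3 → G.Adj s y' := by
    intro s hs h
    by_contra hcon
    apply h3 y s (hSP s hs).2.1.symm (fun h => hSy s hs h.symm)
    rw [← h]
    congr 1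
    ext u
    simp only [cn, mem_inter, mem_nb, hadjy]
    constructor
    · rintro ⟨rfl | rfl | k, h'⟩
      · exact absurd h' (hSx s hs)
      · exact absurd h' hcon
      · exact ⟨h', k⟩
    · rintro ⟨k, h'⟩; exact ⟨Or.inr (Or.inr h'), k⟩
  have hcx2 : ∀ s ∈ S, (nb G s ∩ Z).card = 2 → ¬ G.Adj s x' := by
    intro s hs h hcon
    apply h3 x s (hSP s hs).1.symm (fun h => hSx s hs h.symm)
    have : cn G x s = insert x' (nb G s ∩ Z) := by
      ext u
      simp only [cn, mem_inter, mem_nb, hadjx, mem_insert]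
      constructor
      · rintro ⟨rfl | rfl | k, h'⟩
        · exact absurd h' (hSy s hs)
        · exact Or.inl rfl
        · exact Or.inr ⟨h', k⟩
      · rintro (rfl | ⟨k, h'⟩)
        · exact ⟨Or.inr (Or.inl rfl), hcon⟩
        · exact ⟨Or.inr (Or.inr h'), k⟩
    rw [this, card_insert_of_notMem, h]
    exact fun h => hx'Z (mem_of_mem_inter_right h)
  have hcy2 : ∀ s ∈ S, (nb G s ∩ Z).card = 2 → ¬ G.Adj s y' := by
    intro s hs h hcon
    apply h3 y s (hSP s hs).2.1.symm (fun h => hSy s hs h.symm)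
    have : cn G y s = insert y' (nb G s ∩ Z) := by
      ext u
      simp only [cn, mem_inter, mem_nb, hadjy, mem_insert]
      constructor
      · rintro ⟨rfl | rfl | k, h'⟩
        · exact absurd h' (hSx s hs)
        · exact Or.inl rfl
        · exact Or.inr ⟨h', k⟩
      · rintro (rfl | ⟨k, h'⟩)
        · exact ⟨Or.inr (Or.inl rfl), hcon⟩
        · exact ⟨Or.inr (Or.inr h'), k⟩
    rw [this, card_insert_of_notMem, h]
    exact fun h => hy'Z (mem_of_mem_inter_right h)
  -- vertices with `m = 3` are full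
  have hfull : ∀ s ∈ S, (nb G s ∩ Z).card = 3 → ∀ u ∈ S, ¬ G.Adj s u := by
    intro s hs h u hu hsu
    have h1 := hsplit s
    have h5 : nb G s ∩ Q = Q := by
      rw [inter_eq_right]
      intro u hu
      simp only [hQ, mem_insert, mem_singleton] at hu
      rcases hu with rfl | rfl
      · simpa using hcx s hs h
      · simpa using hcy s hs h
    rw [h5, hQc, h] at h1
    have h6 : 0 < (nb G s ∩ S).card := card_pos.2 ⟨u, by simp [hu, hsu]⟩
    omega
  have hm3 : ∀ s, (nb G s ∩ Z).card ≤ 3 := by
    intro s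
    rw [← hZ3]; exact card_le_card inter_subset_right
  have hebZS : eb G Z S = 9 := by
    rw [eb_eq_mul G Z S 3 hZS, hZ3]
  have hebSZ : eb G S Z = 9 := by rw [eb_symm]; exact hebZS
  -- Case 1
  have case1 : ∀ a ∈ S, ∀ b ∈ S, a ≠ b → (nb G a ∩ Z).card = 3 → (nb G b ∩ Z).card = 3 →
      False := by
    intro a ha b hb hab ha3 hb3
    set AB : Finset V := {a, b} with hAB
    have hABS : AB ⊆ S := by
      intro u hu
      simp only [hAB, mem_insert, mem_singleton] at hu
      rcases hu with rfl | rfl <;> assumption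
    have hABc : AB.card = 2 := card_pair hab
    have hRc : (S \ AB).card = 3 := by rw [card_sdiff_of_subset hABS, hSc, hABc]
    have e0 : eb G (S \ AB) Z + eb G (S \ AB) Q + eb G (S \ AB) S = 15 := by
      have : ∀ r ∈ S \ AB, (nb G r ∩ Z).card + (nb G r ∩ Q).card + (nb G r ∩ S).card = 5 := by
        intro r hr'
        have h := hsplit r
        rw [hSP0 r (mem_sdiff.1 hr').1] at h
        omega
      unfold eb
      rw [← Finset.sum_add_distrib, ← Finset.sum_add_distrib, Finset.sum_congr rfl this]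
      simp [hRc]
    have e1 : eb G S Z = eb G AB Z + eb G (S \ AB) Z := by
      rw [← eb_union_left G disjoint_sdiff, union_sdiff_of_subset hABS]
    have e2 : eb G (S \ AB) S = eb G (S \ AB) AB + eb G (S \ AB) (S \ AB) := by
      rw [← eb_union_right G disjoint_sdiff, union_sdiff_of_subset hABS]
    have e3 : eb G AB Z = 6 := by rw [eb_two_left G hab, ha3, hb3]
    have e4 : eb G (S \ AB) AB = 0 := by
      rw [eb_symm, eb_eq_zero]
      intro u hu w hw
      simp only [hAB, mem_insert, mem_singleton] at hu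
      rcases hu with rfl | rfl
      · exact hfull u ha ha3 w (mem_sdiff.1 hw).1
      · exact hfull u hb hb3 w (mem_sdiff.1 hw).1
    have e5 := eb_self_le G (S \ AB)
    rw [hRc] at e5
    have e6 : eb G (S \ AB) Q = (nb G x' ∩ (S \ AB)).card + (nb G y' ∩ (S \ AB)).card := by
      rw [eb_symm]; exact eb_two_left G hx'y' _
    have e7 : (nb G x' ∩ (S \ AB)).card ≤ 2 := by
      have hd : Disjoint ({x, a, b} : Finset V) (S \ AB) := by
        rw [disjoint_left]
        intro u hu hu'
        rw [mem_sdiff] at hu'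
        simp only [hAB, mem_insert, mem_singleton] at hu hu'
        rcases hu with h | h
        · exact (hSP u hu'.1).1 h
        · exact hu'.2 h
      have h1 := dU G x' hd
      have h5 : nb G x' ∩ ({x, a, b} : Finset V) = {x, a, b} := by
        rw [inter_eq_right]
        intro u hu
        simp only [mem_insert, mem_singleton] at hu
        rcases hu with rfl | rfl | rfl
        · simpa using ((hadjx x').2 (Or.inr (Or.inl rfl))).symm
        · simpa using (hcx u ha ha3).symm
        · simpa using (hcx u hb hb3).symm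
      have h6 : ({x, a, b} : Finset V).card = 3 := by
        rw [card_eq_three]
        exact ⟨x, a, b, (hSP a ha).1.symm, (hSP b hb).1.symm, hab, rfl⟩
      have h7 : (nb G x' ∩ ({x, a, b} ∪ S \ AB)).card ≤ 5 := by
        rw [← hr x']; exact card_le_card inter_subset_left
      rw [h5, h6] at h1
      omega
    have e8 : (nb G y' ∩ (S \ AB)).card ≤ 2 := by
      have hd : Disjoint ({y, a, b} : Finset V) (S \ AB) := by
        rw [disjoint_left]
        intro u hu hu'
        rw [mem_sdiff] at hu'
        simp only [hAB, mem_insert, mem_singleton] at hu hu'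
        rcases hu with h | h
        · exact (hSP u hu'.1).2.1 h
        · exact hu'.2 h
      have h1 := dU G y' hd
      have h5 : nb G y' ∩ ({y, a, b} : Finset V) = {y, a, b} := by
        rw [inter_eq_right]
        intro u hu
        simp only [mem_insert, mem_singleton] at hu
        rcases hu with rfl | rfl | rfl
        · simpa using ((hadjy y').2 (Or.inr (Or.inl rfl))).symm
        · simpa using (hcy u ha ha3).symm
        · simpa using (hcy u hb hb3).symm
      have h6 : ({y, a, b} : Finset V).card = 3 := by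
        rw [card_eq_three]
        exact ⟨y, a, b, (hSP a ha).2.1.symm, (hSP b hb).2.1.symm, hab, rfl⟩
      have h7 : (nb G y' ∩ ({y, a, b} ∪ S \ AB)).card ≤ 5 := by
        rw [← hr y']; exact card_le_card inter_subset_left
      rw [h5, h6] at h1
      omega
    omega
  -- the local count at `z ∈ Z`
  have local_count : ∀ z ∈ Z, ∃ s1 s2 s3, s1 ≠ s2 ∧ s1 ≠ s3 ∧ s2 ≠ s3 ∧
      nb G z ∩ S = {s1, s2, s3} ∧
      7 ≤ (nb G s1 ∩ Z).card + (nb G s2 ∩ Z).card + (nb G s3 ∩ Z).card := by
    intro z hz
    obtain ⟨s1, s2, s3, k12, k13, k23, hAe⟩ := card_eq_three.1 (hZS z hz)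
    refine ⟨s1, s2, s3, k12, k13, k23, hAe, ?_⟩
    have hT2 : (Z.erase z).card = 2 := by rw [card_erase_of_mem hz]; omega
    obtain ⟨z2, z3, h23, hT⟩ := card_eq_two.1 hT2
    have hz2 : z2 ∈ Z.erase z := by rw [hT]; simp
    have hz3 : z3 ∈ Z.erase z := by rw [hT]; simp
    have hge : ∀ z' ∈ Z.erase z, 2 ≤ (nb G z' ∩ {s1, s2, s3}).card := by
      intro z' hz'
      have h1 := hcnz z hz z' (mem_of_mem_erase hz') (ne_of_mem_erase hz').symm
      have h5 : nb G z ∩ nb G z' ∩ S = nb G z' ∩ {s1, s2, s3} := by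
        rw [← hAe]; ext u; simp only [mem_inter]; tauto
      rw [h5] at h1
      have h6 := card_union_add_card_inter (nb G z' ∩ S) (nb G z ∩ S)
      have h7 : nb G z' ∩ S ∩ (nb G z ∩ S) = nb G z' ∩ {s1, s2, s3} := by
        rw [← hAe]; ext u; simp only [mem_inter]; tauto
      have h8 : (nb G z' ∩ S ∪ nb G z ∩ S).card ≤ 5 := by
        rw [← hSc]; exact card_le_card (union_subset inter_subset_right inter_subset_right)
      rw [h7, hZS z hz, hZS z' (mem_of_mem_erase hz')] at h6
      omega
    have hdeg : ∀ s ∈ ({s1, s2, s3} : Finset V), (nb G s ∩ Z.erase z).card + 1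
        = (nb G s ∩ Z).card := by
      intro s hs
      rw [← hAe] at hs
      have h1 : z ∈ nb G s ∩ Z := by
        rw [mem_inter, mem_nb]
        exact ⟨by simpa using (G.adj_symm (by simpa using mem_of_mem_inter_left hs)), hz⟩
      have h2 : nb G s ∩ Z.erase z = (nb G s ∩ Z).erase z := by
        ext u; simp only [mem_inter, mem_erase]; tauto
      rw [h2, card_erase_of_mem h1]
      have := card_pos.2 ⟨z, h1⟩
      omega
    have hdc : (nb G z2 ∩ {s1, s2, s3}).card + (nb G z3 ∩ {s1, s2, s3}).card =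
        (nb G s1 ∩ Z.erase z).card + (nb G s2 ∩ Z.erase z).card
          + (nb G s3 ∩ Z.erase z).card := by
      rw [← eb_two_left G h23, ← eb_three_left G k12 k13 k23, ← hT, eb_symm]
    have p2 := hge z2 hz2
    have p3 := hge z3 hz3
    have d1 := hdeg s1 (by simp)
    have d2 := hdeg s2 (by simp)
    have d3 := hdeg s3 (by simp)
    omega
  -- `m(s) ≠ 1`
  have hm1 : ∀ s ∈ S, (nb G s ∩ Z).card ≠ 1 := by
    intro s hs hs1
    obtain ⟨z, hz⟩ := card_eq_one.1 hs1
    have hzm : z ∈ nb G s ∩ Z := by rw [hz]; simp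
    have hzZ := mem_of_mem_inter_right hzm
    obtain ⟨s1, s2, s3, k12, k13, k23, hAe, h7⟩ := local_count z hzZ
    have hsA : s ∈ nb G z ∩ S := by
      rw [mem_inter, mem_nb]
      exact ⟨G.adj_symm (by simpa using mem_of_mem_inter_left hzm), hs⟩
    have q1 : s1 ∈ S := mem_of_mem_inter_right (s₁ := nb G z) (by rw [hAe]; simp)
    have q2 : s2 ∈ S := mem_of_mem_inter_right (s₁ := nb G z) (by rw [hAe]; simp)
    have q3 : s3 ∈ S := mem_of_mem_inter_right (s₁ := nb G z) (by rw [hAe]; simp)
    have m1 := hm3 s1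
    have m2 := hm3 s2
    have m3 := hm3 s3
    rw [hAe] at hsA
    simp only [mem_insert, mem_singleton] at hsA
    rcases hsA with e | e | e
    · rw [e] at hs1
      exact case1 s2 q2 s3 q3 k23 (by omega) (by omega)
    · rw [e] at hs1
      exact case1 s1 q1 s3 q3 k13 (by omega) (by omega)
    · rw [e] at hs1
      exact case1 s1 q1 s2 q2 k12 (by omega) (by omega)
  -- a vertex with `m = 3`
  have hexb : ∃ b ∈ S, (nb G b ∩ Z).card = 3 := by
    have hZne : Z.Nonempty := by rw [← card_pos]; omega
    obtain ⟨z, hz⟩ := hZne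
    obtain ⟨s1, s2, s3, k12, k13, k23, hAe, h7⟩ := local_count z hz
    have q1 : s1 ∈ S := mem_of_mem_inter_right (s₁ := nb G z) (by rw [hAe]; simp)
    have q2 : s2 ∈ S := mem_of_mem_inter_right (s₁ := nb G z) (by rw [hAe]; simp)
    have q3 : s3 ∈ S := mem_of_mem_inter_right (s₁ := nb G z) (by rw [hAe]; simp)
    have m1 := hm3 s1
    have m2 := hm3 s2
    have m3 := hm3 s3
    have : (nb G s1 ∩ Z).card = 3 ∨ (nb G s2 ∩ Z).card = 3 ∨ (nb G s3 ∩ Z).card = 3 := by omega
    rcases this with h | h | h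
    · exact ⟨s1, q1, h⟩
    · exact ⟨s2, q2, h⟩
    · exact ⟨s3, q3, h⟩
  obtain ⟨b, hbS, hb3⟩ := hexb
  have hother : ∀ s ∈ S.erase b, (nb G s ∩ Z).card = 0 ∨ (nb G s ∩ Z).card = 2 := by
    intro s hs
    have hsS := mem_of_mem_erase hs
    have h1 := hm1 s hsS
    have h5 := hm3 s
    have h6 : (nb G s ∩ Z).card ≠ 3 := fun h => case1 s hsS b hbS (ne_of_mem_erase hs) h hb3
    omega
  have hEc : (S.erase b).card = 4 := by rw [card_erase_of_mem hbS, hSc]
  set T := (S.erase b).filter (fun s => (nb G s ∩ Z).card = 2) with hT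
  have hTE : T ⊆ S.erase b := filter_subset _ _
  have hTc : T.card = 3 := by
    have e1 : eb G S Z = (nb G b ∩ Z).card + eb G (S.erase b) Z := by
      rw [← eb_insert_left G (notMem_erase b S), insert_erase hbS]
    have e2 : eb G (S.erase b) Z = eb G T Z + eb G (S.erase b \ T) Z := by
      rw [← eb_union_left G disjoint_sdiff, union_sdiff_of_subset hTE]
    have e3 : eb G T Z = T.card * 2 := by
      apply eb_eq_mul
      intro s hs
      exact (mem_filter.1 hs).2
    have e4 : eb G (S.erase b \ T) Z = (S.erase b \ T).card * 0 := by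
      apply eb_eq_mul
      intro s hs
      rw [mem_sdiff] at hs
      rcases hother s hs.1 with h | h
      · exact h
      · exact absurd (mem_filter.2 ⟨hs.1, h⟩) hs.2
    omega
  have hTadj : ∀ s ∈ T, ∀ u ∈ S.erase b, u ≠ s → G.Adj s u := by
    intro s hs u hu hus
    have hsE := hTE hs
    have hsS := mem_of_mem_erase hsE
    have hs2 := (mem_filter.1 hs).2
    have h1 := hsplit s
    have h5 : (nb G s ∩ Q).card = 0 := by
      rw [card_eq_zero, eq_empty_iff_forall_notMem]
      intro w hw
      simp only [hQ, mem_inter, mem_nb, mem_insert, mem_singleton] at hw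
      rcases hw with ⟨h, rfl | rfl⟩
      · exact hcx2 s hsS hs2 h
      · exact hcy2 s hsS hs2 h
    rw [hSP0 s hsS, h5, hs2] at h1
    have h6 : nb G s ∩ S ⊆ (S.erase b).erase s := by
      intro w hw
      rw [mem_inter, mem_nb] at hw
      rw [mem_erase, mem_erase]
      refine ⟨(G.ne_of_adj hw.1).symm, ?_, hw.2⟩
      rintro rfl
      exact hfull w hbS hb3 s hsS hw.1.symm
    have h7 : nb G s ∩ S = (S.erase b).erase s := by
      apply eq_of_subset_of_card_le h6
      rw [card_erase_of_mem hsE, hEc]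
      omega
    have h8 : u ∈ nb G s ∩ S := by
      rw [h7, mem_erase]
      exact ⟨hus, hu⟩
    simpa using mem_of_mem_inter_left h8
  have hext : ∃ t ∈ S.erase b, t ∉ T := by
    by_contra hcon
    push Not at hcon
    have : S.erase b ⊆ T := hcon
    have := card_le_card this
    omega
  obtain ⟨t, htE, htT⟩ := hext
  obtain ⟨t1, t2, t3, k12, k13, k23, hTe⟩ := card_eq_three.1 hTc
  have ht1 : t1 ∈ T := by rw [hTe]; simp
  have ht2 : t2 ∈ T := by rw [hTe]; simp
  have ht3 : t3 ∈ T := by rw [hTe]; simp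
  exact h4 t1 t2 t3 t (hTadj t1 ht1 t2 (hTE ht2) k12.symm) (hTadj t1 ht1 t3 (hTE ht3) k13.symm)
    (hTadj t1 ht1 t htE (fun h => htT (h ▸ ht1))) (hTadj t2 ht2 t3 (hTE ht3) k23.symm)
    (hTadj t2 ht2 t htE (fun h => htT (h ▸ ht2))) (hTadj t3 ht3 t htE (fun h => htT (h ▸ ht3)))

/-- every adjacent pair has at most one common neighbour -/
lemma cn_le_one {G : SimpleGraph V} (hr : Reg5 G) (hn : Fintype.card V = 12)
    (h4 : K4Free G) (h2 : NoAdjTwo G)
    (h3 : ∀ x y, x ≠ y → ¬ G.Adj x y → (cn G x y).card ≠ 3) {x y : V} (hxy : G.Adj x y) :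
    (cn G x y).card ≤ 1 := by
  have e2 := h2 x y hxy
  have e3 := no_three hr hn h4 h2 h3 hxy
  have e4 := no_four hr hn h4 h2 h3 hxy
  have e5 : (cn G x y).card ≤ ((nb G x).erase y).card := by
    apply card_le_card
    intro u hu
    rw [cn, mem_inter, mem_nb, mem_nb] at hu
    rw [mem_erase, mem_nb]
    exact ⟨(G.ne_of_adj hu.2).symm, hu.1⟩
  rw [card_erase_of_mem (by simpa using hxy), hr x] at e5
  omega

/-- uniqueness of a common neighbour of an adjacent pair -/
lemma cn_unique {G : SimpleGraph V} (h1 : ∀ x y, G.Adj x y → (cn G x y).card ≤ 1) {x y u w : V}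
    (hxy : G.Adj x y) (hu : G.Adj x u) (hu' : G.Adj y u) (hw : G.Adj x w) (hw' : G.Adj y w) :
    u = w := by
  apply card_le_one.1 (h1 x y hxy) <;> simp [cn, *]

/-- each neighbourhood contains at most one edge -/
lemma edge_unique {G : SimpleGraph V} (hr : Reg5 G) (hn : Fintype.card V = 12)
    (h3 : ∀ x y, x ≠ y → ¬ G.Adj x y → (cn G x y).card ≠ 3)
    (h1 : ∀ x y, G.Adj x y → (cn G x y).card ≤ 1) {v a a' b b' : V} (ha : G.Adj v a)
    (ha' : G.Adj v a') (hb : G.Adj v b) (hb' : G.Adj v b') (haa : G.Adj a a')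
    (hbb : G.Adj b b') : b = a ∨ b = a' := by
  classical
  by_contra hcon
  push Not at hcon
  obtain ⟨hba, hba'⟩ := hcon
  have hb'a : b' ≠ a := by
    rintro rfl
    exact hba' (cn_unique h1 hb' hb hbb.symm ha' haa)
  have hb'a' : b' ≠ a' := by
    rintro rfl
    exact hba (cn_unique h1 hb' hb hbb.symm ha haa.symm)
  set N := nb G v with hN
  have hmN : ∀ u, u ∈ N ↔ G.Adj v u := by intro u; simp [hN]
  have hNc : N.card = 5 := hr v
  have hvN : v ∉ N := not_mem_nb_self G v
  set P : Finset V := {v} with hP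
  have hPN : Disjoint P N := by rw [hP, disjoint_singleton_left]; exact hvN
  set S : Finset V := (P ∪ N)ᶜ with hS
  have hSc : S.card = 6 := by
    rw [hS, card_compl, card_union_of_disjoint hPN, hP, card_singleton, hNc, hn]
  have hsplit : ∀ u, (nb G u ∩ P).card + (nb G u ∩ N).card + (nb G u ∩ S).card = 5 := by
    intro u
    rw [← dU G u hPN, card_nb_split, hr u]
  have hNS : ∀ u ∈ N, 3 ≤ (nb G u ∩ S).card := by
    intro u hu
    have huv : G.Adj v u := (hmN u).1 hu
    have e1 := hsplit u
    have e2 : (nb G u ∩ P).card ≤ 1 := by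
      rw [← card_singleton v, ← hP]; exact card_le_card inter_subset_right
    have e3 : (nb G u ∩ N).card ≤ 1 := h1 u v huv.symm
    omega
  have hge : 15 ≤ eb G N S := by
    unfold eb
    calc 15 = ∑ u ∈ N, 3 := by simp [hNc]
      _ ≤ _ := Finset.sum_le_sum hNS
  have hle : eb G S N ≤ S.card * 2 := by
    apply eb_le_mul
    intro s hs
    rw [hS, mem_compl, mem_union, not_or, hP, mem_singleton] at hs
    obtain ⟨hsv, hsN⟩ := hs
    have hne3 : (nb G s ∩ N).card ≠ 3 := h3 s v hsv (fun h => hsN ((hmN s).2 h.symm))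
    -- `s` misses one of `a, a'` and one of `b, b'`
    have m1 : ∃ c ∈ N, (c = a ∨ c = a') ∧ ¬ G.Adj s c := by
      by_contra hcon
      push Not at hcon
      have g1 := hcon a ((hmN a).2 ha) (Or.inl rfl)
      have g2 := hcon a' ((hmN a').2 ha') (Or.inr rfl)
      exact hsv (cn_unique h1 haa g1.symm g2.symm ha.symm ha'.symm)
    have m2 : ∃ c ∈ N, (c = b ∨ c = b') ∧ ¬ G.Adj s c := by
      by_contra hcon
      push Not at hcon
      have g1 := hcon b ((hmN b).2 hb) (Or.inl rfl)
      have g2 := hcon b' ((hmN b').2 hb') (Or.inr rfl)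
      exact hsv (cn_unique h1 hbb g1.symm g2.symm hb.symm hb'.symm)
    obtain ⟨c, hcN, hc, hsc⟩ := m1
    obtain ⟨d, hdN, hd, hsd⟩ := m2
    have hcd : c ≠ d := by
      rcases hc with rfl | rfl <;> rcases hd with rfl | rfl
      · exact hba.symm
      · exact hb'a.symm
      · exact hba'.symm
      · exact hb'a'.symm
    have hsub : nb G s ∩ N ⊆ (N.erase c).erase d := by
      intro u hu
      rw [mem_inter, mem_nb] at hu
      rw [mem_erase, mem_erase]
      refine ⟨?_, ?_, hu.2⟩
      · rintro rfl; exact hsd hu.1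
      · rintro rfl; exact hsc hu.1
    have hcard := card_le_card hsub
    rw [card_erase_of_mem (mem_erase.2 ⟨hcd.symm, hdN⟩), card_erase_of_mem hcN, hNc] at hcard
    omega
  rw [eb_symm, hSc] at hle
  omega

end G3

open G3 in
/-- (G3) every vertex in a triangle: impossible -/
theorem twelve_of_triangles {V : Type} [Fintype V] [DecidableEq V] {G : SimpleGraph V}
    (hr : Reg5 G) (hn : Fintype.card V = 12)
    (h4 : K4Free G) (h2 : NoAdjTwo G)
    (h3 : ∀ x y, x ≠ y → ¬ G.Adj x y → (cn G x y).card ≠ 3)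
    (hv : ∀ v, ∃ a ∈ nb G v, ∃ b ∈ nb G v, G.Adj a b) : False := by
  classical
  have h1 : ∀ x y, G.Adj x y → (cn G x y).card ≤ 1 :=
    fun x y hxy => cn_le_one hr hn h4 h2 h3 hxy
  have hU : ∀ v a a' b b', G.Adj v a → G.Adj v a' → G.Adj v b → G.Adj v b' → G.Adj a a' →
      G.Adj b b' → b = a ∨ b = a' :=
    fun v a a' b b' k1 k2 k3 k4 k5 k6 => edge_unique hr hn h3 h1 k1 k2 k3 k4 k5 k6
  have hne : Nonempty V := by
    rw [← Fintype.card_pos_iff]; omega
  obtain ⟨v⟩ := hne
  obtain ⟨a, haN, a', ha'N, haa⟩ := hv v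
  have hva : G.Adj v a := by simpa using haN
  have hva' : G.Adj v a' := by simpa using ha'N
  have hane : a ≠ a' := G.ne_of_adj haa
  set N := nb G v with hN
  have hmN : ∀ u, u ∈ N ↔ G.Adj v u := by intro u; simp [hN]
  have hNc : N.card = 5 := hr v
  have hvN : v ∉ N := not_mem_nb_self G v
  set P : Finset V := {v} with hP
  have hPN : Disjoint P N := by rw [hP, disjoint_singleton_left]; exact hvN
  set S : Finset V := (P ∪ N)ᶜ with hS
  have hSc : S.card = 6 := by
    rw [hS, card_compl, card_union_of_disjoint hPN, hP, card_singleton, hNc, hn]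
  have hSm : ∀ s ∈ S, s ≠ v ∧ ¬ G.Adj v s := by
    intro s hs
    rw [hS, mem_compl, mem_union, not_or, hP, mem_singleton, hmN] at hs
    exact hs
  have hsplit : ∀ u, (nb G u ∩ P).card + (nb G u ∩ N).card + (nb G u ∩ S).card = 5 := by
    intro u
    rw [← dU G u hPN, card_nb_split, hr u]
  have hNP : ∀ u ∈ N, (nb G u ∩ P).card = 1 := by
    intro u hu
    have : nb G u ∩ P = P := by
      rw [inter_eq_right, hP, singleton_subset_iff, mem_nb]
      exact ((hmN u).1 hu).symm
    rw [this, hP, card_singleton]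
  have hSP : ∀ s ∈ S, (nb G s ∩ P).card = 0 := by
    intro s hs
    rw [card_eq_zero, hP, eq_empty_iff_forall_notMem]
    intro u hu
    rw [mem_inter, mem_nb, mem_singleton] at hu
    rcases hu with ⟨h, rfl⟩
    exact (hSm s hs).2 h.symm
  have hSS : ∀ s ∈ S, (nb G s ∩ N).card + (nb G s ∩ S).card = 5 := by
    intro s hs
    have h := hsplit s
    rw [hSP s hs] at h
    omega
  -- degrees inside `N`
  have hNa : (nb G a ∩ N).card = 1 := by
    have e1 : (nb G a ∩ N).card ≤ 1 := h1 a v hva.symm
    have e2 : 0 < (nb G a ∩ N).card := card_pos.2 ⟨a', by simp [haa, hmN, hva']⟩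
    omega
  have hNa' : (nb G a' ∩ N).card = 1 := by
    have e1 : (nb G a' ∩ N).card ≤ 1 := h1 a' v hva'.symm
    have e2 : 0 < (nb G a' ∩ N).card := card_pos.2 ⟨a, by simp [haa.symm, hmN, hva]⟩
    omega
  have hN0 : ∀ u ∈ N, u ≠ a → u ≠ a' → (nb G u ∩ N).card = 0 := by
    intro u hu hua hua'
    rw [card_eq_zero, eq_empty_iff_forall_notMem]
    intro w hw
    rw [mem_inter, mem_nb, hmN] at hw
    rcases hU v a a' u w hva hva' ((hmN u).1 hu) hw.2 haa hw.1 with h | h
    · exact hua h
    · exact hua' h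
  -- `e(N,S) = 18`
  set Q : Finset V := {a, a'} with hQ
  have hQN : Q ⊆ N := by
    intro u hu
    simp only [hQ, mem_insert, mem_singleton] at hu
    rcases hu with rfl | rfl <;> assumption
  have hQc : Q.card = 2 := card_pair hane
  have hMc : (N \ Q).card = 3 := by rw [card_sdiff_of_subset hQN, hNc, hQc]
  have hebNS : eb G N S = 18 := by
    have e1 : eb G N S = eb G Q S + eb G (N \ Q) S := by
      rw [← eb_union_left G disjoint_sdiff, union_sdiff_of_subset hQN]
    have e2 : eb G Q S = (nb G a ∩ S).card + (nb G a' ∩ S).card := eb_two_left G hane S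
    have e3 := hsplit a
    have e4 := hsplit a'
    rw [hNP a haN, hNa] at e3
    rw [hNP a' ha'N, hNa'] at e4
    have e5 : eb G (N \ Q) S = (N \ Q).card * 4 := by
      apply eb_eq_mul
      intro u hu
      rw [mem_sdiff, hQ, mem_insert, mem_singleton, not_or] at hu
      have e6 := hsplit u
      rw [hNP u hu.1, hN0 u hu.1 hu.2.1 hu.2.2] at e6
      omega
    omega
  have hebSN : eb G S N = 18 := by rw [eb_symm]; exact hebNS
  -- `s ∈ S` misses `a` or `a'`
  have hmiss : ∀ s ∈ S, ¬ G.Adj s a ∨ ¬ G.Adj s a' := by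
    intro s hs
    by_contra hcon
    push Not at hcon
    exact (hSm s hs).1 (cn_unique h1 haa hcon.1.symm hcon.2.symm hva.symm hva'.symm)
  have hle4 : ∀ s ∈ S, (nb G s ∩ N).card ≤ 4 := by
    intro s hs
    have key : ∀ c ∈ N, ¬ G.Adj s c → (nb G s ∩ N).card ≤ 4 := by
      intro c hc hsc
      have : nb G s ∩ N ⊆ N.erase c := by
        intro u hu
        rw [mem_inter, mem_nb] at hu
        rw [mem_erase]
        refine ⟨?_, hu.2⟩
        rintro rfl; exact hsc hu.1
      have := card_le_card this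
      rw [card_erase_of_mem hc, hNc] at this
      omega
    rcases hmiss s hs with h | h
    · exact key a haN h
    · exact key a' ha'N h
  have hne3 : ∀ s ∈ S, (nb G s ∩ N).card ≠ 3 := by
    intro s hs
    exact h3 s v (hSm s hs).1 (fun h => (hSm s hs).2 h.symm)
  set K := S.filter (fun s => (nb G s ∩ N).card = 4) with hK
  have hKS : K ⊆ S := filter_subset _ _
  have hK4 : ∀ s ∈ K, (nb G s ∩ N).card = 4 := fun s hs => (mem_filter.1 hs).2
  set L := S \ K with hL
  have hLS : L ⊆ S := sdiff_subset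
  have hLc : L.card + K.card = 6 := by
    rw [hL, card_sdiff_of_subset hKS, hSc]
    have := card_le_card hKS
    omega
  have hL2 : ∀ s ∈ L, (nb G s ∩ N).card ≤ 2 := by
    intro s hs
    rw [hL, mem_sdiff] at hs
    have e1 := hle4 s hs.1
    have e2 := hne3 s hs.1
    have e3 : (nb G s ∩ N).card ≠ 4 := fun h => hs.2 (mem_filter.2 ⟨hs.1, h⟩)
    omega
  have hKL : Disjoint K L := disjoint_sdiff
  have hKLS : K ∪ L = S := union_sdiff_of_subset hKS
  have s1 : eb G S N = eb G K N + eb G L N := by rw [← eb_union_left G hKL, hKLS]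
  have s2 : eb G K N = K.card * 4 := eb_eq_mul G K N 4 hK4
  have s3 : eb G L N ≤ L.card * 2 := eb_le_mul G L N 2 hL2
  -- elements of `K` are adjacent to all of `N` except one of `a`, `a'`
  have hKN : ∀ s ∈ K, ∀ u ∈ N \ Q, G.Adj s u := by
    intro s hs u hu
    rw [mem_sdiff, hQ, mem_insert, mem_singleton, not_or] at hu
    by_contra hsu
    have key : ∀ c ∈ N, c ≠ u → ¬ G.Adj s c → False := by
      intro c hc hcu hsc
      have : nb G s ∩ N ⊆ (N.erase c).erase u := by
        intro w hw
        rw [mem_inter, mem_nb] at hw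
        rw [mem_erase, mem_erase]
        refine ⟨?_, ?_, hw.2⟩
        · rintro rfl; exact hsu hw.1
        · rintro rfl; exact hsc hw.1
      have := card_le_card this
      rw [card_erase_of_mem (mem_erase.2 ⟨hcu.symm, hu.1⟩), card_erase_of_mem hc, hNc,
        hK4 s hs] at this
      omega
    rcases hmiss s (hKS hs) with h | h
    · exact key a haN (fun e => hu.2.1 e.symm) h
    · exact key a' ha'N (fun e => hu.2.2 e.symm) h
  have hKind : ∀ s ∈ K, ∀ s' ∈ K, ¬ G.Adj s s' := by
    intro s hs s' hs' hadj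
    have e1 := h1 s s' hadj
    have e2 : (N \ Q).card ≤ (cn G s s').card := by
      apply card_le_card
      intro u hu
      rw [cn, mem_inter, mem_nb, mem_nb]
      exact ⟨hKN s hs u hu, hKN s' hs' u hu⟩
    omega
  have hKK0 : ∀ s ∈ K, (nb G s ∩ K).card = 0 := by
    intro s hs
    rw [card_eq_zero, eq_empty_iff_forall_notMem]
    intro u hu
    rw [mem_inter, mem_nb] at hu
    exact hKind s hs u hu.2 hu.1
  have hKL1 : ∀ s ∈ K, (nb G s ∩ L).card = 1 := by
    intro s hs
    have e1 := hSS s (hKS hs)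
    have e2 := dU G s hKL
    rw [hKLS, hKK0 s hs] at e2
    rw [hK4 s hs] at e1
    omega
  have s4 : eb G L K = K.card * 1 := by rw [eb_symm]; exact eb_eq_mul G K L 1 hKL1
  have s5 : eb G L S = eb G L K + eb G L L := by rw [← eb_union_right G hKL, hKLS]
  have s6 : eb G L N + eb G L S = L.card * 5 := by
    unfold eb
    rw [← Finset.sum_add_distrib, Finset.sum_congr rfl (fun s hs => hSS s (hLS hs))]
    simp
  have s7 := eb_self_le G L
  have hk : K.card = 3 ∨ K.card = 4 := by omega
  rcases hk with hk | hk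
  · have hL3 : L.card = 3 := by omega
    rw [hL3] at s7 s6 s3
    have s8 : eb G L L = 6 := by omega
    have hLdeg : ∀ l ∈ L, (nb G l ∩ L).card ≤ 2 := by
      intro l hl
      have : (nb G l ∩ L).card ≤ (L.erase l).card := by
        apply card_le_card
        intro u hu
        rw [mem_inter, mem_nb] at hu
        exact mem_erase.2 ⟨(G.ne_of_adj hu.1).symm, hu.2⟩
      rw [card_erase_of_mem hl, hL3] at this
      exact this
    have hLeq := eq_of_eb_eq_mul G L L 2 hLdeg (by omega)
    have hLadj : ∀ l ∈ L, ∀ u ∈ L, u ≠ l → G.Adj l u := by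
      intro l hl u hu hul
      have e1 : nb G l ∩ L = L.erase l := by
        apply eq_of_subset_of_card_le
        · intro w hw
          rw [mem_inter, mem_nb] at hw
          exact mem_erase.2 ⟨(G.ne_of_adj hw.1).symm, hw.2⟩
        · rw [card_erase_of_mem hl, hL3, hLeq l hl]
      have : u ∈ nb G l ∩ L := by rw [e1]; exact mem_erase.2 ⟨hul, hu⟩
      simpa using mem_of_mem_inter_left this
    have hKne : K.Nonempty := by rw [← card_pos]; omega
    obtain ⟨s, hs⟩ := hKne
    obtain ⟨p, hp⟩ := card_eq_one.1 (hKL1 s hs)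
    have hpm : p ∈ nb G s ∩ L := by rw [hp]; simp
    have hpL := mem_of_mem_inter_right hpm
    have hsp : G.Adj s p := by simpa using mem_of_mem_inter_left hpm
    -- neighbours of `s`
    have hnbs : ∀ u, G.Adj s u → u ∈ N ∨ u = p := by
      intro u hu
      by_cases huN : u ∈ N
      · exact Or.inl huN
      · right
        have huv : u ≠ v := by
          rintro rfl
          exact (hSm s (hKS hs)).2 hu.symm
        have huS : u ∈ S := by
          rw [hS, mem_compl, mem_union, not_or, hP, mem_singleton]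
          exact ⟨huv, huN⟩
        have huK : u ∉ K := fun h => hKind s hs u h hu
        have : u ∈ nb G s ∩ L := by
          rw [mem_inter, mem_nb, hL, mem_sdiff]
          exact ⟨hu, huS, huK⟩
        rw [hp, mem_singleton] at this
        exact this
    obtain ⟨u, hu, w, hw, huw⟩ := hv s
    rw [mem_nb] at hu hw
    -- an edge `p w'` with `w' ~ s`
    have hw' : ∃ w', G.Adj s w' ∧ G.Adj p w' := by
      rcases hnbs u hu with huN | rfl
      · rcases hnbs w hw with hwN | rfl
        · exfalso
          have hvu := (hmN u).1 huN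
          have hvw := (hmN w).1 hwN
          have k1 := hU v a a' u w hva hva' hvu hvw haa huw
          have k2 := hU v a a' w u hva hva' hvw hvu haa huw.symm
          have hne := G.ne_of_adj huw
          rcases hmiss s (hKS hs) with h | h
          · rcases k1 with rfl | rfl
            · exact h hu
            · rcases k2 with rfl | rfl
              · exact h hw
              · exact hne rfl
          · rcases k1 with rfl | rfl
            · rcases k2 with rfl | rfl
              · exact hne rfl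
              · exact h hw
            · exact h hu
        · exact ⟨u, hu, huw.symm⟩
      · exact ⟨w, hw, huw⟩
    obtain ⟨w', hsw', hpw'⟩ := hw'
    -- the triangle `L`
    have hE2 : (L.erase p).card = 2 := by rw [card_erase_of_mem hpL, hL3]
    obtain ⟨q, r, hqr, hE⟩ := card_eq_two.1 hE2
    have hq : q ∈ L.erase p := by rw [hE]; simp
    have hr' : r ∈ L.erase p := by rw [hE]; simp
    have hqL := mem_of_mem_erase hq
    have hrL := mem_of_mem_erase hr'
    have k := hU p q r s w' (hLadj p hpL q hqL (ne_of_mem_erase hq))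
      (hLadj p hpL r hrL (ne_of_mem_erase hr')) hsp.symm hpw' (hLadj q hqL r hrL hqr.symm) hsw'
    rcases k with rfl | rfl
    · exact disjoint_left.1 hKL hs hqL
    · exact disjoint_left.1 hKL hs hrL
  · have hL2' : L.card = 2 := by omega
    rw [hL2'] at s7 s6 s3
    omega

end Pool.Agent.H38.Rig
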