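import Pool.Agent.H38.Rig.Asm1
import Pool.Agent.H38.Rig.Cut
import Pool.Agent.H38.Rig.K4
import Pool.Agent.H38.Rig.Tri
import Pool.Agent.H38.Rig.TriFree
import Pool.Agent.H38.Rig.Three
import Pool.Agent.H38.Rig.Twelve2
import Pool.Agent.H38.Rig.Twelve3
import Pool.Agent.H38.Rig.K66

set_option autoImplicit false
set_option linter.unusedSectionVars false
set_option linter.unusedVariables false

namespace Pool.Agent.H38.Rig

open Finset

variable {V : Type} [Fintype V] [DecidableEq V]

/-! ### Assembly, part 2 (helper27) -/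

/-- connected case -/
theorem ind_of_conn {G : SimpleGraph V} (hs : Sparse G) (hr : Reg5 G) (hconn : Conn G)
    [Nonempty V] : Ind G := by
  classical
  have hn := twelve_le hs hr
  by_cases hcut : Cut7 G
  · by_cases h4 : K4Free G
    · by_cases h2 : NoAdjTwo G
      · by_cases hn14 : 14 ≤ Fintype.card V
        · by_cases htri : ∃ x y, G.Adj x y ∧ (cn G x y).Nonempty
          · exact ind_of_hasGood hs hr hcut hn (good_of_triangle hs hr hcut hn14 h4 h2 htri)
          · push Not at htri
            refine ind_of_hasGood hs hr hcut hn (good_of_triangleFree hs hr hcut hn14 ?_)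
            intro x y hxy
            exact htri x y hxy
        · have hev := card_even hr
          have h12 : Fintype.card V = 12 := by omega
          by_cases h3 : ∀ x y, x ≠ y → ¬ G.Adj x y → (cn G x y).card ≠ 3
          · by_cases hv : ∃ v, ∀ a ∈ nb G v, ∀ b ∈ nb G v, ¬ G.Adj a b
            · obtain ⟨v, hv⟩ := hv
              obtain ⟨e⟩ := twelve_of_indep hr h12 h3 v hv
              exact ind_of_iso e ind_K66PM
            · push Not at hv
              exact (twelve_of_triangles hr h12 h4 h2 h3 hv).elim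
          · push Not at h3
            obtain ⟨x, y, hxy, hnadj, hc⟩ := h3
            exact ind_of_hasGood hs hr hcut hn
              (Or.inr ⟨x, y, good_of_three hs hr hcut hn h4 h2 hxy hnadj hc⟩)
      · unfold NoAdjTwo at h2
        push Not at h2
        obtain ⟨x, y, hxy, hc⟩ := h2
        exact ind_of_hasGood hs hr hcut hn (Or.inl ⟨x, y, good_of_adj_two hs hr hcut hn h4 hxy hc⟩)
    · exact ind_of_hasGood hs hr hcut hn (good_of_K4 hs hr hcut hn h4)
  · unfold Cut7 at hcut
    push Not at hcut
    obtain ⟨X, h2, hn2, hd⟩ := hcut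
    exact ind_of_cut G hs hr hconn X h2 hn2 (by omega)

/-! #### Restriction to a union of components -/

/-- the graph induced on a subtype -/
def sub (G : SimpleGraph V) (P : V → Prop) : SimpleGraph {v // P v} := G.comap Subtype.val

lemma sub_adj {G : SimpleGraph V} {P : V → Prop} {u v : {v // P v}} :
    (sub G P).Adj u v ↔ G.Adj u v := Iff.rfl

lemma ie_sub (G : SimpleGraph V) (P : V → Prop) [DecidablePred P] (X : Finset {v // P v}) :
    ie (sub G P) X = ie G (X.map (Function.Embedding.subtype P)) := by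
  classical
  unfold ie
  rw [eb_eq_sum, eb_eq_sum, Finset.sum_map]
  congr 1
  refine Finset.sum_congr rfl (fun a _ => ?_)
  rw [Finset.sum_map]
  rfl

lemma sparse_sub {G : SimpleGraph V} (hs : Sparse G) (P : V → Prop) [DecidablePred P] :
    Sparse (sub G P) := by
  intro X hX
  have h := hs (X.map (Function.Embedding.subtype P)) (by rw [Finset.card_map]; exact hX)
  rw [fz_def, Finset.card_map] at h
  rw [fz_def, ie_sub]
  exact h

lemma reg5_sub {G : SimpleGraph V} (hr : Reg5 G) (P : V → Prop) [DecidablePred P]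
    (hP : ∀ u z, P u → G.Adj u z → P z) : Reg5 (sub G P) := by
  intro v
  rw [← hr v, ← Finset.card_map (Function.Embedding.subtype P)]
  congr 1
  ext z
  simp only [mem_map, mem_nb, Function.Embedding.coe_subtype, Subtype.exists, exists_and_right,
    exists_eq_right]
  constructor
  · rintro ⟨hz, h⟩; exact h
  · intro h; exact ⟨hP _ _ v.2 h, h⟩

lemma ind_of_split (G : SimpleGraph V) (P : V → Prop) [DecidablePred P]
    (hP : ∀ u z, P u → G.Adj u z → P z) (h1 : Ind (sub G P)) (h2 : Ind (sub G (fun v => ¬ P v))) :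
    Ind G := by
  obtain ⟨p1, hp1⟩ := h1
  obtain ⟨p2, hp2⟩ := h2
  refine ⟨fun v => if h : P v then p1 ⟨v, h⟩ else p2 ⟨v, h⟩, ?_⟩
  intro ω hsym hsupp heq
  have hcross : ∀ u v, P u → ¬ P v → ω u v = 0 := fun u v hu hv =>
    hsupp u v (fun h => hv (hP u v hu h))
  have h1 : ∀ u v : {v // P v}, ω u v = 0 := by
    refine hp1 (fun u v => ω u v) (fun u v => hsym u v) (fun u v h => hsupp u v h) ?_
    intro v
    have h := heq v
    rw [← Fintype.sum_subtype_add_sum_subtype P] at h
    have h' : ∑ i : {x // ¬ P x}, ω v i • ((fun v => if h : P v then p1 ⟨v, h⟩ else p2 ⟨v, h⟩) v.1 -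
        (fun v => if h : P v then p1 ⟨v, h⟩ else p2 ⟨v, h⟩) i.1) = 0 :=
      Finset.sum_eq_zero (fun i _ => by rw [hcross v i v.2 i.2, zero_smul])
    rw [h', add_zero] at h
    rw [← h]
    refine Finset.sum_congr rfl (fun u _ => ?_)
    simp only [dif_pos v.2, dif_pos u.2]
  have h2 : ∀ u v : {v // ¬ P v}, ω u v = 0 := by
    refine hp2 (fun u v => ω u v) (fun u v => hsym u v) (fun u v h => hsupp u v h) ?_
    intro v
    have h := heq v
    rw [← Fintype.sum_subtype_add_sum_subtype P] at h
    have h' : ∑ i : {x // P x}, ω v i • ((fun v => if h : P v then p1 ⟨v, h⟩ else p2 ⟨v, h⟩) v.1 -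
        (fun v => if h : P v then p1 ⟨v, h⟩ else p2 ⟨v, h⟩) i.1) = 0 :=
      Finset.sum_eq_zero (fun i _ => by rw [hsym, hcross i v i.2 v.2, zero_smul])
    rw [h', zero_add] at h
    rw [← h]
    refine Finset.sum_congr rfl (fun u _ => ?_)
    simp only [dif_neg v.2, dif_neg u.2]
  intro u v
  by_cases hu : P u
  · by_cases hv : P v
    · exact h1 ⟨u, hu⟩ ⟨v, hv⟩
    · exact hcross u v hu hv
  · by_cases hv : P v
    · rw [hsym]; exact hcross v u hv hu
    · exact h2 ⟨u, hu⟩ ⟨v, hv⟩

/-- **Main theorem**: every `(3,6)`-sparse 5-regular graph is independent in the generic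
3-dimensional rigidity matroid. -/
theorem ind_of_sparse_reg5 (n : ℕ) : ∀ (V : Type) [Fintype V] [DecidableEq V]
    (G : SimpleGraph V), Fintype.card V = n → Sparse G → Reg5 G → Ind G := by
  induction n using Nat.strong_induction_on with
  | _ n ih =>
  intro V _ _ G hn hs hr
  classical
  rcases isEmpty_or_nonempty V with hV | hV
  · exact ⟨fun _ => 0, fun ω _ _ _ u => hV.elim u⟩
  by_cases hconn : Conn G
  · exact ind_of_conn hs hr hconn
  · unfold Conn at hconn
    push Not at hconn
    obtain ⟨C, hC, hCu, hcl⟩ := hconn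
    obtain ⟨P, hPC⟩ : ∃ P : V → Prop, ∀ v, P v ↔ v ∈ C := ⟨fun v => v ∈ C, fun _ => Iff.rfl⟩
    have hP : ∀ u z, P u → G.Adj u z → P z := by
      intro u z hu huz
      by_contra hz
      exact hcl u ((hPC u).1 hu) z (fun h => hz ((hPC z).2 h)) huz
    have hP' : ∀ u z, ¬ P u → G.Adj u z → ¬ P z := by
      intro u z hu huz hz
      exact hu (hP z u hz huz.symm)
    obtain ⟨c, hc⟩ := hC
    obtain ⟨d, hd⟩ : ∃ d, d ∉ C := by
      by_contra hne
      push Not at hne
      exact hCu (Finset.eq_univ_iff_forall.2 hne)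
    refine ind_of_split G P hP ?_ ?_
    · refine ih _ ?_ _ _ rfl (sparse_sub hs _) (reg5_sub hr _ hP)
      rw [← hn]
      exact Fintype.card_subtype_lt (p := P) (fun h => hd ((hPC d).1 h))
    · refine ih _ ?_ _ _ rfl (sparse_sub hs _) (reg5_sub hr _ hP')
      rw [← hn]
      exact Fintype.card_subtype_lt (p := fun v => ¬ P v) (not_not.2 ((hPC c).2 hc))

end Pool.Agent.H38.Rig
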