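import Pool.Agent.H38.Rig.Defs

set_option autoImplicit false
set_option linter.unusedSectionVars false
set_option linter.unusedVariables false

namespace Pool.Agent.H38.Rig

open Finset

variable {V : Type} [Fintype V] [DecidableEq V]

/-! ### The basic counting function `eb` -/

open Classical in
lemma card_nb_inter (G : SimpleGraph V) (v : V) (B : Finset V) :
    (nb G v ∩ B).card = ∑ b ∈ B, if G.Adj v b then 1 else 0 := by
  rw [Finset.sum_boole, Nat.cast_id]
  congr 1
  ext u
  simp [and_comm]

open Classical in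
lemma eb_eq_sum (G : SimpleGraph V) (A B : Finset V) :
    eb G A B = ∑ a ∈ A, ∑ b ∈ B, if G.Adj a b then 1 else 0 := by
  unfold eb
  exact Finset.sum_congr rfl (fun a _ => card_nb_inter G a B)

lemma eb_symm (G : SimpleGraph V) (A B : Finset V) : eb G A B = eb G B A := by
  classical
  rw [eb_eq_sum, eb_eq_sum, Finset.sum_comm]
  simp only [G.adj_comm]

@[simp] lemma eb_empty_left (G : SimpleGraph V) (B : Finset V) : eb G ∅ B = 0 := by simp [eb]
@[simp] lemma eb_empty_right (G : SimpleGraph V) (A : Finset V) : eb G A ∅ = 0 := by simp [eb]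

@[simp] lemma eb_singleton_left (G : SimpleGraph V) (a : V) (B : Finset V) :
    eb G {a} B = (nb G a ∩ B).card := by simp [eb]

lemma eb_singleton_right (G : SimpleGraph V) (A : Finset V) (b : V) :
    eb G A {b} = (nb G b ∩ A).card := by rw [eb_symm]; simp

lemma eb_insert_left (G : SimpleGraph V) {a : V} {A : Finset V} (ha : a ∉ A) (B : Finset V) :
    eb G (insert a A) B = (nb G a ∩ B).card + eb G A B := by
  simp [eb, Finset.sum_insert ha]

lemma eb_insert_right (G : SimpleGraph V) {b : V} {B : Finset V} (hb : b ∉ B) (A : Finset V) :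
    eb G A (insert b B) = (nb G b ∩ A).card + eb G A B := by
  rw [eb_symm, eb_insert_left G hb, eb_symm G B A]

lemma eb_union_left (G : SimpleGraph V) {A A' : Finset V} (h : Disjoint A A') (B : Finset V) :
    eb G (A ∪ A') B = eb G A B + eb G A' B := by
  simp [eb, Finset.sum_union h]

lemma eb_union_right (G : SimpleGraph V) {B B' : Finset V} (h : Disjoint B B') (A : Finset V) :
    eb G A (B ∪ B') = eb G A B + eb G A B' := by
  rw [eb_symm, eb_union_left G h, eb_symm G B, eb_symm G B']

lemma eb_mono (G : SimpleGraph V) {A A' B B' : Finset V} (hA : A ⊆ A') (hB : B ⊆ B') :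
    eb G A B ≤ eb G A' B' := by
  unfold eb
  calc ∑ a ∈ A, (nb G a ∩ B).card ≤ ∑ a ∈ A, (nb G a ∩ B').card :=
        Finset.sum_le_sum (fun a _ => Finset.card_le_card (Finset.inter_subset_inter_left hB))
    _ ≤ ∑ a ∈ A', (nb G a ∩ B').card :=
        Finset.sum_le_sum_of_subset hA

lemma eb_eq_zero {G : SimpleGraph V} {A B : Finset V} :
    eb G A B = 0 ↔ ∀ a ∈ A, ∀ b ∈ B, ¬ G.Adj a b := by
  classical
  rw [eb_eq_sum]
  simp only [Finset.sum_eq_zero_iff]
  constructor
  · intro h a ha b hb hab
    have := h a ha b hb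
    simp [hab] at this
  · intro h a ha b hb
    simp [h a ha b hb]

lemma not_mem_nb_self (G : SimpleGraph V) (v : V) : v ∉ nb G v := by simp

lemma nb_inter_insert_self (G : SimpleGraph V) (v : V) (X : Finset V) :
    nb G v ∩ insert v X = nb G v ∩ X := by
  ext u
  simp only [mem_inter, mem_nb, mem_insert]
  constructor
  · rintro ⟨h, rfl | h'⟩
    · exact absurd h (G.irrefl)
    · exact ⟨h, h'⟩
  · rintro ⟨h, h'⟩; exact ⟨h, Or.inr h'⟩

lemma eb_insert_self (G : SimpleGraph V) {v : V} {X : Finset V} (hv : v ∉ X) :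
    eb G (insert v X) (insert v X) = eb G X X + 2 * (nb G v ∩ X).card := by
  rw [eb_insert_left G hv, nb_inter_insert_self, eb_insert_right G hv]
  ring

lemma eb_self_even (G : SimpleGraph V) (X : Finset V) : 2 ∣ eb G X X := by
  classical
  induction X using Finset.induction_on with
  | empty => simp
  | insert v X hv ih =>
    rw [eb_insert_self G hv]
    exact dvd_add ih (dvd_mul_right 2 _)

/-- handshake -/
lemma two_ie (G : SimpleGraph V) (X : Finset V) : 2 * ie G X = eb G X X := by
  unfold ie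
  exact Nat.mul_div_cancel' (eb_self_even G X)

lemma two_ie' (G : SimpleGraph V) (X : Finset V) : 2 * ie G X = ∑ v ∈ X, (nb G v ∩ X).card :=
  two_ie G X

@[simp] lemma ie_empty (G : SimpleGraph V) : ie G ∅ = 0 := by simp [ie]

lemma ie_insert (G : SimpleGraph V) {v : V} {X : Finset V} (hv : v ∉ X) :
    ie G (insert v X) = ie G X + (nb G v ∩ X).card := by
  have h1 := two_ie G (insert v X)
  have h2 := two_ie G X
  rw [eb_insert_self G hv] at h1
  omega

@[simp] lemma ie_singleton (G : SimpleGraph V) (v : V) : ie G {v} = 0 := by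
  have := ie_insert G (v := v) (X := ∅) (by simp)
  simpa using this

lemma ie_mono (G : SimpleGraph V) {X Y : Finset V} (h : X ⊆ Y) : ie G X ≤ ie G Y := by
  have h1 := two_ie G X
  have h2 := two_ie G Y
  have h3 := eb_mono G h h
  omega

open Classical in
lemma ie_pair (G : SimpleGraph V) {x y : V} (h : x ≠ y) :
    ie G {x, y} = if G.Adj x y then 1 else 0 := by
  rw [ie_insert G (by simpa using h), ie_singleton, card_nb_inter, Finset.sum_singleton, zero_add]

/-- edges inside a disjoint union -/
lemma ie_union (G : SimpleGraph V) {X Y : Finset V} (h : Disjoint X Y) :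
    ie G (X ∪ Y) = ie G X + ie G Y + eb G X Y := by
  have h1 := two_ie G (X ∪ Y)
  have h2 := two_ie G X
  have h3 := two_ie G Y
  rw [eb_union_left G h, eb_union_right G h, eb_union_right G h, eb_symm G Y X] at h1
  omega

lemma ie_union_inter (G : SimpleGraph V) (X Y : Finset V) :
    ie G (X ∪ Y) + ie G (X ∩ Y) = ie G X + ie G Y + eb G (X \ Y) (Y \ X) := by
  have d1 : Disjoint (X \ Y) (X ∩ Y) := Finset.disjoint_sdiff_inter X Y
  have d2 : Disjoint (Y \ X) (X ∩ Y) := by rw [inter_comm]; exact Finset.disjoint_sdiff_inter Y X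
  have d3 : Disjoint (X \ Y) Y := Finset.sdiff_disjoint
  have hX : X \ Y ∪ X ∩ Y = X := Finset.sdiff_union_inter X Y
  have hY : Y \ X ∪ X ∩ Y = Y := by rw [inter_comm]; exact Finset.sdiff_union_inter Y X
  have hU : X \ Y ∪ Y = X ∪ Y := Finset.sdiff_union_self_eq_union
  have e1 := ie_union G d1
  have e2 := ie_union G d2
  have e3 := ie_union G d3
  rw [hX] at e1
  rw [hY] at e2
  rw [hU] at e3
  have e4 : eb G (X \ Y) Y = eb G (X \ Y) (Y \ X) + eb G (X \ Y) (X ∩ Y) := by
    rw [← eb_union_right G d2, hY]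
  omega

/-- number of edges is at most `|X| choose 2` -/
lemma two_ie_le (G : SimpleGraph V) (X : Finset V) : 2 * ie G X ≤ X.card * (X.card - 1) := by
  rw [two_ie']
  calc ∑ v ∈ X, (nb G v ∩ X).card ≤ ∑ v ∈ X, (X.card - 1) := by
        apply Finset.sum_le_sum
        intro v hv
        rw [← Finset.card_erase_of_mem hv]
        apply Finset.card_le_card
        intro u hu
        rw [mem_inter, mem_nb] at hu
        exact Finset.mem_erase.2 ⟨fun h => G.irrefl (h ▸ hu.1), hu.2⟩
    _ = X.card * (X.card - 1) := by simp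

/-! ### The function `fz` -/

lemma fz_def (G : SimpleGraph V) (X : Finset V) :
    fz G X = 3 * (X.card : ℤ) - 6 - (ie G X : ℤ) := rfl

@[simp] lemma fz_empty (G : SimpleGraph V) : fz G ∅ = -6 := by simp [fz]

@[simp] lemma fz_singleton (G : SimpleGraph V) (v : V) : fz G {v} = -3 := by simp [fz]

open Classical in
lemma fz_pair (G : SimpleGraph V) {x y : V} (h : x ≠ y) :
    fz G {x, y} = if G.Adj x y then -1 else 0 := by
  rw [fz, ie_pair G h, Finset.card_pair h]
  split_ifs <;> simp

lemma fz_insert (G : SimpleGraph V) {v : V} {X : Finset V} (hv : v ∉ X) :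
    fz G (insert v X) = fz G X + 3 - ((nb G v ∩ X).card : ℤ) := by
  rw [fz, fz, ie_insert G hv, Finset.card_insert_of_notMem hv]
  push_cast
  ring

lemma nb_inter_erase_self (G : SimpleGraph V) (v : V) (X : Finset V) :
    nb G v ∩ X.erase v = nb G v ∩ X := by
  ext u
  simp only [mem_inter, mem_nb, mem_erase]
  constructor
  · rintro ⟨h, -, h'⟩; exact ⟨h, h'⟩
  · rintro ⟨h, h'⟩; exact ⟨h, fun e => G.irrefl (e ▸ h), h'⟩

lemma fz_erase (G : SimpleGraph V) {v : V} {X : Finset V} (hv : v ∈ X) :
    fz G (X.erase v) = fz G X - 3 + ((nb G v ∩ X).card : ℤ) := by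
  have h := fz_insert G (Finset.notMem_erase v X)
  rw [Finset.insert_erase hv, nb_inter_erase_self] at h
  omega

open Classical in
/-- removing two vertices -/
lemma fz_sdiff_pair (G : SimpleGraph V) {x y : V} {X : Finset V} (hxy : x ≠ y) (hx : x ∈ X)
    (hy : y ∈ X) :
    fz G (X \ {x, y}) = fz G X - 6 + ((nb G x ∩ X).card : ℤ) + ((nb G y ∩ X).card : ℤ)
      - (if G.Adj x y then 1 else 0) := by
  have hyx : y ∈ X.erase x := Finset.mem_erase.2 ⟨hxy.symm, hy⟩
  have h1 : X \ {x, y} = (X.erase x).erase y := by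
    ext u; simp only [mem_sdiff, mem_insert, mem_singleton, mem_erase]; tauto
  rw [h1, fz_erase G hyx, fz_erase G hx]
  have h2 : ((nb G y ∩ X.erase x).card : ℤ) = ((nb G y ∩ X).card : ℤ)
      - (if G.Adj x y then 1 else 0) := by
    split_ifs with h
    · have : nb G y ∩ X.erase x = (nb G y ∩ X).erase x := by
        ext u; simp only [mem_inter, mem_erase]; tauto
      have hx' : x ∈ nb G y ∩ X := by simp [hx, h.symm]
      rw [this, Finset.card_erase_of_mem hx']
      have : 0 < (nb G y ∩ X).card := Finset.card_pos.2 ⟨x, hx'⟩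
      omega
    · have : nb G y ∩ X.erase x = nb G y ∩ X := by
        ext u; simp only [mem_inter, mem_erase, mem_nb]
        constructor
        · rintro ⟨h, -, h'⟩; exact ⟨h, h'⟩
        · rintro ⟨h1, h'⟩; exact ⟨h1, fun e => h (e ▸ h1.symm), h'⟩
      rw [this]; simp
  rw [h2]; ring

lemma fz_union_inter (G : SimpleGraph V) (X Y : Finset V) :
    fz G (X ∪ Y) + fz G (X ∩ Y) = fz G X + fz G Y - (eb G (X \ Y) (Y \ X) : ℤ) := by
  have h1 := ie_union_inter G X Y
  have h2 := Finset.card_union_add_card_inter X Y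
  simp only [fz_def]
  have h1' : ((ie G (X ∪ Y) : ℤ) + (ie G (X ∩ Y) : ℤ)) =
    (ie G X : ℤ) + (ie G Y : ℤ) + (eb G (X \ Y) (Y \ X) : ℤ) := by exact_mod_cast h1
  have h2' : ((X ∪ Y).card : ℤ) + ((X ∩ Y).card : ℤ) = (X.card : ℤ) + (Y.card : ℤ) := by
    exact_mod_cast h2
  linarith

lemma fz_submodular (G : SimpleGraph V) (X Y : Finset V) :
    fz G (X ∪ Y) + fz G (X ∩ Y) ≤ fz G X + fz G Y := by
  rw [fz_union_inter]
  have : (0 : ℤ) ≤ (eb G (X \ Y) (Y \ X) : ℤ) := by positivity
  linarith

/-- In a sparse graph every vertex of a tight set with at least four elements has degree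
at least 3 in it. -/
lemma three_le_of_tight {G : SimpleGraph V} (hs : Sparse G) {X : Finset V} (hX : fz G X ≤ 0)
    (hc : 4 ≤ X.card) {v : V} (hv : v ∈ X) : 3 ≤ (nb G v ∩ X).card := by
  have h1 := fz_erase G hv
  have h2 := hs (X.erase v) (by rw [Finset.card_erase_of_mem hv]; omega)
  omega

/-! ### Degrees, boundary -/

lemma card_nb_split (G : SimpleGraph V) (v : V) (X : Finset V) :
    (nb G v ∩ X).card + (nb G v ∩ Xᶜ).card = (nb G v).card := by
  rw [← Finset.card_union_of_disjoint, ← Finset.inter_union_distrib_left, Finset.union_compl,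
    Finset.inter_univ]
  exact Finset.disjoint_of_subset_left Finset.inter_subset_right
    (Finset.disjoint_of_subset_right Finset.inter_subset_right disjoint_compl_right)

lemma bd_compl (G : SimpleGraph V) (X : Finset V) : bd G Xᶜ = bd G X := by
  unfold bd
  rw [compl_compl, eb_symm]

lemma bd_eq_sum (G : SimpleGraph V) (X : Finset V) : bd G X = ∑ v ∈ X, (nb G v ∩ Xᶜ).card := rfl

lemma bd_eq_sum_sdiff (G : SimpleGraph V) (X : Finset V) :
    bd G X = ∑ v ∈ X, (nb G v \ X).card := by
  rw [bd_eq_sum]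
  apply Finset.sum_congr rfl
  intro v _
  congr 1
  ext u; simp

lemma two_ie_add_bd {G : SimpleGraph V} (hr : Reg5 G) (X : Finset V) :
    2 * ie G X + bd G X = 5 * X.card := by
  rw [two_ie', bd_eq_sum, ← Finset.sum_add_distrib]
  rw [Finset.sum_congr rfl (fun v _ => (card_nb_split G v X).trans (hr v))]
  simp [mul_comm]

/-- for 5-regular graphs `d(X) = 12 + 2 f(X) - |X|` -/
lemma bd_reg {G : SimpleGraph V} (hr : Reg5 G) (X : Finset V) :
    (bd G X : ℤ) = 12 + 2 * fz G X - (X.card : ℤ) := by
  have h := two_ie_add_bd hr X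
  rw [fz_def]
  have h' : 2 * (ie G X : ℤ) + (bd G X : ℤ) = 5 * (X.card : ℤ) := by exact_mod_cast h
  linarith

@[simp] lemma bd_univ (G : SimpleGraph V) : bd G univ = 0 := by simp [bd]

lemma fz_univ {G : SimpleGraph V} (hr : Reg5 G) :
    2 * fz G univ = (Fintype.card V : ℤ) - 12 := by
  have h := bd_reg hr (univ : Finset V)
  rw [bd_univ, Finset.card_univ] at h
  push_cast at h
  linarith

lemma bd_singleton {G : SimpleGraph V} (hr : Reg5 G) (v : V) : bd G {v} = 5 := by
  have h := bd_reg hr {v}
  simp at h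
  omega

/-- removing one vertex from the whole vertex set -/
lemma fz_univ_erase {G : SimpleGraph V} (hr : Reg5 G) (v : V) :
    2 * fz G (univ.erase v) = (Fintype.card V : ℤ) - 8 := by
  have h1 := fz_erase G (mem_univ v)
  have h2 := fz_univ hr
  have h3 : (nb G v ∩ univ).card = 5 := by rw [inter_univ]; exact hr v
  rw [h3] at h1
  push_cast at h1
  linarith

/-! ### Consequences of `Cut7`
`hn : 12 ≤ n` is used for the exceptional cases `X = V` and `X = V - v`. -/

lemma card_le_of_fz {G : SimpleGraph V} (hr : Reg5 G) (hc : Cut7 G) {X : Finset V}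
    (h2 : 2 ≤ X.card) (hn : X.card + 2 ≤ Fintype.card V) :
    (X.card : ℤ) ≤ 5 + 2 * fz G X := by
  have h := bd_reg hr X
  have h' := hc X h2 hn
  have : (7 : ℤ) ≤ (bd G X : ℤ) := by exact_mod_cast h'
  linarith

/-- If `|X| ≥ 3` and `f(X) ≤ 0` then `|X| ≤ 5` or `X = V`. -/
lemma tight_cases {G : SimpleGraph V} (hr : Reg5 G) (hc : Cut7 G) (hn : 12 ≤ Fintype.card V)
    {X : Finset V} (h2 : 2 ≤ X.card) (hf : fz G X ≤ 0) :
    X.card ≤ 5 ∨ (X = univ ∧ Fintype.card V = 12) := by
  by_cases h : X.card + 2 ≤ Fintype.card V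
  · left
    have := card_le_of_fz hr hc h2 h
    omega
  · right
    have hle : X.card ≤ Fintype.card V := Finset.card_le_univ X
    have hb := bd_reg hr X
    have hb' := bd_compl G X
    have hcc : Xᶜ.card = Fintype.card V - X.card := Finset.card_compl X
    have : Xᶜ.card = 0 ∨ Xᶜ.card = 1 := by omega
    rcases this with h0 | h1
    · rw [Finset.card_eq_zero, Finset.compl_eq_empty_iff] at h0
      refine ⟨h0, ?_⟩
      subst h0
      have := fz_univ hr
      omega
    · obtain ⟨v, hv⟩ := Finset.card_eq_one.1 h1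
      rw [hv, bd_singleton hr v] at hb'
      rw [← hb'] at hb
      push_cast at hb
      omega

/-- If `|X| ≥ 2` and `f(X) ≤ 1` then `|X| ≤ 7` or `X = V` (and `n ∈ {12, 14}`). -/
lemma one_cases {G : SimpleGraph V} (hr : Reg5 G) (hc : Cut7 G) (hn : 12 ≤ Fintype.card V)
    {X : Finset V} (h2 : 2 ≤ X.card) (hf : fz G X ≤ 1) :
    X.card ≤ 7 ∨ (X = univ ∧ Fintype.card V ≤ 14) := by
  by_cases h : X.card + 2 ≤ Fintype.card V
  · left
    have := card_le_of_fz hr hc h2 h
    omega
  · right
    have hle : X.card ≤ Fintype.card V := Finset.card_le_univ X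
    have hb := bd_reg hr X
    have hb' := bd_compl G X
    have hcc : Xᶜ.card = Fintype.card V - X.card := Finset.card_compl X
    have : Xᶜ.card = 0 ∨ Xᶜ.card = 1 := by omega
    rcases this with h0 | h1
    · rw [Finset.card_eq_zero, Finset.compl_eq_empty_iff] at h0
      refine ⟨h0, ?_⟩
      subst h0
      have := fz_univ hr
      omega
    · obtain ⟨v, hv⟩ := Finset.card_eq_one.1 h1
      rw [hv, bd_singleton hr v] at hb'
      rw [← hb'] at hb
      push_cast at hb
      omega

/-- If `|X| ≥ 2` and `f(X) ≤ 2` then `|X| ≤ 9`, or `X = V` (and `n ≤ 16`), or `|X| = n - 1`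
and `n = 12`. -/
lemma two_cases {G : SimpleGraph V} (hr : Reg5 G) (hc : Cut7 G) (hn : 12 ≤ Fintype.card V)
    {X : Finset V} (h2 : 2 ≤ X.card) (hf : fz G X ≤ 2) :
    X.card ≤ 9 ∨ (X = univ ∧ Fintype.card V ≤ 16) ∨ (X.card = 11 ∧ Fintype.card V = 12) := by
  by_cases h : X.card + 2 ≤ Fintype.card V
  · left
    have := card_le_of_fz hr hc h2 h
    omega
  · right
    have hle : X.card ≤ Fintype.card V := Finset.card_le_univ X
    have hb := bd_reg hr X
    have hb' := bd_compl G X
    have hcc : Xᶜ.card = Fintype.card V - X.card := Finset.card_compl X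
    have : Xᶜ.card = 0 ∨ Xᶜ.card = 1 := by omega
    rcases this with h0 | h1
    · left
      rw [Finset.card_eq_zero, Finset.compl_eq_empty_iff] at h0
      refine ⟨h0, ?_⟩
      subst h0
      have := fz_univ hr
      omega
    · right
      obtain ⟨v, hv⟩ := Finset.card_eq_one.1 h1
      rw [hv, bd_singleton hr v] at hb'
      rw [← hb'] at hb
      push_cast at hb
      omega

/-- a 5-regular graph has an even number of vertices -/
lemma card_even {G : SimpleGraph V} (hr : Reg5 G) : 2 ∣ Fintype.card V := by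
  have h := two_ie_add_bd hr (univ : Finset V)
  rw [bd_univ, Finset.card_univ] at h
  omega

/-- a sparse 5-regular nonempty graph has at least 12 vertices -/
lemma twelve_le {G : SimpleGraph V} (hs : Sparse G) (hr : Reg5 G) [Nonempty V] :
    12 ≤ Fintype.card V := by
  obtain ⟨v⟩ := ‹Nonempty V›
  have h5 : 5 ≤ Fintype.card V := by
    rw [← hr v]; exact Finset.card_le_univ _
  have := hs univ (by rw [Finset.card_univ]; omega)
  have h := fz_univ hr
  omega

end Pool.Agent.H38.Rig
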