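import Mathlib

set_option autoImplicit false
set_option linter.unusedSectionVars false
set_option linter.unusedVariables false

namespace Pool.Agent.H38.Rig

open Finset

variable {V : Type} [Fintype V] [DecidableEq V]

/-! ### Combinatorial definitions -/

/-- Neighbourhood of `v`, as a finset (classical decidability). -/
noncomputable def nb (G : SimpleGraph V) (v : V) : Finset V := by
  classical exact univ.filter (fun u => G.Adj v u)

@[simp] lemma mem_nb {G : SimpleGraph V} {v u : V} : u ∈ nb G v ↔ G.Adj v u := by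
  classical simp [nb]

/-- Number of (ordered) pairs `(a,b)`, `a ∈ A`, `b ∈ B`, with `a` adjacent to `b`. -/
noncomputable def eb (G : SimpleGraph V) (A B : Finset V) : ℕ := ∑ a ∈ A, (nb G a ∩ B).card

/-- Number of edges with both ends in `X`. -/
noncomputable def ie (G : SimpleGraph V) (X : Finset V) : ℕ := eb G X X / 2

/-- `f(X) = 3|X| - 6 - i(X)` -/
noncomputable def fz (G : SimpleGraph V) (X : Finset V) : ℤ := 3 * (X.card : ℤ) - 6 - (ie G X : ℤ)

/-- `(3,6)`-sparse. -/
def Sparse (G : SimpleGraph V) : Prop := ∀ X : Finset V, 3 ≤ X.card → 0 ≤ fz G X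

/-- `5`-regular. -/
def Reg5 (G : SimpleGraph V) : Prop := ∀ v, (nb G v).card = 5

/-- common neighbours -/
noncomputable def cn (G : SimpleGraph V) (x y : V) : Finset V := nb G x ∩ nb G y

/-- number of edges leaving `X` -/
noncomputable def bd (G : SimpleGraph V) (X : Finset V) : ℕ := eb G X Xᶜ

/-- connectedness -/
def Conn (G : SimpleGraph V) : Prop :=
  ∀ C : Finset V, C.Nonempty → C ≠ univ → ∃ u ∈ C, ∃ z, z ∉ C ∧ G.Adj u z

/-- every edge cut with at least two vertices on both sides has at least 7 edges -/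
def Cut7 (G : SimpleGraph V) : Prop :=
  ∀ X : Finset V, 2 ≤ X.card → X.card + 2 ≤ Fintype.card V → 7 ≤ bd G X

/-- delete all edges at `v` (which stays as an isolated vertex) -/
def del (G : SimpleGraph V) (v : V) : SimpleGraph V where
  Adj a b := G.Adj a b ∧ a ≠ v ∧ b ≠ v
  symm := ⟨fun _ _ h => ⟨h.1.symm, h.2.2, h.2.1⟩⟩
  loopless := ⟨fun a h => G.irrefl h.1⟩

/-- add the edge `ab` (nothing happens if `a = b`) -/
def addE (G : SimpleGraph V) (a b : V) : SimpleGraph V where
  Adj u z := G.Adj u z ∨ (a ≠ b ∧ ((u = a ∧ z = b) ∨ (u = b ∧ z = a)))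
  symm := ⟨by
    intro u z h
    rcases h with h | ⟨hab, h | h⟩
    · exact Or.inl h.symm
    · exact Or.inr ⟨hab, Or.inr ⟨h.2, h.1⟩⟩
    · exact Or.inr ⟨hab, Or.inl ⟨h.2, h.1⟩⟩⟩
  loopless := ⟨by
    intro u h
    rcases h with h | ⟨hab, h | h⟩
    · exact G.irrefl h
    · exact hab (h.1.symm.trans h.2)
    · exact hab (h.2.symm.trans h.1)⟩

/-- keep only the edges inside `X` -/
def restr (G : SimpleGraph V) (X : Finset V) : SimpleGraph V where
  Adj a b := G.Adj a b ∧ a ∈ X ∧ b ∈ X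
  symm := ⟨fun _ _ h => ⟨h.1.symm, h.2.2, h.2.1⟩⟩
  loopless := ⟨fun a h => G.irrefl h.1⟩

/-- identify `y` with `x`: the merged vertex is `x`, and `y` becomes isolated. -/
def merge (G : SimpleGraph V) (x y : V) : SimpleGraph V where
  Adj a b := a ≠ b ∧ a ≠ y ∧ b ≠ y ∧ (G.Adj a b ∨ (a = x ∧ G.Adj y b) ∨ (b = x ∧ G.Adj y a))
  symm := ⟨by
    rintro a b ⟨h1, h2, h3, h4⟩
    refine ⟨h1.symm, h3, h2, ?_⟩
    rcases h4 with h | h | h
    · exact Or.inl h.symm
    · exact Or.inr (Or.inr h)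
    · exact Or.inr (Or.inl h)⟩
  loopless := ⟨fun a h => h.1 rfl⟩

/-! ### Rigidity -/

/-- points of space -/
abbrev P3 := Fin 3 → ℝ

/-- `(G,p)` has no nonzero equilibrium stress. -/
def StressFree (G : SimpleGraph V) (p : V → P3) : Prop :=
  ∀ ω : V → V → ℝ, (∀ u v, ω u v = ω v u) → (∀ u v, ¬ G.Adj u v → ω u v = 0) →
    (∀ v, ∑ u, ω v u • (p v - p u) = 0) → ∀ u v, ω u v = 0

/-- `G` is independent in the generic 3-dimensional rigidity matroid. -/
def Ind (G : SimpleGraph V) : Prop := ∃ p : V → P3, StressFree G p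

end Pool.Agent.H38.Rig
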