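import Pool.Agent.H38.Rig.Good

set_option autoImplicit false
set_option linter.unusedSectionVars false
set_option linter.unusedVariables false

namespace Pool.Agent.H38.Rig.F3

open Finset

variable {V : Type} [Fintype V] [DecidableEq V]

/-! ### Final counting for triangle-free graphs (helper27) -/

lemma not_adj_of {G : SimpleGraph V} (h3 : ∀ x y, G.Adj x y → cn G x y = ∅) {a b c : V}
    (h1 : G.Adj a b) (h2 : G.Adj a c) : ¬ G.Adj b c := by
  intro h
  have h4 : a ∈ cn G b c := by
    simp only [cn, mem_inter, mem_nb]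
    exact ⟨h1.symm, h2.symm⟩
  rw [h3 b c h] at h4
  simp at h4

lemma total {G : SimpleGraph V} (hr : Reg5 G) (h3 : ∀ x y, G.Adj x y → cn G x y = ∅) (v : V) :
    ∑ s ∈ (insert v (nb G v))ᶜ, (nb G s ∩ nb G v).card = 20 := by
  have h1 : ∑ s ∈ (insert v (nb G v))ᶜ, (nb G s ∩ nb G v).card =
      eb G (insert v (nb G v))ᶜ (nb G v) := rfl
  rw [h1, eb_symm]
  unfold eb
  have h2 : ∀ a ∈ nb G v, (nb G a ∩ (insert v (nb G v))ᶜ).card = 4 := by
    intro a ha
    rw [mem_nb] at ha
    have h4 : nb G a ∩ (insert v (nb G v))ᶜ = (nb G a).erase v := by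
      ext z
      simp only [mem_inter, mem_compl, mem_insert, mem_nb, mem_erase, not_or]
      constructor
      · rintro ⟨h, h', -⟩; exact ⟨h', h⟩
      · rintro ⟨h, h'⟩; exact ⟨h', h, fun hz => not_adj_of h3 ha hz h'⟩
    rw [h4, Finset.card_erase_of_mem (by rw [mem_nb]; exact ha.symm), hr a]
  rw [Finset.sum_congr rfl h2, Finset.sum_const, hr v]
  norm_num

lemma bd_eq {G : SimpleGraph V} (v : V) (T : Finset V)
    (hT : T ⊆ (insert v (nb G v))ᶜ) :
    bd G (insert v (nb G v ∪ T)) =
      ∑ s ∈ (insert v (nb G v ∪ T))ᶜ, (nb G s ∩ nb G v).card +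
      ∑ s ∈ T, (nb G s ∩ (insert v (nb G v ∪ T))ᶜ).card := by
  set X := insert v (nb G v ∪ T) with hX
  have hvT : v ∉ nb G v ∪ T := by
    rw [mem_union, not_or]
    refine ⟨not_mem_nb_self G v, fun h => ?_⟩
    have := hT h
    simp at this
  have hd : Disjoint (nb G v) T := by
    rw [Finset.disjoint_left]
    intro z hz hzT
    have := hT hzT
    simp only [mem_compl, mem_insert, not_or] at this
    exact this.2 hz
  have h1 : bd G X = (nb G v ∩ Xᶜ).card + (eb G (nb G v) Xᶜ + eb G T Xᶜ) := by
    unfold bd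
    conv_lhs => rw [hX]
    rw [eb_insert_left G hvT, eb_union_left G hd]
  have h2 : nb G v ∩ Xᶜ = ∅ := by
    ext z
    simp only [hX, mem_inter, mem_compl, mem_insert, mem_union, not_or]
    constructor
    · rintro ⟨h, h', h'', h'''⟩; exact absurd h h''
    · intro h; simp at h
  rw [h1, h2, Finset.card_empty, zero_add, eb_symm G (nb G v)]
  rfl

lemma bd_le {G : SimpleGraph V} (hr : Reg5 G) (h3 : ∀ x y, G.Adj x y → cn G x y = ∅)
    (v : V) (T : Finset V) (hT : T ⊆ (insert v (nb G v))ᶜ) :
    bd G (insert v (nb G v ∪ T)) + 2 * ∑ s ∈ T, (nb G s ∩ nb G v).card ≤ 20 + 5 * T.card := by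
  rw [bd_eq v T hT]
  have h1 := total hr h3 v
  have h2 : (insert v (nb G v))ᶜ = (insert v (nb G v ∪ T))ᶜ ∪ T := by
    ext z
    simp only [mem_compl, mem_insert, mem_union, not_or]
    constructor
    · rintro ⟨h, h'⟩
      by_cases hz : z ∈ T
      · exact Or.inr hz
      · exact Or.inl ⟨h, h', hz⟩
    · rintro (⟨h, h', -⟩ | h)
      · exact ⟨h, h'⟩
      · have := hT h
        simp only [mem_compl, mem_insert, not_or] at this
        exact this
  have hd : Disjoint (insert v (nb G v ∪ T))ᶜ T := by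
    rw [Finset.disjoint_left]
    intro z hz hzT
    simp only [mem_compl, mem_insert, mem_union, not_or] at hz
    exact hz.2.2 hzT
  rw [h2, Finset.sum_union hd] at h1
  have h4 : ∑ s ∈ T, ((nb G s ∩ (insert v (nb G v ∪ T))ᶜ).card + (nb G s ∩ nb G v).card) ≤
      ∑ s ∈ T, 5 := by
    apply Finset.sum_le_sum
    intro s hs
    rw [← Finset.card_union_of_disjoint, ← hr s]
    · apply Finset.card_le_card
      intro z hz
      rw [mem_union, mem_inter, mem_inter] at hz
      exact hz.elim (fun h => h.1) (fun h => h.1)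
    · rw [Finset.disjoint_left]
      intro z hz hz'
      simp only [mem_compl, mem_insert, mem_union, mem_inter, not_or] at hz hz'
      exact hz.2.2.1 hz'.2
  rw [Finset.sum_add_distrib, Finset.sum_const, smul_eq_mul] at h4
  omega

/-- Final counting: in a triangle-free 5-regular graph with `Cut7` and at least 14 vertices, the
numbers of common neighbours of nonadjacent pairs cannot all lie in `{0,4,5}` (`n ≥ 16`) resp.
`{0,1,4,5}` (`n = 14`). -/
theorem final {G : SimpleGraph V} (hr : Reg5 G) (hcut : Cut7 G)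
    (hn : 14 ≤ Fintype.card V) (h3 : ∀ x y, G.Adj x y → cn G x y = ∅)
    (hc : ∀ x y, x ≠ y → ¬ G.Adj x y → (cn G x y).card ≠ 2 ∧ (cn G x y).card ≠ 3)
    (hc1 : 16 ≤ Fintype.card V → ∀ x y, x ≠ y → ¬ G.Adj x y → (cn G x y).card ≠ 1) : False := by
  classical
  have hne : Nonempty V := Fintype.card_pos_iff.1 (by omega)
  obtain ⟨v⟩ := hne
  obtain ⟨N, hN⟩ : ∃ N, N = nb G v := ⟨_, rfl⟩
  have hN5 : N.card = 5 := by rw [hN]; exact hr v
  have hvN : v ∉ N := by rw [hN]; exact not_mem_nb_self G v
  obtain ⟨W, hW⟩ : ∃ W, W = (insert v N)ᶜ := ⟨_, rfl⟩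
  have hmemW : ∀ s, s ∈ W ↔ s ≠ v ∧ ¬ G.Adj v s := by
    intro s
    simp only [hW, hN, mem_compl, mem_insert, mem_nb, not_or, ne_eq]
  have hcW : ∀ s ∈ W, (nb G s ∩ N).card ≠ 2 ∧ (nb G s ∩ N).card ≠ 3 := by
    intro s hs
    rw [hmemW] at hs
    have := hc s v hs.1 (fun h => hs.2 h.symm)
    rw [hN]
    exact this
  have hc1W : 16 ≤ Fintype.card V → ∀ s ∈ W, (nb G s ∩ N).card ≠ 1 := by
    intro h16 s hs
    rw [hmemW] at hs
    rw [hN]
    exact hc1 h16 s v hs.1 (fun h => hs.2 h.symm)
  have hWcard : W.card + 6 = Fintype.card V := by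
    have h1 := Finset.card_compl (insert v N)
    rw [Finset.card_insert_of_notMem hvN, hN5] at h1
    have h2 : (insert v N).card ≤ Fintype.card V := Finset.card_le_univ _
    rw [Finset.card_insert_of_notMem hvN, hN5] at h2
    rw [hW]
    omega
  set T := W.filter (fun s => 4 ≤ (nb G s ∩ N).card) with hT
  have hTW : T ⊆ W := Finset.filter_subset _ _
  set A := W.filter (fun s => (nb G s ∩ N).card = 1) with hA
  have hAT : Disjoint A T := by
    rw [Finset.disjoint_left]
    intro z hz hz'
    rw [hA, mem_filter] at hz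
    rw [hT, mem_filter] at hz'
    omega
  have hATcard : A.card + T.card ≤ W.card := by
    rw [← Finset.card_union_of_disjoint hAT]
    exact Finset.card_le_card (Finset.union_subset (Finset.filter_subset _ _) hTW)
  have htotal : A.card + ∑ s ∈ T, (nb G s ∩ N).card = 20 := by
    rw [← total hr h3 v, ← hN, ← hW]
    have e1 : ∑ s ∈ W, (nb G s ∩ N).card = ∑ s ∈ W, ((if (nb G s ∩ N).card = 1 then 1 else 0) +
        (if 4 ≤ (nb G s ∩ N).card then (nb G s ∩ N).card else 0)) := by
      refine Finset.sum_congr rfl (fun s hs => ?_)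
      have h1 := hcW s hs
      have h2 : (nb G s ∩ N).card = 0 ∨ (nb G s ∩ N).card = 1 ∨ 4 ≤ (nb G s ∩ N).card := by omega
      rcases h2 with h2 | h2 | h2
      · rw [h2]; norm_num
      · rw [h2]; norm_num
      · rw [if_neg (by omega), if_pos h2, zero_add]
    rw [e1, Finset.sum_add_distrib, hA, hT, Finset.card_filter, Finset.sum_filter]
  have hlow : 4 * T.card ≤ ∑ s ∈ T, (nb G s ∩ N).card := by
    rw [mul_comm, ← smul_eq_mul, ← Finset.sum_const]
    exact Finset.sum_le_sum (fun s hs => (mem_filter.1 hs).2)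
  have hhigh : ∑ s ∈ T, (nb G s ∩ N).card ≤ 5 * T.card := by
    rw [mul_comm, ← smul_eq_mul, ← Finset.sum_const]
    refine Finset.sum_le_sum (fun s hs => ?_)
    rw [← hr s]
    exact Finset.card_le_card Finset.inter_subset_left
  have hTW' : T ⊆ (insert v (nb G v))ᶜ := by rw [← hN, ← hW]; exact hTW
  have hbd := bd_le hr h3 v T hTW'
  rw [← hN] at hbd
  have hXcard : ∀ U : Finset V, U ⊆ W → (insert v (N ∪ U)).card = 6 + U.card := by
    intro U hU
    have hd : Disjoint N U := by
      rw [Finset.disjoint_left]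
      intro z hz hzU
      have := hU hzU
      simp only [hW, mem_compl, mem_insert, not_or] at this
      exact this.2 hz
    have hvU : v ∉ N ∪ U := by
      rw [mem_union, not_or]
      refine ⟨hvN, fun h => ?_⟩
      have := hU h
      simp [hW] at this
    rw [Finset.card_insert_of_notMem hvU, Finset.card_union_of_disjoint hd, hN5]
    omega
  have hX := hXcard T hTW
  have hT5 : T.card ≤ 5 := by omega
  have h7 := hcut (insert v (N ∪ T)) (by omega) (by omega)
  by_cases h16 : 16 ≤ Fintype.card V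
  · have hA0 : A.card = 0 := by
      rw [Finset.card_eq_zero, hA, Finset.filter_eq_empty_iff]
      intro s hs
      exact hc1W h16 s hs
    omega
  -- now `n = 14` (or 15, which does not matter)
  have hn8 : W.card ≤ 8 ∨ W.card = 9 := by omega
  have hev := card_even hr
  have hW8 : W.card = 8 := by omega
  have hT4 : T.card = 4 := by omega
  have hA4 : A.card = 4 := by omega
  have hsum16 : ∑ s ∈ T, (nb G s ∩ N).card = 16 := by omega
  have hcT : ∀ s ∈ T, (nb G s ∩ N).card = 4 := by
    intro s hs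
    by_contra hne
    have h1 : ∑ s ∈ T, 4 < ∑ s ∈ T, (nb G s ∩ N).card :=
      Finset.sum_lt_sum (fun s hs => (mem_filter.1 hs).2)
        ⟨s, hs, lt_of_le_of_ne (mem_filter.1 hs).2 (fun e => hne e.symm)⟩
    rw [Finset.sum_const, hT4, hsum16] at h1
    norm_num at h1
  -- each `s ∈ T` has exactly one neighbour outside `N`
  have hex : ∀ s ∈ T, ∃ t, G.Adj s t ∧ t ∉ N ∧ ∀ z, G.Adj s z → z ∉ N → z = t := by
    intro s hs
    have h1 : (nb G s ∩ N).card + (nb G s \ N).card = 5 := by
      rw [← hr s]; exact Finset.card_inter_add_card_sdiff _ _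
    rw [hcT s hs] at h1
    obtain ⟨t, ht⟩ := Finset.card_eq_one.1 (by omega : (nb G s \ N).card = 1)
    have ht' : t ∈ nb G s \ N := by rw [ht]; exact Finset.mem_singleton_self t
    rw [mem_sdiff, mem_nb] at ht'
    refine ⟨t, ht'.1, ht'.2, fun z hz hzN => ?_⟩
    have : z ∈ nb G s \ N := by rw [mem_sdiff, mem_nb]; exact ⟨hz, hzN⟩
    rw [ht, mem_singleton] at this
    exact this
  -- each `s ∈ T` misses exactly one element of `N`
  have hmiss : ∀ s ∈ T, ∃ m ∈ N, ¬ G.Adj s m ∧ ∀ z ∈ N, ¬ G.Adj s z → z = m := by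
    intro s hs
    have h1 : (N ∩ nb G s).card + (N \ nb G s).card = 5 := by
      rw [← hN5]; exact Finset.card_inter_add_card_sdiff _ _
    rw [Finset.inter_comm, hcT s hs] at h1
    obtain ⟨m, hm⟩ := Finset.card_eq_one.1 (by omega : (N \ nb G s).card = 1)
    have hm' : m ∈ N \ nb G s := by rw [hm]; exact Finset.mem_singleton_self m
    rw [mem_sdiff, mem_nb] at hm'
    refine ⟨m, hm'.1, hm'.2, fun z hz hzN => ?_⟩
    have : z ∈ N \ nb G s := by rw [mem_sdiff, mem_nb]; exact ⟨hz, hzN⟩
    rw [hm, mem_singleton] at this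
    exact this
  -- two elements of `T` are nonadjacent
  have hTT : ∀ s ∈ T, ∀ s' ∈ T, ¬ G.Adj s s' := by
    intro s hs s' hs' hadj
    have h1 := Finset.card_union_add_card_inter (nb G s ∩ N) (nb G s' ∩ N)
    rw [hcT s hs, hcT s' hs'] at h1
    have h2 : ((nb G s ∩ N) ∪ (nb G s' ∩ N)).card ≤ 5 := by
      rw [← hN5]
      exact Finset.card_le_card (Finset.union_subset Finset.inter_subset_right
        Finset.inter_subset_right)
    obtain ⟨z, hz⟩ : ((nb G s ∩ N) ∩ (nb G s' ∩ N)).Nonempty := Finset.card_pos.1 (by omega)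
    simp only [mem_inter, mem_nb] at hz
    exact not_adj_of h3 hz.1.1.symm hz.2.1.symm hadj
  -- elements missing different vertices have the same outer neighbour
  have hsame : ∀ s ∈ T, ∀ s' ∈ T, ∀ m m' t t', m ∈ N → m' ∈ N → ¬ G.Adj s m → ¬ G.Adj s' m' →
      m ≠ m' → G.Adj s t → t ∉ N → G.Adj s' t' → t' ∉ N → t = t' := by
    intro s hs s' hs' m m' t t' hm hm' hsm hs'm' hmm hst htN hs't' ht'N
    have hadj := hTT s hs s' hs'
    obtain ⟨m₁, hm₁, -, huniq⟩ := hmiss s hs
    obtain ⟨m₂, hm₂, -, huniq'⟩ := hmiss s' hs'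
    have e1 := huniq m hm hsm
    have e2 := huniq' m' hm' hs'm'
    have hss : s ≠ s' := by
      intro e
      subst e
      exact hmm (e1.trans ((huniq m' hm' hs'm')).symm)
    -- common neighbours in `N`
    have h1 : (N.erase m).erase m' ⊆ cn G s s' ∩ N := by
      intro z hz
      simp only [mem_erase] at hz
      simp only [cn, mem_inter, mem_nb]
      refine ⟨⟨?_, ?_⟩, hz.2.2⟩
      · by_contra h
        exact hz.2.1 ((huniq z hz.2.2 h).trans e1.symm)
      · by_contra h
        exact hz.1 ((huniq' z hz.2.2 h).trans e2.symm)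
    have h2 := Finset.card_le_card h1
    rw [Finset.card_erase_of_mem (Finset.mem_erase.2 ⟨fun e => hmm e.symm, hm'⟩),
      Finset.card_erase_of_mem hm, hN5] at h2
    have h4 : (cn G s s' ∩ N).card ≤ 3 := by
      have h5 : cn G s s' ∩ N ⊆ (N.erase m).erase m' := by
        intro z hz
        simp only [cn, mem_inter, mem_nb] at hz
        simp only [mem_erase]
        exact ⟨fun e => hs'm' (e ▸ hz.1.2), fun e => hsm (e ▸ hz.1.1), hz.2⟩
      have h6 := Finset.card_le_card h5
      rw [Finset.card_erase_of_mem (Finset.mem_erase.2 ⟨fun e => hmm e.symm, hm'⟩),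
        Finset.card_erase_of_mem hm, hN5] at h6
      exact h6
    have h5 := hc s s' hss hadj
    have h6 : (cn G s s' ∩ N).card + (cn G s s' \ N).card = (cn G s s').card :=
      Finset.card_inter_add_card_sdiff _ _
    obtain ⟨z, hz⟩ : (cn G s s' \ N).Nonempty := Finset.card_pos.1 (by omega)
    simp only [cn, mem_sdiff, mem_inter, mem_nb] at hz
    obtain ⟨t₁, -, -, hut⟩ := hex s hs
    obtain ⟨t₂, -, -, hut'⟩ := hex s' hs'
    rw [hut t hst htN, hut' t' hs't' ht'N, ← hut z hz.1.1 hz.2, ← hut' z hz.1.2 hz.2]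
  obtain ⟨s₁, hs₁⟩ : T.Nonempty := Finset.card_pos.1 (by omega)
  obtain ⟨m₁, hm₁N, hm₁, hm₁u⟩ := hmiss s₁ hs₁
  obtain ⟨t₁, ht₁, ht₁N, ht₁u⟩ := hex s₁ hs₁
  by_cases hall : ∀ s ∈ T, ¬ G.Adj s m₁
  · -- `K_{5,4}`
    set X := insert v (T ∪ N.erase m₁) with hXdef
    have hvX : v ∉ T ∪ N.erase m₁ := by
      rw [mem_union, not_or, mem_erase]
      exact ⟨fun h => ((hmemW v).1 (hTW h)).1 rfl, fun h => hvN h.2⟩
    have hdis : Disjoint T (N.erase m₁) := by
      rw [Finset.disjoint_left]
      intro z hz hz'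
      rw [mem_erase] at hz'
      exact ((hmemW z).1 (hTW hz)).2 (by simpa [hN] using hz'.2)
    have hXc : X.card = 9 := by
      rw [hXdef, Finset.card_insert_of_notMem hvX, Finset.card_union_of_disjoint hdis,
        Finset.card_erase_of_mem hm₁N, hN5, hT4]
    have hb := hcut X (by omega) (by omega)
    -- count
    have hb' : bd G X ≤ 5 := by
      have h1 : bd G X = (nb G v ∩ Xᶜ).card + (eb G T Xᶜ + eb G (N.erase m₁) Xᶜ) := by
        unfold bd
        conv_lhs => rw [hXdef]
        rw [eb_insert_left G hvX, eb_union_left G hdis]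
      have h2 : (nb G v ∩ Xᶜ).card ≤ 1 := by
        have : nb G v ∩ Xᶜ ⊆ {m₁} := by
          intro z hz
          simp only [hXdef, mem_inter, mem_compl, mem_insert, mem_union, mem_erase, not_or,
            not_and] at hz
          rw [mem_singleton]
          by_contra hne
          exact hz.2.2.2 hne (hN ▸ hz.1)
        simpa using Finset.card_le_card this
      have h4 : eb G T Xᶜ ≤ 4 := by
        have : eb G T Xᶜ ≤ ∑ s ∈ T, 1 := by
          unfold eb
          apply Finset.sum_le_sum
          intro s hs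
          obtain ⟨t, -, -, htu⟩ := hex s hs
          have : nb G s ∩ Xᶜ ⊆ {t} := by
            intro z hz
            simp only [hXdef, mem_inter, mem_compl, mem_insert, mem_union, mem_erase, not_or,
              not_and, mem_nb] at hz
            rw [mem_singleton]
            refine htu z hz.1 (fun hzN => ?_)
            by_cases hzm : z = m₁
            · exact hall s hs (hzm ▸ hz.1)
            · exact hz.2.2.2 hzm hzN
          simpa using Finset.card_le_card this
        rw [Finset.sum_const, hT4] at this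
        simpa using this
      have h5 : eb G (N.erase m₁) Xᶜ = 0 := by
        -- each `a ∈ N - m₁` has its five neighbours in `{v} ∪ T`
        rw [eb_eq_zero]
        intro a ha b hb hab
        rw [mem_erase] at ha
        have haT : ∀ s ∈ T, G.Adj s a := by
          intro s hs
          by_contra hsa
          obtain ⟨m, hm, hsm, hu⟩ := hmiss s hs
          exact ha.1 ((hu a ha.2 hsa).trans (hu m₁ hm₁N (hall s hs)).symm)
        have hva : G.Adj v a := by simpa [hN] using ha.2
        have hvT : v ∉ T := fun h => ((hmemW v).1 (hTW h)).1 rfl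
        have h6 : insert v T ⊆ nb G a := by
          intro z hz
          rw [mem_insert] at hz
          rw [mem_nb]
          rcases hz with rfl | hz
          · exact hva.symm
          · exact (haT z hz).symm
        have h7 : insert v T = nb G a := by
          apply Finset.eq_of_subset_of_card_le h6
          rw [hr a, Finset.card_insert_of_notMem hvT, hT4]
        have h8 : b ∈ insert v T := by rw [h7, mem_nb]; exact hab
        rw [mem_compl] at hb
        apply hb
        rw [hXdef, mem_insert, mem_union]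
        rw [mem_insert] at h8
        tauto
      omega
    omega
  · push Not at hall
    obtain ⟨s₂, hs₂, hs₂m⟩ := hall
    obtain ⟨m₂, hm₂N, hm₂, hm₂u⟩ := hmiss s₂ hs₂
    have hm12 : m₁ ≠ m₂ := fun e => hm₂ (e ▸ hs₂m)
    -- all outer neighbours equal `t₁`
    have hall' : ∀ s ∈ T, G.Adj s t₁ := by
      intro s hs
      obtain ⟨m, hm, hsm, hmu⟩ := hmiss s hs
      obtain ⟨t, ht, htN, htu⟩ := hex s hs
      by_cases h : m = m₁
      · obtain ⟨t₂, ht₂, ht₂N, -⟩ := hex s₂ hs₂
        have e1 := hsame s₁ hs₁ s₂ hs₂ m₁ m₂ t₁ t₂ hm₁N hm₂N hm₁ hm₂ hm12 ht₁ ht₁N ht₂ ht₂N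
        have e2 := hsame s hs s₂ hs₂ m m₂ t t₂ hm hm₂N hsm hm₂ (h ▸ hm12) ht htN ht₂ ht₂N
        rw [e1, ← e2]; exact ht
      · have e1 := hsame s₁ hs₁ s hs m₁ m t₁ t hm₁N hm hm₁ hsm (fun e => h e.symm) ht₁ ht₁N ht htN
        rw [e1]; exact ht
    have ht₁T : t₁ ∉ T := fun h => hTT s₁ hs₁ t₁ h ht₁
    have ht₁v : t₁ ≠ v := by
      intro e
      have := (hmemW s₁).1 (hTW hs₁)
      exact this.2 (e ▸ ht₁).symm
    have ht₁W : t₁ ∈ W := (hmemW t₁).2 ⟨ht₁v, by simpa [hN] using ht₁N⟩
    set U := insert t₁ T with hU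
    have hUW : U ⊆ W := Finset.insert_subset ht₁W hTW
    have hUc : U.card = 5 := by rw [hU, Finset.card_insert_of_notMem ht₁T, hT4]
    have hXU := hXcard U hUW
    have hb := hcut (insert v (N ∪ U)) (by omega) (by omega)
    have hUW' : U ⊆ (insert v (nb G v))ᶜ := by rw [← hN, ← hW]; exact hUW
    rw [hN, bd_eq v U hUW', ← hN] at hb
    -- outside `U` all values are at most one
    have h1 : ∑ s ∈ (insert v (N ∪ U))ᶜ, (nb G s ∩ N).card ≤ ∑ s ∈ (insert v (N ∪ U))ᶜ, 1 := by
      apply Finset.sum_le_sum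
      intro s hs
      simp only [mem_compl, mem_insert, mem_union, not_or, hU] at hs
      have hsW : s ∈ W := (hmemW s).2 ⟨hs.1, by simpa [hN] using hs.2.1⟩
      have h2 := hcW s hsW
      have h4 : ¬ 4 ≤ (nb G s ∩ N).card := fun h => hs.2.2.2 (mem_filter.2 ⟨hsW, h⟩)
      omega
    have h2 : ((insert v (N ∪ U))ᶜ).card = 3 := by
      rw [Finset.card_compl, hXU, hUc]
      omega
    rw [Finset.sum_const, h2] at h1
    have h4 : ∑ s ∈ U, (nb G s ∩ (insert v (N ∪ U))ᶜ).card ≤ 1 := by
      rw [hU, Finset.sum_insert ht₁T, ← hU]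
      have h5 : ∑ s ∈ T, (nb G s ∩ (insert v (N ∪ U))ᶜ).card = 0 := by
        apply Finset.sum_eq_zero
        intro s hs
        rw [Finset.card_eq_zero]
        ext z
        simp only [mem_inter, mem_nb, mem_compl, mem_insert, mem_union, not_or]
        constructor
        · rintro ⟨h, h', h'', h'''⟩
          exfalso
          obtain ⟨t, ht, htN, htu⟩ := hex s hs
          have e1 := htu z h (by simpa [hN] using h'')
          have e2 := htu t₁ (hall' s hs) ht₁N
          apply h'''
          rw [hU, mem_insert]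
          exact Or.inl (e1.trans e2.symm)
        · intro h; simp at h
      rw [h5, add_zero]
      have h6 : T ⊆ nb G t₁ := by
        intro s hs
        rw [mem_nb]
        exact (hall' s hs).symm
      have h7 : (nb G t₁ ∩ (insert v (N ∪ U))ᶜ) ∪ T ⊆ nb G t₁ :=
        Finset.union_subset Finset.inter_subset_left h6
      have h8 : Disjoint (nb G t₁ ∩ (insert v (N ∪ U))ᶜ) T := by
        rw [Finset.disjoint_left]
        intro z hz hzT
        simp only [mem_inter, mem_compl, mem_insert, mem_union, not_or, hU] at hz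
        exact hz.2.2.2.2 hzT
      have h9 := Finset.card_le_card h7
      rw [Finset.card_union_of_disjoint h8, hr t₁, hT4] at h9
      omega
    simp only [smul_eq_mul] at h1
    omega

end Pool.Agent.H38.Rig.F3
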