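import Pool.Agent.H38.Rig.Good

set_option autoImplicit false
set_option linter.unusedSectionVars false
set_option linter.unusedVariables false

namespace Pool.Agent.H38.Rig.GenL

open Finset Polynomial

variable {V : Type} [Fintype V] [DecidableEq V]

/-! ### Genericity along lines (helper27) -/

/-- a real function that is a polynomial -/
def PolyF (f : ℝ → ℝ) : Prop := ∃ P : ℝ[X], ∀ t, f t = P.eval t

lemma PolyF.const (c : ℝ) : PolyF (fun _ => c) := ⟨C c, fun t => by simp⟩

lemma PolyF.id : PolyF (fun t => t) := ⟨X, fun t => by simp⟩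

lemma PolyF.add {f g : ℝ → ℝ} (hf : PolyF f) (hg : PolyF g) : PolyF (fun t => f t + g t) := by
  obtain ⟨P, hP⟩ := hf
  obtain ⟨Q, hQ⟩ := hg
  exact ⟨P + Q, fun t => by simp only [eval_add, hP, hQ]⟩

lemma PolyF.sub {f g : ℝ → ℝ} (hf : PolyF f) (hg : PolyF g) : PolyF (fun t => f t - g t) := by
  obtain ⟨P, hP⟩ := hf
  obtain ⟨Q, hQ⟩ := hg
  exact ⟨P - Q, fun t => by simp only [eval_sub, hP, hQ]⟩

lemma PolyF.mul {f g : ℝ → ℝ} (hf : PolyF f) (hg : PolyF g) : PolyF (fun t => f t * g t) := by
  obtain ⟨P, hP⟩ := hf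
  obtain ⟨Q, hQ⟩ := hg
  exact ⟨P * Q, fun t => by simp only [eval_mul, hP, hQ]⟩

/-- If the rows of a matrix with polynomial entries are independent for one value of the
parameter then they are independent for all but finitely many values. -/
lemma finite_dependent {ι κ : Type} [Fintype ι] [DecidableEq ι] [Fintype κ]
    (A : ι → κ → ℝ → ℝ) (hA : ∀ i k, PolyF (A i k)) (t0 : ℝ)
    (h0 : ∀ c : ι → ℝ, (∀ k, ∑ i, c i * A i k t0 = 0) → c = 0) :
    {t : ℝ | ¬ ∀ c : ι → ℝ, (∀ k, ∑ i, c i * A i k t = 0) → c = 0}.Finite := by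
  classical
  choose P hP using hA
  set M : Matrix ι κ ℝ[X] := Matrix.of P with hM
  set D : ℝ[X] := (M * M.transpose).det with hD
  have hev : ∀ t, D.eval t =
      ((Matrix.of fun i k => A i k t) * (Matrix.of fun i k => A i k t).transpose).det := by
    intro t
    have h1 : D.eval t = ((M * M.transpose).map (eval t)).det := by
      rw [hD, ← coe_evalRingHom, RingHom.map_det]
      rfl
    rw [h1]
    congr 1
    ext i j
    simp only [Matrix.map_apply, Matrix.mul_apply, Matrix.transpose_apply, hM, Matrix.of_apply,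
      eval_finsetSum, eval_mul, hP]
  have hgood : ∀ t, D.eval t ≠ 0 →
      ∀ c : ι → ℝ, (∀ k, ∑ i, c i * A i k t = 0) → c = 0 := by
    intro t ht c hc
    rw [hev] at ht
    have h1 : Matrix.vecMul c (Matrix.of fun i k => A i k t) = 0 := by
      ext k
      simpa [Matrix.vecMul, dotProduct] using hc k
    have h2 : Matrix.vecMul c ((Matrix.of fun i k => A i k t) *
        (Matrix.of fun i k => A i k t).transpose) = 0 := by
      rw [← Matrix.vecMul_vecMul, h1, Matrix.zero_vecMul]
    exact Matrix.eq_zero_of_vecMul_eq_zero ht h2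
  have hDne : D ≠ 0 := by
    intro h
    have h1 := hev t0
    rw [h, eval_zero] at h1
    obtain ⟨c, hc, hc'⟩ := Matrix.exists_vecMul_eq_zero_iff.2 h1.symm
    apply hc
    apply h0
    have h2 : Matrix.vecMul c (Matrix.of fun i k => A i k t0) = 0 := by
      rw [← Matrix.vecMul_vecMul] at hc'
      set z := Matrix.vecMul c (Matrix.of fun i k => A i k t0) with hz
      have h3 : z ⬝ᵥ z = 0 := by
        have h4 : Matrix.vecMul z (Matrix.of fun i k => A i k t0).transpose ⬝ᵥ c = 0 := by
          rw [hc', zero_dotProduct]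
        rw [Matrix.vecMul_transpose, dotProduct_comm, Matrix.dotProduct_mulVec] at h4
        exact h4
      exact dotProduct_self_eq_zero.1 h3
    intro k
    have := congrFun h2 k
    simpa [Matrix.vecMul, dotProduct] using this
  refine (D.roots.toFinset.finite_toSet).subset ?_
  intro t ht
  simp only [Set.mem_ofPred_eq] at ht
  rw [mem_coe, Multiset.mem_toFinset, mem_roots hDne]
  by_contra hc
  exact ht (hgood t hc)

/-- a set of placements which is open along lines -/
def LOpen (S : Set (V → P3)) : Prop := ∀ p ∈ S, ∀ q : V → P3, {t : ℝ | p + t • q ∉ S}.Finite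

lemma LOpen.inter {S T : Set (V → P3)} (hS : LOpen S) (hT : LOpen T) : LOpen (S ∩ T) := by
  intro p hp q
  refine ((hS p hp.1 q).union (hT p hp.2 q)).subset ?_
  intro t ht
  simp only [Set.mem_ofPred_eq, Set.mem_inter_iff, not_and_or] at ht
  exact ht

lemma LOpen.inter_nonempty {S T : Set (V → P3)} (hS : LOpen S) (hT : LOpen T)
    (hS' : S.Nonempty) (hT' : T.Nonempty) : (S ∩ T).Nonempty := by
  obtain ⟨p, hp⟩ := hS'
  obtain ⟨p', hp'⟩ := hT'
  have h1 := hS p hp (p' - p)
  have h2 := hT p' hp' (p' - p)
  have h3 : {t : ℝ | p + t • (p' - p) ∉ T}.Finite := by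
    refine (h2.image (fun t => t + 1)).subset ?_
    intro t ht
    refine ⟨t - 1, ?_, by ring⟩
    simp only [Set.mem_ofPred_eq] at ht ⊢
    have : p' + (t - 1) • (p' - p) = p + t • (p' - p) := by
      ext v k
      simp
      ring
    rw [this]; exact ht
  obtain ⟨t, ht⟩ := ((h1.union h3).infinite_compl).nonempty
  refine ⟨p + t • (p' - p), ?_, ?_⟩
  · by_contra h; exact ht (Or.inl h)
  · by_contra h; exact ht (Or.inr h)

/-- criterion for `LOpen` -/
lemma lopen_of_rows {ι κ : Type} [Fintype ι] [DecidableEq ι] [Fintype κ] (S : Set (V → P3))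
    (A : ι → κ → (V → P3) → ℝ) (hA : ∀ i k p q, PolyF (fun t => A i k (p + t • q)))
    (hS : ∀ p, p ∈ S ↔ ∀ c : ι → ℝ, (∀ k, ∑ i, c i * A i k p = 0) → c = 0) : LOpen S := by
  intro p hp q
  have h := finite_dependent (fun i k t => A i k (p + t • q)) (fun i k => hA i k p q) 0
    (by
      have := (hS p).1 hp
      simpa using this)
  refine h.subset ?_
  intro t ht
  simp only [Set.mem_ofPred_eq] at ht ⊢
  rwa [← hS]

lemma isPoly_coord (p q : V → P3) (v : V) (k : Fin 3) : PolyF (fun t => (p + t • q) v k) := by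
  have : (fun t : ℝ => (p + t • q) v k) = fun t => p v k + t * q v k := by
    ext t; simp
  rw [this]
  exact (PolyF.const _).add (PolyF.id.mul (PolyF.const _))

open Classical in
/-- stress-freeness is an open condition along lines -/
lemma lopen_stressFree (G : SimpleGraph V) : LOpen {p : V → P3 | StressFree G p} := by
  refine lopen_of_rows (ι := V × V) (κ := (V × Fin 3) ⊕ ((V × V) ⊕ (V × V))) _
    (fun e k p => Sum.elim (fun vk : V × Fin 3 => if e.1 = vk.1 then p e.1 vk.2 - p e.2 vk.2 else 0)
      (Sum.elim (fun f : V × V => (if e = f then 1 else 0) - (if e = (f.2, f.1) then 1 else 0))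
        (fun f : V × V => if e = f ∧ ¬ G.Adj f.1 f.2 then 1 else 0)) k) ?_ ?_
  · rintro e (⟨v, k⟩ | f | f) p q
    · simp only [Sum.elim_inl]
      by_cases h : e.1 = v
      · simp only [h, if_true]
        exact (isPoly_coord p q _ k).sub (isPoly_coord p q _ k)
      · simp only [h, if_false]
        exact PolyF.const _
    · exact PolyF.const _
    · exact PolyF.const _
  · intro p
    have key : ∀ c : V × V → ℝ, (∀ k : (V × Fin 3) ⊕ ((V × V) ⊕ (V × V)), ∑ e : V × V, c e *
        (Sum.elim (fun vk : V × Fin 3 => if e.1 = vk.1 then p e.1 vk.2 - p e.2 vk.2 else 0)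
      (Sum.elim (fun f : V × V => (if e = f then (1 : ℝ) else 0) - (if e = (f.2, f.1) then 1 else 0))
        (fun f : V × V => if e = f ∧ ¬ G.Adj f.1 f.2 then 1 else 0)) k) = 0) ↔
        ((∀ u v, c (u, v) = c (v, u)) ∧ (∀ u v, ¬ G.Adj u v → c (u, v) = 0) ∧
          (∀ v, ∑ u, c (v, u) • (p v - p u) = 0)) := by
      intro c
      rw [Sum.forall, Sum.forall]
      simp only [Sum.elim_inl, Sum.elim_inr]
      have e1 : (∀ a : V × Fin 3, ∑ x : V × V, c x * (if x.1 = a.1 then p x.1 a.2 - p x.2 a.2
          else 0) = 0) ↔ (∀ v, ∑ u, c (v, u) • (p v - p u) = 0) := by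
        have h0 : ∀ a : V × Fin 3, ∑ x : V × V, c x * (if x.1 = a.1 then p x.1 a.2 - p x.2 a.2
          else 0) = ∑ u, c (a.1, u) * (p a.1 a.2 - p u a.2) := by
          intro a
          rw [Fintype.sum_prod_type]
          rw [Finset.sum_eq_single a.1]
          · simp
          · intro b _ hb
            simp [hb]
          · simp
        constructor
        · intro h v
          ext k
          have := h (v, k)
          rw [h0] at this
          simpa using this
        · rintro h ⟨v, k⟩
          rw [h0]
          have := congrFun (h v) k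
          simpa using this
      have e2 : (∀ a : V × V, ∑ x : V × V, c x * ((if x = a then (1 : ℝ) else 0) -
          (if x = (a.2, a.1) then 1 else 0)) = 0) ↔ (∀ u v, c (u, v) = c (v, u)) := by
        have h0 : ∀ a : V × V, ∑ x : V × V, c x * ((if x = a then (1 : ℝ) else 0) -
          (if x = (a.2, a.1) then 1 else 0)) = c a - c (a.2, a.1) := by
          intro a
          simp [mul_sub, Finset.sum_sub_distrib]
        constructor
        · intro h u v
          have := h (u, v)
          rw [h0] at this
          linarith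
        · rintro h ⟨u, v⟩
          rw [h0, h u v]; simp
      have e3 : (∀ a : V × V, ∑ x : V × V, c x * (if x = a ∧ ¬ G.Adj a.1 a.2 then (1 : ℝ) else 0)
          = 0) ↔ (∀ u v, ¬ G.Adj u v → c (u, v) = 0) := by
        constructor
        · intro h u v huv
          have := h (u, v)
          simpa [huv] using this
        · rintro h ⟨u, v⟩
          by_cases huv : G.Adj u v
          · simp [huv]
          · simp [huv, h u v huv]
      rw [e1, e2, e3]
      tauto
    simp only [Set.mem_ofPred_eq]
    constructor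
    · intro h c hc
      rw [key] at hc
      ext ⟨u, v⟩
      exact h (fun u v => c (u, v)) hc.1 hc.2.1 hc.2.2 u v
    · intro h ω h1 h2 h3 u v
      have := h (fun e => ω e.1 e.2) ((key _).2 ⟨h1, h2, h3⟩)
      exact congrFun this (u, v)

end Pool.Agent.H38.Rig.GenL
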