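import Pool.Agent.H38.Rig.Count

set_option autoImplicit false
set_option linter.unusedSectionVars false
set_option linter.unusedVariables false

namespace Pool.Agent.H38.Rig

open Finset Filter

/-- A family of vectors with polynomial entries which is independent at one parameter is
independent at all but finitely many parameters. -/
lemma eventually_li {ι κ : Type} [Fintype ι] [Fintype κ] (M : ι → κ → Polynomial ℝ) (t0 : ℝ)
    (h : LinearIndependent ℝ (fun i k => (M i k).eval t0)) :
    ∀ᶠ t in cofinite, LinearIndependent ℝ (fun i k => (M i k).eval t) := by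
  classical
  obtain ⟨g, hg⟩ := (Fintype.linearCombination ℝ (fun i k => (M i k).eval t0)
    ).exists_leftInverse_of_injective
      (LinearMap.ker_eq_bot.2 (linearIndependent_iff_injective_fintypeLinearCombination.1 h))
  have hg' : ∀ i, g (fun k => (M i k).eval t0) = Pi.single i 1 := by
    intro i
    have := congrArg (fun f => f (Pi.single i 1)) hg
    simpa [Fintype.linearCombination_apply] using this
  let Q : Matrix ι ι (Polynomial ℝ) := Matrix.of
    (fun i j => ∑ k, M i k * Polynomial.C (g (Pi.single k 1) j))
  have hQ : ∀ t i j, (Q i j).eval t = g (fun k => (M i k).eval t) j := by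
    intro t i j
    have h1 : (fun k => (M i k).eval t) = ∑ k, (M i k).eval t • (Pi.single k 1 : κ → ℝ) := by
      ext k
      simp [Finset.sum_apply, Pi.single_apply]
    rw [h1, map_sum]
    simp [Q, Polynomial.eval_finsetSum, Finset.sum_apply]
  have hdet : ∀ t, (Q.det).eval t = (Matrix.of (fun i j => g (fun k => (M i k).eval t) j)).det := by
    intro t
    have := RingHom.map_det (Polynomial.evalRingHom t) Q
    rw [Polynomial.coe_evalRingHom] at this
    rw [this]
    congr 1
    ext i j
    simp [hQ]
  have h0 : Q.det ≠ 0 := by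
    intro h0
    have h1 := hdet t0
    rw [h0, Polynomial.eval_zero] at h1
    have h2 : (Matrix.of (fun i j => g (fun k => (M i k).eval t0) j)) = (1 : Matrix ι ι ℝ) := by
      ext i j
      simp [hg', Matrix.one_apply, Pi.single_apply, eq_comm]
    rw [h2, Matrix.det_one] at h1
    exact zero_ne_one h1
  have hfin : {t | Polynomial.IsRoot Q.det t}.Finite := Polynomial.finite_setOfPred_isRoot h0
  rw [Filter.eventually_cofinite]
  refine hfin.subset ?_
  intro t ht
  by_contra hroot
  apply ht
  have hne : (Matrix.of (fun i j => g (fun k => (M i k).eval t) j)).det ≠ 0 := by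
    rw [← hdet]; exact hroot
  have hli := Matrix.linearIndependent_rows_of_det_ne_zero hne
  exact LinearIndependent.of_comp g hli

variable {V : Type} [Fintype V] [DecidableEq V]

/-- stress-freeness for general direction vectors `D v u` (instead of `p v - p u`) -/
def SF (G : SimpleGraph V) (D : V → V → P3) : Prop :=
  ∀ ω : V → V → ℝ, (∀ u v, ω u v = ω v u) → (∀ u v, ¬ G.Adj u v → ω u v = 0) →
    (∀ v, ∑ u, ω v u • D v u = 0) → ∀ u v, ω u v = 0

lemma stressFree_iff_SF (G : SimpleGraph V) (p : V → P3) :
    StressFree G p ↔ SF G (fun v u => p v - p u) := Iff.rfl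

open Classical in
/-- the coefficient columns of the linear system defining `SF` -/
noncomputable def cols (G : SimpleGraph V) (D : V → V → P3) (e : V × V) :
    ((V × V) ⊕ (V × V)) ⊕ (V × Fin 3) → ℝ
  | Sum.inl (Sum.inl (u, v)) => (if e = (u, v) then 1 else 0) - (if e = (v, u) then 1 else 0)
  | Sum.inl (Sum.inr (u, v)) => if ¬ G.Adj u v ∧ e = (u, v) then 1 else 0
  | Sum.inr (v, i) => if e.1 = v then D v e.2 i else 0

lemma sf_iff_cols (G : SimpleGraph V) (D : V → V → P3) :
    SF G D ↔ LinearIndependent ℝ (cols G D) := by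
  classical
  rw [Fintype.linearIndependent_iff]
  have h1 : ∀ (g : V × V → ℝ) (u v : V), (∑ e, g e • cols G D e) (Sum.inl (Sum.inl (u, v)))
      = g (u, v) - g (v, u) := by
    intro g u v
    simp [Finset.sum_apply, cols, mul_sub, Finset.sum_sub_distrib]
  have h2 : ∀ (g : V × V → ℝ) (u v : V), (∑ e, g e • cols G D e) (Sum.inl (Sum.inr (u, v)))
      = if G.Adj u v then 0 else g (u, v) := by
    intro g u v
    by_cases h : G.Adj u v <;> simp [Finset.sum_apply, cols, h]
  have h3 : ∀ (g : V × V → ℝ) (v : V) (i : Fin 3), (∑ e, g e • cols G D e) (Sum.inr (v, i))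
      = (∑ u, g (v, u) • D v u) i := by
    intro g v i
    simp only [Finset.sum_apply, cols, Pi.smul_apply, smul_eq_mul, mul_ite, mul_zero]
    rw [Fintype.sum_prod_type]
    simp only
    rw [Finset.sum_eq_single v]
    · simp
    · intro b _ hb
      simp [hb]
    · simp
  constructor
  · intro h g hg e
    have := h (fun u v => g (u, v)) ?_ ?_ ?_ e.1 e.2
    · simpa using this
    · intro u v
      have := h1 g u v
      rw [hg] at this
      simp only [Pi.zero_apply] at this
      linarith
    · intro u v huv
      have := h2 g u v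
      rw [hg, if_neg huv] at this
      exact this.symm
    · intro v
      ext i
      rw [← h3 g v i, hg]
      rfl
  · intro h ω hs hsup heq u v
    refine h (fun e => ω e.1 e.2) ?_ (u, v)
    ext r
    rcases r with (⟨u, v⟩ | ⟨u, v⟩) | ⟨v, i⟩
    · rw [h1]; simp [hs u v]
    · rw [h2]
      by_cases h : G.Adj u v
      · simp [h]
      · simp [h, hsup u v h]
    · rw [h3]
      exact congrFun (heq v) i

/-- polynomial families: stress-free at one parameter implies stress-free at almost all. -/
lemma SF.eventually {G : SimpleGraph V} (D : V → V → Fin 3 → Polynomial ℝ) (t0 : ℝ)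
    (h : SF G (fun v u i => (D v u i).eval t0)) :
    ∀ᶠ t in cofinite, SF G (fun v u i => (D v u i).eval t) := by
  classical
  let M : (V × V) → (((V × V) ⊕ (V × V)) ⊕ (V × Fin 3)) → Polynomial ℝ := fun e r =>
    match r with
    | Sum.inl (Sum.inl (u, v)) => (if e = (u, v) then 1 else 0) - (if e = (v, u) then 1 else 0)
    | Sum.inl (Sum.inr (u, v)) => if ¬ G.Adj u v ∧ e = (u, v) then 1 else 0
    | Sum.inr (v, i) => if e.1 = v then D v e.2 i else 0
  have hM : ∀ t, (fun e r => (M e r).eval t) = cols G (fun v u i => (D v u i).eval t) := by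
    intro t
    ext e r
    rcases r with (⟨u, v⟩ | ⟨u, v⟩) | ⟨v, i⟩
    · simp only [M, cols]
      split_ifs <;> simp
    · simp only [M, cols]
      split_ifs <;> simp
    · simp only [M, cols]
      split_ifs <;> simp
  have h0 : LinearIndependent ℝ (fun e r => (M e r).eval t0) := by
    rw [hM]
    exact (sf_iff_cols _ _).1 h
  have := eventually_li M t0 h0
  filter_upwards [this] with t ht
  rw [sf_iff_cols, ← hM t]
  exact ht

/-- the line through two placements -/
def line (p0 p1 : V → P3) (t : ℝ) : V → P3 := fun v => p0 v + t • (p1 v - p0 v)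

@[simp] lemma line_zero (p0 p1 : V → P3) : line p0 p1 0 = p0 := by ext; simp [line]
@[simp] lemma line_one (p0 p1 : V → P3) : line p0 p1 1 = p1 := by ext; simp [line]

lemma StressFree.eventually_line {G : SimpleGraph V} {p0 : V → P3} (h : StressFree G p0)
    (p1 : V → P3) : ∀ᶠ t in cofinite, StressFree G (line p0 p1 t) := by
  let D : V → V → Fin 3 → Polynomial ℝ := fun v u i =>
    Polynomial.C (p0 v i - p0 u i) +
      Polynomial.X * Polynomial.C ((p1 v i - p0 v i) - (p1 u i - p0 u i))
  have hD : ∀ t, (fun v u i => (D v u i).eval t) = fun v u => line p0 p1 t v - line p0 p1 t u := by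
    intro t
    ext v u i
    simp only [D, line, Polynomial.eval_add, Polynomial.eval_mul, Polynomial.eval_C,
      Polynomial.eval_X, Pi.sub_apply, Pi.add_apply, Pi.smul_apply, smul_eq_mul]
    ring
  have := SF.eventually (G := G) D 0 (by
    rw [hD 0, line_zero]; exact (stressFree_iff_SF G p0).1 h)
  filter_upwards [this] with t ht
  rw [hD t] at ht
  exact ht

/-- the vectors from `p x` to the points `p z`, `z ∈ Z`, are independent -/
def Star (x : V) (Z : Finset V) (p : V → P3) : Prop :=
  ∀ c : V → ℝ, (∑ z ∈ Z, c z • (p x - p z) = 0) → ∀ z ∈ Z, c z = 0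

lemma star_iff (x : V) (Z : Finset V) (p : V → P3) :
    Star x Z p ↔ LinearIndependent ℝ (fun (z : Z) (i : Fin 3) => p x i - p z i) := by
  rw [Fintype.linearIndependent_iff]
  constructor
  · intro h g hg z
    have := h (fun z => if hz : z ∈ Z then g ⟨z, hz⟩ else 0) ?_ z z.2
    · simpa using this
    · rw [← Finset.sum_coe_sort]
      rw [← hg]
      apply Finset.sum_congr rfl
      intro z _
      ext i
      simp
  · intro h c hc z hz
    have := h (fun z => c z) ?_ ⟨z, hz⟩
    · exact this
    · rw [← hc, ← Finset.sum_coe_sort Z]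
      rfl

lemma Star.eventually_line {x : V} {Z : Finset V} {p1 : V → P3} (h : Star x Z p1)
    (p0 : V → P3) : ∀ᶠ t in cofinite, Star x Z (line p0 p1 t) := by
  let M : Z → Fin 3 → Polynomial ℝ := fun z i =>
    Polynomial.C (p0 x i - p0 z i) +
      Polynomial.X * Polynomial.C ((p1 x i - p0 x i) - (p1 z i - p0 z i))
  have hM : ∀ t, (fun z i => (M z i).eval t) =
      fun (z : Z) (i : Fin 3) => line p0 p1 t x i - line p0 p1 t z i := by
    intro t
    ext z i
    simp only [M, line, Polynomial.eval_add, Polynomial.eval_mul, Polynomial.eval_C,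
      Polynomial.eval_X, Pi.sub_apply, Pi.add_apply, Pi.smul_apply, smul_eq_mul]
    ring
  have := eventually_li M 1 (by rw [hM 1, ← star_iff]; simpa using h)
  filter_upwards [this] with t ht
  rw [hM t, ← star_iff] at ht
  exact ht

/-- there is a placement in star position -/
lemma exists_star (x : V) (Z : Finset V) (hx : x ∉ Z) (hZ : Z.card ≤ 3) :
    ∃ p : V → P3, Star x Z p := by
  classical
  obtain ⟨f, hf⟩ : ∃ f : Z ↪ Fin 3, True := by
    have : Fintype.card Z ≤ Fintype.card (Fin 3) := by simpa using hZ
    exact ⟨(Function.Embedding.nonempty_of_card_le this).some, trivial⟩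
  refine ⟨fun v => if hv : v ∈ Z then -Pi.single (f ⟨v, hv⟩) 1 else 0, ?_⟩
  intro c hc z hz
  have h1 := congrFun hc (f ⟨z, hz⟩)
  rw [Finset.sum_apply, Finset.sum_eq_single z] at h1
  · simpa [hz, hx] using h1
  · intro b hb hbz
    have : f ⟨z, hz⟩ ≠ f ⟨b, hb⟩ := by
      intro h
      have := f.injective h
      simp at this
      exact hbz this.symm
    simp [hb, hx, this]
  · intro h; exact absurd hz h

/-- generic placements: stress-free and in star position -/
lemma exists_stressFree_star {G : SimpleGraph V} (hI : Ind G) (x : V) (Z : Finset V)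
    (hx : x ∉ Z) (hZ : Z.card ≤ 3) : ∃ p : V → P3, StressFree G p ∧ Star x Z p := by
  obtain ⟨p0, h0⟩ := hI
  obtain ⟨p1, h1⟩ := exists_star x Z hx hZ
  obtain ⟨t, ht⟩ := ((h0.eventually_line p1).and (h1.eventually_line p0)).exists
  exact ⟨line p0 p1 t, ht⟩

end Pool.Agent.H38.Rig
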