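import Pool.Agent.H38.Rig.Good

set_option autoImplicit false
set_option linter.unusedSectionVars false
set_option linter.unusedVariables false

namespace Pool.Agent.H38.Rig

open Finset

variable {V : Type} [Fintype V] [DecidableEq V]

namespace D1

/-- labelled `K_5` minus the edge `pq` -/
structure K5m (G : SimpleGraph V) (a b c p q : V) : Prop where
  ab : G.Adj a b
  ac : G.Adj a c
  bc : G.Adj b c
  ap : G.Adj a p
  bp : G.Adj b p
  cp : G.Adj c p
  aq : G.Adj a q
  bq : G.Adj b q
  cq : G.Adj c q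
  pq : p ≠ q
  npq : ¬ G.Adj p q

lemma K5m.swap12 {G : SimpleGraph V} {a b c p q : V} (h : K5m G a b c p q) : K5m G b a c p q :=
  ⟨h.ab.symm, h.bc, h.ac, h.bp, h.ap, h.cp, h.bq, h.aq, h.cq, h.pq, h.npq⟩

lemma K5m.swap13 {G : SimpleGraph V} {a b c p q : V} (h : K5m G a b c p q) : K5m G c b a p q :=
  ⟨h.bc.symm, h.ac.symm, h.ab.symm, h.cp, h.bp, h.ap, h.cq, h.bq, h.aq, h.pq, h.npq⟩

lemma K5m.swap45 {G : SimpleGraph V} {a b c p q : V} (h : K5m G a b c p q) : K5m G a b c q p :=
  ⟨h.ab, h.ac, h.bc, h.aq, h.bq, h.cq, h.ap, h.bp, h.cp, h.pq.symm, fun e => h.npq e.symm⟩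

/-- the fifth neighbour -/
lemma exists_out {G : SimpleGraph V} (hr : Reg5 G) {a b c p q : V} (h : K5m G a b c p q) :
    ∃ z, nb G a = {b, c, p, q, z} ∧ z ≠ a ∧ z ≠ b ∧ z ≠ c ∧ z ≠ p ∧ z ≠ q := by
  have hsub : ({b, c, p, q} : Finset V) ⊆ nb G a := by
    intro x hx
    simp only [mem_insert, mem_singleton] at hx
    rcases hx with rfl | rfl | rfl | rfl
    · exact mem_nb.2 h.ab
    · exact mem_nb.2 h.ac
    · exact mem_nb.2 h.ap
    · exact mem_nb.2 h.aq
  have hc : ({b, c, p, q} : Finset V).card = 4 := by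
    have h1 := G.ne_of_adj h.bc
    have h2 := G.ne_of_adj h.bp
    have h3 := G.ne_of_adj h.bq
    have h4 := G.ne_of_adj h.cp
    have h5 := G.ne_of_adj h.cq
    have h6 := h.pq
    rw [card_insert_of_notMem (by simp [h1, h2, h3]), card_insert_of_notMem (by simp [h4, h5]),
      card_insert_of_notMem (by simp [h6]), card_singleton]
  have h1 : (nb G a \ {b, c, p, q}).card = 1 := by
    rw [card_sdiff_of_subset hsub, hr a, hc]
  obtain ⟨z, hz⟩ := card_eq_one.1 h1
  have hz' : z ∈ nb G a \ {b, c, p, q} := by rw [hz]; simp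
  simp only [mem_sdiff, mem_nb, mem_insert, mem_singleton, not_or] at hz'
  refine ⟨z, ?_, fun e => G.irrefl (e ▸ hz'.1), hz'.2.1, hz'.2.2.1, hz'.2.2.2.1, hz'.2.2.2.2⟩
  have : nb G a = {b, c, p, q} ∪ (nb G a \ {b, c, p, q}) := by
    rw [union_sdiff_of_subset hsub]
  rw [this, hz]
  ext x
  simp only [mem_union, mem_insert, mem_singleton]
  tauto

/-- the pair `a, p` is good if the outer neighbour of `a` is not adjacent to `p` -/
lemma good_of_out {G : SimpleGraph V} (hs : Sparse G) (hr : Reg5 G) (hcut : Cut7 G)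
    (hn : 12 ≤ Fintype.card V) {a b c p q : V} (h : K5m G a b c p q) {z : V}
    (hz : nb G a = {b, c, p, q, z}) (hzp : ¬ G.Adj z p) : GoodA G a p := by
  have hbc := G.ne_of_adj h.bc
  have hcn : cn G a p = {b, c} := by
    ext x
    simp only [cn, mem_inter, hz, mem_insert, mem_singleton, mem_nb]
    constructor
    · rintro ⟨rfl | rfl | rfl | rfl | rfl, h2⟩
      · exact Or.inl rfl
      · exact Or.inr rfl
      · exact absurd h2 G.irrefl
      · exact absurd h2 h.npq
      · exact absurd h2.symm hzp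
    · rintro (rfl | rfl)
      · exact ⟨Or.inl rfl, h.bp.symm⟩
      · exact ⟨Or.inr (Or.inl rfl), h.cp.symm⟩
  have hcc : (cn G a p).card = 2 := by rw [hcn]; exact card_pair hbc
  refine ⟨h.ap, by omega, by omega, ?_⟩
  intro Y ha hp hY
  by_contra hcon
  push Not at hcon
  have hf0 := hs Y (by omega)
  have hf1 : 1 ≤ fz G Y := by
    by_contra hlt
    rcases tight_cases hr hcut hn (by omega : 2 ≤ Y.card) (by omega) with h1 | ⟨h1, -⟩
    · omega
    · rw [h1, inter_univ, hcc] at hcon
      rw [h1] at hf0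
      push_cast at hcon
      omega
  have hc0 : (cn G a p ∩ Y).card = 0 := by
    have : (0 : ℤ) ≤ ((cn G a p ∩ Y).card : ℤ) := by positivity
    omega
  have hfY : fz G Y = 1 := by rw [hc0] at hcon; push_cast at hcon; omega
  rw [card_eq_zero, hcn] at hc0
  have hbY : b ∉ Y := by
    intro hb
    have : b ∈ ({b, c} : Finset V) ∩ Y := by simp [hb]
    rw [hc0] at this
    simp at this
  have hcY : c ∉ Y := by
    intro hc
    have : c ∈ ({b, c} : Finset V) ∩ Y := by simp [hc]
    rw [hc0] at this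
    simp at this
  have hsa : nb G a ∩ Y ⊆ {p, q, z} := by
    intro x hx
    rw [mem_inter, hz] at hx
    simp only [mem_insert, mem_singleton] at hx ⊢
    rcases hx with ⟨rfl | rfl | h1 | h1 | h1, h2⟩
    · exact absurd h2 hbY
    · exact absurd h2 hcY
    · exact Or.inl h1
    · exact Or.inr (Or.inl h1)
    · exact Or.inr (Or.inr h1)
  have hda : (nb G a ∩ Y).card ≤ 3 := (card_le_card hsa).trans (card_le_three)
  have hdp : (nb G p ∩ Y).card ≤ 3 := by
    have hsub : nb G p ∩ Y ⊆ nb G p \ {b, c} := by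
      intro x hx
      rw [mem_inter] at hx
      simp only [mem_sdiff, mem_insert, mem_singleton, not_or]
      exact ⟨hx.1, fun e => hbY (e ▸ hx.2), fun e => hcY (e ▸ hx.2)⟩
    have hsub2 : ({b, c} : Finset V) ⊆ nb G p := by
      intro x hx
      simp only [mem_insert, mem_singleton] at hx
      rcases hx with rfl | rfl
      · exact mem_nb.2 h.bp.symm
      · exact mem_nb.2 h.cp.symm
    have := card_le_card hsub
    rw [card_sdiff_of_subset hsub2, hr p, card_pair hbc] at this
    exact this
  have hap := G.ne_of_adj h.ap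
  have hW := fz_sdiff_pair G hap ha hp
  rw [if_pos h.ap] at hW
  have hWc : (Y \ {a, p}).card = Y.card - 2 := by
    rw [card_sdiff_of_subset, card_pair hap]
    intro x hx
    simp only [mem_insert, mem_singleton] at hx
    rcases hx with rfl | rfl
    · exact ha
    · exact hp
  have hW0 := hs (Y \ {a, p}) (by omega)
  have hda3 : (nb G a ∩ Y).card = 3 := by omega
  have hWt : fz G (Y \ {a, p}) ≤ 0 := by omega
  have hqY : q ∈ Y := by
    have h3 : ({p, q, z} : Finset V).card ≤ 3 := card_le_three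
    have heq : nb G a ∩ Y = {p, q, z} := eq_of_subset_of_card_le hsa (by omega)
    have : q ∈ nb G a ∩ Y := by rw [heq]; simp
    exact (mem_inter.1 this).2
  have hqW : q ∈ Y \ {a, p} := by
    simp only [mem_sdiff, mem_insert, mem_singleton, not_or]
    exact ⟨hqY, (G.ne_of_adj h.aq).symm, h.pq.symm⟩
  have h3 := three_le_of_tight hs hWt (by omega) hqW
  have hsub : nb G q ∩ (Y \ {a, p}) ⊆ nb G q \ {a, b, c} := by
    intro x hx
    simp only [mem_inter, mem_sdiff, mem_insert, mem_singleton, not_or] at hx ⊢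
    exact ⟨hx.1, hx.2.2.1, fun e => hbY (e ▸ hx.2.1), fun e => hcY (e ▸ hx.2.1)⟩
  have hsub2 : ({a, b, c} : Finset V) ⊆ nb G q := by
    intro x hx
    simp only [mem_insert, mem_singleton] at hx
    rcases hx with rfl | rfl | rfl
    · exact mem_nb.2 h.aq.symm
    · exact mem_nb.2 h.bq.symm
    · exact mem_nb.2 h.cq.symm
  have hab := G.ne_of_adj h.ab
  have hac := G.ne_of_adj h.ac
  have h4 := card_le_card hsub
  have h5 : ({a, b, c} : Finset V).card = 3 := card_eq_three.2 ⟨a, b, c, hab, hac, hbc, rfl⟩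
  rw [card_sdiff_of_subset hsub2, hr q, h5] at h4
  omega

lemma good_of_K5m {G : SimpleGraph V} (hs : Sparse G) (hr : Reg5 G) (hcut : Cut7 G)
    (hn : 12 ≤ Fintype.card V) {a b c p q : V} (h : K5m G a b c p q) : HasGood G := by
  obtain ⟨a', ha, haa, hab', hac', hap', haq'⟩ := exists_out hr h
  obtain ⟨b', hb, hba, hbb', hbc', hbp', hbq'⟩ := exists_out hr h.swap12
  obtain ⟨c', hc, hca, hcb', hcc', hcp', hcq'⟩ := exists_out hr h.swap13
  by_cases h1 : G.Adj a' p
  swap
  · exact Or.inl ⟨a, p, good_of_out hs hr hcut hn h ha h1⟩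
  by_cases h2 : G.Adj b' p
  swap
  · exact Or.inl ⟨b, p, good_of_out hs hr hcut hn h.swap12 hb h2⟩
  by_cases h3 : G.Adj c' p
  swap
  · exact Or.inl ⟨c, p, good_of_out hs hr hcut hn h.swap13 hc h3⟩
  by_cases h4 : G.Adj a' q
  swap
  · refine Or.inl ⟨a, q, good_of_out hs hr hcut hn h.swap45 (z := a') ?_ h4⟩
    rw [ha]; ext x; simp only [mem_insert, mem_singleton]; tauto
  by_cases h5 : G.Adj b' q
  swap
  · refine Or.inl ⟨b, q, good_of_out hs hr hcut hn h.swap12.swap45 (z := b') ?_ h5⟩
    rw [hb]; ext x; simp only [mem_insert, mem_singleton]; tauto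
  by_cases h6 : G.Adj c' q
  swap
  · refine Or.inl ⟨c, q, good_of_out hs hr hcut hn h.swap13.swap45 (z := c') ?_ h6⟩
    rw [hc]; ext x; simp only [mem_insert, mem_singleton]; tauto
  -- all outer neighbours are adjacent to both `p` and `q`: contradiction
  exfalso
  have nab := G.ne_of_adj h.ab
  have nac := G.ne_of_adj h.ac
  have nbc := G.ne_of_adj h.bc
  have nap := G.ne_of_adj h.ap
  have nbp := G.ne_of_adj h.bp
  have ncp := G.ne_of_adj h.cp
  have naq := G.ne_of_adj h.aq
  have nbq := G.ne_of_adj h.bq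
  have ncq := G.ne_of_adj h.cq
  set Z : Finset V := {a', b', c'} with hZ
  set T : Finset V := {a, b, c, p, q} with hT
  have hTc : T.card = 5 := by
    rw [hT, card_insert_of_notMem (by simp [nab, nac, nap, naq]),
      card_insert_of_notMem (by simp [nbc, nbp, nbq]),
      card_insert_of_notMem (by simp [ncp, ncq]), card_pair h.pq]
  have hZp : Z ⊆ nb G p \ {a, b, c} := by
    intro x hx
    simp only [hZ, mem_insert, mem_singleton] at hx
    simp only [mem_sdiff, mem_nb, mem_insert, mem_singleton, not_or]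
    rcases hx with rfl | rfl | rfl
    · exact ⟨h1.symm, haa, hab', hac'⟩
    · exact ⟨h2.symm, hbb', hba, hbc'⟩
    · exact ⟨h3.symm, hcc', hcb', hca⟩
  have hZc : Z.card ≤ 2 := by
    have hsub2 : ({a, b, c} : Finset V) ⊆ nb G p := by
      intro x hx
      simp only [mem_insert, mem_singleton] at hx
      rcases hx with rfl | rfl | rfl
      · exact mem_nb.2 h.ap.symm
      · exact mem_nb.2 h.bp.symm
      · exact mem_nb.2 h.cp.symm
    have h5 : ({a, b, c} : Finset V).card = 3 := card_eq_three.2 ⟨a, b, c, nab, nac, nbc, rfl⟩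
    have h7 := card_le_card hZp
    rw [card_sdiff_of_subset hsub2, hr p, h5] at h7
    exact h7
  have hZpn : Z ⊆ nb G p := hZp.trans sdiff_subset
  have hZqn : Z ⊆ nb G q := by
    intro x hx
    simp only [hZ, mem_insert, mem_singleton] at hx
    rw [mem_nb]
    rcases hx with rfl | rfl | rfl
    · exact h4.symm
    · exact h5.symm
    · exact h6.symm
  have hdis : Disjoint T Z := by
    rw [disjoint_left]
    intro x hx hxZ
    simp only [hT, mem_insert, mem_singleton] at hx
    simp only [hZ, mem_insert, mem_singleton] at hxZ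
    rcases hxZ with rfl | rfl | rfl
    · rcases hx with e | e | e | e | e
      · exact haa e
      · exact hab' e
      · exact hac' e
      · exact hap' e
      · exact haq' e
    · rcases hx with e | e | e | e | e
      · exact hbb' e
      · exact hba e
      · exact hbc' e
      · exact hbp' e
      · exact hbq' e
    · rcases hx with e | e | e | e | e
      · exact hcc' e
      · exact hcb' e
      · exact hca e
      · exact hcp' e
      · exact hcq' e
  have hTZ : 2 * Z.card + 3 ≤ eb G T Z := by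
    have e1 : 1 ≤ (nb G a ∩ Z).card := card_pos.2 ⟨a', by rw [mem_inter, ha]; simp [hZ]⟩
    have e2 : 1 ≤ (nb G b ∩ Z).card := card_pos.2 ⟨b', by rw [mem_inter, hb]; simp [hZ]⟩
    have e3 : 1 ≤ (nb G c ∩ Z).card := card_pos.2 ⟨c', by rw [mem_inter, hc]; simp [hZ]⟩
    have e4 : (nb G p ∩ Z).card = Z.card := by rw [inter_eq_right.2 hZpn]
    have e5 : (nb G q ∩ Z).card = Z.card := by rw [inter_eq_right.2 hZqn]
    rw [hT, eb_insert_left _ (by simp [nab, nac, nap, naq]),
      eb_insert_left _ (by simp [nbc, nbp, nbq]), eb_insert_left _ (by simp [ncp, ncq]),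
      eb_insert_left _ (by simp [h.pq]), eb_singleton_left]
    omega
  have hTi : 9 ≤ ie G T := by
    have f1 : ({b, c, p, q} : Finset V) ⊆ nb G a ∩ T := by
      intro x hx
      simp only [mem_insert, mem_singleton] at hx
      rw [mem_inter, mem_nb]
      rcases hx with rfl | rfl | rfl | rfl
      · exact ⟨h.ab, by simp [hT]⟩
      · exact ⟨h.ac, by simp [hT]⟩
      · exact ⟨h.ap, by simp [hT]⟩
      · exact ⟨h.aq, by simp [hT]⟩
    have g1 : ie G ({c, p, q} : Finset V) = 2 := by
      rw [ie_insert _ (by simp [ncp, ncq]), ie_pair _ h.pq, if_neg h.npq]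
      have : nb G c ∩ {p, q} = {p, q} := by
        apply inter_eq_right.2
        intro x hx
        simp only [mem_insert, mem_singleton] at hx
        rcases hx with rfl | rfl
        · exact mem_nb.2 h.cp
        · exact mem_nb.2 h.cq
      rw [this, card_pair h.pq]
    have g2 : ie G ({b, c, p, q} : Finset V) = 5 := by
      rw [ie_insert _ (by simp [nbc, nbp, nbq]), g1]
      have : nb G b ∩ {c, p, q} = {c, p, q} := by
        apply inter_eq_right.2
        intro x hx
        simp only [mem_insert, mem_singleton] at hx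
        rcases hx with rfl | rfl | rfl
        · exact mem_nb.2 h.bc
        · exact mem_nb.2 h.bp
        · exact mem_nb.2 h.bq
      rw [this, card_insert_of_notMem (by simp [ncp, ncq]), card_pair h.pq]
    rw [hT, ie_insert _ (by simp [nab, nac, nap, naq]), g2]
    have : nb G a ∩ {b, c, p, q} = {b, c, p, q} := by
      apply inter_eq_right.2
      intro x hx
      simp only [mem_insert, mem_singleton] at hx
      rcases hx with rfl | rfl | rfl | rfl
      · exact mem_nb.2 h.ab
      · exact mem_nb.2 h.ac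
      · exact mem_nb.2 h.ap
      · exact mem_nb.2 h.aq
    rw [this, card_insert_of_notMem (by simp [nbc, nbp, nbq]),
      card_insert_of_notMem (by simp [ncp, ncq]), card_pair h.pq]
  have hU := ie_union G hdis
  have hUc : (T ∪ Z).card = 5 + Z.card := by rw [card_union_of_disjoint hdis, hTc]
  have hf := hs (T ∪ Z) (by omega)
  rw [fz_def, hUc] at hf
  push_cast at hf
  omega

end D1

/-- a five-set spanning at least nine edges gives a good pair -/
theorem good_of_five {G : SimpleGraph V} (hs : Sparse G) (hr : Reg5 G) (hcut : Cut7 G)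
    (hn : 12 ≤ Fintype.card V) (T : Finset V) (hT : T.card = 5) (hTe : 9 ≤ ie G T) :
    HasGood G := by
  classical
  have hf := hs T (by omega)
  rw [fz_def, hT] at hf
  push_cast at hf
  have hTe' : ie G T = 9 := by omega
  have h2 := two_ie' G T
  -- a vertex of degree at most three in T
  obtain ⟨p, hp, hdp⟩ : ∃ p ∈ T, (nb G p ∩ T).card ≤ 3 := by
    by_contra hcon
    push Not at hcon
    have : ∑ v ∈ T, 4 ≤ ∑ v ∈ T, (nb G v ∩ T).card := Finset.sum_le_sum (fun v hv => hcon v hv)
    rw [Finset.sum_const, hT, smul_eq_mul] at this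
    omega
  have h3 := ie_insert G (notMem_erase p T)
  rw [insert_erase hp, nb_inter_erase_self] at h3
  have hSc : (T.erase p).card = 4 := by rw [card_erase_of_mem hp, hT]
  have hSle := two_ie_le G (T.erase p)
  rw [hSc] at hSle
  have hdp3 : (nb G p ∩ T).card = 3 := by omega
  have hSi : ie G (T.erase p) = 6 := by omega
  -- pairwise adjacency in `T.erase p`
  have hadj : ∀ u ∈ T.erase p, ∀ w ∈ T.erase p, u ≠ w → G.Adj u w := by
    intro u hu w hw huw
    have hd : ∀ v ∈ T.erase p, (nb G v ∩ T.erase p).card ≤ 3 := by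
      intro v hv
      have : nb G v ∩ T.erase p ⊆ (T.erase p).erase v := by
        intro x hx
        rw [mem_inter, mem_nb] at hx
        exact mem_erase.2 ⟨fun e => G.irrefl (e ▸ hx.1), hx.2⟩
      have := card_le_card this
      rw [card_erase_of_mem hv, hSc] at this
      exact this
    have h4 := two_ie' G (T.erase p)
    have h5 : ∑ v ∈ T.erase p, (nb G v ∩ T.erase p).card = ∑ v ∈ T.erase p, 3 := by
      apply le_antisymm (Finset.sum_le_sum hd)
      rw [Finset.sum_const, hSc, smul_eq_mul]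
      omega
    have h6 := (Finset.sum_eq_sum_iff_of_le hd).1 h5 u hu
    have h7 : nb G u ∩ T.erase p = (T.erase p).erase u := by
      apply eq_of_subset_of_card_le
      · intro x hx
        rw [mem_inter, mem_nb] at hx
        exact mem_erase.2 ⟨fun e => G.irrefl (e ▸ hx.1), hx.2⟩
      · rw [card_erase_of_mem hu, h6, hSc]
    have h8 : w ∈ nb G u ∩ T.erase p := by rw [h7]; exact mem_erase.2 ⟨huw.symm, hw⟩
    rw [mem_inter, mem_nb] at h8
    exact h8.1
  -- the three neighbours of `p` and the fourth vertex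
  have hsub : nb G p ∩ T ⊆ T.erase p := by
    intro x hx
    rw [mem_inter, mem_nb] at hx
    exact mem_erase.2 ⟨fun e => G.irrefl (e ▸ hx.1), hx.2⟩
  obtain ⟨a, b, c, hab, hac, hbc, habc⟩ := card_eq_three.1 hdp3
  have h1 : (T.erase p \ (nb G p ∩ T)).card = 1 := by
    rw [card_sdiff_of_subset hsub, hSc, hdp3]
  obtain ⟨q, hq⟩ := card_eq_one.1 h1
  have hq' : q ∈ T.erase p \ (nb G p ∩ T) := by rw [hq]; simp
  rw [mem_sdiff, mem_erase] at hq'
  have hnpq : ¬ G.Adj p q := by
    intro e
    exact hq'.2 (mem_inter.2 ⟨mem_nb.2 e, hq'.1.2⟩)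
  have ha : a ∈ nb G p ∩ T := by rw [habc]; simp
  have hb : b ∈ nb G p ∩ T := by rw [habc]; simp
  have hc : c ∈ nb G p ∩ T := by rw [habc]; simp
  have haq : a ≠ q := fun e => hq'.2 (e ▸ ha)
  have hbq : b ≠ q := fun e => hq'.2 (e ▸ hb)
  have hcq : c ≠ q := fun e => hq'.2 (e ▸ hc)
  have hqS : q ∈ T.erase p := mem_erase.2 hq'.1
  exact D1.good_of_K5m hs hr hcut hn (a := a) (b := b) (c := c) (p := p) (q := q)
    ⟨hadj a (hsub ha) b (hsub hb) hab, hadj a (hsub ha) c (hsub hc) hac,
      hadj b (hsub hb) c (hsub hc) hbc, (mem_nb.1 (mem_inter.1 ha).1).symm,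
      (mem_nb.1 (mem_inter.1 hb).1).symm, (mem_nb.1 (mem_inter.1 hc).1).symm,
      hadj a (hsub ha) q hqS haq, hadj b (hsub hb) q hqS hbq, hadj c (hsub hc) q hqS hcq,
      hq'.1.1.symm, hnpq⟩

end Pool.Agent.H38.Rig
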