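import Pool.Agent.H38.Rig.K4a

set_option autoImplicit false
set_option linter.unusedSectionVars false
set_option linter.unusedVariables false

namespace Pool.Agent.H38.Rig

open Finset

variable {V : Type} [Fintype V] [DecidableEq V]

namespace D2

/-- `K` is a clique with four vertices -/
structure IsK4 (G : SimpleGraph V) (K : Finset V) : Prop where
  card : K.card = 4
  adj : ∀ u ∈ K, ∀ w ∈ K, u ≠ w → G.Adj u w

/-- outer neighbours -/
noncomputable def No (G : SimpleGraph V) (K : Finset V) (s : V) : Finset V := nb G s \ K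

lemma IsK4.nb_inter {G : SimpleGraph V} {K : Finset V} (h : IsK4 G K) {s : V} (hs : s ∈ K) :
    nb G s ∩ K = K.erase s := by
  ext x
  rw [mem_inter, mem_nb, mem_erase]
  constructor
  · rintro ⟨h1, h2⟩; exact ⟨(G.ne_of_adj h1).symm, h2⟩
  · rintro ⟨h1, h2⟩; exact ⟨h.adj s hs x h2 h1.symm, h2⟩

lemma IsK4.ie {G : SimpleGraph V} {K : Finset V} (h : IsK4 G K) : ie G K = 6 := by
  have h1 := two_ie' G K
  have h2 : ∑ v ∈ K, (nb G v ∩ K).card = ∑ v ∈ K, 3 := by
    apply Finset.sum_congr rfl
    intro v hv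
    rw [h.nb_inter hv, card_erase_of_mem hv, h.card]
  rw [h2, Finset.sum_const, h.card, smul_eq_mul] at h1
  omega

lemma IsK4.of_ie {G : SimpleGraph V} {K : Finset V} (hc : K.card = 4) (hi : 6 ≤ Rig.ie G K) :
    IsK4 G K := by
  refine ⟨hc, ?_⟩
  intro u hu w hw huw
  have hd : ∀ v ∈ K, (nb G v ∩ K).card ≤ 3 := by
    intro v hv
    have : nb G v ∩ K ⊆ K.erase v := by
      intro x hx
      rw [mem_inter, mem_nb] at hx
      exact mem_erase.2 ⟨fun e => G.irrefl (e ▸ hx.1), hx.2⟩
    have := card_le_card this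
    rw [card_erase_of_mem hv, hc] at this
    exact this
  have h4 := two_ie' G K
  have h5 : ∑ v ∈ K, (nb G v ∩ K).card = ∑ v ∈ K, 3 := by
    apply le_antisymm (Finset.sum_le_sum hd)
    rw [Finset.sum_const, hc, smul_eq_mul]
    omega
  have h6 := (Finset.sum_eq_sum_iff_of_le hd).1 h5 u hu
  have h7 : nb G u ∩ K = K.erase u := by
    apply eq_of_subset_of_card_le
    · intro x hx
      rw [mem_inter, mem_nb] at hx
      exact mem_erase.2 ⟨fun e => G.irrefl (e ▸ hx.1), hx.2⟩
    · rw [card_erase_of_mem hu, h6, hc]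
  have h8 : w ∈ nb G u ∩ K := by rw [h7]; exact mem_erase.2 ⟨huw.symm, hw⟩
  rw [mem_inter, mem_nb] at h8
  exact h8.1

lemma IsK4.card_No {G : SimpleGraph V} (hr : Reg5 G) {K : Finset V} (h : IsK4 G K) {s : V}
    (hs : s ∈ K) : (No G K s).card = 2 := by
  have h1 := card_sdiff_add_card_inter (nb G s) K
  rw [h.nb_inter hs, card_erase_of_mem hs, h.card, hr s] at h1
  unfold No
  omega

lemma No_adj {G : SimpleGraph V} {K : Finset V} {s x : V} (h : x ∈ No G K s) : G.Adj s x :=
  mem_nb.1 (mem_sdiff.1 h).1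

lemma No_notMem {G : SimpleGraph V} {K : Finset V} {s x : V} (h : x ∈ No G K s) : x ∉ K :=
  (mem_sdiff.1 h).2

/-- a free pair is good or blocked -/
lemma free_good {G : SimpleGraph V} (hs : Sparse G) (hr : Reg5 G) (hcut : Cut7 G)
    (hn : 12 ≤ Fintype.card V) (h5 : ∀ T : Finset V, T.card = 5 → Rig.ie G T ≤ 8)
    {K : Finset V} (hK : IsK4 G K) {s t : V} (hsK : s ∈ K) (htK : t ∈ K) (hst : s ≠ t)
    (hfree : Disjoint (No G K s) (No G K t)) (hbad : ¬ GoodA G s t) :
    IsK4 G (No G K s ∪ No G K t) := by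
  have hadj := hK.adj s hsK t htK hst
  have hcn : cn G s t = K \ {s, t} := by
    ext x
    simp only [cn, mem_inter, mem_nb, mem_sdiff, mem_insert, mem_singleton, not_or]
    constructor
    · rintro ⟨h1, h2⟩
      by_cases hx : x ∈ K
      · exact ⟨hx, (G.ne_of_adj h1).symm, (G.ne_of_adj h2).symm⟩
      · exfalso
        exact (disjoint_left.1 hfree) (mem_sdiff.2 ⟨mem_nb.2 h1, hx⟩)
          (mem_sdiff.2 ⟨mem_nb.2 h2, hx⟩)
    · rintro ⟨h1, h2, h3⟩
      exact ⟨hK.adj s hsK x h1 (Ne.symm h2), hK.adj t htK x h1 (Ne.symm h3)⟩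
  have hstK : ({s, t} : Finset V) ⊆ K := by
    intro x hx
    simp only [mem_insert, mem_singleton] at hx
    rcases hx with rfl | rfl
    · exact hsK
    · exact htK
  have hcc : (cn G s t).card = 2 := by
    rw [hcn, card_sdiff_of_subset hstK, hK.card, card_pair hst]
  have hviol : ∃ Y : Finset V, s ∈ Y ∧ t ∈ Y ∧ 6 ≤ Y.card ∧
      fz G Y + ((cn G s t ∩ Y).card : ℤ) < 2 := by
    by_contra hcon
    push Not at hcon
    exact hbad ⟨hadj, by omega, by omega, hcon⟩
  obtain ⟨Y, hsY, htY, hY, hcon⟩ := hviol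
  have hf0 := hs Y (by omega)
  have hf1 : 1 ≤ fz G Y := by
    by_contra hlt
    rcases tight_cases hr hcut hn (by omega : 2 ≤ Y.card) (by omega) with h1 | ⟨h1, -⟩
    · omega
    · rw [h1, inter_univ, hcc] at hcon
      rw [h1] at hf0
      push_cast at hcon
      omega
  have hc0 : (cn G s t ∩ Y).card = 0 := by
    have : (0 : ℤ) ≤ ((cn G s t ∩ Y).card : ℤ) := by positivity
    omega
  have hfY : fz G Y = 1 := by rw [hc0] at hcon; push_cast at hcon; omega
  rw [card_eq_zero, hcn] at hc0
  have hout : ∀ x ∈ K, x ≠ s → x ≠ t → x ∉ Y := by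
    intro x hx h1 h2 h3
    have : x ∈ (K \ {s, t}) ∩ Y := by
      simp only [mem_inter, mem_sdiff, mem_insert, mem_singleton, not_or]
      exact ⟨⟨hx, h1, h2⟩, h3⟩
    rw [hc0] at this
    simp at this
  have hsubs : nb G s ∩ Y ⊆ insert t (No G K s) := by
    intro x hx
    rw [mem_inter, mem_nb] at hx
    by_cases hxK : x ∈ K
    · by_cases hxt : x = t
      · rw [hxt]; exact mem_insert_self _ _
      · exact absurd hx.2 (hout x hxK (G.ne_of_adj hx.1).symm hxt)
    · exact mem_insert_of_mem (mem_sdiff.2 ⟨mem_nb.2 hx.1, hxK⟩)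
  have hsubt : nb G t ∩ Y ⊆ insert s (No G K t) := by
    intro x hx
    rw [mem_inter, mem_nb] at hx
    by_cases hxK : x ∈ K
    · by_cases hxs : x = s
      · rw [hxs]; exact mem_insert_self _ _
      · exact absurd hx.2 (hout x hxK hxs (G.ne_of_adj hx.1).symm)
    · exact mem_insert_of_mem (mem_sdiff.2 ⟨mem_nb.2 hx.1, hxK⟩)
  have hcs := hK.card_No hr hsK
  have hct := hK.card_No hr htK
  have hIs : (insert t (No G K s)).card = 3 := by
    rw [card_insert_of_notMem (fun e => No_notMem e htK), hcs]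
  have hIt : (insert s (No G K t)).card = 3 := by
    rw [card_insert_of_notMem (fun e => No_notMem e hsK), hct]
  have hds := card_le_card hsubs
  have hdt := card_le_card hsubt
  rw [hIs] at hds
  rw [hIt] at hdt
  have hW := fz_sdiff_pair G hst hsY htY
  rw [if_pos hadj] at hW
  have hWc : (Y \ {s, t}).card = Y.card - 2 := by
    rw [card_sdiff_of_subset, card_pair hst]
    intro x hx
    simp only [mem_insert, mem_singleton] at hx
    rcases hx with rfl | rfl
    · exact hsY
    · exact htY
  have hW0 := hs (Y \ {s, t}) (by omega)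
  have hes : nb G s ∩ Y = insert t (No G K s) := eq_of_subset_of_card_le hsubs (by omega)
  have het : nb G t ∩ Y = insert s (No G K t) := eq_of_subset_of_card_le hsubt (by omega)
  have hsubW : No G K s ∪ No G K t ⊆ Y \ {s, t} := by
    intro x hx
    simp only [mem_sdiff, mem_insert, mem_singleton, not_or]
    rcases mem_union.1 hx with h1 | h1
    · have : x ∈ nb G s ∩ Y := by rw [hes]; exact mem_insert_of_mem h1
      exact ⟨(mem_inter.1 this).2, fun e => No_notMem h1 (e ▸ hsK), fun e => No_notMem h1 (e ▸ htK)⟩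
    · have : x ∈ nb G t ∩ Y := by rw [het]; exact mem_insert_of_mem h1
      exact ⟨(mem_inter.1 this).2, fun e => No_notMem h1 (e ▸ hsK), fun e => No_notMem h1 (e ▸ htK)⟩
  have hUc : (No G K s ∪ No G K t).card = 4 := by
    rw [card_union_of_disjoint hfree, hcs, hct]
  have hWt : fz G (Y \ {s, t}) ≤ 0 := by omega
  have hWle : (Y \ {s, t}).card ≤ 5 := by
    rcases tight_cases hr hcut hn (by omega : 2 ≤ (Y \ {s, t}).card) hWt with h1 | ⟨h1, -⟩
    · exact h1
    · exfalso
      have : s ∈ Y \ {s, t} := by rw [h1]; exact mem_univ s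
      simp at this
  have hWi := fz_def G (Y \ {s, t})
  have hW4 : (Y \ {s, t}).card = 4 := by
    by_contra hne
    have h55 : (Y \ {s, t}).card = 5 := by omega
    have := h5 _ h55
    rw [h55] at hWi
    push_cast at hWi
    omega
  have hEq : No G K s ∪ No G K t = Y \ {s, t} := eq_of_subset_of_card_le hsubW (by omega)
  rw [hEq]
  apply IsK4.of_ie hW4
  rw [hW4] at hWi
  push_cast at hWi
  omega

/-- two blocked pairs do not share a vertex -/
lemma blocked_disjoint {G : SimpleGraph V} (hs : Sparse G) (hr : Reg5 G) (hcut : Cut7 G)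
    (hn : 12 ≤ Fintype.card V) (h5 : ∀ T : Finset V, T.card = 5 → Rig.ie G T ≤ 8)
    {K : Finset V} (hK : IsK4 G K) {s t u : V} (hsK : s ∈ K) (htK : t ∈ K) (huK : u ∈ K)
    (hst : s ≠ t) (hsu : s ≠ u) (htu : t ≠ u)
    (h1 : IsK4 G (No G K s ∪ No G K t)) (h2 : IsK4 G (No G K s ∪ No G K u)) : False := by
  set L1 := No G K s ∪ No G K t with hL1
  set L2 := No G K s ∪ No G K u with hL2
  have hcs := hK.card_No hr hsK
  have hct := hK.card_No hr htK
  have hcu := hK.card_No hr huK
  have hsub : No G K s ⊆ L1 ∩ L2 := by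
    intro x hx
    exact mem_inter.2 ⟨mem_union_left _ hx, mem_union_left _ hx⟩
  have hge := card_le_card hsub
  have hui := card_union_add_card_inter L1 L2
  rw [h1.card, h2.card] at hui
  have hle : (L1 ∩ L2).card ≤ 4 := (card_le_card inter_subset_left).trans h1.card.le
  have hKL : ∀ x, x ∈ L1 ∪ L2 → x ∉ K := by
    intro x hx
    rcases mem_union.1 hx with h | h
    · rcases mem_union.1 h with h | h
      · exact No_notMem h
      · exact No_notMem h
    · rcases mem_union.1 h with h | h
      · exact No_notMem h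
      · exact No_notMem h
  rcases (by omega : (L1 ∩ L2).card = 2 ∨ (L1 ∩ L2).card = 3 ∨ (L1 ∩ L2).card = 4) with hc | hc | hc
  · -- a vertex of `No s` has six neighbours
    obtain ⟨x, hx⟩ := card_pos.1 (by rw [hcs]; omega : 0 < (No G K s).card)
    have hx1 : x ∈ L1 := mem_union_left _ hx
    have hx2 : x ∈ L2 := mem_union_left _ hx
    have e1 := h1.nb_inter hx1
    have e2 := h2.nb_inter hx2
    have hsub : insert s ((L1 ∪ L2).erase x) ⊆ nb G x := by
      intro y hy
      rw [mem_insert] at hy
      rcases hy with rfl | hy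
      · exact mem_nb.2 (No_adj hx).symm
      · rw [mem_erase, mem_union] at hy
        rcases hy.2 with h | h
        · have : y ∈ nb G x ∩ L1 := by rw [e1]; exact mem_erase.2 ⟨hy.1, h⟩
          exact (mem_inter.1 this).1
        · have : y ∈ nb G x ∩ L2 := by rw [e2]; exact mem_erase.2 ⟨hy.1, h⟩
          exact (mem_inter.1 this).1
    have hsn : s ∉ (L1 ∪ L2).erase x := by
      intro h
      exact hKL s (mem_of_mem_erase h) hsK
    have := card_le_card hsub
    rw [card_insert_of_notMem hsn, card_erase_of_mem (mem_union_left _ hx1), hr x] at this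
    omega
  · -- five vertices with nine edges
    have h6 := ie_union_inter G L1 L2
    rw [h1.ie, h2.ie] at h6
    have h7 := two_ie_le G (L1 ∩ L2)
    rw [hc] at h7
    have h8 := h5 (L1 ∪ L2) (by omega)
    omega
  · -- `L1 = L2`
    have e1 : L1 ∩ L2 = L1 := eq_of_subset_of_card_le inter_subset_left (by rw [h1.card, hc])
    have e2 : L1 ∩ L2 = L2 := eq_of_subset_of_card_le inter_subset_right (by rw [h2.card, hc])
    have e3 : L1 = L2 := e1.symm.trans e2
    have hdis : Disjoint K L1 := by
      rw [disjoint_right]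
      intro x hx
      exact hKL x (mem_union_left _ hx)
    have hU := ie_union G hdis
    have hsubs : No G K s ⊆ nb G s ∩ L1 := fun x hx =>
      mem_inter.2 ⟨mem_nb.2 (No_adj hx), mem_union_left _ hx⟩
    have hsubt : No G K t ⊆ nb G t ∩ L1 := fun x hx =>
      mem_inter.2 ⟨mem_nb.2 (No_adj hx), mem_union_right _ hx⟩
    have hsubu : No G K u ⊆ nb G u ∩ L1 := fun x hx =>
      mem_inter.2 ⟨mem_nb.2 (No_adj hx), by rw [e3]; exact mem_union_right _ hx⟩
    have hstu : ({s, t, u} : Finset V) ⊆ K := by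
      intro x hx
      simp only [mem_insert, mem_singleton] at hx
      rcases hx with rfl | rfl | rfl
      · exact hsK
      · exact htK
      · exact huK
    have heb : 6 ≤ eb G K L1 := by
      refine le_trans ?_ (eb_mono G hstu (Subset.refl L1))
      rw [eb_insert_left _ (by simp [hst, hsu]), eb_insert_left _ (by simp [htu]),
        eb_singleton_left]
      have := card_le_card hsubs
      have := card_le_card hsubt
      have := card_le_card hsubu
      omega
    rw [hK.ie, h1.ie] at hU
    have hUc : (K ∪ L1).card = 8 := by rw [card_union_of_disjoint hdis, hK.card, h1.card]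
    have hf : fz G (K ∪ L1) ≤ 0 := by
      rw [fz_def, hUc]
      push_cast
      omega
    rcases tight_cases hr hcut hn (by omega : 2 ≤ (K ∪ L1).card) hf with h | ⟨h, h'⟩
    · omega
    · rw [h, card_univ] at hUc
      omega

/-- an outer vertex has at most two neighbours in `K` -/
lemma not_three {G : SimpleGraph V} (h5 : ∀ T : Finset V, T.card = 5 → Rig.ie G T ≤ 8)
    {K : Finset V} (hK : IsK4 G K) {s t u x : V} (hsK : s ∈ K) (htK : t ∈ K) (huK : u ∈ K)
    (hst : s ≠ t) (hsu : s ≠ u) (htu : t ≠ u) (h1 : x ∈ No G K s) (h2 : x ∈ No G K t)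
    (h3 : x ∈ No G K u) : False := by
  have hx := No_notMem h1
  have hsub : ({s, t, u} : Finset V) ⊆ nb G x ∩ K := by
    intro y hy
    simp only [mem_insert, mem_singleton] at hy
    rw [mem_inter, mem_nb]
    rcases hy with rfl | rfl | rfl
    · exact ⟨(No_adj h1).symm, hsK⟩
    · exact ⟨(No_adj h2).symm, htK⟩
    · exact ⟨(No_adj h3).symm, huK⟩
  have hc := card_le_card hsub
  have h3' : ({s, t, u} : Finset V).card = 3 := card_eq_three.2 ⟨s, t, u, hst, hsu, htu, rfl⟩
  have h6 := h5 (insert x K) (by rw [card_insert_of_notMem hx, hK.card])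
  rw [ie_insert _ hx, hK.ie] at h6
  omega

/-- every vertex of `K` has a free partner -/
lemma exists_free {G : SimpleGraph V} (hr : Reg5 G)
    (h5 : ∀ T : Finset V, T.card = 5 → Rig.ie G T ≤ 8)
    {K : Finset V} (hK : IsK4 G K) {s : V} (hsK : s ∈ K) :
    ∃ t ∈ K, s ≠ t ∧ Disjoint (No G K s) (No G K t) := by
  by_contra hcon
  push Not at hcon
  have hex : ∀ t, ∃ x, t ∈ K.erase s → x ∈ No G K s ∧ x ∈ No G K t := by
    intro t
    by_cases ht : t ∈ K.erase s
    · rw [mem_erase] at ht
      have := hcon t ht.2 ht.1.symm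
      rw [not_disjoint_iff] at this
      obtain ⟨x, h1, h2⟩ := this
      exact ⟨x, fun _ => ⟨h1, h2⟩⟩
    · exact ⟨s, fun h => absurd h ht⟩
  choose g hg using hex
  have hlt : (No G K s).card < (K.erase s).card := by
    rw [hK.card_No hr hsK, card_erase_of_mem hsK, hK.card]; omega
  obtain ⟨t, ht, u, hu, htu, heq⟩ := exists_ne_map_eq_of_card_lt_of_maps_to hlt
    (f := g) (fun t ht => (hg t ht).1)
  have h1 := hg t ht
  have h2 := hg u hu
  rw [mem_erase] at ht hu
  exact not_three h5 hK hsK ht.2 hu.2 (Ne.symm ht.1) (Ne.symm hu.1) htu h1.1 h1.2 (heq ▸ h2.2)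

end D2

/-- a `K4` but no five-set with nine edges -/
theorem good_of_K4c {G : SimpleGraph V} (hs : Sparse G) (hr : Reg5 G) (hcut : Cut7 G)
    (hn : 12 ≤ Fintype.card V) (h5 : ∀ T : Finset V, T.card = 5 → ie G T ≤ 8)
    (h4 : ¬ K4Free G) : HasGood G := by
  classical
  by_contra hbad
  have hbadA : ∀ x y, ¬ GoodA G x y := fun x y h => hbad (Or.inl ⟨x, y, h⟩)
  unfold K4Free at h4
  push Not at h4
  obtain ⟨a, b, c, d, hab, hac, had, hbc, hbd, hcd, -⟩ := h4
  set K : Finset V := {a, b, c, d} with hKdef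
  have nab := G.ne_of_adj hab
  have nac := G.ne_of_adj hac
  have nad := G.ne_of_adj had
  have nbc := G.ne_of_adj hbc
  have nbd := G.ne_of_adj hbd
  have ncd := G.ne_of_adj hcd
  have hK : D2.IsK4 G K := by
    refine ⟨?_, ?_⟩
    · rw [hKdef, card_insert_of_notMem (by simp [nab, nac, nad]),
        card_insert_of_notMem (by simp [nbc, nbd]), card_pair ncd]
    · intro u hu w hw huw
      simp only [hKdef, mem_insert, mem_singleton] at hu hw
      rcases hu with rfl | rfl | rfl | rfl <;> rcases hw with rfl | rfl | rfl | rfl <;>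
        first
        | exact absurd rfl huw
        | assumption
        | (apply SimpleGraph.Adj.symm; assumption)
  have haK : a ∈ K := by simp [hKdef]
  obtain ⟨e, heK, hae, hfree⟩ := D2.exists_free hr h5 hK haK
  have hL := D2.free_good hs hr hcut hn h5 hK haK heK hae hfree (hbadA a e)
  set L := D2.No G K a ∪ D2.No G K e with hLdef
  have hall : ∀ s ∈ K, D2.No G K s ⊆ L := by
    intro s hsK
    by_cases hsa : s = a
    · rw [hsa]; exact subset_union_left
    by_cases hse : s = e
    · rw [hse]; exact subset_union_right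
    have hna : ¬ Disjoint (D2.No G K a) (D2.No G K s) := by
      intro h
      exact D2.blocked_disjoint hs hr hcut hn h5 hK haK heK hsK hae (Ne.symm hsa) (Ne.symm hse)
        hL (D2.free_good hs hr hcut hn h5 hK haK hsK (Ne.symm hsa) h (hbadA a s))
    have hne : ¬ Disjoint (D2.No G K e) (D2.No G K s) := by
      intro h
      refine D2.blocked_disjoint hs hr hcut hn h5 hK heK haK hsK hae.symm (Ne.symm hse)
        (Ne.symm hsa) ?_
        (D2.free_good hs hr hcut hn h5 hK heK hsK (Ne.symm hse) h (hbadA e s))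
      rw [union_comm]; exact hL
    rw [not_disjoint_iff] at hna hne
    obtain ⟨x, hx1, hx2⟩ := hna
    obtain ⟨y, hy1, hy2⟩ := hne
    have hxy : x ≠ y := fun h => (disjoint_left.1 hfree) hx1 (h ▸ hy1)
    have hsub : ({x, y} : Finset V) ⊆ D2.No G K s := by
      intro z hz
      simp only [mem_insert, mem_singleton] at hz
      rcases hz with rfl | rfl
      · exact hx2
      · exact hy2
    have heq : ({x, y} : Finset V) = D2.No G K s :=
      eq_of_subset_of_card_le hsub (by rw [hK.card_No hr hsK, card_pair hxy])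
    rw [← heq]
    intro z hz
    simp only [mem_insert, mem_singleton] at hz
    rcases hz with rfl | rfl
    · exact mem_union_left _ hx1
    · exact mem_union_right _ hy1
  have hdis : Disjoint K L := by
    rw [disjoint_right]
    intro x hx
    rcases mem_union.1 hx with h | h
    · exact D2.No_notMem h
    · exact D2.No_notMem h
  have heb : 8 ≤ eb G K L := by
    have : ∑ s ∈ K, 2 ≤ eb G K L := by
      apply Finset.sum_le_sum
      intro s hsK
      rw [← hK.card_No hr hsK]
      apply card_le_card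
      intro x hx
      exact mem_inter.2 ⟨mem_nb.2 (D2.No_adj hx), hall s hsK hx⟩
    rw [Finset.sum_const, hK.card, smul_eq_mul] at this
    exact this
  have hU := ie_union G hdis
  rw [hK.ie, hL.ie] at hU
  have hUc : (K ∪ L).card = 8 := by rw [card_union_of_disjoint hdis, hK.card, hL.card]
  have hf := hs (K ∪ L) (by omega)
  rw [fz_def, hUc] at hf
  push_cast at hf
  omega

end Pool.Agent.H38.Rig
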