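import Pool.Agent.H38.Rig.Good

set_option autoImplicit false
set_option linter.unusedSectionVars false
set_option linter.unusedVariables false

namespace Pool.Agent.H38.Rig

open Finset

variable {V : Type} [Fintype V] [DecidableEq V]

/-! ### Elementary facts on `del` and `addE` (helper27) -/

lemma nb_mono_of_le {G H : SimpleGraph V} (h : ∀ a b, G.Adj a b → H.Adj a b) (u : V) :
    nb G u ⊆ nb H u := by
  intro z hz
  rw [mem_nb] at hz ⊢
  exact h _ _ hz

lemma ie_le_of_le {G H : SimpleGraph V} (h : ∀ a b, G.Adj a b → H.Adj a b) (X : Finset V) :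
    ie G X ≤ ie H X := by
  have h1 := two_ie' G X
  have h2 := two_ie' H X
  have h3 : ∑ v ∈ X, (nb G v ∩ X).card ≤ ∑ v ∈ X, (nb H v ∩ X).card :=
    Finset.sum_le_sum (fun v _ => Finset.card_le_card
      (Finset.inter_subset_inter_right (nb_mono_of_le h v)))
  omega

lemma fz_le_of_le {G H : SimpleGraph V} (h : ∀ a b, G.Adj a b → H.Adj a b) (X : Finset V) :
    fz H X ≤ fz G X := by
  have := ie_le_of_le h X
  rw [fz_def, fz_def]
  have : (ie G X : ℤ) ≤ (ie H X : ℤ) := by exact_mod_cast this
  linarith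

lemma sparse_of_le {G H : SimpleGraph V} (h : ∀ a b, G.Adj a b → H.Adj a b) (hs : Sparse H) :
    Sparse G := fun X hX => (hs X hX).trans (fz_le_of_le h X)

lemma del_le (H : SimpleGraph V) (v : V) : ∀ a b, (del H v).Adj a b → H.Adj a b :=
  fun a b h => h.1

lemma nb_del_self (H : SimpleGraph V) (v : V) : nb (del H v) v = ∅ := by
  ext u
  simp [del]

lemma nb_del_of_ne (H : SimpleGraph V) {v u : V} (h : u ≠ v) :
    nb (del H v) u = (nb H u).erase v := by
  ext z
  simp only [mem_nb, del, mem_erase]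
  tauto

lemma card_nb_del_le (H : SimpleGraph V) (v u : V) : (nb (del H v) u).card ≤ (nb H u).card :=
  Finset.card_le_card (nb_mono_of_le (del_le H v) u)

lemma card_nb_del_adj (H : SimpleGraph V) {v u : V} (h : H.Adj v u) :
    (nb (del H v) u).card + 1 = (nb H u).card := by
  rw [nb_del_of_ne H (H.ne_of_adj h).symm]
  exact Finset.card_erase_add_one (by rw [mem_nb]; exact h.symm)

/-- edges of the deleted graph inside a set avoiding `v` -/
lemma ie_del_of_notMem (H : SimpleGraph V) {v : V} {X : Finset V} (hv : v ∉ X) :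
    ie (del H v) X = ie H X := by
  have h1 := two_ie' (del H v) X
  have h2 := two_ie' H X
  have h3 : ∑ u ∈ X, (nb (del H v) u ∩ X).card = ∑ u ∈ X, (nb H u ∩ X).card := by
    apply Finset.sum_congr rfl
    intro u hu
    have huv : u ≠ v := fun e => hv (e ▸ hu)
    rw [nb_del_of_ne H huv]
    congr 1
    ext z
    simp only [mem_inter, mem_erase]
    constructor
    · rintro ⟨⟨-, h⟩, h'⟩; exact ⟨h, h'⟩
    · rintro ⟨h, h'⟩; exact ⟨⟨fun e => hv (e ▸ h'), h⟩, h'⟩
  omega

lemma fz_del_of_notMem (H : SimpleGraph V) {v : V} {X : Finset V} (hv : v ∉ X) :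
    fz (del H v) X = fz H X := by
  rw [fz_def, fz_def, ie_del_of_notMem H hv]

lemma le_addE (H : SimpleGraph V) (a b : V) : ∀ u z, H.Adj u z → (addE H a b).Adj u z :=
  fun u z h => Or.inl h

lemma addE_symm (H : SimpleGraph V) (a b : V) : addE H a b = addE H b a := by
  ext u z
  simp only [addE]
  constructor
  · rintro (h | ⟨h1, h | h⟩)
    · exact Or.inl h
    · exact Or.inr ⟨h1.symm, Or.inr ⟨h.1, h.2⟩⟩
    · exact Or.inr ⟨h1.symm, Or.inl ⟨h.1, h.2⟩⟩
  · rintro (h | ⟨h1, h | h⟩)
    · exact Or.inl h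
    · exact Or.inr ⟨h1.symm, Or.inr ⟨h.1, h.2⟩⟩
    · exact Or.inr ⟨h1.symm, Or.inl ⟨h.1, h.2⟩⟩

lemma nb_addE_left (H : SimpleGraph V) {a b : V} (hab : a ≠ b) :
    nb (addE H a b) a = insert b (nb H a) := by
  ext z
  simp only [mem_nb, addE, mem_insert]
  constructor
  · rintro (h | ⟨h1, h | h⟩)
    · exact Or.inr h
    · exact Or.inl h.2
    · exact absurd h.1 hab
  · rintro (rfl | h)
    · exact Or.inr ⟨hab, Or.inl ⟨trivial, rfl⟩⟩
    · exact Or.inl h

lemma nb_addE_right (H : SimpleGraph V) {a b : V} (hab : a ≠ b) :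
    nb (addE H a b) b = insert a (nb H b) := by
  rw [addE_symm, nb_addE_left H hab.symm]

lemma nb_addE_of_ne (H : SimpleGraph V) {a b u : V} (hua : u ≠ a) (hub : u ≠ b) :
    nb (addE H a b) u = nb H u := by
  ext z
  simp only [mem_nb, addE]
  constructor
  · rintro (h | ⟨h1, h | h⟩)
    · exact h
    · exact absurd h.1 hua
    · exact absurd h.1 hub
  · intro h; exact Or.inl h

lemma ie_addE_of_notMem_left (H : SimpleGraph V) {a b : V} {X : Finset V} (ha : a ∉ X) :
    ie (addE H a b) X = ie H X := by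
  have h1 := two_ie' (addE H a b) X
  have h2 := two_ie' H X
  have h3 : ∑ u ∈ X, (nb (addE H a b) u ∩ X).card = ∑ u ∈ X, (nb H u ∩ X).card := by
    apply Finset.sum_congr rfl
    intro u hu
    congr 1
    ext z
    simp only [mem_inter, mem_nb, addE]
    constructor
    · rintro ⟨h | ⟨h1, h | h⟩, h'⟩
      · exact ⟨h, h'⟩
      · exact absurd (h.1 ▸ hu) ha
      · exact absurd (h.2 ▸ h') ha
    · rintro ⟨h, h'⟩; exact ⟨Or.inl h, h'⟩
  omega

lemma ie_addE_of_notMem_right (H : SimpleGraph V) {a b : V} {X : Finset V} (hb : b ∉ X) :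
    ie (addE H a b) X = ie H X := by
  rw [addE_symm, ie_addE_of_notMem_left H hb]

lemma ie_addE_of_mem (H : SimpleGraph V) {a b : V} (hab : a ≠ b) (hnab : ¬ H.Adj a b)
    {X : Finset V} (ha : a ∈ X) (hb : b ∈ X) :
    ie (addE H a b) X = ie H X + 1 := by
  set Z := X.erase a with hZ
  have haZ : a ∉ Z := Finset.notMem_erase a X
  have hbZ : b ∈ Z := Finset.mem_erase.2 ⟨hab.symm, hb⟩
  have hX : X = insert a Z := (Finset.insert_erase ha).symm
  rw [hX, ie_insert _ haZ, ie_insert _ haZ, ie_addE_of_notMem_left H haZ, nb_addE_left H hab,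
    Finset.insert_inter_of_mem hbZ, Finset.card_insert_of_notMem]
  · ring
  · simp [hnab]

lemma fz_addE_of_mem (H : SimpleGraph V) {a b : V} (hab : a ≠ b) (hnab : ¬ H.Adj a b)
    {X : Finset V} (ha : a ∈ X) (hb : b ∈ X) :
    fz (addE H a b) X = fz H X - 1 := by
  rw [fz_def, fz_def, ie_addE_of_mem H hab hnab ha hb]
  push_cast
  ring

lemma fz_addE_of_notMem_left (H : SimpleGraph V) {a b : V} {X : Finset V} (ha : a ∉ X) :
    fz (addE H a b) X = fz H X := by
  rw [fz_def, fz_def, ie_addE_of_notMem_left H ha]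

lemma fz_addE_of_notMem_right (H : SimpleGraph V) {a b : V} {X : Finset V} (hb : b ∉ X) :
    fz (addE H a b) X = fz H X := by
  rw [fz_def, fz_def, ie_addE_of_notMem_right H hb]

lemma fz_addE_ge (H : SimpleGraph V) (a b : V) (hab : a ≠ b) (hnab : ¬ H.Adj a b)
    (X : Finset V) : fz H X - 1 ≤ fz (addE H a b) X := by
  by_cases ha : a ∈ X
  · by_cases hb : b ∈ X
    · rw [fz_addE_of_mem H hab hnab ha hb]
    · rw [fz_addE_of_notMem_right H hb]; linarith
  · rw [fz_addE_of_notMem_left H ha]; linarith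

/-- A set with at most four elements containing a nonadjacent pair has `f ≥ 1`. -/
lemma one_le_fz_of_small (H : SimpleGraph V) {a b : V} (hab : a ≠ b) (hnab : ¬ H.Adj a b)
    {X : Finset V} (ha : a ∈ X) (hb : b ∈ X) (h3 : 3 ≤ X.card) (h4 : X.card ≤ 4) :
    1 ≤ fz H X := by
  have h := fz_nonneg_of_card_le_four (addE H a b) h3 h4
  rw [fz_addE_of_mem H hab hnab ha hb] at h
  linarith

/-! ### The reduction lemma -/

/-- big tight set avoiding `v` -/
def BT (H : SimpleGraph V) (v : V) (X : Finset V) : Prop := v ∉ X ∧ 5 ≤ X.card ∧ fz H X ≤ 0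

/-- If adding `ab` to `H - v` destroys sparsity there is a big tight set containing `a`, `b`. -/
lemma exists_BT_of_not_sparse {H : SimpleGraph V} (hs : Sparse H) {v a b : V}
    (hab : a ≠ b) (hnab : ¬ H.Adj a b) (hva : v ≠ a) (hvb : v ≠ b)
    (h : ¬ Sparse (addE (del H v) a b)) : ∃ X, BT H v X ∧ a ∈ X ∧ b ∈ X := by
  have hnab' : ¬ (del H v).Adj a b := fun h => hnab h.1
  have key : ∀ X : Finset V, v ∉ X → 3 ≤ X.card → fz (addE (del H v) a b) X < 0 →
      BT H v X ∧ a ∈ X ∧ b ∈ X := by
    intro X hv h3 hX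
    have h0 := hs X h3
    have hdel := fz_del_of_notMem H hv
    by_cases ha : a ∈ X
    · by_cases hb : b ∈ X
      · rw [fz_addE_of_mem _ hab hnab' ha hb, hdel] at hX
        refine ⟨⟨hv, ?_, by omega⟩, ha, hb⟩
        by_contra hc
        have := one_le_fz_of_small H hab hnab ha hb h3 (by omega)
        omega
      · rw [fz_addE_of_notMem_right _ hb, hdel] at hX
        omega
    · rw [fz_addE_of_notMem_left _ ha, hdel] at hX
      omega
  unfold Sparse at h
  push Not at h
  obtain ⟨X, h3, hX⟩ := h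
  by_cases hv : v ∈ X
  · have h1 := fz_erase (addE (del H v) a b) hv
    have h2 : nb (addE (del H v) a b) v = ∅ := by
      rw [nb_addE_of_ne _ hva hvb, nb_del_self]
    rw [h2] at h1
    simp only [Finset.empty_inter, Finset.card_empty, Nat.cast_zero, add_zero] at h1
    have h4 : (X.erase v).card = X.card - 1 := Finset.card_erase_of_mem hv
    have hvX : v ∉ X.erase v := Finset.notMem_erase v X
    by_cases h5 : 3 ≤ (X.erase v).card
    · exact ⟨_, key _ hvX h5 (by omega)⟩
    · exfalso
      have h6 : (X.erase v).card = 2 := by omega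
      obtain ⟨c, d, hcd, he⟩ := Finset.card_eq_two.1 h6
      have h7 := fz_pair (addE (del H v) a b) hcd
      rw [← he] at h7
      have h8 : (-1 : ℤ) ≤ fz (addE (del H v) a b) (X.erase v) := by
        rw [h7]; split_ifs <;> norm_num
      omega
  · exact ⟨X, key X hv h3 hX⟩

lemma BT.card_nb_le {H : SimpleGraph V} (hs : Sparse H) {v : V} {X : Finset V} (h : BT H v X) :
    (nb H v ∩ X).card ≤ 3 := by
  have h1 := fz_insert H h.1
  have h2 := hs (insert v X) (by rw [Finset.card_insert_of_notMem h.1]; have := h.2.1; omega)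
  have h3 := h.2.2
  omega

lemma BT.three_le {H : SimpleGraph V} (hs : Sparse H) {v : V} {X : Finset V} (h : BT H v X)
    {u : V} (hu : u ∈ X) : 3 ≤ (nb H u ∩ X).card :=
  three_le_of_tight hs h.2.2 (by have := h.2.1; omega) hu

lemma BT.union {H : SimpleGraph V} (hs : Sparse H) {v u : V} (hvu : H.Adj v u)
    (hdeg : (nb H u).card ≤ 5) {X Y : Finset V} (hX : BT H v X) (hY : BT H v Y) (huX : u ∈ X)
    (huY : u ∈ Y) : BT H v (X ∪ Y) := by
  have h1 := hX.three_le hs huX
  have h2 := hY.three_le hs huY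
  have h3 := Finset.card_union_add_card_inter (nb H u ∩ X) (nb H u ∩ Y)
  have h4 : (nb H u ∩ X) ∪ (nb H u ∩ Y) ⊆ (nb H u).erase v := by
    intro z hz
    simp only [mem_union, mem_inter] at hz
    rw [mem_erase]
    rcases hz with ⟨h, h'⟩ | ⟨h, h'⟩
    · exact ⟨fun e => hX.1 (e ▸ h'), h⟩
    · exact ⟨fun e => hY.1 (e ▸ h'), h⟩
  have h5 := Finset.card_le_card h4
  have hvN : v ∈ nb H u := by rw [mem_nb]; exact hvu.symm
  rw [Finset.card_erase_of_mem hvN] at h5
  have h6 : insert u ((nb H u ∩ X) ∩ (nb H u ∩ Y)) ⊆ X ∩ Y := by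
    intro z hz
    simp only [mem_insert, mem_inter] at hz
    rw [mem_inter]
    rcases hz with rfl | hz
    · exact ⟨huX, huY⟩
    · exact ⟨hz.1.2, hz.2.2⟩
  have h7 := Finset.card_le_card h6
  rw [Finset.card_insert_of_notMem (by simp)] at h7
  have h8 := hs (X ∩ Y) (by omega)
  have h9 := fz_submodular H X Y
  have h10 := hX.2.2
  have h11 := hY.2.2
  refine ⟨?_, ?_, by omega⟩
  · rw [mem_union]; exact fun h => h.elim hX.1 hY.1
  · exact hX.2.1.trans (Finset.card_le_card Finset.subset_union_left)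

/-- the largest big tight set through a neighbour of `v` -/
lemma exists_max_BT {H : SimpleGraph V} (hs : Sparse H) {v u : V} (hvu : H.Adj v u)
    (hdeg : (nb H u).card ≤ 5) (h : ∃ X, BT H v X ∧ u ∈ X) :
    ∃ M, BT H v M ∧ u ∈ M ∧ ∀ Y, BT H v Y → u ∈ Y → Y ⊆ M := by
  classical
  set S : Finset (Finset V) := univ.filter (fun X => BT H v X ∧ u ∈ X) with hS
  have hne : S.Nonempty := by
    obtain ⟨X, hX⟩ := h
    exact ⟨X, by simp [hS, hX]⟩
  obtain ⟨M, hM, hmax⟩ := Finset.exists_max_image S Finset.card hne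
  have hM' : BT H v M ∧ u ∈ M := by simpa [hS] using hM
  refine ⟨M, hM'.1, hM'.2, fun Y hY huY => ?_⟩
  have h1 : M ∪ Y ∈ S := by
    simp only [hS, mem_filter, mem_univ, true_and, mem_union]
    exact ⟨BT.union hs hvu hdeg hM'.1 hY hM'.2 huY, Or.inl hM'.2⟩
  have h2 := hmax _ h1
  have h3 : M = M ∪ Y := Finset.eq_of_subset_of_card_le Finset.subset_union_left h2
  rw [h3]
  exact Finset.subset_union_right

/-- structure around a neighbour `u` of `v` having a big tight set -/
lemma exists_miss {H : SimpleGraph V} (hs : Sparse H) {v u : V} (hv : (nb H v).card = 4)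
    (hP : ∀ a b, a ≠ b → H.Adj v a → H.Adj v b → ¬ H.Adj a b → ∃ X, BT H v X ∧ a ∈ X ∧ b ∈ X)
    (hvu : H.Adj v u) (hdeg : (nb H u).card ≤ 5) {M : Finset V} (hM : BT H v M) (huM : u ∈ M)
    (hmax : ∀ Y, BT H v Y → u ∈ Y → Y ⊆ M) :
    ∃ t, H.Adj v t ∧ t ∉ M ∧ H.Adj u t ∧ ∀ z, H.Adj v z → z ≠ t → z ∈ M := by
  have h1 : ∀ t, H.Adj v t → t ∉ M → H.Adj u t := by
    intro t ht htM
    by_contra hc
    have hut : u ≠ t := fun e => htM (e ▸ huM)
    obtain ⟨X, hX, huX, htX⟩ := hP u t hut hvu ht hc
    exact htM (hmax X hX huX htX)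
  have h2 := hM.three_le hs huM
  have h3 := hM.card_nb_le hs
  have h4 : (nb H v ∩ M).card + (nb H v \ M).card = 4 := by
    rw [← hv]; exact Finset.card_inter_add_card_sdiff _ _
  have hvN : v ∈ (nb H u).erase v → False := fun h => (Finset.notMem_erase v _) h
  have h5 : (nb H u ∩ M) ∪ (nb H v \ M) ⊆ (nb H u).erase v := by
    intro z hz
    simp only [mem_union, mem_inter, mem_sdiff, mem_nb] at hz
    rw [mem_erase, mem_nb]
    rcases hz with ⟨h, h'⟩ | ⟨h, h'⟩
    · exact ⟨fun e => hM.1 (e ▸ h'), h⟩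
    · exact ⟨(H.ne_of_adj h).symm, h1 z h h'⟩
  have h6 : Disjoint (nb H u ∩ M) (nb H v \ M) := by
    rw [Finset.disjoint_left]
    intro z hz hz'
    exact (Finset.mem_sdiff.1 hz').2 (Finset.mem_inter.1 hz).2
  have h7 := Finset.card_le_card h5
  rw [Finset.card_union_of_disjoint h6, Finset.card_erase_of_mem
    (by rw [mem_nb]; exact hvu.symm)] at h7
  have h8 : (nb H v \ M).card = 1 := by omega
  obtain ⟨t, ht⟩ := Finset.card_eq_one.1 h8
  have htm : t ∈ nb H v \ M := by rw [ht]; exact Finset.mem_singleton_self t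
  rw [Finset.mem_sdiff, mem_nb] at htm
  refine ⟨t, htm.1, htm.2, h1 t htm.1 htm.2, fun z hz hzt => ?_⟩
  by_contra hc
  have : z ∈ nb H v \ M := by rw [Finset.mem_sdiff, mem_nb]; exact ⟨hz, hc⟩
  rw [ht, Finset.mem_singleton] at this
  exact hzt this

/-- combinatorial core: in a sparse graph, around a vertex of degree 4 all of whose neighbours
except possibly `w` have degree at most 5, a 1-reduction is possible. -/
theorem exists_reduction (H : SimpleGraph V) (w v : V) (hs : Sparse H) (hv : (nb H v).card = 4)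
    (hdeg : ∀ u, u ≠ w → (nb H u).card ≤ 5) :
    ∃ a b, a ≠ b ∧ H.Adj v a ∧ H.Adj v b ∧ ¬ H.Adj a b ∧ Sparse (addE (del H v) a b) := by
  classical
  by_contra hcon
  push Not at hcon
  have hP : ∀ a b, a ≠ b → H.Adj v a → H.Adj v b → ¬ H.Adj a b →
      ∃ X, BT H v X ∧ a ∈ X ∧ b ∈ X := fun a b hab ha hb hnab =>
    exists_BT_of_not_sparse hs hab hnab (H.ne_of_adj ha) (H.ne_of_adj hb)
      (hcon a b hab ha hb hnab)
  -- a big tight set cannot contain all neighbours of `v`
  have hall : ∀ X, BT H v X → ¬ (∀ z, H.Adj v z → z ∈ X) := by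
    intro X hX h
    have h1 := hX.card_nb_le hs
    have h2 : nb H v ∩ X = nb H v := by
      rw [Finset.inter_eq_left]
      intro z hz
      exact h z (by simpa using hz)
    rw [h2, hv] at h1
    omega
  by_cases hc : ∃ u, u ≠ w ∧ H.Adj v u ∧ ∃ X, BT H v X ∧ u ∈ X
  · obtain ⟨u, huw, hvu, hX⟩ := hc
    obtain ⟨M, hM, huM, hmax⟩ := exists_max_BT hs hvu (hdeg u huw) hX
    obtain ⟨t, hvt, htM, hut, hrest⟩ := exists_miss hs hv hP hvu (hdeg u huw) hM huM hmax
    have claim : ∀ z, H.Adj v z → z ∈ M → H.Adj z t := by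
      intro z hvz hzM
      by_contra hzt
      have hzt' : z ≠ t := fun e => htM (e ▸ hzM)
      obtain ⟨Y, hY, hzY, htY⟩ := hP z t hzt' hvz hvt hzt
      by_cases hzw : z = w
      · subst hzw
        have htw : t ≠ z := hzt'.symm
        obtain ⟨N, hN, htN, hmaxN⟩ := exists_max_BT hs hvt (hdeg t htw) ⟨Y, hY, htY⟩
        have hwN : z ∈ N := hmaxN Y hY htY hzY
        obtain ⟨t', hvt', ht'N, htt', hrest'⟩ :=
          exists_miss hs hv hP hvt (hdeg t htw) hN htN hmaxN
        by_cases hu : u ∈ N
        · exact htM (hmax N hN hu htN)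
        · -- `t' = u`
          have ht'u : t' = u := by
            by_contra hne
            exact hu (hrest' u hvu (fun e => hne e.symm))
          subst ht'u
          -- a neighbour of `v` different from `t', z, t`
          have h4 : ∃ z', H.Adj v z' ∧ z' ≠ t' ∧ z' ≠ z ∧ z' ≠ t := by
            by_contra hne
            push Not at hne
            have : nb H v ⊆ {t', z, t} := by
              intro x hx
              rw [mem_nb] at hx
              simp only [mem_insert, mem_singleton]
              by_cases h1 : x = t'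
              · exact Or.inl h1
              · by_cases h2 : x = z
                · exact Or.inr (Or.inl h2)
                · exact Or.inr (Or.inr (hne x hx h1 h2))
            have h5 := Finset.card_le_card this
            have h6 : ({t', z, t} : Finset V).card ≤ 3 := Finset.card_le_three
            omega
          obtain ⟨z', hvz', h1, h2, h3⟩ := h4
          have hz'M : z' ∈ M := hrest z' hvz' h3
          have hz'N : z' ∈ N := hrest' z' hvz' h1
          refine hall _ (BT.union hs hvz' (hdeg z' h2) hM hN hz'M hz'N) (fun x hx => ?_)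
          rw [Finset.mem_union]
          by_cases hxt : x = t
          · right; rw [hxt]; exact htN
          · left; exact hrest x hx hxt
      · refine hall _ (BT.union hs hvz (hdeg z hzw) hM hY hzM hzY) (fun x hx => ?_)
        rw [Finset.mem_union]
        by_cases hxt : x = t
        · right; rw [hxt]; exact htY
        · left; exact hrest x hx hxt
    have h1 : nb H v ∩ M ⊆ nb H t ∩ M := by
      intro z hz
      rw [mem_inter, mem_nb] at hz ⊢
      exact ⟨(claim z hz.1 hz.2).symm, hz.2⟩
    have h2 := Finset.card_le_card h1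
    have h3 : nb H v ∩ M = (nb H v).erase t := by
      ext z
      rw [mem_inter, mem_erase, mem_nb]
      constructor
      · rintro ⟨h, h'⟩; exact ⟨fun e => htM (e ▸ h'), h⟩
      · rintro ⟨h, h'⟩; exact ⟨h', hrest z h' h⟩
    rw [h3, Finset.card_erase_of_mem (by rw [mem_nb]; exact hvt), hv] at h2
    have h5 := fz_insert H htM
    have hvM' : v ∉ insert t M := by
      rw [mem_insert]
      exact fun h => h.elim (H.ne_of_adj hvt) hM.1
    have h6 := fz_insert H hvM'
    have h7 : nb H v ∩ insert t M = nb H v := by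
      rw [Finset.inter_eq_left]
      intro z hz
      rw [mem_nb] at hz
      rw [mem_insert]
      by_cases hzt : z = t
      · exact Or.inl hzt
      · exact Or.inr (hrest z hz hzt)
    rw [h7, hv] at h6
    have h8 := hs (insert v (insert t M)) (by
      rw [Finset.card_insert_of_notMem hvM', Finset.card_insert_of_notMem htM]
      have := hM.2.1
      omega)
    have h9 := hM.2.2
    push_cast at h6
    omega
  · push Not at hc
    -- all pairs of neighbours are adjacent
    have hK : ∀ a b, H.Adj v a → H.Adj v b → a ≠ b → H.Adj a b := by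
      intro a b ha hb hab
      by_contra hnab
      obtain ⟨X, hX, haX, hbX⟩ := hP a b hab ha hb hnab
      by_cases haw : a = w
      · have hbw : b ≠ w := fun e => hab (haw.trans e.symm)
        exact hc b hbw hb X hX hbX
      · exact hc a haw ha X hX haX
    have hvN : v ∉ nb H v := not_mem_nb_self H v
    have h1 : ie H (nb H v) = 6 := by
      have h2 := two_ie' H (nb H v)
      have h3 : ∑ a ∈ nb H v, (nb H a ∩ nb H v).card = ∑ a ∈ nb H v, 3 := by
        apply Finset.sum_congr rfl
        intro a ha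
        have : nb H a ∩ nb H v = (nb H v).erase a := by
          ext b
          rw [mem_inter, mem_erase, mem_nb, mem_nb]
          rw [mem_nb] at ha
          constructor
          · rintro ⟨h, h'⟩; exact ⟨(H.ne_of_adj h).symm, h'⟩
          · rintro ⟨h, h'⟩; exact ⟨hK a b ha h' h.symm, h'⟩
        rw [this, Finset.card_erase_of_mem ha, hv]
      rw [h3, Finset.sum_const, hv] at h2
      simp only [smul_eq_mul] at h2
      omega
    have h2 := ie_insert H hvN
    rw [Finset.inter_self, hv, h1] at h2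
    have h3 := hs (insert v (nb H v)) (by rw [Finset.card_insert_of_notMem hvN, hv]; norm_num)
    rw [fz_def, h2, Finset.card_insert_of_notMem hvN, hv] at h3
    norm_num at h3

end Pool.Agent.H38.Rig
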