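import Pool.Agent.H38.Rig.Three

set_option autoImplicit false

namespace Pool.Agent.H38.Rig

variable {V : Type} [Fintype V] [DecidableEq V]

/-- no wheel with four spokes: four neighbours of `h` span at most three edges -/
theorem no_wheel {G : SimpleGraph V} (hr : Reg5 G) (h4 : K4Free G) (h2 : NoAdjTwo G) (h : V)
    (R : Finset V) (hR : R ⊆ nb G h) (hRc : R.card = 4) : ie G R ≤ 3 :=
  G1.no_wheel' hr h4 h2 h R hR hRc

end Pool.Agent.H38.Rig
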