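import Pool.Agent.H38.Rig.Good

set_option autoImplicit false
set_option linter.unusedSectionVars false
set_option linter.unusedVariables false

namespace Pool.Agent.H38.Rig

open Finset

/-! ### Translation to the frozen statement (helper27) -/

lemma reg5_of_regular {n : ℕ} (G : SimpleGraph (Fin n)) [DecidableRel G.Adj]
    (h : G.IsRegularOfDegree 5) : Reg5 G := by
  intro v
  have : nb G v = G.neighborFinset v := by
    ext u; simp
  rw [this, SimpleGraph.card_neighborFinset_eq_degree]
  exact h v

lemma card_edges_eq {n : ℕ} (G : SimpleGraph (Fin n)) [DecidableRel G.Adj]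
    (S : Finset (Fin n)) : (Finset.univ.filter (fun e : Fin n × Fin n =>
          e.1 ∈ S ∧ e.2 ∈ S ∧ e.1 < e.2 ∧ G.Adj e.1 e.2)).card = ie G S := by
  classical
  have h1 := two_ie G S
  have h2 : eb G S S = ((S ×ˢ S).filter (fun e : Fin n × Fin n => G.Adj e.1 e.2)).card := by
    rw [eb_eq_sum, Finset.card_filter, Finset.sum_product]
    refine Finset.sum_congr rfl (fun a _ => Finset.sum_congr rfl (fun b _ => ?_))
    by_cases hab : G.Adj a b <;> simp [hab]
  set A := Finset.univ.filter (fun e : Fin n × Fin n =>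
          e.1 ∈ S ∧ e.2 ∈ S ∧ e.1 < e.2 ∧ G.Adj e.1 e.2) with hA
  set B := Finset.univ.filter (fun e : Fin n × Fin n =>
          e.1 ∈ S ∧ e.2 ∈ S ∧ e.2 < e.1 ∧ G.Adj e.1 e.2) with hB
  have h3 : (S ×ˢ S).filter (fun e : Fin n × Fin n => G.Adj e.1 e.2) = A ∪ B := by
    ext ⟨a, b⟩
    simp only [hA, hB, mem_filter, mem_product, mem_union, mem_univ, true_and]
    constructor
    · rintro ⟨⟨ha, hb⟩, hab⟩
      rcases lt_or_gt_of_ne (G.ne_of_adj hab) with h | h
      · exact Or.inl ⟨ha, hb, h, hab⟩
      · exact Or.inr ⟨ha, hb, h, hab⟩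
    · rintro (⟨ha, hb, -, hab⟩ | ⟨ha, hb, -, hab⟩)
      · exact ⟨⟨ha, hb⟩, hab⟩
      · exact ⟨⟨ha, hb⟩, hab⟩
  have h4 : Disjoint A B := by
    rw [Finset.disjoint_left]
    rintro ⟨a, b⟩ ha hb
    simp only [hA, hB, mem_filter, mem_univ, true_and] at ha hb
    exact absurd ha.2.2.1 (not_lt.2 hb.2.2.1.le)
  have h5 : B.card = A.card := by
    refine Finset.card_bij (fun e _ => (e.2, e.1)) ?_ ?_ ?_
    · rintro ⟨a, b⟩ h
      simp only [hA, hB, mem_filter, mem_univ, true_and] at h ⊢
      exact ⟨h.2.1, h.1, h.2.2.1, h.2.2.2.symm⟩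
    · rintro ⟨a, b⟩ h ⟨c, d⟩ h' heq
      simp only [Prod.mk.injEq] at heq ⊢
      exact ⟨heq.2, heq.1⟩
    · rintro ⟨a, b⟩ h
      simp only [hA, mem_filter, mem_univ, true_and] at h
      refine ⟨(b, a), ?_, rfl⟩
      simp only [hB, mem_filter, mem_univ, true_and]
      exact ⟨h.2.1, h.1, h.2.2.1, h.2.2.2.symm⟩
  rw [h2, h3, Finset.card_union_of_disjoint h4, h5] at h1
  omega

lemma sparse_of_counts {n : ℕ} (G : SimpleGraph (Fin n)) [DecidableRel G.Adj]
    (h : ∀ S : Finset (Fin n), 3 ≤ S.card →
        (Finset.univ.filter (fun e : Fin n × Fin n =>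
          e.1 ∈ S ∧ e.2 ∈ S ∧ e.1 < e.2 ∧ G.Adj e.1 e.2)).card ≤ 3 * S.card - 6) :
    Sparse G := by
  intro X hX
  have h1 := h X hX
  rw [card_edges_eq] at h1
  rw [fz_def]
  omega

lemma linearIndependent_of_stressFree {n : ℕ} (G : SimpleGraph (Fin n)) [DecidableRel G.Adj]
    (p : Fin n → P3) (h : StressFree G p) :
    LinearIndependent ℝ
          (fun e : {e : Fin n × Fin n // e.1 < e.2 ∧ G.Adj e.1 e.2} =>
            (fun (w : Fin n) (i : Fin 3) =>
              if w = e.val.1 then p e.val.1 i - p e.val.2 i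
              else if w = e.val.2 then p e.val.2 i - p e.val.1 i
              else 0)) := by
  classical
  rw [Fintype.linearIndependent_iff]
  intro g hg
  set g' : Fin n → Fin n → ℝ := fun a b => if h : a < b ∧ G.Adj a b then g ⟨(a, b), h⟩ else 0
    with hg'
  have hzero : ∀ a b, ¬ (a < b ∧ G.Adj a b) → g' a b = 0 := by
    intro a b hab
    simp only [hg', dif_neg hab]
  have hself : ∀ a, g' a a = 0 := fun a => hzero a a (fun h => lt_irrefl _ h.1)
  have key := h (fun u v => g' u v + g' v u) (fun u v => by simp only [add_comm])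
    (fun u v huv => by
      rw [hzero u v (fun h => huv h.2), hzero v u (fun h => huv h.2.symm), add_zero])
    (by
      intro w
      ext i
      have h1 := congrFun (congrFun hg w) i
      rw [Finset.sum_apply, Finset.sum_apply] at h1
      simp only [Pi.smul_apply, smul_eq_mul, Pi.zero_apply] at h1
      have h2 : ∑ e : {e : Fin n × Fin n // e.1 < e.2 ∧ G.Adj e.1 e.2}, g e *
            (if w = e.val.1 then p e.val.1 i - p e.val.2 i
              else if w = e.val.2 then p e.val.2 i - p e.val.1 i else 0) =
          ∑ e : Fin n × Fin n, g' e.1 e.2 *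
            (if w = e.1 then p e.1 i - p e.2 i
              else if w = e.2 then p e.2 i - p e.1 i else 0) := by
        rw [← Fintype.sum_subtype_add_sum_subtype (fun e : Fin n × Fin n => e.1 < e.2 ∧ G.Adj e.1 e.2)
          (fun e => g' e.1 e.2 * (if w = e.1 then p e.1 i - p e.2 i
              else if w = e.2 then p e.2 i - p e.1 i else 0))]
        have h3 : ∑ e : {e : Fin n × Fin n // ¬ (e.1 < e.2 ∧ G.Adj e.1 e.2)}, g' e.1.1 e.1.2 *
            (if w = e.1.1 then p e.1.1 i - p e.1.2 i
              else if w = e.1.2 then p e.1.2 i - p e.1.1 i else 0) = 0 :=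
          Finset.sum_eq_zero (fun e _ => by rw [hzero _ _ e.2, zero_mul])
        rw [h3, add_zero]
        refine Finset.sum_congr rfl (fun e _ => ?_)
        have h4 : g' e.1.1 e.1.2 = g e := by
          simp only [hg', dif_pos e.2]
        rw [h4]
      rw [h2, Fintype.sum_prod_type] at h1
      have h5 : ∀ a b : Fin n, g' a b * (if w = a then p a i - p b i
              else if w = b then p b i - p a i else 0) =
          (if a = w then g' w b * (p w i - p b i) else 0) +
          (if b = w then g' a w * (p w i - p a i) else 0) := by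
        intro a b
        by_cases ha : w = a
        · subst ha
          by_cases hb : b = w
          · subst hb
            simp
          · simp [hb]
        · have ha' : ¬ a = w := fun e => ha e.symm
          by_cases hb : w = b
          · subst hb
            simp [ha, ha']
          · have hb' : ¬ b = w := fun e => hb e.symm
            simp [ha, ha', hb, hb']
      simp only [h5, Finset.sum_add_distrib, Finset.sum_ite_eq', Finset.mem_univ, if_true] at h1
      have h6 : ∑ x : Fin n, ∑ y : Fin n, (if x = w then g' w y * (p w i - p y i) else 0) =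
          ∑ y, g' w y * (p w i - p y i) := by
        rw [Finset.sum_eq_single w]
        · simp
        · intro b _ hb
          simp [hb]
        · simp
      rw [h6] at h1
      rw [Finset.sum_apply]
      simp only [Pi.smul_apply, Pi.sub_apply, smul_eq_mul, Pi.zero_apply, add_mul,
        Finset.sum_add_distrib]
      exact h1)
  rintro ⟨⟨a, b⟩, hab⟩
  have h1 := key a b
  rw [hzero b a (fun h => absurd h.1 (not_lt.2 hab.1.le)), add_zero] at h1
  simp only [hg', dif_pos hab] at h1
  exact h1

end Pool.Agent.H38.Rig
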